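import Pool.Agent.H963.HT.CovStm

/-!
# Equivariant homotopies have bounded displacement
-/

set_option autoImplicit false

open Set Filter Topology Metric
open scoped unitInterval

namespace Pool.Agent.H963.HT

universe w x

theorem t_BD : S_BD.{w, x} := by
  intro X _ _ Γ _ _ _ Φ φ x₀ R₀ hco heq
  have hcont : Continuous fun p : I × X => dist (Φ p) (Φ (0, p.2)) :=
    Φ.continuous.dist (Φ.continuous.comp (continuous_const.prodMk continuous_snd))
  have hcpt : IsCompact ((univ : Set I) ×ˢ closedBall x₀ R₀) :=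
    isCompact_univ.prod (isCompact_closedBall x₀ R₀)
  obtain ⟨B, hB⟩ := (hcpt.image hcont).bddAbove
  refine ⟨B, fun t x => ?_⟩
  obtain ⟨γ, hγ⟩ := hco x
  have h1 : dist (Φ (t, γ • x)) (Φ (0, γ • x)) ≤ B :=
    hB ⟨(t, γ • x), ⟨mem_univ _, mem_closedBall.2 hγ⟩, rfl⟩
  rwa [heq, heq, dist_smul] at h1

end Pool.Agent.H963.HT
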