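import Pool.Agent.H963.HT.CovStm

/-!
# The almost fixed points of a lift form a bounded set
-/

set_option autoImplicit false
set_option linter.unusedSectionVars false

open Set Filter Topology Metric
open scoped unitInterval

namespace Pool.Agent.H963.HT

open Pool.Agent.H223.CE

universe u v w x

namespace NBS

variable {X : Type w} [MetricSpace X] {Γ : Type x} [Group Γ] [MulAction Γ X] [IsIsometricSMul Γ X]

/-- bounded distortion at large scale -/
def Mo (H : X → X) : Prop := ∀ r : ℝ, ∃ r' : ℝ, ∀ x y : X, dist x y ≤ r → dist (H x) (H y) ≤ r'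

theorem Mo.iter {H : X → X} (h : Mo H) (n : ℕ) : Mo (H^[n]) := by
  induction n with
  | zero =>
    intro r
    exact ⟨r, fun x y hxy => hxy⟩
  | succ n ih =>
    intro r
    obtain ⟨r1, h1⟩ := h r
    obtain ⟨r2, h2⟩ := ih r1
    refine ⟨r2, fun x y hxy => ?_⟩
    rw [Function.iterate_succ_apply, Function.iterate_succ_apply]
    exact h2 _ _ (h1 x y hxy)

theorem equiv_iter {H : X → X} {ψ : Γ → Γ} (he : ∀ (γ : Γ) (x : X), H (γ • x) = ψ γ • H x) (n : ℕ) :
    ∀ (γ : Γ) (x : X), H^[n] (γ • x) = ψ^[n] γ • H^[n] x := by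
  induction n with
  | zero =>
    intro γ x
    rfl
  | succ n ih =>
    intro γ x
    rw [Function.iterate_succ_apply, Function.iterate_succ_apply, Function.iterate_succ_apply, he,
      ih]

/-- iterates of almost fixed points -/
theorem almost {H : X → X} {ψ : Γ → Γ} (hm : Mo H)
    (he : ∀ (γ : Γ) (x : X), H (γ • x) = ψ γ • H x) (γ : Γ) (B : ℝ) (k : ℕ) :
    ∃ (δ : Γ) (C : ℝ), ∀ x : X, dist (H x) (γ • x) ≤ B → dist (H^[k] x) (δ • x) ≤ C := by
  induction k with
  | zero =>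
    refine ⟨1, 0, fun x _ => ?_⟩
    rw [one_smul]
    exact (dist_self x).le
  | succ k ih =>
    obtain ⟨δ, C, h1⟩ := ih
    obtain ⟨C', h2⟩ := hm C
    refine ⟨ψ δ * γ, C' + B, fun x hx => ?_⟩
    rw [Function.iterate_succ_apply']
    have h3 := h2 _ _ (h1 x hx)
    rw [he] at h3
    have h4 : dist (ψ δ • H x) ((ψ δ * γ) • x) ≤ B := by
      rw [mul_smul, dist_smul]
      exact hx
    exact (dist_triangle _ _ _).trans (add_le_add h3 h4)

/-- comparison with the base point -/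
theorem compare {H : X → X} {x x₀ : X} {δ : Γ} {C : ℝ} (h : dist (H x) (δ • x) ≤ C) :
    dist (H x) (H x₀) ≤ dist x x₀ + (C + dist (δ • x₀) (H x₀)) := by
  have h1 := dist_triangle4 (H x) (δ • x) (δ • x₀) (H x₀)
  rw [dist_smul] at h1
  linarith

end NBS

theorem t_BS (hI : S_IT.{w}) : S_BS.{w, x} := by
  intro X _ Γ _ _ _ G φ n γ B x₀ hG hn hφ hm hm'
  obtain ⟨N, hN, R, hR⟩ := hG
  have hm1 : NBS.Mo (fun x => G x) := hm
  have hm2 : NBS.Mo (fun x => G.symm x) := hm'
  have hφ' : ∀ (γ : Γ) (x : X), G.symm (γ • x) = φ.symm γ • G.symm x := by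
    intro γ x
    apply G.injective
    rw [G.apply_symm_apply, hφ, G.apply_symm_apply, φ.apply_symm_apply]
  have he1 := NBS.equiv_iter (H := fun x => G x) (ψ := fun γ => φ γ) hφ n
  have he2 := NBS.equiv_iter (H := fun x => G.symm x) (ψ := fun γ => φ.symm γ) hφ' n
  obtain ⟨δ, C, h1⟩ := NBS.almost (hm1.iter n) he1 γ B N
  obtain ⟨B₁, hB₁⟩ := hm2.iter n B
  have hinv : ∀ x : X, (fun x => G.symm x)^[n] ((fun x => G x)^[n] x) = x := by
    intro x
    exact (Function.LeftInverse.iterate (f := fun x => G x) (g := fun x => G.symm x)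
      (fun x => G.symm_apply_apply x) n) x
  obtain ⟨γ', hγ'⟩ : ∃ γ' : Γ, γ' = ((fun γ => φ.symm γ)^[n] γ)⁻¹ := ⟨_, rfl⟩
  have hback : ∀ x : X, dist ((fun x => G x)^[n] x) (γ • x) ≤ B →
      dist ((fun x => G.symm x)^[n] x) (γ' • x) ≤ B₁ := by
    intro x hx
    have h3 := hB₁ _ _ hx
    rw [hinv, he2] at h3
    rw [← dist_smul ((fun γ => φ.symm γ)^[n] γ), hγ', smul_inv_smul, dist_comm]
    exact h3
  obtain ⟨δ', C', h2⟩ := NBS.almost (hm2.iter n) he2 γ' B₁ N
  have hit1 : ∀ x : X, ((fun x => G x)^[n])^[N] x = G^[n * N] x := by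
    intro x
    rw [← Function.iterate_mul]
  have hit2 : ∀ x : X, ((fun x => G.symm x)^[n])^[N] x = G.symm^[n * N] x := by
    intro x
    rw [← Function.iterate_mul]
  obtain ⟨K, hK⟩ : ∃ K : ℝ, K = max (C + dist (δ • x₀) (G^[n * N] x₀))
      (C' + dist (δ' • x₀) (G.symm^[n * N] x₀)) := ⟨_, rfl⟩
  refine ⟨max (max R 1) K, fun x hx => ?_⟩
  rcases le_or_gt (max R 1) (dist x x₀) with h | h
  · refine le_trans ?_ (le_max_right _ _)
    have h3 := hI X G N R hR n hn x x₀ h
    have h4 := h1 x hx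
    have h5 := h2 x (hback x hx)
    rw [hit1] at h4
    rw [hit2] at h5
    have h6 := NBS.compare (x₀ := x₀) h4
    have h7 := NBS.compare (x₀ := x₀) h5
    have h8 : C + dist (δ • x₀) (G^[n * N] x₀) ≤ K := by
      rw [hK]
      exact le_max_left _ _
    have h9 : C' + dist (δ' • x₀) (G.symm^[n * N] x₀) ≤ K := by
      rw [hK]
      exact le_max_right _ _
    have h10 : (2 : ℝ) ^ n * dist x x₀ ≤ dist x x₀ + K :=
      h3.trans (max_le (by linarith) (by linarith))
    have h11 : (2 : ℝ) ≤ 2 ^ n := by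
      calc (2 : ℝ) = 2 ^ 1 := (pow_one 2).symm
        _ ≤ 2 ^ n := pow_le_pow_right₀ (by norm_num) hn
    have h12 := mul_le_mul_of_nonneg_right h11 (dist_nonneg (x := x) (y := x₀))
    linarith
  · exact h.le.trans (le_max_left _ _)

end Pool.Agent.H963.HT
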