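import Pool.Agent.H963.HT.CovStm

/-!
# CHF: coarse hyperbolicity is inherited by homeomorphisms at bounded distance
-/

set_option autoImplicit false

open Set Filter Topology Metric
open scoped unitInterval

namespace Pool.Agent.H963.HT

open Pool.Agent.H223.CE

universe u v w x

namespace NCHF

/-- distances of the images under nearby maps -/
theorem near {X : Type w} [MetricSpace X] {f g : X → X} {B d : ℝ} {p q : X}
    (h : ∀ z, dist (f z) (g z) ≤ B) (hd : 4 * d ≤ dist (g p) (g q)) (hB : B ≤ d) :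
    2 * d ≤ dist (f p) (f q) := by
  have h1 : dist (g p) (g q) ≤ dist (g p) (f p) + dist (f p) (f q) + dist (f q) (g q) :=
    dist_triangle4 _ _ _ _
  have h2 := h p
  have h3 := h q
  rw [dist_comm] at h2
  linarith

end NCHF

theorem t_CHF (hI : S_IT.{w}) (hB : S_IB.{w, x}) : S_CHF.{w} := by
  intro X _ F G B hCH hFG hω hω'
  obtain ⟨N, hN, R, hR⟩ := hCH
  obtain ⟨B1, hB1⟩ := hB X PUnit (fun _ => F) G B (fun _ z => hFG z) hω (2 * N)
  obtain ⟨B', hB'⟩ := hω' B
  have hsymm : ∀ z, dist (F.symm z) (G.symm z) ≤ B' := by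
    intro z
    have h1 := hFG (F.symm z)
    rw [dist_comm] at h1
    have h2 := hB' _ _ h1
    rwa [Homeomorph.symm_apply_apply, Homeomorph.apply_symm_apply] at h2
  obtain ⟨B2, hB2⟩ := hB X PUnit (fun _ => F.symm) G.symm B' (fun _ z => hsymm z) hω' (2 * N)
  refine ⟨2 * N, by omega, max (max R 1) (max B1 B2), fun p q hpq => ?_⟩
  have h1 : max R 1 ≤ dist p q := (le_max_left _ _).trans hpq
  have h2 : B1 ≤ dist p q := ((le_max_left _ _).trans (le_max_right _ _)).trans hpq
  have h3 : B2 ≤ dist p q := ((le_max_right _ _).trans (le_max_right _ _)).trans hpq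
  have h4 := hI X G N R hR 2 (by norm_num) p q h1
  have h5 : (2 : ℝ) ^ 2 * dist p q = 4 * dist p q := by norm_num
  rw [h5] at h4
  rcases le_max_iff.1 h4 with h | h
  · exact (NCHF.near (fun z => hB1 PUnit.unit z) h h2).trans (le_max_left _ _)
  · exact (NCHF.near (fun z => hB2 PUnit.unit z) h h3).trans (le_max_right _ _)

end Pool.Agent.H963.HT
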