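import Pool.Agent.H963.HT.SdDef

set_option autoImplicit false
set_option linter.unusedSectionVars false

open MeasureTheory Set Filter Topology Metric
open scoped ContDiff

namespace Pool.Agent.H963.HT

open Pool.Agent.H963.CJ

universe u

namespace NCNT

variable {V : Type u} [NormedAddCommGroup V] [NormedSpace ℝ V] [FiniteDimensional ℝ V]

/-- continuity of one member of the family -/
theorem cont_slice (H : ℝ → V → V)
    (hc : ContinuousOn (fun p : ℝ × V => H p.1 p.2) (Icc (0 : ℝ) 1 ×ˢ (univ : Set V)))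
    (t : ℝ) (ht : t ∈ Icc (0 : ℝ) 1) : Continuous (H t) := by
  have h1 : ContinuousOn (fun x : V => H t x) univ := by
    refine hc.comp (f := fun x : V => (t, x)) ?_ ?_
    · exact (continuous_const.prodMk continuous_id).continuousOn
    · intro x _
      exact ⟨ht, mem_univ _⟩
  exact continuousOn_univ.1 h1

/-- isolated zeros in a ball are finite in number -/
theorem finite_zeros (F : V → V) (hF : Continuous F) (R : ℝ) (hR : ∀ x, F x = 0 → ‖x‖ < R)
    (hiso : ∀ a, F a = 0 → ∃ r > 0, ∀ x ∈ closedBall a r, F x = 0 → x = a) :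
    {x | F x = 0}.Finite := by
  have : ProperSpace V := FiniteDimensional.proper ℝ V
  by_contra hinf
  have hsub : {x | F x = 0} ⊆ closedBall (0 : V) R := by
    intro x hx
    rw [mem_closedBall, dist_zero_right]
    exact (hR x hx).le
  obtain ⟨x, -, hx⟩ := Set.Infinite.exists_accPt_of_subset_isCompact hinf
    (isCompact_closedBall (0 : V) R) hsub
  have hcl : IsClosed {x | F x = 0} := isClosed_eq hF continuous_const
  have hx0 : F x = 0 := by
    have h1 : x ∈ closure {x | F x = 0} := hx.clusterPt.mem_closure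
    rwa [hcl.closure_eq] at h1
  obtain ⟨r, hr, hr2⟩ := hiso x hx0
  have hfr := accPt_iff_frequently.1 hx
  have hev : ∀ᶠ y in 𝓝 x, y ∈ closedBall x r := closedBall_mem_nhds x hr
  obtain ⟨y, ⟨hy1, hy2⟩, hy3⟩ := (hfr.and_eventually hev).exists
  exact hy1 (hr2 y hy3 hy2)

end NCNT

theorem t_CNT (hH : S_SH.{u}) (hA : S_SA.{u}) : S_CNT.{u} := by
  intro V _ _ _ H R₀ σ hR hσ hc hz h1 h0 h0i a b ha hb
  have m0 : (0 : ℝ) ∈ Icc (0 : ℝ) 1 := ⟨le_refl 0, zero_le_one⟩
  have m1 : (1 : ℝ) ∈ Icc (0 : ℝ) 1 := ⟨zero_le_one, le_refl 1⟩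
  have c0 := NCNT.cont_slice H hc 0 m0
  have c1 := NCNT.cont_slice H hc 1 m1
  have ho : IsOpen (ball (0 : V) R₀) := isOpen_ball
  have hbd : Bornology.IsBounded (ball (0 : V) R₀) := isBounded_ball
  have hin : ∀ t ∈ Icc (0 : ℝ) 1, ∀ x, H t x = 0 → x ∈ ball (0 : V) R₀ := by
    intro t ht x hx
    rw [mem_ball, dist_zero_right]
    exact hz t ht x hx
  have hfin : {x | H 1 x = 0}.Finite := by
    refine NCNT.finite_zeros (H 1) c1 R₀ (fun x hx => hz 1 m1 x hx) ?_
    intro x hx
    obtain ⟨r, hr, -, -, h3, -⟩ := h1 x hx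
    exact ⟨r, hr, h3⟩
  have e1 := hA V (H 1) (ball (0 : V) R₀) hfin.toFinset σ ho hbd c1.continuousOn
    (fun x _ hx => hfin.mem_toFinset.2 hx) (fun z hzz => hin 1 m1 z (hfin.mem_toFinset.1 hzz))
    (fun z hzz => h1 z (hfin.mem_toFinset.1 hzz))
  have hS := hH V H (ball (0 : V) R₀) ho hbd (hc.mono (prod_mono subset_rfl (subset_univ _)))
    (by
      intro t ht x hx hx0
      have h2 := hin t ht x hx0
      have h3 : x ∉ interior (ball (0 : V) R₀) := hx.2
      rw [ho.interior_eq] at h3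
      exact h3 h2)
  have e0 : |sdeg (H 0) (ball (0 : V) R₀)| ≤ 1 := by
    by_cases hex : ∃ c, H 0 c = 0
    · obtain ⟨c, hcz⟩ := hex
      obtain ⟨τ, hτ, hI⟩ := h0i c hcz
      have := hA V (H 0) (ball (0 : V) R₀) {c} τ ho hbd c0.continuousOn
        (fun x _ hx => Finset.mem_singleton.2 (h0 x c hx hcz))
        (fun z hzz => by
          rw [Finset.mem_singleton.1 hzz]
          exact hin 0 m0 c hcz)
        (fun z hzz => by
          rw [Finset.mem_singleton.1 hzz]
          exact hI)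
      rw [this, Finset.card_singleton, Nat.cast_one, mul_one]
      exact hτ
    · have := hA V (H 0) (ball (0 : V) R₀) ∅ 0 ho hbd c0.continuousOn
        (fun x _ hx => absurd ⟨x, hx⟩ hex)
        (fun z hzz => absurd hzz (Finset.notMem_empty z))
        (fun z hzz => absurd hzz (Finset.notMem_empty z))
      rw [this, zero_mul, abs_zero]
      exact zero_le_one
  rw [hS, e1, abs_mul] at e0
  have hσ1 : 1 ≤ |σ| := Int.one_le_abs hσ
  have hcard : (hfin.toFinset.card : ℤ) ≤ 1 := by
    have h2 : (0 : ℤ) ≤ (hfin.toFinset.card : ℤ) := Int.natCast_nonneg _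
    rw [abs_of_nonneg h2] at e0
    have h3 := mul_le_mul_of_nonneg_right hσ1 h2
    rw [one_mul] at h3
    exact h3.trans e0
  have hcard' : hfin.toFinset.card ≤ 1 := by exact_mod_cast hcard
  exact Finset.card_le_one.1 hcard' a (hfin.mem_toFinset.2 ha) b (hfin.mem_toFinset.2 hb)

end Pool.Agent.H963.HT
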