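import Pool.Agent.H963.HT.CovStm

/-!
# Two simply connected coverings are homeomorphic (`S_CO`)
-/

set_option autoImplicit false

open Set Filter Topology Metric
open scoped unitInterval

namespace Pool.Agent.H963.HT

namespace NCO

universe u v w

/-- two simply connected and locally path connected covering spaces with a common value are
homeomorphic -/
theorem two_coverings {M : Type u} [TopologicalSpace M] {X : Type v} [TopologicalSpace X]
    [SimplyConnectedSpace X] [LocallyPathConnectedSpace X] {Y : Type w} [TopologicalSpace Y]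
    [SimplyConnectedSpace Y] [LocallyPathConnectedSpace Y] (P : X → M) (π : Y → M)
    (hP : IsCoveringMap P) (hπ : IsCoveringMap π) (x₀ : X) (y₀ : Y) (h : π y₀ = P x₀) :
    ∃ φ : X ≃ₜ Y, φ x₀ = y₀ ∧ ∀ x, π (φ x) = P x := by
  obtain ⟨φ, ⟨hφ0, hφ⟩, -⟩ :=
    hπ.existsUnique_continuousMap_lifts (A := X) ⟨P, hP.continuous⟩ x₀ y₀ h
  obtain ⟨χ, ⟨hχ0, hχ⟩, -⟩ :=
    hP.existsUnique_continuousMap_lifts (A := Y) ⟨π, hπ.continuous⟩ y₀ x₀ h.symm
  have hφ' : ∀ x, π (φ x) = P x := fun x => congrFun hφ x
  have hχ' : ∀ y, P (χ y) = π y := fun y => congrFun hχ y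
  have h1 : (fun x => χ (φ x)) = (fun x => x) := by
    refine hP.eq_of_comp_eq (χ.continuous.comp φ.continuous) continuous_id ?_ x₀ ?_
    · funext x
      show P (χ (φ x)) = P x
      rw [hχ', hφ']
    · show χ (φ x₀) = x₀
      rw [hφ0, hχ0]
  have h2 : (fun y => φ (χ y)) = (fun y => y) := by
    refine hπ.eq_of_comp_eq (φ.continuous.comp χ.continuous) continuous_id ?_ y₀ ?_
    · funext y
      show π (φ (χ y)) = π y
      rw [hφ', hχ']
    · show φ (χ y₀) = y₀
      rw [hχ0, hφ0]
  exact ⟨{ toFun := φ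
           invFun := χ
           left_inv := fun x => congrFun h1 x
           right_inv := fun y => congrFun h2 y
           continuous_toFun := φ.continuous
           continuous_invFun := χ.continuous }, hφ0, hφ'⟩

end NCO

universe u v w

theorem t_CO : S_CO.{u, v, w} := by
  intro E _ _ _ M _ _ X _ _ _ _ P π hP hπ hs
  obtain ⟨x₀⟩ : Nonempty X := inferInstance
  obtain ⟨e₀, he⟩ := hs (P x₀)
  have : LocallyPathConnectedSpace E := inferInstance
  have : ContractibleSpace E := RealTopologicalVectorSpace.contractibleSpace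
  have : SimplyConnectedSpace E := SimplyConnectedSpace.ofContractible E
  obtain ⟨φ, -, hφ⟩ := NCO.two_coverings P π hP hπ x₀ e₀ he
  exact ⟨φ, hφ⟩

end Pool.Agent.H963.HT
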