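import Pool.Agent.H963.HT.CovStm

/-! The deck group of a covering of a compact space acts cocompactly (project HT). -/

set_option autoImplicit false
set_option linter.unusedSectionVars false

open Set Filter Topology Metric
open scoped unitInterval

namespace Pool.Agent.H963.HT

universe v w x

theorem t_CPT : S_CPT.{v, w, x} := by
  intro M _ _ X _ Γ _ _ P hP hsurj hΓ x₀
  have hopen : IsOpenMap P := hP.isLocalHomeomorph.isOpenMap
  obtain ⟨n, hn⟩ := isCompact_univ.elim_directed_cover (fun n : ℕ => P '' ball x₀ n)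
    (fun n => hopen _ isOpen_ball) (by
      intro y _
      obtain ⟨z, rfl⟩ := hsurj y
      obtain ⟨n, hn⟩ := exists_nat_gt (dist z x₀)
      exact mem_iUnion.2 ⟨n, z, hn, rfl⟩)
    (directed_of_isDirected_le fun a b hab => image_mono (ball_subset_ball (by exact_mod_cast hab)))
  refine ⟨n, fun z => ?_⟩
  obtain ⟨y, hy, hyz⟩ := hn (mem_univ (P z))
  obtain ⟨γ, hγ⟩ := (hΓ z y).1 hyz.symm
  refine ⟨γ, ?_⟩
  rw [hγ]
  exact (mem_ball.1 hy).le

end Pool.Agent.H963.HT
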