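import Pool.Agent.H963.HT.OriStm

/-!
# A canonical continuous left inverse (DAG)
-/

set_option autoImplicit false

open Set Filter Topology

namespace Pool.Agent.H963.HT

universe u

namespace NDAG

/-- an injective endomorphism of a finite dimensional space is an isomorphism -/
theorem exists_equiv {G : Type*} [NormedAddCommGroup G] [NormedSpace ℝ G] [FiniteDimensional ℝ G]
    (P : G →L[ℝ] G) (hP : Function.Injective P) : ∃ e : G ≃L[ℝ] G, (e : G →L[ℝ] G) = P := by
  refine ⟨(LinearEquiv.ofInjectiveEndo (P : G →ₗ[ℝ] G) hP).toContinuousLinearEquiv, ?_⟩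
  ext v
  rfl

/-- `J* J` is injective if `J` is -/
theorem gram_inj {G F : Type*} [NormedAddCommGroup G] [InnerProductSpace ℝ G] [CompleteSpace G]
    [NormedAddCommGroup F] [InnerProductSpace ℝ F] [CompleteSpace F] (J : G →L[ℝ] F)
    (hJ : Function.Injective J) :
    Function.Injective ((ContinuousLinearMap.adjoint J).comp J) := by
  rw [injective_iff_map_eq_zero]
  intro v hv
  have h1 : inner ℝ (J v) (J v) = (0 : ℝ) := by
    rw [← ContinuousLinearMap.adjoint_inner_left]
    have h2 : (ContinuousLinearMap.adjoint J) (J v) = 0 := hv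
    rw [h2, inner_zero_left]
  have h3 : J v = 0 := inner_self_eq_zero.1 h1
  exact hJ (by rw [h3, map_zero])

end NDAG

open NDAG in
theorem t_DAG : S_DAG.{u} := by
  intro E _ _ _ m
  obtain ⟨e, -⟩ : ∃ e : E ≃L[ℝ] EuclideanSpace ℝ (Fin (Module.finrank ℝ E)), e = toEuclidean :=
    ⟨_, rfl⟩
  obtain ⟨K, hK⟩ : ∃ K : (E →L[ℝ] EuclideanSpace ℝ (Fin m)) →
      (EuclideanSpace ℝ (Fin (Module.finrank ℝ E)) →L[ℝ] EuclideanSpace ℝ (Fin m)),
      K = fun J => J.comp (e.symm : EuclideanSpace ℝ (Fin (Module.finrank ℝ E)) →L[ℝ] E) :=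
    ⟨_, rfl⟩
  have hKc : Continuous K := by
    rw [hK]
    exact continuous_id.clm_comp continuous_const
  have hKv : ∀ J v, K J v = J (e.symm v) := fun J v => by rw [hK]; rfl
  have hKi : ∀ J : E →L[ℝ] EuclideanSpace ℝ (Fin m), Function.Injective J →
      Function.Injective (K J) := by
    intro J hJ v w hvw
    rw [hKv, hKv] at hvw
    exact e.symm.injective (hJ hvw)
  obtain ⟨P, hP⟩ : ∃ P : (E →L[ℝ] EuclideanSpace ℝ (Fin m)) →
      (EuclideanSpace ℝ (Fin (Module.finrank ℝ E)) →L[ℝ]
        EuclideanSpace ℝ (Fin (Module.finrank ℝ E))),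
      P = fun J => (ContinuousLinearMap.adjoint (K J)).comp (K J) := ⟨_, rfl⟩
  have hAc : Continuous fun J => ContinuousLinearMap.adjoint (K J) :=
    ContinuousLinearMap.adjoint.continuous.comp hKc
  have hPc : Continuous P := by
    rw [hP]
    exact hAc.clm_comp hKc
  have hPi : ∀ J : E →L[ℝ] EuclideanSpace ℝ (Fin m), Function.Injective J →
      Function.Injective (P J) := by
    intro J hJ
    rw [hP]
    exact gram_inj (K J) (hKi J hJ)
  have hPv : ∀ J v, P J v = ContinuousLinearMap.adjoint (K J) (K J v) := fun J v => by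
    rw [hP]; rfl
  have hinv1 : ∀ J : E →L[ℝ] EuclideanSpace ℝ (Fin m), Function.Injective J →
      ∀ v, P J (ContinuousLinearMap.inverse (P J) v) = v := by
    intro J hJ v
    obtain ⟨f, hf⟩ := exists_equiv (P J) (hPi J hJ)
    rw [← hf, ContinuousLinearMap.inverse_equiv]
    exact f.apply_symm_apply v
  have hinv2 : ∀ J : E →L[ℝ] EuclideanSpace ℝ (Fin m), Function.Injective J →
      ∀ v, ContinuousLinearMap.inverse (P J) (P J v) = v := by
    intro J hJ v
    obtain ⟨f, hf⟩ := exists_equiv (P J) (hPi J hJ)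
    rw [← hf, ContinuousLinearMap.inverse_equiv]
    exact f.symm_apply_apply v
  refine ⟨fun J => ((e.symm : EuclideanSpace ℝ (Fin (Module.finrank ℝ E)) →L[ℝ] E).comp
    (ContinuousLinearMap.inverse (P J))).comp (ContinuousLinearMap.adjoint (K J)), ?_, ?_⟩
  · intro J hJ
    constructor
    · have h1 : ContinuousAt (fun J => ContinuousLinearMap.inverse (P J)) J := by
        obtain ⟨f, hf⟩ := exists_equiv (P J) (hPi J hJ)
        have h2 : ContinuousAt (ContinuousLinearMap.inverse :
            (EuclideanSpace ℝ (Fin (Module.finrank ℝ E)) →L[ℝ]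
              EuclideanSpace ℝ (Fin (Module.finrank ℝ E))) → _) (P J) := by
          rw [← hf]
          exact (contDiffAt_map_inverse (n := 0) f).continuousAt
        exact ContinuousAt.comp (f := P) h2 hPc.continuousAt
      exact (continuousAt_const.clm_comp h1).clm_comp hAc.continuousAt
    · intro v
      show e.symm (ContinuousLinearMap.inverse (P J) (ContinuousLinearMap.adjoint (K J) (J v))) = v
      have h1 : J v = K J (e v) := by rw [hKv, e.symm_apply_apply]
      rw [h1, ← hPv, hinv2 J hJ, e.symm_apply_apply]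
  · intro J A A' hJ h1 h2
    have hJA : Function.Injective (J.comp A) := by
      intro v w hvw
      have h3 : A v = A w := hJ hvw
      rw [← h2 v, ← h2 w, h3]
    obtain ⟨B, hB⟩ : ∃ B : EuclideanSpace ℝ (Fin (Module.finrank ℝ E)) →L[ℝ]
        EuclideanSpace ℝ (Fin (Module.finrank ℝ E)), B = ((e : E →L[ℝ] _).comp A).comp
        (e.symm : _ →L[ℝ] E) := ⟨_, rfl⟩
    have hBv : ∀ v, B v = e (A (e.symm v)) := fun v => by rw [hB]; rfl
    have hKB : K (J.comp A) = (K J).comp B := by
      ext1 v
      show K (J.comp A) v = K J (B v)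
      rw [hKv, hKv, hBv, e.symm_apply_apply]
      rfl
    have hKa : ContinuousLinearMap.adjoint (K (J.comp A)) =
        (ContinuousLinearMap.adjoint B).comp (ContinuousLinearMap.adjoint (K J)) := by
      rw [hKB, ContinuousLinearMap.adjoint_comp]
    ext1 w
    show e.symm (ContinuousLinearMap.inverse (P (J.comp A))
      (ContinuousLinearMap.adjoint (K (J.comp A)) w)) =
      A' (e.symm (ContinuousLinearMap.inverse (P J) (ContinuousLinearMap.adjoint (K J) w)))
    obtain ⟨x, hx⟩ : ∃ x, x = ContinuousLinearMap.inverse (P J)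
      (ContinuousLinearMap.adjoint (K J) w) := ⟨_, rfl⟩
    rw [← hx]
    have hPx : P J x = ContinuousLinearMap.adjoint (K J) w := by rw [hx, hinv1 J hJ]
    have h3 : P (J.comp A) (e (A' (e.symm x))) = ContinuousLinearMap.adjoint (K (J.comp A)) w := by
      rw [hPv, hKa]
      show ContinuousLinearMap.adjoint B (ContinuousLinearMap.adjoint (K J)
        (K (J.comp A) (e (A' (e.symm x))))) =
        ContinuousLinearMap.adjoint B (ContinuousLinearMap.adjoint (K J) w)
      congr 1
      rw [← hPx, hPv, hKv, hKv, e.symm_apply_apply]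
      show ContinuousLinearMap.adjoint (K J) (J (A (A' (e.symm x)))) =
        ContinuousLinearMap.adjoint (K J) (J (e.symm x))
      rw [h1]
    rw [← h3, hinv2 _ hJA, e.symm_apply_apply]

end Pool.Agent.H963.HT
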