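import Pool.Agent.H963.HT.SdDef

/-!
# Every isolated zero has an index
-/

set_option autoImplicit false
set_option linter.unusedSectionVars false

open MeasureTheory Set Filter Topology Metric
open scoped ContDiff

namespace Pool.Agent.H963.HT

open Pool.Agent.H963.CJ

universe u

theorem t_EX (hE : S_SE.{u}) : S_EX.{u} := by
  intro V _ _ _ Φ a r₀ hr₀ hc h0 hz
  refine ⟨sdeg Φ (ball a r₀), r₀, hr₀, hc, h0, hz, fun r hr hle => ?_⟩
  have h1 := hE V Φ (ball a r₀) {a} (fun _ => ball a r) isOpen_ball isBounded_ball
    (hc.mono closure_ball_subset_closedBall) (fun z _ => ⟨isOpen_ball, ball_subset_ball hle⟩)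
    (fun z hz w hw hzw => by
      rw [Finset.mem_singleton] at hz hw
      exact absurd (hz.trans hw.symm) hzw)
    (fun x hx hx0 => ⟨a, Finset.mem_singleton_self a, by
      rw [hz x (closure_ball_subset_closedBall hx) hx0]
      exact mem_ball_self hr⟩)
  rw [Finset.sum_singleton] at h1
  exact h1.symm

end Pool.Agent.H963.HT
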