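import Pool.Agent.H963.HT.OriStm

/-!
# HF: periodic points of Anosov diffeomorphisms are hyperbolic
-/

set_option autoImplicit false
set_option linter.unusedSectionVars false

open Set Filter Topology Metric
open scoped ContDiff Manifold

namespace Pool.Agent.H963.HT

open Pool.Agent.H721R2 Pool.Agent.H789R2.AN Pool.Agent.H244.Loc

universe u v w

namespace NHF

section gen

variable {E : Type*} [NormedAddCommGroup E] [NormedSpace ℝ E]
  {M : Type*} [TopologicalSpace M] [ChartedSpace E M] [IsManifold 𝓘(ℝ, E) 1 M]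

/-- at a fixed point of `g^n` the derivative of `g^(nk)` is the `k`-th power -/
theorem pow_eq (g : M → M) (hg : ContMDiff 𝓘(ℝ, E) 𝓘(ℝ, E) 1 g) (n : ℕ) (p : M)
    (hp : g^[n] p = p) (k : ℕ) (v : E) :
    ((dg E (g^[n]) p) ^ k) v = dg E (g^[n * k]) p v := by
  induction k generalizing v with
  | zero =>
    show v = dg E (g^[0]) p v
    show v = mfderiv 𝓘(ℝ, E) 𝓘(ℝ, E) id p v
    rw [mfderiv_id]; rfl
  | succ k ih =>
    have h1 : g^[n * (k + 1)] = g^[n * k] ∘ g^[n] := by
      rw [Nat.mul_succ, Function.iterate_add]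
    rw [h1, dg_comp _ _ (iter_smooth g hg n) (iter_smooth g hg (n * k)), hp, ← ih, pow_succ]
    rfl

theorem fix_mul (g : M → M) (n : ℕ) (p : M) (hp : g^[n] p = p) (k : ℕ) : g^[n * k] p = p := by
  rw [Function.iterate_mul]
  exact Function.iterate_fixed hp k

/-- rates in the ambient space give convergence -/
theorem conv {F : Type*} [NormedAddCommGroup F] [NormedSpace ℝ F] [FiniteDimensional ℝ E]
    (J : E →L[ℝ] F) (hJ : Function.Injective J) (w : ℕ → E) (C a B : ℝ) (ha0 : 0 < a) (ha1 : a < 1)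
    (n : ℕ) (hn : 1 ≤ n) (hw : ∀ k, ‖J (w k)‖ ≤ C * a ^ (n * k) * B) :
    Tendsto w atTop (𝓝 0) := by
  obtain ⟨K, hK, hb⟩ := J.toLinearMap.exists_antilipschitzWith (LinearMap.ker_eq_bot.mpr hJ)
  have hb' : ∀ v, ‖v‖ ≤ K * ‖J v‖ := fun v => by
    have := hb.le_mul_dist v 0
    simpa [dist_eq_norm] using this
  have t1 : Tendsto (fun k : ℕ => a ^ (n * k)) atTop (𝓝 0) :=
    (tendsto_pow_atTop_nhds_zero_of_lt_one ha0.le ha1).comp
      (tendsto_id.const_mul_atTop' (by omega))
  have t2 : Tendsto (fun k : ℕ => (K : ℝ) * (C * a ^ (n * k) * B)) atTop (𝓝 0) := by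
    have := ((t1.const_mul C).mul_const B).const_mul (K : ℝ)
    simpa using this
  refine squeeze_zero_norm (fun k => ?_) t2
  exact (hb' _).trans (mul_le_mul_of_nonneg_left (hw k) K.coe_nonneg)

end gen

end NHF

open NHF

theorem t_HF : S_HF.{u, v} := by
  intro E _ _ _ M _ _ _ _ f Es Eu hA π hπ n hn p hp
  have : IsManifold 𝓘(ℝ, E) 1 M := IsManifold.of_le (n := ∞) (by simp)
  obtain ⟨m, e, he, hemb, hinj⟩ := exists_embedding_euclidean_of_compact (I := 𝓘(ℝ, E)) (M := M)
  have he1 : ContMDiff 𝓘(ℝ, E) (𝓡 m) 1 e := he.of_le (by simp)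
  obtain ⟨C, a, b, Ls, Lu, hE⟩ := eanosov_of_isAnosov e he1 hinj f Es Eu hA
  have hsm : ContMDiff 𝓘(ℝ, E) 𝓘(ℝ, E) 1 f := f.contMDiff
  have hsm' : ContMDiff 𝓘(ℝ, E) 𝓘(ℝ, E) 1 f.symm := f.symm.contMDiff
  have hl : ∀ x, f.symm^[n] (f^[n] x) = x := iter_left f.toHomeomorph n
  have hr : ∀ x, f^[n] (f.symm^[n] x) = x := iter_right f.toHomeomorph n
  have hp' : f.symm^[n] p = p := by
    conv_lhs => rw [← hp]
    exact hl p
  have hD1 : ∀ v, dg E (f^[n]) p (dg E (f.symm^[n]) p v) = v := by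
    intro v
    have := dg_inv (f.symm^[n]) (f^[n]) (iter_smooth _ hsm' n) (iter_smooth _ hsm n) hr p v
    rwa [hp'] at this
  have hD2 : ∀ v, dg E (f.symm^[n]) p (dg E (f^[n]) p v) = v := by
    intro v
    have := dg_inv (f^[n]) (f.symm^[n]) (iter_smooth _ hsm n) (iter_smooth _ hsm' n) hl p v
    rwa [hp] at this
  have hS : ∀ v : E, π p v = v ↔ v ∈ (Es p : Submodule ℝ E) := fun v => by
    constructor
    · intro h
      rw [← h]
      exact hπ.ms p v
    · intro h
      exact hπ.s p v h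
  have hU : ∀ v : E, π p v = 0 ↔ v ∈ (Eu p : Submodule ℝ E) := fun v => by
    constructor
    · intro h
      have := hπ.mu p v
      rwa [h, sub_zero] at this
    · intro h
      exact hπ.u p v h
  have mS : ∀ v : E, v ∈ (Es p : Submodule ℝ E) → dg E (f^[n]) p v ∈ (Es p : Submodule ℝ E) := by
    intro v hv
    have := hE.mapS n p v hv
    have h2 : f.toHomeomorph^[n] p = p := hp
    rw [h2] at this
    exact this
  have mU : ∀ v : E, v ∈ (Eu p : Submodule ℝ E) → dg E (f^[n]) p v ∈ (Eu p : Submodule ℝ E) := by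
    intro v hv
    have := hE.mapU n p v hv
    have h2 : f.toHomeomorph^[n] p = p := hp
    rw [h2] at this
    exact this
  refine ⟨dg E (f.symm^[n]) p, hD1, hD2, fun v => ?_, fun v hv => ?_, fun v hv => ?_⟩
  · have h1 : dg E (f^[n]) p v = dg E (f^[n]) p (π p v) + dg E (f^[n]) p (v - π p v) := by
      rw [← map_add]; congr 1; abel
    have h2 : π p (dg E (f^[n]) p (π p v)) = dg E (f^[n]) p (π p v) :=
      (hS _).2 (mS _ (hπ.ms p v))
    have h3 : π p (dg E (f^[n]) p (v - π p v)) = 0 :=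
      (hU _).2 (mU _ (hπ.mu p v))
    rw [h1, map_add, h2, h3, add_zero]
  · refine conv (dm E e p) (hinj p) _ C a (‖dm E e p v‖) hE.a_pos hE.a_lt n hn (fun k => ?_)
    rw [pow_eq f hsm n p hp k v]
    have := hE.hS (n * k) p v ((hS v).1 hv)
    have h2 : f.toHomeomorph^[n * k] p = p := fix_mul _ n p hp k
    rw [h2] at this
    exact this
  · refine conv (dm E e p) (hinj p) _ C b (‖dm E e p v‖) hE.b_pos hE.b_lt n hn (fun k => ?_)
    rw [pow_eq f.symm hsm' n p hp' k v]
    have := hE.hU' (n * k) p v ((hU v).1 hv)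
    have h2 : f.toHomeomorph.symm^[n * k] p = p := fix_mul _ n p hp' k
    rw [h2] at this
    exact this

end Pool.Agent.H963.HT
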