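import Pool.Agent.H963.HT.CovStm

set_option autoImplicit false

/-!
# HM: a lift of a homeomorphism to a simply connected covering is a homeomorphism (by helper120)
-/

open Set Filter Topology Metric
open scoped unitInterval

namespace Pool.Agent.H963.HT

universe v w

theorem t_HM : S_HM.{v, w} := by
  intro M _ _ X _ _ _ _ P f F hP hF
  have x₀ : X := Classical.arbitrary X
  let g : C(X, M) := ⟨fun x => f.symm (P x), f.symm.continuous.comp hP.continuous⟩
  obtain ⟨G, ⟨hG1, hG2⟩, _⟩ := hP.existsUnique_continuousMap_lifts g (F x₀) x₀ (by
    change P x₀ = f.symm (P (F x₀))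
    rw [hF, Homeomorph.symm_apply_apply])
  have hG3 : ∀ x, P (G x) = f.symm (P x) := fun x => congrFun hG2 x
  have h1 : (fun x => G (F x)) = fun x : X => x := by
    refine hP.eq_of_comp_eq (G.continuous.comp F.continuous) continuous_id ?_ x₀ hG1
    funext x
    change P (G (F x)) = P x
    rw [hG3, hF, Homeomorph.symm_apply_apply]
  have h2 : (fun x => F (G x)) = fun x : X => x := by
    refine hP.eq_of_comp_eq (F.continuous.comp G.continuous) continuous_id ?_ (F x₀) ?_
    · funext x
      change P (F (G x)) = P x
      rw [hF, hG3, Homeomorph.apply_symm_apply]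
    · rw [hG1]
  exact ⟨{ toFun := F
           invFun := G
           left_inv := fun x => congrFun h1 x
           right_inv := fun x => congrFun h2 x
           continuous_toFun := F.continuous
           continuous_invFun := G.continuous }, fun x => rfl⟩

end Pool.Agent.H963.HT
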