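import Pool.Agent.H963.HT.CovStm

/-!
# IB: iterates of maps at bounded distance
-/

set_option autoImplicit false

namespace Pool.Agent.H963.HT

universe w x

theorem t_IB : S_IB.{w, x} := by
  intro X _ J Φ G B hB hG n
  induction n with
  | zero =>
    refine ⟨0, fun t y => ?_⟩
    rw [Function.iterate_zero, Function.iterate_zero, id_eq, dist_self]
  | succ n ih =>
    obtain ⟨B', hB'⟩ := ih
    obtain ⟨r', hr'⟩ := hG B'
    refine ⟨B + r', fun t y => ?_⟩
    rw [Function.iterate_succ_apply', Function.iterate_succ_apply']
    refine (dist_triangle _ (G ((Φ t)^[n] y)) _).trans ?_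
    exact add_le_add (hB t _) (hr' _ _ (hB' t y))

end Pool.Agent.H963.HT
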