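import Pool.Agent.H963.HT.SdDef

/-!
# Project HT (helper963), task IC (helper276): the fixed point index is invariant under local
homeomorphisms
-/

set_option autoImplicit false
set_option linter.unusedSectionVars false

open MeasureTheory Set Filter Topology Metric
open scoped ContDiff

namespace Pool.Agent.H963.HT

open Pool.Agent.H963.CJ

universe u

namespace NIC

section

variable {V : Type u} [NormedAddCommGroup V] [NormedSpace ℝ V]

/-- the index is unique -/
theorem idx_unique {Φ : V → V} {a : V} {σ σ' : ℤ} (h : Idx Φ a σ) (h' : Idx Φ a σ') : σ = σ' := by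
  obtain ⟨r, hr, -, -, -, h1⟩ := h
  obtain ⟨r', hr', -, -, -, h1'⟩ := h'
  rw [← h1 (min r r') (lt_min hr hr') (min_le_left _ _),
    ← h1' (min r r') (lt_min hr hr') (min_le_right _ _)]

variable [FiniteDimensional ℝ V]

/-- a linear homotopy without further zeros preserves the index -/
theorem step (hH : S_IH.{u}) {F G : V → V} {c : V} {R : ℝ} {σ : ℤ} (hR : 0 < R)
    (hF : ContinuousOn F (closedBall c R)) (hG : ContinuousOn G (closedBall c R))
    (hFc : F c = 0) (hGc : G c = 0)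
    (h0 : ∀ t ∈ Icc (0 : ℝ) 1, ∀ p ∈ closedBall c R, (1 - t) • F p + t • G p = 0 → p = c)
    (h : Idx F c σ) : Idx G c σ := by
  have h1 := hH V (fun t p => (1 - t) • F p + t • G p) c σ R hR
    (by
      have e1 : ContinuousOn (fun p : ℝ × V => F p.2) (Icc (0 : ℝ) 1 ×ˢ closedBall c R) :=
        hF.comp continuous_snd.continuousOn (fun p hp => hp.2)
      have e2 : ContinuousOn (fun p : ℝ × V => G p.2) (Icc (0 : ℝ) 1 ×ˢ closedBall c R) :=
        hG.comp continuous_snd.continuousOn (fun p hp => hp.2)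
      have e3 : ContinuousOn (fun p : ℝ × V => p.1) (Icc (0 : ℝ) 1 ×ˢ closedBall c R) :=
        continuous_fst.continuousOn
      exact ((continuousOn_const.sub e3).smul e1).add (e3.smul e2))
    (fun t _ => by
      show (1 - t) • F c + t • G c = 0
      rw [hFc, hGc, smul_zero, smul_zero, add_zero])
    h0
    (by
      have e : (fun p => (1 - (0 : ℝ)) • F p + (0 : ℝ) • G p) = F := by
        funext p
        rw [sub_zero, one_smul, zero_smul, add_zero]
      show Idx (fun p => (1 - (0 : ℝ)) • F p + (0 : ℝ) • G p) c σ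
      rw [e]
      exact h)
  have e : (fun p => (1 - (1 : ℝ)) • F p + (1 : ℝ) • G p) = G := by
    funext p
    rw [sub_self, zero_smul, one_smul, zero_add]
  have h2 : Idx (fun p => (1 - (1 : ℝ)) • F p + (1 : ℝ) • G p) c σ := h1
  rw [e] at h2
  exact h2

/-- the index of `x - a` is one -/
theorem idx_sub (hL : S_SL.{u}) (a : V) : Idx (fun x : V => x - a) a 1 := by
  have hfd : fderiv ℝ (fun x : V => x - a) a = ContinuousLinearMap.id ℝ V := by
    rw [fderiv_sub_const, fderiv_fun_id]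
  have hdet : (fderiv ℝ (fun x : V => x - a) a).det = 1 := by
    rw [hfd]
    exact LinearMap.det_id
  have h := hL V (fun x : V => x - a) a (contDiffAt_id.sub contDiffAt_const) (sub_self a)
    (by rw [hdet]; exact one_ne_zero)
  rw [hdet, sign_one] at h
  exact h

theorem comb {t : ℝ} {v : V} (h : (1 - t) • v + t • v = 0) : v = 0 := by
  rw [← add_smul, sub_add_cancel, one_smul] at h
  exact h

end

end NIC

open NIC

theorem t_IC (hX : S_EX.{u}) (hL : S_SL.{u}) (hH : S_IH.{u}) (hP : S_SP.{u}) : S_IC.{u} := by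
  intro V _ _ _ α β T U W a σ hU hW hα hβ hαm hβm hβα hαβ haU hTa hσ
  obtain ⟨b, hb⟩ : ∃ b, b = α a := ⟨_, rfl⟩
  have hbW : b ∈ W := by
    rw [hb]
    exact hαm haU
  have hβb : β b = a := by
    rw [hb]
    exact hβα a haU
  obtain ⟨r₀, hr₀, hc, -, hz, -⟩ := id hσ
  have hz' : ∀ x ∈ closedBall a r₀, x = T x → x = a := fun x hx h =>
    hz x hx (sub_eq_zero.2 h)
  have hTc : ContinuousOn T (closedBall a r₀) := by
    have h1 : ContinuousOn (fun x => x - (x - T x)) (closedBall a r₀) := continuousOn_id.sub hc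
    exact h1.congr fun x _ => (sub_sub_cancel x (T x)).symm
  -- the radii
  obtain ⟨R₁, hR₁, hR₁s⟩ : ∃ R₁ > 0, ∀ x ∈ closedBall a R₁, x ∈ closedBall a r₀ ∧ x ∈ U ∧ T x ∈ U := by
    have h1 : ∀ᶠ x in 𝓝 a, x ∈ closedBall a r₀ := closedBall_mem_nhds a hr₀
    have h2 : ∀ᶠ x in 𝓝 a, x ∈ U := hU.mem_nhds haU
    have h3 : ∀ᶠ x in 𝓝 a, T x ∈ U := by
      have h4 := (hTc.continuousAt (closedBall_mem_nhds a hr₀)).tendsto
      rw [hTa] at h4
      exact h4 (hU.mem_nhds haU)
    obtain ⟨R₁, hR₁, h4⟩ := nhds_basis_closedBall.mem_iff.1 (h1.and (h2.and h3))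
    exact ⟨R₁, hR₁, fun x hx => h4 hx⟩
  obtain ⟨R₂, hR₂, hR₂s⟩ : ∃ R₂ > 0, ∀ y ∈ closedBall b R₂, y ∈ W ∧ β y ∈ closedBall a R₁ := by
    have h2 : ∀ᶠ y in 𝓝 b, y ∈ W := hW.mem_nhds hbW
    have h3 : ∀ᶠ y in 𝓝 b, β y ∈ closedBall a R₁ := by
      have h4 := (hβ.continuousAt (hW.mem_nhds hbW)).tendsto
      rw [hβb] at h4
      exact h4 (closedBall_mem_nhds a hR₁)
    obtain ⟨R₂, hR₂, h4⟩ := nhds_basis_closedBall.mem_iff.1 (h2.and h3)
    exact ⟨R₂, hR₂, fun x hx => h4 hx⟩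
  obtain ⟨R, hR, hRR₁, hRR₂⟩ : ∃ R : ℝ, 0 < R ∧ R ≤ R₁ ∧ R ≤ R₂ :=
    ⟨min R₁ R₂, lt_min hR₁ hR₂, min_le_left _ _, min_le_right _ _⟩
  -- facts on the small ball
  have hfac : ∀ p ∈ closedBall ((a, b) : V × V) R, p.1 ∈ closedBall a R₁ ∧ p.2 ∈ closedBall b R₂ := by
    intro p hp
    rw [← closedBall_prod_same] at hp
    exact ⟨closedBall_subset_closedBall hRR₁ hp.1, closedBall_subset_closedBall hRR₂ hp.2⟩
  have hx1 : ∀ p ∈ closedBall ((a, b) : V × V) R, p.1 ∈ closedBall a r₀ ∧ T p.1 ∈ U := fun p hp =>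
    ⟨(hR₁s _ (hfac p hp).1).1, (hR₁s _ (hfac p hp).1).2.2⟩
  have hy1 : ∀ p ∈ closedBall ((a, b) : V × V) R, p.2 ∈ W ∧ β p.2 ∈ closedBall a r₀ ∧
      T (β p.2) ∈ U := fun p hp =>
    ⟨(hR₂s _ (hfac p hp).2).1, (hR₁s _ (hR₂s _ (hfac p hp).2).2).1,
      (hR₁s _ (hR₂s _ (hfac p hp).2).2).2.2⟩
  have cT : ContinuousOn (fun p : V × V => T p.1) (closedBall (a, b) R) :=
    hTc.comp continuous_fst.continuousOn (fun p hp => (hx1 p hp).1)
  have cαT : ContinuousOn (fun p : V × V => α (T p.1)) (closedBall (a, b) R) :=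
    hα.comp cT (fun p hp => (hx1 p hp).2)
  have cβ : ContinuousOn (fun p : V × V => β p.2) (closedBall (a, b) R) :=
    hβ.comp continuous_snd.continuousOn (fun p hp => (hy1 p hp).1)
  have cTβ : ContinuousOn (fun p : V × V => T (β p.2)) (closedBall (a, b) R) :=
    hTc.comp cβ (fun p hp => (hy1 p hp).2.1)
  have cαTβ : ContinuousOn (fun p : V × V => α (T (β p.2))) (closedBall (a, b) R) :=
    hα.comp cTβ (fun p hp => (hy1 p hp).2.2)
  have c1 : ContinuousOn (fun p : V × V => p.1) (closedBall (a, b) R) :=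
    continuous_fst.continuousOn
  have c2 : ContinuousOn (fun p : V × V => p.2) (closedBall (a, b) R) :=
    continuous_snd.continuousOn
  -- the maps
  have k1 : Idx (fun p : V × V => (p.1 - T p.1, p.2 - b)) (a, b) σ := by
    have h := hP V (fun x => x - T x) (fun y => y - b) a b σ 1 hσ (idx_sub hL b)
    rw [mul_one] at h
    exact h
  have e1 : a - T a = 0 := by rw [hTa, sub_self]
  have e2 : b - α (T a) = 0 := by rw [hTa, ← hb, sub_self]
  have e3 : a - β b = 0 := by rw [hβb, sub_self]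
  have e4 : b - α (T (β b)) = 0 := by rw [hβb, e2]
  have k2 : Idx (fun p : V × V => (p.1 - T p.1, p.2 - α (T p.1))) (a, b) σ := by
    refine step hH hR ((c1.sub cT).prodMk (c2.sub continuousOn_const))
      ((c1.sub cT).prodMk (c2.sub cαT)) (Prod.ext e1 (sub_self b)) (Prod.ext e1 e2) ?_ k1
    intro t ht p hp h
    have h1 : (1 - t) • (p.1 - T p.1) + t • (p.1 - T p.1) = 0 := (Prod.ext_iff.1 h).1
    have h2 : (1 - t) • (p.2 - b) + t • (p.2 - α (T p.1)) = 0 := (Prod.ext_iff.1 h).2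
    have h3 : p.1 = a := hz p.1 (hx1 p hp).1 (comb h1)
    rw [h3, hTa, ← hb] at h2
    exact Prod.ext h3 (sub_eq_zero.1 (comb h2))
  have k3 : Idx (fun p : V × V => (p.1 - β p.2, p.2 - α (T p.1))) (a, b) σ := by
    refine step hH hR ((c1.sub cT).prodMk (c2.sub cαT))
      ((c1.sub cβ).prodMk (c2.sub cαT)) (Prod.ext e1 e2) (Prod.ext e3 e2) ?_ k2
    intro t ht p hp h
    have h1 : (1 - t) • (p.1 - T p.1) + t • (p.1 - β p.2) = 0 := (Prod.ext_iff.1 h).1
    have h2 : (1 - t) • (p.2 - α (T p.1)) + t • (p.2 - α (T p.1)) = 0 := (Prod.ext_iff.1 h).2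
    have h3 : p.2 = α (T p.1) := sub_eq_zero.1 (comb h2)
    have h4 : β p.2 = T p.1 := by
      rw [h3]
      exact hβα _ (hx1 p hp).2
    rw [h4] at h1
    have h5 : p.1 = a := hz p.1 (hx1 p hp).1 (comb h1)
    refine Prod.ext h5 ?_
    show p.2 = b
    rw [h3, h5, hTa, hb]
  have k4 : Idx (fun p : V × V => (p.1 - β p.2, p.2 - α (T (β p.2)))) (a, b) σ := by
    refine step hH hR ((c1.sub cβ).prodMk (c2.sub cαT))
      ((c1.sub cβ).prodMk (c2.sub cαTβ)) (Prod.ext e3 e2) (Prod.ext e3 e4) ?_ k3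
    intro t ht p hp h
    have h1 : (1 - t) • (p.1 - β p.2) + t • (p.1 - β p.2) = 0 := (Prod.ext_iff.1 h).1
    have h2 : (1 - t) • (p.2 - α (T p.1)) + t • (p.2 - α (T (β p.2))) = 0 := (Prod.ext_iff.1 h).2
    have h3 : p.1 = β p.2 := sub_eq_zero.1 (comb h1)
    rw [← h3] at h2
    have h4 : p.2 = α (T p.1) := sub_eq_zero.1 (comb h2)
    have h5 : p.1 = T p.1 := by
      have h6 : β p.2 = T p.1 := by
        rw [h4]
        exact hβα _ (hx1 p hp).2
      exact h3.trans h6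
    have h7 : p.1 = a := hz' p.1 (hx1 p hp).1 h5
    refine Prod.ext h7 ?_
    show p.2 = b
    rw [h4, h7, hTa, hb]
  have k5 : Idx (fun p : V × V => (p.1 - a, p.2 - α (T (β p.2)))) (a, b) σ := by
    refine step hH hR ((c1.sub cβ).prodMk (c2.sub cαTβ))
      ((c1.sub continuousOn_const).prodMk (c2.sub cαTβ)) (Prod.ext e3 e4)
      (Prod.ext (sub_self a) e4) ?_ k4
    intro t ht p hp h
    have h1 : (1 - t) • (p.1 - β p.2) + t • (p.1 - a) = 0 := (Prod.ext_iff.1 h).1
    have h2 : (1 - t) • (p.2 - α (T (β p.2))) + t • (p.2 - α (T (β p.2))) = 0 :=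
      (Prod.ext_iff.1 h).2
    have h3 : p.2 = α (T (β p.2)) := sub_eq_zero.1 (comb h2)
    have h4 : β p.2 = T (β p.2) := by
      have h5 := hβα _ (hy1 p hp).2.2
      rw [← h3] at h5
      exact h5
    have h6 : β p.2 = a := hz' _ (hy1 p hp).2.1 h4
    rw [h6] at h1
    refine Prod.ext (sub_eq_zero.1 (comb h1)) ?_
    show p.2 = b
    rw [← hαβ p.2 (hy1 p hp).1, h6, hb]
  -- the index of the conjugate map
  obtain ⟨σ', hσ'⟩ := hX V (fun y => y - α (T (β y))) b R₂ hR₂
    (by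
      have d1 : ContinuousOn β (closedBall b R₂) := hβ.mono fun y hy => (hR₂s y hy).1
      have d2 : ContinuousOn (fun y => T (β y)) (closedBall b R₂) :=
        hTc.comp d1 (fun y hy => (hR₁s _ (hR₂s y hy).2).1)
      have d3 : ContinuousOn (fun y => α (T (β y))) (closedBall b R₂) :=
        hα.comp d2 (fun y hy => (hR₁s _ (hR₂s y hy).2).2.2)
      exact continuousOn_id.sub d3)
    e4
    (by
      intro y hy h
      have h3 : y = α (T (β y)) := sub_eq_zero.1 h
      have h4 : β y = T (β y) := by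
        have h5 := hβα _ (hR₁s _ (hR₂s y hy).2).2.2
        rw [← h3] at h5
        exact h5
      have h6 : β y = a := hz' _ (hR₁s _ (hR₂s y hy).2).1 h4
      rw [← hαβ y (hR₂s y hy).1, h6, hb])
  have k6 := hP V (fun x => x - a) (fun y => y - α (T (β y))) a b 1 σ' (idx_sub hL a) hσ'
  rw [one_mul] at k6
  have k7 : σ = σ' := idx_unique k5 k6
  rw [k7, ← hb]
  exact hσ'

end Pool.Agent.H963.HT
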