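import Pool.Agent.H963.HT.OriStm

set_option autoImplicit false
set_option linter.unusedSectionVars false

open MeasureTheory Set Filter Topology Metric
open scoped ContDiff

namespace Pool.Agent.H963.HT

open Pool.Agent.H963.CJ

universe u

namespace NIG

theorem hasSDeg_congr {V : Type u} [NormedAddCommGroup V] [NormedSpace ℝ V] {Φ Φ' : V → V}
    {Ω : Set V} (h : ∀ x ∈ closure Ω, Φ x = Φ' x) (d : ℤ) (hd : HasSDeg Φ Ω d) :
    HasSDeg Φ' Ω d := by
  obtain ⟨ε, hε, h1⟩ := hd
  refine ⟨ε, hε, fun Ψ hΨ h2 => h1 Ψ hΨ fun x hx => ?_⟩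
  rw [h x hx]
  exact h2 x hx

open Classical in
/-- the value chosen for a predicate -/
noncomputable def pick (P : ℤ → Prop) : ℤ := if h : ∃ d, P d then Classical.choose h else 0

theorem sdeg_congr {V : Type u} [NormedAddCommGroup V] [NormedSpace ℝ V] {Φ Φ' : V → V}
    {Ω : Set V} (h : ∀ x ∈ closure Ω, Φ x = Φ' x) : sdeg Φ' Ω = sdeg Φ Ω := by
  have h1 : HasSDeg Φ' Ω = HasSDeg Φ Ω := by
    funext d
    exact propext ⟨hasSDeg_congr (fun x hx => (h x hx).symm) d, hasSDeg_congr h d⟩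
  change pick (HasSDeg Φ' Ω) = pick (HasSDeg Φ Ω)
  rw [h1]

end NIG

theorem t_IG : S_IG.{u} := by
  intro V _ _ _ Φ Φ' a τ he hI
  obtain ⟨r₀, hr₀, hc, h0, hz, hs⟩ := hI
  obtain ⟨δ, hδ, hball⟩ := Metric.eventually_nhds_iff_ball.1 he
  have hr : 0 < min r₀ (δ / 2) := lt_min hr₀ (by linarith)
  have hsub : ∀ x ∈ closedBall a (min r₀ (δ / 2)), Φ x = Φ' x := by
    intro x hx
    refine hball x ?_
    rw [mem_ball]
    rw [mem_closedBall] at hx
    have := min_le_right r₀ (δ / 2)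
    linarith
  have hle : closedBall a (min r₀ (δ / 2)) ⊆ closedBall a r₀ :=
    closedBall_subset_closedBall (min_le_left _ _)
  refine ⟨min r₀ (δ / 2), hr, ?_, ?_, ?_, ?_⟩
  · exact (hc.mono hle).congr fun x hx => (hsub x hx).symm
  · rw [← hsub a (mem_closedBall_self hr.le)]
    exact h0
  · intro x hx hx0
    refine hz x (hle hx) ?_
    rw [hsub x hx]
    exact hx0
  · intro r hr1 hr2
    rw [← hs r hr1 (hr2.trans (min_le_left _ _))]
    refine NIG.sdeg_congr fun x hx => hsub x ?_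
    exact closedBall_subset_closedBall hr2 (closure_ball_subset_closedBall hx)

end Pool.Agent.H963.HT
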