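import Pool.Agent.H963.HT.SdDef

set_option autoImplicit false

open MeasureTheory Set Filter Topology Metric
open scoped ContDiff

namespace Pool.Agent.H963.HT

universe u

theorem t_IH (hH : S_SH.{u}) (hX : S_EX.{u}) : S_IH.{u} := by
  intro V _ _ _ H a σ r₀ hr₀ hcont hzero huniq hidx
  obtain ⟨r₁, hr₁, _, _, _, hdeg0⟩ := hidx
  have h1 : (1 : ℝ) ∈ Icc (0 : ℝ) 1 := ⟨zero_le_one, le_rfl⟩
  have hslice : ContinuousOn (H 1) (closedBall a r₀) := by
    have h2 : ContinuousOn (fun x : V => ((1 : ℝ), x)) (closedBall a r₀) :=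
      (continuous_const.prodMk continuous_id).continuousOn
    exact hcont.comp h2 fun x hx => ⟨h1, hx⟩
  obtain ⟨σ', r₂, hr₂, hc2, hz2, hu2, hdeg1⟩ :=
    hX V (H 1) a r₀ hr₀ hslice (hzero 1 h1) (huniq 1 h1)
  have hr : 0 < min r₀ (min r₁ r₂) := lt_min hr₀ (lt_min hr₁ hr₂)
  have hsub : closure (ball a (min r₀ (min r₁ r₂))) ⊆ closedBall a r₀ :=
    closure_ball_subset_closedBall.trans (closedBall_subset_closedBall (min_le_left _ _))
  have h3 := hH V H (ball a (min r₀ (min r₁ r₂))) isOpen_ball isBounded_ball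
    (hcont.mono (prod_mono_right hsub)) (by
      intro t ht x hx h0
      rw [isOpen_ball.frontier_eq] at hx
      have h4 := huniq t ht x (hsub hx.1) h0
      rw [h4] at hx
      exact hx.2 (mem_ball_self hr))
  rw [hdeg0 _ hr ((min_le_right _ _).trans (min_le_left _ _)),
    hdeg1 _ hr ((min_le_right _ _).trans (min_le_right _ _))] at h3
  rw [h3]
  exact ⟨r₂, hr₂, hc2, hz2, hu2, hdeg1⟩

end Pool.Agent.H963.HT
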