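import Pool.Agent.H963.HT.CovStm

/-!
# IT: coarse expansion for multiples
-/

set_option autoImplicit false

namespace Pool.Agent.H963.HT

universe w

namespace NIT

theorem side {X : Type w} [MetricSpace X] (f h : X → X) (R : ℝ) (hfh : ∀ x, h (f x) = x)
    (H : ∀ x y, R ≤ dist x y → 2 * dist x y ≤ max (dist (f x) (f y)) (dist (h x) (h y)))
    (x y : X) (hd : max R 1 ≤ dist x y) (h1 : 2 * dist x y ≤ dist (f x) (f y)) (k : ℕ) :
    2 ^ k * dist x y ≤ dist (f^[k] x) (f^[k] y) ∧
      2 * dist (f^[k] x) (f^[k] y) ≤ dist (f^[k + 1] x) (f^[k + 1] y) := by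
  have hR : R ≤ dist x y := (le_max_left _ _).trans hd
  have h0 : 1 ≤ dist x y := (le_max_right _ _).trans hd
  induction k with
  | zero =>
    refine ⟨?_, ?_⟩
    · rw [pow_zero, one_mul]
      exact le_rfl
    · exact h1
  | succ k ih =>
    obtain ⟨i1, i2⟩ := ih
    have hpow : (1 : ℝ) ≤ 2 ^ k := one_le_pow₀ (by norm_num)
    have h3 : dist x y ≤ 2 ^ k * dist x y := le_mul_of_one_le_left (by linarith) hpow
    have h4 : 2 ^ (k + 1) * dist x y ≤ dist (f^[k + 1] x) (f^[k + 1] y) := by
      rw [pow_succ]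
      linarith
    refine ⟨h4, ?_⟩
    have h5 := H (f^[k + 1] x) (f^[k + 1] y) (by linarith)
    have e1 : h (f^[k + 1] x) = f^[k] x := by rw [Function.iterate_succ_apply', hfh]
    have e2 : h (f^[k + 1] y) = f^[k] y := by rw [Function.iterate_succ_apply', hfh]
    rw [e1, e2, ← Function.iterate_succ_apply' f, ← Function.iterate_succ_apply' f] at h5
    rcases le_max_iff.1 h5 with h6 | h6
    · exact h6
    · exfalso
      linarith

theorem both {X : Type w} [MetricSpace X] (f h : X → X) (R : ℝ) (hfh : ∀ x, h (f x) = x)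
    (hhf : ∀ x, f (h x) = x)
    (H : ∀ x y, R ≤ dist x y → 2 * dist x y ≤ max (dist (f x) (f y)) (dist (h x) (h y)))
    (x y : X) (hd : max R 1 ≤ dist x y) (k : ℕ) :
    2 ^ k * dist x y ≤ max (dist (f^[k] x) (f^[k] y)) (dist (h^[k] x) (h^[k] y)) := by
  have hR : R ≤ dist x y := (le_max_left _ _).trans hd
  rcases le_max_iff.1 (H x y hR) with h1 | h1
  · exact (side f h R hfh H x y hd h1 k).1.trans (le_max_left _ _)
  · refine ((side h f R hhf (fun a b hab => ?_) x y hd h1 k).1).trans (le_max_right _ _)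
    rw [max_comm]
    exact H a b hab

end NIT

/-- **IT.** -/
theorem t_IT : S_IT.{w} := by
  intro X _ G N R H k _ x y hd
  have e1 : Function.LeftInverse (G.symm^[N]) (G^[N]) :=
    Function.LeftInverse.iterate (fun z => G.symm_apply_apply z) N
  have e2 : Function.LeftInverse (G^[N]) (G.symm^[N]) :=
    Function.LeftInverse.iterate (fun z => G.apply_symm_apply z) N
  have h := NIT.both (G^[N]) (G.symm^[N]) R e1 e2 H x y hd k
  rw [← Function.iterate_mul, ← Function.iterate_mul, mul_comm N k] at h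
  exact h

end Pool.Agent.H963.HT
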