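import Pool.Agent.H963.HT.OriStm

set_option autoImplicit false
set_option linter.unusedSectionVars false

open MeasureTheory Set Filter Topology Metric
open scoped ContDiff Manifold unitInterval

namespace Pool.Agent.H963.HT

open Pool.Agent.H721R2 Pool.Agent.H789R2.AN Pool.Agent.H244.Loc

universe u v w

namespace NLI

variable {E : Type*} [NormedAddCommGroup E] [NormedSpace ℝ E] [FiniteDimensional ℝ E]
  {M : Type*} [TopologicalSpace M] [ChartedSpace E M] [IsManifold 𝓘(ℝ, E) 1 M]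

/-- the map `G` in the chart at `m` -/
noncomputable def TT (E : Type*) [NormedAddCommGroup E] [NormedSpace ℝ E]
    {M : Type*} [TopologicalSpace M] [ChartedSpace E M] (G : M → M) (m : M) (y : E) : E :=
  extChartAt 𝓘(ℝ, E) m (G ((extChartAt 𝓘(ℝ, E) m).symm y))

theorem contDiffAt_TT {G : M → M} (hG : ContMDiff 𝓘(ℝ, E) 𝓘(ℝ, E) 1 G) {m : M} (hm : G m = m) :
    ContDiffAt ℝ 1 (TT E G m) (extChartAt 𝓘(ℝ, E) m m) := by
  rw [← contMDiffAt_iff_contDiffAt]
  have h1 : ContMDiffOn 𝓘(ℝ, E) 𝓘(ℝ, E) 1 (extChartAt 𝓘(ℝ, E) m).symm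
      (extChartAt 𝓘(ℝ, E) m).target := contMDiffOn_extChartAt_symm m
  have hy : extChartAt 𝓘(ℝ, E) m m ∈ (extChartAt 𝓘(ℝ, E) m).target := mem_extChartAt_target m
  have h2 : ContMDiffAt 𝓘(ℝ, E) 𝓘(ℝ, E) 1 (extChartAt 𝓘(ℝ, E) m).symm (extChartAt 𝓘(ℝ, E) m m) :=
    h1.contMDiffAt ((isOpen_extChartAt_target m).mem_nhds hy)
  have h3 : ContMDiffAt 𝓘(ℝ, E) 𝓘(ℝ, E) 1 (fun y => G ((extChartAt 𝓘(ℝ, E) m).symm y))
      (extChartAt 𝓘(ℝ, E) m m) :=
    ContMDiffAt.comp _ hG.contMDiffAt h2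
  have h5 : G ((extChartAt 𝓘(ℝ, E) m).symm (extChartAt 𝓘(ℝ, E) m m)) = m := by
    rw [extChartAt_to_inv, hm]
  have h4 : ContMDiffAt 𝓘(ℝ, E) 𝓘(ℝ, E) 1 (extChartAt 𝓘(ℝ, E) m)
      (G ((extChartAt 𝓘(ℝ, E) m).symm (extChartAt 𝓘(ℝ, E) m m))) := by
    rw [h5]
    exact contMDiffAt_extChartAt
  exact ContMDiffAt.comp _ h4 h3

theorem dg_eq {G : M → M} (hG : ContMDiff 𝓘(ℝ, E) 𝓘(ℝ, E) 1 G) {m : M} (hm : G m = m) :
    dg E G m = fderiv ℝ (TT E G m) (extChartAt 𝓘(ℝ, E) m m) := by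
  have hd : MDifferentiableAt 𝓘(ℝ, E) 𝓘(ℝ, E) G m := hG.mdifferentiableAt (by norm_num)
  have h1 : dg E G m = fderivWithin ℝ (writtenInExtChartAt 𝓘(ℝ, E) 𝓘(ℝ, E) m G)
      (range 𝓘(ℝ, E)) ((extChartAt 𝓘(ℝ, E) m) m) := hd.mfderiv
  have h2 : writtenInExtChartAt 𝓘(ℝ, E) 𝓘(ℝ, E) m G = TT E G m := by
    unfold writtenInExtChartAt
    rw [hm]
    rfl
  rw [h1, h2, ModelWithCorners.range_eq_univ, fderivWithin_univ]

end NLI

open NLI in
theorem t_LI (hL : S_SL.{u}) (hC : S_IC.{u}) (_hX : S_EX.{u}) (hG : S_IG.{u}) : S_LI.{u, v, w} := by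
  intro E _ _ _ M _ _ _ X _ P φ h ψ p hP hh hψ hcomm hp hdet
  have hm : h (P p) = P p := by rw [← hcomm, hp]
  set m : M := P p with hmdef
  set c := extChartAt 𝓘(ℝ, E) m with hc
  set T : E → E := TT E h m with hT
  set a : E := c m with ha
  have hTcd : ContDiffAt ℝ 1 T a := contDiffAt_TT hh hm
  have hTd : HasFDerivAt T (dg E h m) a := by
    rw [dg_eq hh hm]
    exact (hTcd.differentiableAt (by norm_num)).hasFDerivAt
  have hTa : T a = a := by
    show c (h (c.symm (c m))) = c m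
    rw [hc, extChartAt_to_inv, hm]
  have hΦd : HasFDerivAt (fun x => x - T x) (1 - dg E h m) a := (hasFDerivAt_id a).sub hTd
  have hΦcd : ContDiffAt ℝ 1 (fun x => x - T x) a := contDiffAt_id.sub hTcd
  have hidx : Idx (fun x => x - T x) a ((SignType.sign (1 - dg E h m).det : SignType) : ℤ) := by
    have h1 := hL E (fun x => x - T x) a hΦcd (by show a - T a = 0; rw [hTa, sub_self])
      (by rw [hΦd.fderiv]; exact hdet)
    rw [hΦd.fderiv] at h1
    exact h1
  obtain ⟨e, hpe, hPe⟩ := hP p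
  have hPe' : ∀ x, P x = e x := fun x => congrFun hPe x
  have hcs : IsOpen c.source := isOpen_extChartAt_source m
  have hct : IsOpen c.target := isOpen_extChartAt_target m
  have hcc : ContinuousOn c c.source := continuousOn_extChartAt m
  have hcs' : ContinuousOn c.symm c.target := continuousOn_extChartAt_symm m
  have hPc : Continuous P := hP.continuous
  set α : E → E := fun x => φ (e.symm (c.symm x)) with hα
  set β : E → E := fun y => c (P (φ.symm y)) with hβ
  set U : Set E := c.target ∩ c.symm ⁻¹' e.target with hU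
  set W : Set E := {y | φ.symm y ∈ e.source ∧ P (φ.symm y) ∈ c.source} with hW
  have hUo : IsOpen U := hcs'.isOpen_inter_preimage hct e.open_target
  have hWo : IsOpen W := by
    have h1 : IsOpen {y | φ.symm y ∈ e.source} := e.open_source.preimage φ.symm.continuous
    have h2 : IsOpen {y | P (φ.symm y) ∈ c.source} := hcs.preimage (hPc.comp φ.symm.continuous)
    exact h1.inter h2
  have hmc : m ∈ c.source := mem_extChartAt_source m
  have hpm : e p = m := (hPe' p).symm
  have haU : a ∈ U := by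
    refine ⟨mem_extChartAt_target m, ?_⟩
    show c.symm (c m) ∈ e.target
    rw [c.left_inv hmc, ← hpm]
    exact e.map_source hpe
  have hαa : α a = φ p := by
    show φ (e.symm (c.symm (c m))) = φ p
    rw [c.left_inv hmc, ← hpm, e.left_inv hpe]
  have hαc : ContinuousOn α U := by
    have h1 : ContinuousOn c.symm U := hcs'.mono inter_subset_left
    have h2 : ContinuousOn (fun x => e.symm (c.symm x)) U :=
      e.continuousOn_symm.comp h1 (fun x hx => hx.2)
    exact φ.continuous.comp_continuousOn h2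
  have hβc : ContinuousOn β W :=
    hcc.comp (hPc.comp φ.symm.continuous).continuousOn (fun y hy => hy.2)
  have hPsymm : ∀ z ∈ e.target, P (e.symm z) = z := by
    intro z hz
    rw [hPe', e.right_inv hz]
  have hmU : MapsTo α U W := by
    intro x hx
    have h1 : φ.symm (α x) = e.symm (c.symm x) := φ.symm_apply_apply _
    refine ⟨?_, ?_⟩
    · show φ.symm (α x) ∈ e.source
      rw [h1]
      exact e.map_target hx.2
    · show P (φ.symm (α x)) ∈ c.source
      rw [h1, hPsymm _ hx.2]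
      exact c.map_target hx.1
  have hmW : MapsTo β W U := by
    intro y hy
    refine ⟨c.map_source hy.2, ?_⟩
    show c.symm (c (P (φ.symm y))) ∈ e.target
    rw [c.left_inv hy.2, hPe']
    exact e.map_source hy.1
  have hβα : ∀ x ∈ U, β (α x) = x := by
    intro x hx
    show c (P (φ.symm (φ (e.symm (c.symm x))))) = x
    rw [φ.symm_apply_apply, hPsymm _ hx.2, c.right_inv hx.1]
  have hαβ : ∀ y ∈ W, α (β y) = y := by
    intro y hy
    show φ (e.symm (c.symm (c (P (φ.symm y))))) = y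
    rw [c.left_inv hy.2, hPe', e.left_inv hy.1, φ.apply_symm_apply]
  have h9 := hC E α β T U W a _ hUo hWo hαc hβc hmU hmW hβα hαβ haU hTa hidx
  rw [hαa] at h9
  refine hG E _ _ _ _ ?_ h9
  -- the germs agree
  have hWp : φ p ∈ W := by
    rw [← hαa]
    exact hmU haU
  have hcont : Continuous fun y => φ (ψ (φ.symm y)) :=
    φ.continuous.comp (hψ.comp φ.symm.continuous)
  have hval : φ (ψ (φ.symm (φ p))) ∈ W := by
    rw [φ.symm_apply_apply, hp]
    exact hWp
  have hev1 : ∀ᶠ y in 𝓝 (φ p), φ (ψ (φ.symm y)) ∈ W :=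
    hcont.continuousAt.eventually (hWo.mem_nhds hval)
  have hev2 : ∀ᶠ y in 𝓝 (φ p), y ∈ W := hWo.mem_nhds hWp
  filter_upwards [hev1, hev2] with y h1 h2
  have h3 : T (β y) = β (φ (ψ (φ.symm y))) := by
    show c (h (c.symm (c (P (φ.symm y))))) = c (P (φ.symm (φ (ψ (φ.symm y)))))
    rw [c.left_inv h2.2, φ.symm_apply_apply, hcomm]
  show y - α (T (β y)) = y - φ (ψ (φ.symm y))
  rw [h3, hαβ _ h1]

end Pool.Agent.H963.HT
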