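import Pool.Agent.H963.HT.OriStm

/-!
# LIN: linear algebra at a hyperbolic fixed point

`T = D π + D' (1 - π)` satisfies `T^k v → 0` for all `v`, so `det (1 - t T) ≠ 0` for `t ∈ [0,1]` and
`det (1 - T) > 0`; moreover `1 - D = (π - D (1 - π)) ∘ (1 - T)` and `π - D (1 - π)` is injective.
-/

set_option autoImplicit false
set_option linter.unusedSectionVars false

open Set Filter Topology Metric

namespace Pool.Agent.H963.HT

universe u

namespace NLIN

variable {E : Type u} [NormedAddCommGroup E] [NormedSpace ℝ E] [FiniteDimensional ℝ E]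

/-- an injective endomorphism has nonzero determinant -/
theorem det_ne_zero_of_inj (B : E →L[ℝ] E) (hB : ∀ v, B v = 0 → v = 0) : B.det ≠ 0 := by
  intro h
  have h2 : LinearMap.det (B : E →ₗ[ℝ] E) = 0 := h
  have h3 := LinearMap.bot_lt_ker_of_det_eq_zero h2
  have h4 : LinearMap.ker (B : E →ₗ[ℝ] E) = ⊥ := by
    rw [LinearMap.ker_eq_bot']
    intro v hv
    exact hB v hv
  rw [h4] at h3
  exact lt_irrefl _ h3

/-- the determinant is multiplicative -/
theorem det_comp (A B : E →L[ℝ] E) : (A.comp B).det = A.det * B.det := by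
  show LinearMap.det ((A : E →ₗ[ℝ] E).comp (B : E →ₗ[ℝ] E)) = _
  rw [LinearMap.det_comp]

/-- if all orbits of `T` tend to `0` then `det (1 - T) > 0` -/
theorem det_pos (T : E →L[ℝ] E) (hT : ∀ v, Tendsto (fun k : ℕ => (T ^ k) v) atTop (𝓝 0)) :
    0 < (1 - T).det := by
  by_contra hneg
  push Not at hneg
  have hc : Continuous (fun t : ℝ => (1 - t • T).det) := by
    exact ContinuousLinearMap.continuous_det.comp (by fun_prop)
  have h0 : (fun t : ℝ => (1 - t • T).det) 0 = 1 := by
    show (1 - (0 : ℝ) • T).det = 1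
    rw [zero_smul, sub_zero]
    show LinearMap.det ((1 : E →L[ℝ] E) : E →ₗ[ℝ] E) = 1
    exact LinearMap.det_id
  have h1 : (fun t : ℝ => (1 - t • T).det) 1 ≤ 0 := by
    show (1 - (1 : ℝ) • T).det ≤ 0
    rwa [one_smul]
  have hmem : (0 : ℝ) ∈ Icc ((fun t : ℝ => (1 - t • T).det) 1) ((fun t : ℝ => (1 - t • T).det) 0) := by
    refine ⟨h1, ?_⟩
    rw [h0]; norm_num
  obtain ⟨t, ht, ht0⟩ := intermediate_value_Icc' (zero_le_one' ℝ) hc.continuousOn hmem
  refine det_ne_zero_of_inj (1 - t • T) ?_ ht0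
  intro v hv
  have hv1 : v = t • T v := by
    have : v - t • T v = 0 := hv
    exact sub_eq_zero.mp this
  have hv2 : ∀ k : ℕ, v = t ^ k • (T ^ k) v := by
    intro k
    induction k with
    | zero => simp
    | succ k ih =>
      have e : (T ^ (k + 1)) v = (T ^ k) (T v) := by
        rw [pow_succ]; rfl
      rw [e, pow_succ, mul_smul, ← (T ^ k).map_smul, ← hv1]
      exact ih
  have hlim : Tendsto (fun k : ℕ => t ^ k • (T ^ k) v) atTop (𝓝 0) := by
    refine squeeze_zero_norm (a := fun k : ℕ => ‖(T ^ k) v‖) ?_ ?_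
    · intro k
      rw [norm_smul, norm_pow, Real.norm_eq_abs, abs_of_nonneg ht.1]
      have : t ^ k ≤ 1 := pow_le_one₀ ht.1 ht.2
      nlinarith [norm_nonneg ((T ^ k) v)]
    · simpa using (hT v).norm
  have hconst : Tendsto (fun k : ℕ => t ^ k • (T ^ k) v) atTop (𝓝 v) := by
    have : (fun k : ℕ => t ^ k • (T ^ k) v) = fun _ => v := by
      funext k; exact (hv2 k).symm
    rw [this]; exact tendsto_const_nhds
  exact tendsto_nhds_unique hconst hlim

end NLIN

open NLIN in
theorem t_LIN : S_LIN.{u} := by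
  intro E _ _ _ π D D' hπ hD hDD' hD'D hs hu
  have hD'π : ∀ v, D' (π v) = π (D' v) := by
    intro v
    have h := hD (D' v)
    rw [hDD'] at h
    -- h : D (π (D' v)) = π v
    rw [← h, hD'D]
  set B : E →L[ℝ] E := π - D.comp (1 - π) with hB
  have hBv : ∀ v, B v = π v - D (v - π v) := fun v => rfl
  set T : E →L[ℝ] E := D.comp π + D'.comp (1 - π) with hTdef
  have hTv : ∀ v, T v = D (π v) + D' (v - π v) := fun v => rfl
  have hπT : ∀ v, π (T v) = D (π v) := by
    intro v
    rw [hTv, map_add, ← hD, hπ, ← hD'π, map_sub π, hπ, sub_self, map_zero, add_zero]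
  have hfac : (1 - D) = B.comp (1 - T) := by
    ext v
    show v - D v = B (v - T v)
    rw [map_sub, hBv, hBv (T v), hπT]
    have : T v - D (π v) = D' (v - π v) := by rw [hTv]; abel
    rw [this, hDD', map_sub]
    abel
  have hpow : ∀ k : ℕ, ∀ v, (T ^ k) v = (D ^ k) (π v) + (D' ^ k) (v - π v) := by
    intro k
    induction k with
    | zero => intro v; simp
    | succ k ih =>
      intro v
      have e : (T ^ (k + 1)) v = (T ^ k) (T v) := by rw [pow_succ]; rfl
      have e1 : (D ^ (k + 1)) (π v) = (D ^ k) (D (π v)) := by rw [pow_succ]; rfl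
      have e2 : (D' ^ (k + 1)) (v - π v) = (D' ^ k) (D' (v - π v)) := by rw [pow_succ]; rfl
      have e3 : T v - D (π v) = D' (v - π v) := by rw [hTv]; abel
      rw [e, e1, e2, ih, hπT, e3]
  have hT0 : ∀ v, Tendsto (fun k : ℕ => (T ^ k) v) atTop (𝓝 0) := by
    intro v
    have h1 := hs (π v) (hπ v)
    have h2 := hu (v - π v) (by rw [map_sub, hπ, sub_self])
    have h3 := h1.add h2
    rw [add_zero] at h3
    refine h3.congr ?_
    intro k
    exact (hpow k v).symm
  have hBdet : B.det ≠ 0 := by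
    refine det_ne_zero_of_inj B ?_
    intro v hv
    rw [hBv] at hv
    have h1 : π v = D (v - π v) := sub_eq_zero.mp hv
    have h2 : π v = 0 := by
      have h3 : π (π v) = π (D (v - π v)) := by rw [← h1]
      rw [hπ, ← hD, map_sub π, hπ, sub_self, map_zero] at h3
      exact h3
    rw [h2, sub_zero] at h1
    have h4 := hD'D v
    rw [← h1, map_zero] at h4
    exact h4.symm
  rw [hfac, det_comp]
  have hp := det_pos T hT0
  have hsq : 0 < B.det * B.det := mul_self_pos.mpr hBdet
  calc 0 < (B.det * B.det) * (1 - T).det := mul_pos hsq hp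
    _ = B.det * (1 - T).det * B.det := by ring

end Pool.Agent.H963.HT
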