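import Pool.Agent.H963.HT.CovStm

/-!
# LP: covering spaces of manifolds are locally path connected (helper279)
-/

set_option autoImplicit false

namespace Pool.Agent.H963.HT

universe u v w

theorem t_LP : S_LP.{u, v, w} := by
  intro E _ _ M _ _ X _ P hP
  have hM : LocallyPathConnectedSpace M := ChartedSpace.locallyPathConnectedSpace E M
  have h := hP.isLocalHomeomorph
  let cs : ChartedSpace M X :=
    { atlas := Set.univ
      chartAt := fun x => Classical.choose (h x)
      mem_chart_source := fun x => (Classical.choose_spec (h x)).1
      chart_mem_atlas := fun _ => Set.mem_univ _ }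
  exact ChartedSpace.locallyPathConnectedSpace M X

end Pool.Agent.H963.HT
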