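import Pool.Agent.H963.HT.CovStm

/-!
# Equivariant maps are bounded at large scale (`S_MOD`)
-/

set_option autoImplicit false
set_option linter.unusedSectionVars false

open Set Filter Topology Metric
open scoped unitInterval

namespace Pool.Agent.H963.HT

universe u v w x

theorem t_MOD : S_MOD.{w, x} := by
  intro X _ _ Γ _ _ _ Ψ φ x₀ R₀ hΨ hco heq r
  have hc : IsCompact (Ψ '' closedBall x₀ (R₀ + |r|)) := (isCompact_closedBall _ _).image hΨ
  refine ⟨Metric.diam (Ψ '' closedBall x₀ (R₀ + |r|)), fun a b hab => ?_⟩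
  obtain ⟨γ, hγ⟩ := hco a
  have h1 : γ • a ∈ closedBall x₀ (R₀ + |r|) := by
    rw [mem_closedBall]
    have := abs_nonneg r
    linarith
  have h2 : γ • b ∈ closedBall x₀ (R₀ + |r|) := by
    rw [mem_closedBall]
    have h3 := dist_triangle (γ • b) (γ • a) x₀
    rw [dist_smul, dist_comm b a] at h3
    have h4 := le_abs_self r
    linarith
  have h5 := Metric.dist_le_diam_of_mem hc.isBounded (mem_image_of_mem Ψ h1)
    (mem_image_of_mem Ψ h2)
  rwa [heq, heq, dist_smul] at h5

end Pool.Agent.H963.HT
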