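import Pool.Agent.H963.HT.OriStm

/-!
# O1: transport of determinants along a square of projections (helper289)
-/

set_option autoImplicit false
set_option linter.unusedSectionVars false

open MeasureTheory Set Filter Topology Metric
open scoped ContDiff Manifold unitInterval

namespace Pool.Agent.H963.HT

universe u v w

namespace NO1

variable {W : Type u} [NormedAddCommGroup W] [NormedSpace ℝ W] [FiniteDimensional ℝ W]

/-- a transport from the range of `q (s, t)` to the range of `q (s, 0)` -/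
def Tr (q : C(I × I, W →L[ℝ] W)) (t : I) : Prop :=
  ∃ B : C(I, W →L[ℝ] W), (∀ s v, q (s, 0) (B s v) = B s v) ∧
    (∀ s v, q (s, t) v = v → B s v = 0 → v = 0) ∧
    (∀ v, q (0, 0) v = v → B 0 v = v) ∧ ∀ v, q (1, 0) v = v → B 1 v = v

theorem tr_zero (q : C(I × I, W →L[ℝ] W)) (hq : ∀ z v, q z (q z v) = q z v) : Tr q 0 := by
  refine ⟨⟨fun s => q (s, 0), by fun_prop⟩, fun s v => hq _ v, fun s v h1 h2 => ?_,
    fun v h => h, fun v h => h⟩
  have h3 : q (s, 0) v = 0 := h2
  rw [← h1, h3]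

theorem tr_step (q : C(I × I, W →L[ℝ] W)) (hq : ∀ z v, q z (q z v) = q z v)
    (h0 : ∀ t, q (0, t) = q (0, 0)) (h1 : ∀ t, q (1, t) = q (1, 0)) {t t' : I}
    (hd : ∀ s, ‖q (s, t) - q (s, t')‖ < 1) (h : Tr q t) : Tr q t' := by
  obtain ⟨B, hB1, hB2, hB3, hB4⟩ := h
  refine ⟨⟨fun s => (B s).comp (q (s, t)), by fun_prop⟩, fun s v => hB1 s _,
    fun s v h2 h3 => ?_, fun v h2 => ?_, fun v h2 => ?_⟩
  · have h4 : B s (q (s, t) v) = 0 := h3
    have h5 : q (s, t) v = 0 := hB2 s _ (hq _ v) h4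
    have h6 : ‖v‖ ≤ ‖q (s, t) - q (s, t')‖ * ‖v‖ := by
      have h7 := (q (s, t) - q (s, t')).le_opNorm v
      rw [sub_apply, h5, h2, zero_sub, norm_neg] at h7
      exact h7
    by_contra hv
    have h8 : 0 < ‖v‖ := norm_pos_iff.2 hv
    have h9 := mul_lt_mul_of_pos_right (hd s) h8
    linarith
  · show B 0 (q (0, t) v) = v
    rw [h0 t, h2]
    exact hB3 v h2
  · show B 1 (q (1, t) v) = v
    rw [h1 t, h2]
    exact hB4 v h2

theorem tr_all (q : C(I × I, W →L[ℝ] W)) (hq : ∀ z v, q z (q z v) = q z v)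
    (h0 : ∀ t, q (0, t) = q (0, 0)) (h1 : ∀ t, q (1, t) = q (1, 0)) (t : I) : Tr q t := by
  have huc : UniformContinuous q := CompactSpace.uniformContinuous_of_continuous q.continuous
  obtain ⟨δ, hδ, hδ2⟩ := Metric.uniformContinuous_iff.1 huc 1 one_pos
  have key : ∀ (k : ℕ) (t : I), (t : ℝ) ≤ k * (δ / 2) → Tr q t := by
    intro k
    induction k with
    | zero =>
      intro t ht
      have h2 : t = 0 := by
        apply Subtype.ext
        have := t.2.1
        push_cast at ht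
        have h3 : (t : ℝ) ≤ 0 := by linarith
        exact le_antisymm h3 this
      rw [h2]
      exact tr_zero q hq
    | succ k ih =>
      intro t ht
      push_cast at ht
      have h2 : max ((t : ℝ) - δ / 2) 0 ∈ I :=
        ⟨le_max_right _ _, max_le (by linarith [t.2.2]) zero_le_one⟩
      have h3 : Tr q ⟨max ((t : ℝ) - δ / 2) 0, h2⟩ := by
        apply ih
        exact max_le (by linarith) (by positivity)
      refine tr_step q hq h0 h1 (fun s => ?_) h3
      rw [← dist_eq_norm]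
      apply hδ2
      rw [Prod.dist_eq, dist_self, max_lt_iff]
      refine ⟨hδ, ?_⟩
      rw [Subtype.dist_eq, Real.dist_eq]
      show |max ((t : ℝ) - δ / 2) 0 - (t : ℝ)| < δ
      rw [abs_lt]
      have h4 := le_max_left ((t : ℝ) - δ / 2) 0
      have h5 : max ((t : ℝ) - δ / 2) 0 ≤ (t : ℝ) := max_le (by linarith) t.2.1
      constructor <;> linarith
  obtain ⟨k, hk⟩ := exists_nat_ge (1 / (δ / 2))
  refine key k t ?_
  have h2 : 1 ≤ k * (δ / 2) := by
    rw [div_le_iff₀ (by positivity)] at hk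
    exact hk
  linarith [t.2.2]

theorem det_ne {D : W →L[ℝ] W} (h : ∀ v, D v = 0 → v = 0) : D.det ≠ 0 := by
  have h1 : LinearMap.ker (D : W →ₗ[ℝ] W) = ⊥ := by
    rw [LinearMap.ker_eq_bot']
    exact h
  intro h2
  have h3 : LinearMap.det (D : W →ₗ[ℝ] W) = 0 := h2
  have h4 := LinearMap.bot_lt_ker_of_det_eq_zero h3
  rw [h1] at h4
  exact lt_irrefl _ h4

end NO1

open NO1 in
theorem t_O1 : S_O1.{u} := by
  intro W _ _ _ q n hq hn1 hn2 h0 h1
  obtain ⟨B, hB1, hB2, hB3, hB4⟩ := tr_all q hq h0 h1 1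
  let D : I → (W →L[ℝ] W) := fun s => 1 - q (s, 0) + ((B s).comp (n s)).comp (q (s, 0))
  have hDc : Continuous D := by
    show Continuous fun s => 1 - q (s, 0) + ((B s).comp (n s)).comp (q (s, 0))
    fun_prop
  have hg : Continuous fun s => (D s).det := ContinuousLinearMap.continuous_det.comp hDc
  have hne : ∀ s, (D s).det ≠ 0 := by
    intro s
    apply det_ne
    intro v hv
    have h2 : v - q (s, 0) v + B s (n s (q (s, 0) v)) = 0 := hv
    have h3 : B s (n s (q (s, 0) v)) = 0 := by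
      have h4 := congrArg (q (s, 0)) h2
      rw [map_add, map_sub, hq, sub_self, zero_add, map_zero, hB1] at h4
      exact h4
    have h4 : n s (q (s, 0) v) = 0 := hB2 s _ (hn1 s _) h3
    have h5 : q (s, 0) v = 0 := hn2 s _ (hq _ v) h4
    rw [h5, map_zero, map_zero, sub_zero, add_zero] at h2
    exact h2
  have hD0 : D 0 = 1 - q (0, 0) + (n 0).comp (q (0, 0)) := by
    ext v
    show v - q (0, 0) v + B 0 (n 0 (q (0, 0) v)) = v - q (0, 0) v + n 0 (q (0, 0) v)
    rw [hB3]
    have := hn1 0 (q (0, 0) v)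
    rw [h0 1] at this
    exact this
  have hD1 : D 1 = 1 - q (1, 0) + (n 1).comp (q (1, 0)) := by
    ext v
    show v - q (1, 0) v + B 1 (n 1 (q (1, 0) v)) = v - q (1, 0) v + n 1 (q (1, 0) v)
    rw [hB4]
    have := hn1 1 (q (1, 0) v)
    rw [h1 1] at this
    exact this
  rw [← hD0, ← hD1]
  by_contra hcon
  have hcon' : (D 0).det * (D 1).det < 0 :=
    lt_of_le_of_ne (not_lt.1 hcon) (mul_ne_zero (hne 0) (hne 1))
  rcases mul_neg_iff.1 hcon' with ⟨ha, hb⟩ | ⟨ha, hb⟩
  · obtain ⟨s, hs⟩ := intermediate_value_univ (1 : I) 0 hg (show (0 : ℝ) ∈ Icc _ _ from ⟨hb.le, ha.le⟩)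
    exact hne s hs
  · obtain ⟨s, hs⟩ := intermediate_value_univ (0 : I) 1 hg (show (0 : ℝ) ∈ Icc _ _ from ⟨ha.le, hb.le⟩)
    exact hne s hs

end Pool.Agent.H963.HT
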