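import Pool.Agent.H963.HT.OriStm

/-!
# Task O2 (helper640): the unstable bundle in a trivial bundle
-/

set_option autoImplicit false
set_option linter.unusedSectionVars false

open MeasureTheory Set Filter Topology Metric
open scoped ContDiff Manifold

namespace Pool.Agent.H963.HT

open Pool.Agent.H721R2 Pool.Agent.H789R2.AN Pool.Agent.H244.Loc

universe u v w

namespace NO2

section lin

variable {E W : Type*} [NormedAddCommGroup E] [NormedSpace ℝ E] [FiniteDimensional ℝ E]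
  [NormedAddCommGroup W] [NormedSpace ℝ W] [FiniteDimensional ℝ W]

/-- `det (1 - A B) = det (1 - B A)` for maps between different spaces -/
theorem det_comm (A : E →L[ℝ] W) (B : W →L[ℝ] E) :
    (1 - A.comp B).det = (1 - B.comp A).det := by
  show LinearMap.det ((1 - A.comp B : W →L[ℝ] W) : W →ₗ[ℝ] W) =
    LinearMap.det ((1 - B.comp A : E →L[ℝ] E) : E →ₗ[ℝ] E)
  have bE := Module.finBasis ℝ E
  have bW := Module.finBasis ℝ W
  have h1 : ((1 - A.comp B : W →L[ℝ] W) : W →ₗ[ℝ] W) =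
      1 - (A : E →ₗ[ℝ] W) ∘ₗ (B : W →ₗ[ℝ] E) := rfl
  have h2 : ((1 - B.comp A : E →L[ℝ] E) : E →ₗ[ℝ] E) =
      1 - (B : W →ₗ[ℝ] E) ∘ₗ (A : E →ₗ[ℝ] W) := rfl
  rw [h1, h2, ← LinearMap.det_toMatrix bW, ← LinearMap.det_toMatrix bE, map_sub, map_sub,
    LinearMap.toMatrix_one, LinearMap.toMatrix_one, LinearMap.toMatrix_comp bW bE bW,
    LinearMap.toMatrix_comp bE bW bE, Matrix.det_one_sub_mul_comm]

end lin

section man

variable {E : Type*} [NormedAddCommGroup E] [NormedSpace ℝ E] [FiniteDimensional ℝ E]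
  {M : Type*} [MetricSpace M] [CompactSpace M] [ChartedSpace E M] [IsManifold 𝓘(ℝ, E) 1 M]
  {m : ℕ} {e : M → EuclideanSpace ℝ (Fin m)}
  (he : ContMDiff 𝓘(ℝ, E) 𝓘(ℝ, EuclideanSpace ℝ (Fin m)) 1 e)
  (hinj : ∀ x, Function.Injective (dm E e x))
  {dag : (E →L[ℝ] EuclideanSpace ℝ (Fin m)) → (EuclideanSpace ℝ (Fin m) →L[ℝ] E)}
  (hd1 : ∀ J : E →L[ℝ] EuclideanSpace ℝ (Fin m), Function.Injective J → ContinuousAt dag J ∧
    ∀ v, dag J (J v) = v)
  (hd2 : ∀ (J : E →L[ℝ] EuclideanSpace ℝ (Fin m)) (A A' : E →L[ℝ] E), Function.Injective J →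
    (∀ v, A (A' v) = v) → (∀ v, A' (A v) = v) → dag (J.comp A) = A'.comp (dag J))

include he hinj hd1 hd2

/-- the key identity in the chart at `j` -/
theorem chart_id (π : M → E →L[ℝ] E) {j z : M} (hz : z ∈ (extChartAt 𝓘(ℝ, E) j).source) :
    (dm E (extChartAt 𝓘(ℝ, E) j) z).comp ((1 - π z).comp (dag (dm E e z))) =
      (1 - Pj π j (extChartAt 𝓘(ℝ, E) j z)).comp
        (dag (fderiv ℝ (hatMap e j) (extChartAt 𝓘(ℝ, E) j z))) := by
  have hD := Dc_inj he hinj hz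
  have hy : extChartAt 𝓘(ℝ, E) j z ∈ (extChartAt 𝓘(ℝ, E) j).target :=
    (extChartAt 𝓘(ℝ, E) j).map_source hz
  have hzz : (extChartAt 𝓘(ℝ, E) j).symm (extChartAt 𝓘(ℝ, E) j z) = z :=
    (extChartAt 𝓘(ℝ, E) j).left_inv hz
  have hJ : dm E e z = (fderiv ℝ (hatMap e j) (extChartAt 𝓘(ℝ, E) j z)).comp
      (dm E (extChartAt 𝓘(ℝ, E) j) z) := by
    ext1 v
    exact hatMap_mfderiv e he j z hz v
  have hdag : dag (dm E e z) = (dm E (extChartAt 𝓘(ℝ, E) j) z).inverse.comp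
      (dag (fderiv ℝ (hatMap e j) (extChartAt 𝓘(ℝ, E) j z))) := by
    rw [hJ]
    exact hd2 _ _ _ (A_inj he hinj hy) (fun v => inv_right hD v) (fun v => inv_left hD v)
  rw [hdag]
  ext1 v
  show dm E (extChartAt 𝓘(ℝ, E) j) z ((1 - π z) ((dm E (extChartAt 𝓘(ℝ, E) j) z).inverse
      (dag (fderiv ℝ (hatMap e j) (extChartAt 𝓘(ℝ, E) j z)) v))) =
    (1 - Pj π j (extChartAt 𝓘(ℝ, E) j z))
      (dag (fderiv ℝ (hatMap e j) (extChartAt 𝓘(ℝ, E) j z)) v)
  generalize dag (fderiv ℝ (hatMap e j) (extChartAt 𝓘(ℝ, E) j z)) v = a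
  have h3 := Pj_D he hinj π hy ((dm E (extChartAt 𝓘(ℝ, E) j) z).inverse a)
  rw [hzz, inv_right hD] at h3
  simp only [ContinuousLinearMap.sub_apply, ContinuousLinearMap.one_apply, map_sub]
  rw [h3, inv_right hD]

/-- continuity in a chart at the centre -/
theorem cont_aux {f : M ≃ₜ M} {Es Eu : M → Submodule ℝ E} {C a b Ls Lu : ℝ}
    (h : EAnosov e f Es Eu C a b Ls Lu) {π : M → E →L[ℝ] E} (hπ : IsPi π Es Eu) (j : M) :
    ContinuousAt (fun y => (1 - Pj π j y).comp (dag (fderiv ℝ (hatMap e j) y)))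
      (extChartAt 𝓘(ℝ, E) j j) ∧
    ContinuousAt (fun y => fderiv ℝ (hatMap e j) y) (extChartAt 𝓘(ℝ, E) j j) := by
  set y₀ := extChartAt 𝓘(ℝ, E) j j with hy₀
  have hyt : y₀ ∈ (extChartAt 𝓘(ℝ, E) j).target := mem_extChartAt_target j
  have ht : (extChartAt 𝓘(ℝ, E) j).target ∈ 𝓝 y₀ := extChartAt_target_mem_nhds j
  obtain ⟨r, hr, hball⟩ := Metric.nhds_basis_closedBall.mem_iff.1 ht
  have hP : ContinuousAt (Pj π j) y₀ :=
    (Pj_cont he hinj h hπ hball (isCompact_closedBall y₀ r)).continuousAt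
      (closedBall_mem_nhds y₀ hr)
  have hA : ContinuousAt (fun y => fderiv ℝ (hatMap e j) y) y₀ :=
    ((hatMap_contDiffAt e he j y₀ hyt).fderiv_right (m := 0) (by norm_num)).continuousAt
  have hdg : ContinuousAt (fun y => dag (fderiv ℝ (hatMap e j) y)) y₀ :=
    ContinuousAt.comp (g := dag) (hd1 _ (A_inj he hinj hyt)).1 hA
  exact ⟨(continuousAt_const.sub hP).clm_comp hdg, hA⟩

theorem cont_Q {f : M ≃ₜ M} {Es Eu : M → Submodule ℝ E} {C a b Ls Lu : ℝ}
    (h : EAnosov e f Es Eu C a b Ls Lu) {π : M → E →L[ℝ] E} (hπ : IsPi π Es Eu) :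
    Continuous fun z => (dm E e z).comp ((1 - π z).comp (dag (dm E e z))) := by
  rw [continuous_iff_continuousAt]
  intro j
  obtain ⟨h1, h2⟩ := cont_aux he hinj hd1 hd2 h hπ j
  have hc : ContinuousAt (extChartAt 𝓘(ℝ, E) j) j := continuousAt_extChartAt j
  have h3 : ContinuousAt (fun z => (fderiv ℝ (hatMap e j) (extChartAt 𝓘(ℝ, E) j z)).comp
      ((1 - Pj π j (extChartAt 𝓘(ℝ, E) j z)).comp
        (dag (fderiv ℝ (hatMap e j) (extChartAt 𝓘(ℝ, E) j z))))) j :=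
    ContinuousAt.clm_comp (ContinuousAt.comp (g := fun y => fderiv ℝ (hatMap e j) y) h2 hc)
      (ContinuousAt.comp (g := fun y => (1 - Pj π j y).comp (dag (fderiv ℝ (hatMap e j) y))) h1 hc)
  refine h3.congr ?_
  filter_upwards [extChartAt_source_mem_nhds (I := 𝓘(ℝ, E)) j] with z hz
  rw [← chart_id he hinj hd1 hd2 π hz]
  ext1 v
  exact (hatMap_mfderiv e he j z hz _).symm

theorem cont_N {f : M ≃ₜ M} {Es Eu : M → Submodule ℝ E} {C a b Ls Lu : ℝ}
    (h : EAnosov e f Es Eu C a b Ls Lu) {π : M → E →L[ℝ] E} (hπ : IsPi π Es Eu) {g : M → M}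
    (hg : ContMDiff 𝓘(ℝ, E) 𝓘(ℝ, E) 1 g) :
    Continuous fun z => (dm E e (g z)).comp ((dg E g z).comp
      ((1 - π z).comp (dag (dm E e z)))) := by
  rw [continuous_iff_continuousAt]
  intro j
  obtain ⟨h1, -⟩ := cont_aux he hinj hd1 hd2 h hπ j
  obtain ⟨-, h2⟩ := cont_aux he hinj hd1 hd2 h hπ (g j)
  have hc : ContinuousAt (extChartAt 𝓘(ℝ, E) j) j := continuousAt_extChartAt j
  have hyt : extChartAt 𝓘(ℝ, E) j j ∈ (extChartAt 𝓘(ℝ, E) j).target := mem_extChartAt_target j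
  have hjj : (extChartAt 𝓘(ℝ, E) j).symm (extChartAt 𝓘(ℝ, E) j j) = j :=
    (extChartAt 𝓘(ℝ, E) j).left_inv (mem_extChartAt_source j)
  have hcd : ContDiffAt ℝ 1 (rep g j (g j)) (extChartAt 𝓘(ℝ, E) j j) :=
    rep_contDiffAt hg hyt (by rw [hjj]; exact mem_extChartAt_source (g j))
  have hrep : ContinuousAt (fun y => fderiv ℝ (rep g j (g j)) y) (extChartAt 𝓘(ℝ, E) j j) :=
    (hcd.fderiv_right (m := 0) (by norm_num)).continuousAt
  have hrj : rep g j (g j) (extChartAt 𝓘(ℝ, E) j j) = extChartAt 𝓘(ℝ, E) (g j) (g j) := by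
    show extChartAt 𝓘(ℝ, E) (g j) (g ((extChartAt 𝓘(ℝ, E) j).symm (extChartAt 𝓘(ℝ, E) j j))) = _
    rw [hjj]
  have h2' : ContinuousAt (fun y => fderiv ℝ (hatMap e (g j)) (rep g j (g j) y))
      (extChartAt 𝓘(ℝ, E) j j) := by
    refine ContinuousAt.comp (g := fun y => fderiv ℝ (hatMap e (g j)) y) ?_ hcd.continuousAt
    rw [hrj]
    exact h2
  have h3 : ContinuousAt (fun z =>
      (fderiv ℝ (hatMap e (g j)) (rep g j (g j) (extChartAt 𝓘(ℝ, E) j z))).comp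
      ((fderiv ℝ (rep g j (g j)) (extChartAt 𝓘(ℝ, E) j z)).comp
      ((1 - Pj π j (extChartAt 𝓘(ℝ, E) j z)).comp
        (dag (fderiv ℝ (hatMap e j) (extChartAt 𝓘(ℝ, E) j z)))))) j :=
    ContinuousAt.clm_comp
      (ContinuousAt.comp (g := fun y => fderiv ℝ (hatMap e (g j)) (rep g j (g j) y)) h2' hc)
      (ContinuousAt.clm_comp
        (ContinuousAt.comp (g := fun y => fderiv ℝ (rep g j (g j)) y) hrep hc)
        (ContinuousAt.comp
          (g := fun y => (1 - Pj π j y).comp (dag (fderiv ℝ (hatMap e j) y))) h1 hc))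
  refine h3.congr ?_
  have hgn : ∀ᶠ z in 𝓝 j, g z ∈ (extChartAt 𝓘(ℝ, E) (g j)).source :=
    hg.continuous.continuousAt.eventually
      (extChartAt_source_mem_nhds (I := 𝓘(ℝ, E)) (g j))
  filter_upwards [extChartAt_source_mem_nhds (I := 𝓘(ℝ, E)) j, hgn] with z hz hgz
  rw [← chart_id he hinj hd1 hd2 π hz]
  have hzz : (extChartAt 𝓘(ℝ, E) j).symm (extChartAt 𝓘(ℝ, E) j z) = z :=
    (extChartAt 𝓘(ℝ, E) j).left_inv hz
  have hrz : rep g j (g j) (extChartAt 𝓘(ℝ, E) j z) = extChartAt 𝓘(ℝ, E) (g j) (g z) := by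
    show extChartAt 𝓘(ℝ, E) (g j) (g ((extChartAt 𝓘(ℝ, E) j).symm (extChartAt 𝓘(ℝ, E) j z))) = _
    rw [hzz]
  ext1 v
  show fderiv ℝ (hatMap e (g j)) (rep g j (g j) (extChartAt 𝓘(ℝ, E) j z))
      (fderiv ℝ (rep g j (g j)) (extChartAt 𝓘(ℝ, E) j z)
        (dm E (extChartAt 𝓘(ℝ, E) j) z ((1 - π z) (dag (dm E e z) v)))) =
    dm E e (g z) (dg E g z ((1 - π z) (dag (dm E e z) v)))
  rw [rep_fderiv hg hz hgz, hrz]
  exact (hatMap_mfderiv e he (g j) (g z) hgz _).symm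

end man

end NO2

open NO2 in
theorem t_O2 (hD : S_DAG.{u}) : S_O2.{u, v} := by
  intro E _ _ _ M _ _ _ _ f Es Eu hA π hπ n
  obtain ⟨m, e, he, -, hinj⟩ := exists_embedding_euclidean_of_compact (I := 𝓘(ℝ, E)) (M := M)
  have he1 : ContMDiff 𝓘(ℝ, E) 𝓘(ℝ, EuclideanSpace ℝ (Fin m)) 1 e := he.of_le (by simp)
  obtain ⟨C, a, b, Ls, Lu, h⟩ := eanosov_of_isAnosov e he1 hinj f Es Eu hA
  obtain ⟨dag, hd1, hd2⟩ := hD E m
  have hsm : ContMDiff 𝓘(ℝ, E) 𝓘(ℝ, E) 1 (f.toHomeomorph : M → M) := f.contMDiff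
  have hsm' : ContMDiff 𝓘(ℝ, E) 𝓘(ℝ, E) 1 (f.toHomeomorph.symm : M → M) := f.symm.contMDiff
  have hg : ContMDiff 𝓘(ℝ, E) 𝓘(ℝ, E) 1 (f^[n]) := iter_smooth (f.toHomeomorph : M → M) hsm n
  have hdj : ∀ z (v : E), dag (dm E e z) (dm E e z v) = v := fun z v => (hd1 _ (hinj z)).2 v
  have hpp : ∀ z (v : E), π z (π z v) = π z v := fun z v => hπ.s _ _ (hπ.ms z v)
  have hqq : ∀ z (v : E), (1 - π z) ((1 - π z) v) = (1 - π z) v := by
    intro z v
    simp only [ContinuousLinearMap.sub_apply, ContinuousLinearMap.one_apply, map_sub, hpp]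
    abel
  have hinjg : ∀ z, Function.Injective (dg E (f^[n]) z) := by
    intro z v w hvw
    have h1 := fun v => dg_inv (E₀ := E) (f^[n]) (f.toHomeomorph.symm^[n]) hg
      (iter_smooth (f.toHomeomorph.symm : M → M) hsm' n) (iter_left f.toHomeomorph n) z v
    rw [← h1 v, ← h1 w, hvw]
  have hfix : ∀ z (v : E), (1 - π (f^[n] z)) (dg E (f^[n]) z ((1 - π z) v)) =
      dg E (f^[n]) z ((1 - π z) v) := by
    intro z v
    have h1 : (1 - π z) v ∈ (Eu z : Submodule ℝ E) := by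
      have := hπ.mu z v
      exact this
    have h2 : π (f^[n] z) (dg E (f^[n]) z ((1 - π z) v)) = 0 := hπ.u _ _ (h.mapU n z _ h1)
    simp only [ContinuousLinearMap.sub_apply, ContinuousLinearMap.one_apply] at h2 ⊢
    rw [h2, sub_zero]
  refine ⟨m, fun z => (dm E e z).comp ((1 - π z).comp (dag (dm E e z))),
    fun z => -((dm E e (f^[n] z)).comp ((dg E (f^[n]) z).comp ((1 - π z).comp (dag (dm E e z))))),
    cont_Q he1 hinj hd1 hd2 h hπ, (cont_N he1 hinj hd1 hd2 h hπ hg).neg, ?_, ?_, ?_, ?_⟩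
  · intro z v
    show dm E e z ((1 - π z) (dag (dm E e z) (dm E e z ((1 - π z) (dag (dm E e z) v))))) =
      dm E e z ((1 - π z) (dag (dm E e z) v))
    rw [hdj, hqq]
  · intro z v
    show dm E e (f^[n] z) ((1 - π (f^[n] z)) (dag (dm E e (f^[n] z))
      (-(dm E e (f^[n] z) (dg E (f^[n]) z ((1 - π z) (dag (dm E e z) v))))))) =
      -(dm E e (f^[n] z) (dg E (f^[n]) z ((1 - π z) (dag (dm E e z) v))))
    rw [map_neg, hdj, map_neg, map_neg, hfix]
  · intro z v h1 h2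
    have h1' : dm E e z ((1 - π z) (dag (dm E e z) v)) = v := h1
    have h2' : -(dm E e (f^[n] z) (dg E (f^[n]) z ((1 - π z) (dag (dm E e z) v)))) = 0 := h2
    rw [neg_eq_zero] at h2'
    have h3 : dg E (f^[n]) z ((1 - π z) (dag (dm E e z) v)) = 0 :=
      hinj _ (h2'.trans (map_zero _).symm)
    have h4 : (1 - π z) (dag (dm E e z) v) = 0 := hinjg z (h3.trans (map_zero _).symm)
    rw [← h1', h4, map_zero]
  · intro p hp
    have e1 : (1 - (dm E e p).comp ((1 - π p).comp (dag (dm E e p))) +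
        (-((dm E e (f^[n] p)).comp ((dg E (f^[n]) p).comp ((1 - π p).comp (dag (dm E e p)))))).comp
          ((dm E e p).comp ((1 - π p).comp (dag (dm E e p))))) =
        1 - ((dm E e p).comp ((1 + dg E (f^[n]) p).comp (1 - π p))).comp (dag (dm E e p)) := by
      ext1 v
      show v - dm E e p ((1 - π p) (dag (dm E e p) v)) +
        -(dm E e (f^[n] p) (dg E (f^[n]) p ((1 - π p) (dag (dm E e p)
          (dm E e p ((1 - π p) (dag (dm E e p) v))))))) =
        v - dm E e p ((1 - π p) (dag (dm E e p) v) +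
          dg E (f^[n]) p ((1 - π p) (dag (dm E e p) v)))
      rw [hdj, hqq, hp, map_add]
      abel
    have e2 : (1 - (dag (dm E e p)).comp
        ((dm E e p).comp ((1 + dg E (f^[n]) p).comp (1 - π p)))) =
        π p - (dg E (f^[n]) p).comp (1 - π p) := by
      ext1 v
      show v - dag (dm E e p) (dm E e p ((1 - π p) v + dg E (f^[n]) p ((1 - π p) v))) =
        π p v - dg E (f^[n]) p ((1 - π p) v)
      rw [hdj]
      have : (1 - π p) v = v - π p v := rfl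
      rw [this]
      abel
    show (1 - (dm E e p).comp ((1 - π p).comp (dag (dm E e p))) +
        (-((dm E e (f^[n] p)).comp ((dg E (f^[n]) p).comp ((1 - π p).comp (dag (dm E e p)))))).comp
          ((dm E e p).comp ((1 - π p).comp (dag (dm E e p))))).det = _
    rw [e1, det_comm, e2]

end Pool.Agent.H963.HT
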