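import Pool.Agent.H963.HT.SdDef

/-!
# SA: the degree if all zeros have the same index
-/

set_option autoImplicit false

open MeasureTheory Set Filter Topology Metric

namespace Pool.Agent.H963.HT

universe u

theorem t_SA (hE : S_SE.{u}) : S_SA.{u} := by
  intro V _ _ _ Φ Ω Z σ hΩ hb hc hz hZ hI
  obtain ⟨U, hU, hd⟩ := (Z : Set V).toFinite.t2_separation
  have key : ∀ z ∈ Z, ∃ r : ℝ, 0 < r ∧ ball z r ⊆ Ω ∧ ball z r ⊆ U z ∧ sdeg Φ (ball z r) = σ := by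
    intro z hzZ
    obtain ⟨r₀, h0, -, -, -, h1⟩ := hI z hzZ
    obtain ⟨r₁, h2, h3⟩ := Metric.isOpen_iff.1 (hΩ.inter (hU z).2) z ⟨hZ z hzZ, (hU z).1⟩
    have h4 : ball z (min r₀ r₁) ⊆ Ω ∩ U z :=
      (ball_subset_ball (min_le_right _ _)).trans h3
    exact ⟨min r₀ r₁, lt_min h0 h2, fun x hx => (h4 hx).1, fun x hx => (h4 hx).2,
      h1 _ (lt_min h0 h2) (min_le_left _ _)⟩
  choose! r hr0 hrΩ hrU hrσ using key
  have h := hE V Φ Ω Z (fun z => ball z (r z)) hΩ hb hc (fun z hzZ => ⟨isOpen_ball, hrΩ z hzZ⟩)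
    (fun z hzZ w hwZ hne => Set.disjoint_of_subset (hrU z hzZ) (hrU w hwZ)
      (hd (Finset.mem_coe.2 hzZ) (Finset.mem_coe.2 hwZ) hne))
    (fun x hx hx0 => ⟨x, hz x hx hx0, mem_ball_self (hr0 x (hz x hx hx0))⟩)
  rw [h, Finset.sum_congr rfl hrσ, Finset.sum_const, nsmul_eq_mul, mul_comm]

end Pool.Agent.H963.HT
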