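import Pool.Agent.H963.HT.SdDef
import Pool.Agent.H963.CJ.D_DEG

/-!
# The signed degree is well defined
-/

set_option autoImplicit false
set_option linter.unusedSectionVars false

open MeasureTheory Set Filter Topology Metric
open scoped ContDiff

namespace Pool.Agent.H963.HT

open Pool.Agent.H963.CJ

universe u

theorem t_SD (hA : S_APX.{u}) (hS : S_SARD.{u}) (hC : S_CNTHOM.{u}) : S_SD.{u} := by
  intro V _ _ _ Φ Ω hadm
  have hex : ∀ ε > 0, ∃ Ψ : V → V, Reg Ψ Ω ∧ ∀ x ∈ closure Ω, ‖Ψ x - Φ x‖ < ε :=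
    fun ε hε => DDEG.exists_reg hA hS hadm (ContinuousLinearEquiv.refl ℝ V) hε
  refine ⟨?_, hex⟩
  obtain ⟨m, hm0, hm⟩ := DDEG.exists_lower hadm
  have hexd : ∃ d, HasSDeg Φ Ω d := by
    obtain ⟨Ψ₀, h0, h0'⟩ := hex m hm0
    exact ⟨cnt Ψ₀ Ω, m, hm0, fun Ψ hΨ hΨ' =>
      DDEG.cnt_eq hC hadm (ContinuousLinearEquiv.refl ℝ V) hm hΨ h0 hΨ' h0'⟩
  have hdeg : HasSDeg Φ Ω (sdeg Φ Ω) := by
    unfold sdeg
    rw [dif_pos hexd]
    exact Classical.choose_spec hexd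
  exact hdeg

end Pool.Agent.H963.HT
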