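import Pool.Agent.H963.HT.SdDef

/-!
# Project HT, task SE: excision and additivity of the signed degree (helper808)
-/

set_option autoImplicit false
set_option linter.unusedSectionVars false

open MeasureTheory Set Filter Topology Metric
open scoped ContDiff

namespace Pool.Agent.H963.HT

open Pool.Agent.H963.CJ

universe u

namespace NSE

theorem exists_lower {X : Type u} [NormedAddCommGroup X] {Y : Type u} [NormedAddCommGroup Y]
    {K : Set X} (hK : IsCompact K) {Φ : X → Y} (hΦ : ContinuousOn Φ K) (h : ∀ x ∈ K, Φ x ≠ 0) :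
    ∃ m : ℝ, 0 < m ∧ ∀ x ∈ K, m ≤ ‖Φ x‖ := by
  rcases K.eq_empty_or_nonempty with rfl | hne
  · exact ⟨1, one_pos, fun x hx => absurd hx (notMem_empty x)⟩
  · obtain ⟨x, hx, hmin⟩ := hK.exists_isMinOn hne hΦ.norm
    exact ⟨‖Φ x‖, norm_pos_iff.mpr (h x hx), fun y hy => isMinOn_iff.1 hmin y hy⟩

theorem exists_common {ι : Type u} (Z : Finset ι) (ε : ι → ℝ) (hε : ∀ z ∈ Z, 0 < ε z) :
    ∃ δ : ℝ, 0 < δ ∧ ∀ z ∈ Z, δ ≤ ε z := by
  classical
  induction Z using Finset.induction_on with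
  | empty => exact ⟨1, one_pos, fun z hz => absurd hz (Finset.notMem_empty z)⟩
  | insert a s ha ih =>
    obtain ⟨δ, hδ, h⟩ := ih fun z hz => hε z (Finset.mem_insert_of_mem hz)
    refine ⟨min δ (ε a), lt_min hδ (hε a (Finset.mem_insert_self a s)), fun z hz => ?_⟩
    rcases Finset.mem_insert.1 hz with rfl | hz
    · exact min_le_right _ _
    · exact (min_le_left _ _).trans (h z hz)

end NSE

theorem t_SE (hI : S_CNTINT.{u}) (hD : S_SD.{u}) : S_SE.{u} := by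
  intro V _ _ _ Φ Ω Z B hΩ hb hΦ hB hdis hz
  have hproper : ProperSpace V := FiniteDimensional.proper ℝ V
  have hcl : ∀ z ∈ Z, closure (B z) ⊆ closure Ω := fun z hzZ => closure_mono (hB z hzZ).2
  have hA : Adm Φ Ω := by
    refine ⟨hΩ, hb, hΦ, fun x hx h0 => ?_⟩
    obtain ⟨z, hzZ, hxz⟩ := hz x (frontier_subset_closure hx) h0
    have h1 : x ∈ Ω := (hB z hzZ).2 hxz
    exact (hΩ.inter_frontier_eq ▸ (⟨h1, hx⟩ : x ∈ Ω ∩ frontier Ω) : x ∈ (∅ : Set V))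
  have hA' : ∀ z ∈ Z, Adm Φ (B z) := by
    intro z hzZ
    refine ⟨(hB z hzZ).1, hb.subset (hB z hzZ).2, hΦ.mono (hcl z hzZ), fun x hx h0 => ?_⟩
    obtain ⟨w, hwZ, hxw⟩ := hz x (hcl z hzZ (frontier_subset_closure hx)) h0
    by_cases hwz : z = w
    · subst hwz
      exact ((hB z hzZ).1.inter_frontier_eq ▸ (⟨hxw, hx⟩ : x ∈ B z ∩ frontier (B z)) :
        x ∈ (∅ : Set V))
    · obtain ⟨y, hy1, hy2⟩ := mem_closure_iff.1 (frontier_subset_closure hx) (B w)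
        (hB w hwZ).1 hxw
      exact Set.disjoint_left.1 (hdis z hzZ w hwZ hwz) hy2 hy1
  have hUo : IsOpen (⋃ z ∈ Z, B z) := isOpen_biUnion fun z hzZ => (hB z hzZ).1
  have hK : IsCompact (closure Ω \ ⋃ z ∈ Z, B z) := by
    refine Metric.isCompact_of_isClosed_isBounded (isClosed_closure.sdiff hUo) ?_
    exact hb.closure.subset sdiff_subset
  obtain ⟨m, hm, hmK⟩ := NSE.exists_lower hK (hΦ.mono sdiff_subset) (fun x hx h0 => by
    obtain ⟨z, hzZ, hxz⟩ := hz x hx.1 h0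
    exact hx.2 (mem_iUnion₂.2 ⟨z, hzZ, hxz⟩))
  obtain ⟨⟨ε₁, hε₁, h1⟩, h3⟩ := hD V Φ Ω hA
  have h2 : ∀ z, ∃ ε : ℝ, 0 < ε ∧ (z ∈ Z → ∀ Ψ : V → V, Reg Ψ (B z) →
      (∀ x ∈ closure (B z), ‖Ψ x - Φ x‖ < ε) → cnt Ψ (B z) = sdeg Φ (B z)) := by
    intro z
    by_cases hzZ : z ∈ Z
    · obtain ⟨⟨ε, hε, h⟩, -⟩ := hD V Φ (B z) (hA' z hzZ)
      exact ⟨ε, hε, fun _ => h⟩
    · exact ⟨1, one_pos, fun h => absurd h hzZ⟩
  choose ε hε h2 using h2
  obtain ⟨δ, hδ, hδε⟩ := NSE.exists_common Z ε fun z _ => hε z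
  obtain ⟨Ψ, hR, hΨ⟩ := h3 (min m (min ε₁ δ)) (lt_min hm (lt_min hε₁ hδ))
  have hR' : ∀ z ∈ Z, Reg Ψ (B z) := fun z hzZ => ⟨hR.smooth, fun x hx => hR.nd x (hcl z hzZ hx)⟩
  have e1 := h1 Ψ hR (fun x hx => (hΨ x hx).trans_le ((min_le_right _ _).trans (min_le_left _ _)))
  have e2 : ∀ z ∈ Z, cnt Ψ (B z) = sdeg Φ (B z) := fun z hzZ => h2 z hzZ Ψ (hR' z hzZ)
    (fun x hx => (hΨ x (hcl z hzZ hx)).trans_le
      (((min_le_right _ _).trans (min_le_right _ _)).trans (hδε z hzZ)))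
  -- no zeros of `Ψ` outside the `B z`
  have hno : ∀ x ∈ closure Ω, Ψ x = 0 → x ∈ ⋃ z ∈ Z, B z := by
    intro x hx h0
    by_contra hx'
    have h4 := hmK x ⟨hx, hx'⟩
    have h5 := hΨ x hx
    rw [h0, zero_sub, norm_neg] at h5
    exact absurd (h5.trans_le (min_le_left _ _)) (not_lt.2 h4)
  have hfr : ∀ x ∈ frontier Ω, Ψ x ≠ 0 := by
    intro x hx h0
    obtain ⟨z, hzZ, hxz⟩ := mem_iUnion₂.1 (hno x (frontier_subset_closure hx) h0)
    have h1 : x ∈ Ω := (hB z hzZ).2 hxz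
    exact (hΩ.inter_frontier_eq ▸ (⟨h1, hx⟩ : x ∈ Ω ∩ frontier Ω) : x ∈ (∅ : Set V))
  have hfin : {x | x ∈ Ω ∧ Ψ x = 0}.Finite := by
    let _ : MeasurableSpace V := borel V
    have _ : BorelSpace V := ⟨rfl⟩
    exact (hI V Measure.addHaar Ψ Ω hΩ hb hR hfr).1
  have e3 : {x | x ∈ Ω ∧ Ψ x = 0} = ⋃ z ∈ (Z : Set V), {x | x ∈ B z ∧ Ψ x = 0} := by
    ext x
    simp only [mem_ofPred_eq, mem_iUnion, Finset.mem_coe, exists_prop]
    constructor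
    · rintro ⟨hx, h0⟩
      obtain ⟨z, hzZ, hxz⟩ := mem_iUnion₂.1 (hno x (subset_closure hx) h0)
      exact ⟨z, hzZ, hxz, h0⟩
    · rintro ⟨z, hzZ, hxz, h0⟩
      exact ⟨(hB z hzZ).2 hxz, h0⟩
  rw [← e1, ← Finset.sum_congr rfl e2]
  unfold cnt
  rw [e3, finsum_mem_biUnion, finsum_mem_coe_finset]
  · intro z hzZ w hwZ hzw
    exact Set.disjoint_left.2 fun x hx hx' =>
      Set.disjoint_left.1 (hdis z hzZ w hwZ hzw) hx.1 hx'.1
  · exact Z.finite_toSet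
  · intro z hzZ
    exact hfin.subset fun x hx => ⟨(hB z hzZ).2 hx.1, hx.2⟩

end Pool.Agent.H963.HT
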