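import Pool.Agent.H963.HT.SdDef

/-! # HT-SH: homotopy invariance of the signed degree (helper44, after `D_A1` of helper746) -/

set_option autoImplicit false

open MeasureTheory Set Filter Topology Metric
open scoped ContDiff

namespace Pool.Agent.H963.HT

open Pool.Agent.H963.CJ

universe u

namespace NSH

/-- one step -/
theorem step (hC : S_CNTHOM.{u}) (hD : S_SD.{u}) {X : Type u} [NormedAddCommGroup X]
    [NormedSpace ℝ X] [FiniteDimensional ℝ X] {Φ Φ' : X → X} {Ω : Set X} (h : Adm Φ Ω)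
    (h' : Adm Φ' Ω) {m : ℝ} (hm : 0 < m) (hlow : ∀ x ∈ frontier Ω, m ≤ ‖Φ x‖)
    (hclose : ∀ x ∈ closure Ω, ‖Φ x - Φ' x‖ < m / 4) : sdeg Φ Ω = sdeg Φ' Ω := by
  obtain ⟨⟨ε, hε, hcnt⟩, hex⟩ := hD X Φ Ω h
  obtain ⟨⟨ε', hε', hcnt'⟩, hex'⟩ := hD X Φ' Ω h'
  obtain ⟨Ψ, hΨ, hΨc⟩ := hex (min ε (m / 8)) (lt_min hε (by linarith))
  obtain ⟨Ψ', hΨ', hΨ'c⟩ := hex' (min ε' (m / 8)) (lt_min hε' (by linarith))
  have e1 := hcnt Ψ hΨ fun x hx => (hΨc x hx).trans_le (min_le_left _ _)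
  have e2 := hcnt' Ψ' hΨ' fun x hx => (hΨ'c x hx).trans_le (min_le_left _ _)
  rw [← e1, ← e2]
  refine hC X Ψ Ψ' Ω h.op h.bd hΨ hΨ' fun x hx t ht h0 => ?_
  have hxc : x ∈ closure Ω := frontier_subset_closure hx
  have a1 : ‖Ψ x - Φ x‖ < m / 8 := (hΨc x hxc).trans_le (min_le_right _ _)
  have a2 : ‖Ψ' x - Φ' x‖ < m / 8 := (hΨ'c x hxc).trans_le (min_le_right _ _)
  have a3 := hclose x hxc
  have a4 := hlow x hx
  have h2 : Φ x = -((1 - t) • (Ψ x - Φ x) + t • ((Ψ' x - Φ' x) - (Φ x - Φ' x))) := by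
    have h3 : (1 - t) • (Ψ x - Φ x) + t • ((Ψ' x - Φ' x) - (Φ x - Φ' x)) =
        (Ψ x + t • (Ψ' x - Ψ x)) - Φ x := by
      module
    rw [h3, h0]
    abel
  have h4 : ‖Φ x‖ ≤ (1 - t) * (m / 8) + t * (m / 8 + m / 4) := by
    rw [h2, norm_neg]
    refine (norm_add_le _ _).trans (add_le_add ?_ ?_)
    · rw [norm_smul, Real.norm_eq_abs, abs_of_nonneg (by linarith [ht.2])]
      exact mul_le_mul_of_nonneg_left a1.le (by linarith [ht.2])
    · rw [norm_smul, Real.norm_eq_abs, abs_of_nonneg ht.1]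
      exact mul_le_mul_of_nonneg_left ((norm_sub_le _ _).trans (by linarith)) ht.1
  nlinarith [ht.1, ht.2]

end NSH

theorem t_SH (hC : S_CNTHOM.{u}) (hD : S_SD.{u}) : S_SH.{u} := by
  intro X _ _ _ H Ω hop hbd hcont hnz
  have : ProperSpace X := FiniteDimensional.proper ℝ X
  have hK : IsCompact (closure Ω) := hbd.isCompact_closure
  have hS : IsCompact (Icc (0 : ℝ) 1 ×ˢ closure Ω) := isCompact_Icc.prod hK
  have hF : IsCompact (Icc (0 : ℝ) 1 ×ˢ frontier Ω) :=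
    isCompact_Icc.prod (hK.of_isClosed_subset isClosed_frontier frontier_subset_closure)
  have hFS : Icc (0 : ℝ) 1 ×ˢ frontier Ω ⊆ Icc (0 : ℝ) 1 ×ˢ closure Ω :=
    prod_mono subset_rfl frontier_subset_closure
  obtain ⟨m, hm, hlow⟩ : ∃ m > (0 : ℝ), ∀ t ∈ Icc (0 : ℝ) 1, ∀ x ∈ frontier Ω, m ≤ ‖H t x‖ := by
    rcases (Icc (0 : ℝ) 1 ×ˢ frontier Ω).eq_empty_or_nonempty with h0 | h0
    · refine ⟨1, one_pos, fun t ht x hx => ?_⟩
      exact absurd (show ((t, x) : ℝ × X) ∈ (Icc (0 : ℝ) 1 ×ˢ frontier Ω) from ⟨ht, hx⟩)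
        (by rw [h0]; exact notMem_empty _)
    · obtain ⟨p, hp, hmin⟩ := hF.exists_isMinOn h0 (hcont.mono hFS).norm
      refine ⟨‖H p.1 p.2‖, norm_pos_iff.2 (hnz p.1 hp.1 p.2 hp.2), fun t ht x hx => ?_⟩
      exact hmin (show ((t, x) : ℝ × X) ∈ (Icc (0 : ℝ) 1 ×ˢ frontier Ω) from ⟨ht, hx⟩)
  have hadm : ∀ t ∈ Icc (0 : ℝ) 1, Adm (H t) Ω := by
    intro t ht
    refine ⟨hop, hbd, ?_, hnz t ht⟩
    have h1 : ContinuousOn (fun x : X => ((t, x) : ℝ × X)) (closure Ω) := by fun_prop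
    exact hcont.comp h1 fun x hx => ⟨ht, hx⟩
  have huc := hS.uniformContinuousOn_of_continuous hcont
  obtain ⟨δ, hδ, hδ'⟩ := Metric.uniformContinuousOn_iff.1 huc (m / 4) (by linarith)
  have hstep : ∀ t ∈ Icc (0 : ℝ) 1, ∀ t' ∈ Icc (0 : ℝ) 1, |t - t'| < δ →
      sdeg (H t) Ω = sdeg (H t') Ω := by
    intro t ht t' ht' htt
    refine NSH.step hC hD (hadm t ht) (hadm t' ht') hm (hlow t ht) fun x hx => ?_
    have h1 := hδ' (t, x) ⟨ht, hx⟩ (t', x) ⟨ht', hx⟩ (by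
      rw [Prod.dist_eq, dist_self, Real.dist_eq]
      exact max_lt htt hδ)
    rwa [dist_eq_norm] at h1
  obtain ⟨n, hn⟩ := exists_nat_one_div_lt hδ
  have hn0 : (0 : ℝ) < n + 1 := by positivity
  have hind : ∀ k : ℕ, k ≤ n + 1 → sdeg (H 0) Ω = sdeg (H ((k : ℝ) / (n + 1))) Ω := by
    intro k
    induction k with
    | zero =>
      intro _
      rw [Nat.cast_zero, zero_div]
    | succ k ih =>
      intro hk
      rw [ih (by omega)]
      have hk' : ((k : ℝ)) + 1 ≤ n + 1 := by exact_mod_cast hk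
      have hk0 : (0 : ℝ) ≤ k := Nat.cast_nonneg k
      refine hstep _ ⟨by positivity, ?_⟩ _ ⟨by positivity, ?_⟩ ?_
      · rw [div_le_one hn0]
        linarith
      · rw [div_le_one hn0]
        push_cast
        exact hk'
      · have e1 : (k : ℝ) / (n + 1) - ((k + 1 : ℕ) : ℝ) / (n + 1) = -(1 / (n + 1)) := by
          push_cast
          field_simp
          ring
        rw [e1, abs_neg, abs_of_pos (by positivity)]
        exact hn
  have h1 := hind (n + 1) le_rfl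
  rw [h1]
  congr 2
  push_cast
  rw [div_self hn0.ne']

end Pool.Agent.H963.HT
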