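import Pool.Agent.H963.HT.SdDef

/-!
# Signed degree, SL: the index of a nondegenerate zero is the sign of the determinant
-/

set_option autoImplicit false
set_option linter.unusedSectionVars false
set_option linter.unusedVariables false

open MeasureTheory Set Filter Topology Metric
open scoped ContDiff

universe u

namespace Pool.Agent.H963.HT.NSL

open Pool.Agent.H963.CJ

variable {V : Type u} [NormedAddCommGroup V] [NormedSpace ℝ V] [FiniteDimensional ℝ V]

lemma fderiv_aff (A : V →L[ℝ] V) (a x : V) : fderiv ℝ (fun x : V => A (x - a)) x = A := by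
  have h1 : HasFDerivAt (fun x : V => x - a) (ContinuousLinearMap.id ℝ V) x :=
    (hasFDerivAt_id x).sub_const a
  have h2 := A.hasFDerivAt (x := x - a)
  have h3 : HasFDerivAt (fun x : V => A (x - a)) (A.comp (ContinuousLinearMap.id ℝ V)) x :=
    h2.comp x h1
  rw [h3.fderiv, ContinuousLinearMap.comp_id]

lemma reg_aff (A : V →L[ℝ] V) (hA : A.det ≠ 0) (a : V) (Ω : Set V) :
    Reg (fun x : V => A (x - a)) Ω := by
  refine ⟨A.contDiff.comp (contDiff_id.sub contDiff_const), fun x _ _ => ?_⟩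
  rw [fderiv_aff]
  exact hA

lemma cnt_aff (A : V →L[ℝ] V) (hinj : ∀ x, A x = 0 → x = 0) (a : V) {Ω : Set V} (ha : a ∈ Ω) :
    cnt (fun x : V => A (x - a)) Ω = ((SignType.sign A.det : SignType) : ℤ) := by
  unfold cnt
  have h1 : {x : V | x ∈ Ω ∧ A (x - a) = 0} = {a} := by
    ext x
    rw [mem_ofPred_eq, mem_singleton_iff]
    constructor
    · rintro ⟨-, h⟩
      exact sub_eq_zero.1 (hinj _ h)
    · rintro rfl
      exact ⟨ha, by rw [sub_self, map_zero]⟩
  rw [h1, finsum_mem_singleton, fderiv_aff]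

end Pool.Agent.H963.HT.NSL

namespace Pool.Agent.H963.HT

open Pool.Agent.H963.CJ Pool.Agent.H963.HT.NSL

theorem t_SL (hD : S_SD.{u}) (hH : S_SH.{u}) (hX : S_EX.{u}) : S_SL.{u} := by
  intro V _ _ _ Φ a hC hΦa hdet
  have hder : HasFDerivAt Φ (fderiv ℝ Φ a) a :=
    (hC.differentiableAt one_ne_zero).hasFDerivAt
  generalize fderiv ℝ Φ a = A at hdet hder ⊢
  -- the isomorphism
  let e : V ≃L[ℝ] V := A.toContinuousLinearEquivOfDetNeZero hdet
  have he : ∀ x, e x = A x := fun x => rfl
  set M : ℝ := ‖(e.symm : V →L[ℝ] V)‖ + 1 with hM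
  have hM0 : 0 < M := by positivity
  have hlow : ∀ x : V, ‖x‖ ≤ M * ‖A x‖ := by
    intro x
    have h3 : ‖e.symm (e x)‖ ≤ ‖(e.symm : V →L[ℝ] V)‖ * ‖e x‖ :=
      (e.symm : V →L[ℝ] V).le_opNorm (e x)
    rw [e.symm_apply_apply, he] at h3
    refine h3.trans (mul_le_mul_of_nonneg_right ?_ (norm_nonneg _))
    rw [hM]
    linarith
  have hinj : ∀ x : V, A x = 0 → x = 0 := by
    intro x hx
    have h3 := hlow x
    rw [hx, norm_zero, mul_zero] at h3
    exact norm_le_zero_iff.1 h3
  -- a small ball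
  have hlit := hder.isLittleO.def (show (0 : ℝ) < 1 / (2 * M) by positivity)
  have hcev : ∀ᶠ x in 𝓝 a, ContinuousAt Φ x := by
    have h3 := hC.eventually (by simp)
    exact h3.mono fun x hx => hx.continuousAt
  obtain ⟨ρ, hρ, hball⟩ := Metric.mem_nhds_iff.1 (Filter.inter_mem hlit hcev)
  set r₀ : ℝ := ρ / 2 with hr₀
  have hr0 : 0 < r₀ := by positivity
  have hsub : closedBall a r₀ ⊆ ball a ρ := closedBall_subset_ball (by rw [hr₀]; linarith)
  have hest : ∀ x ∈ closedBall a r₀, ‖Φ x - A (x - a)‖ ≤ 1 / (2 * M) * ‖x - a‖ := by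
    intro x hx
    have h3 := (hball (hsub hx)).1
    rw [mem_ofPred_eq] at h3
    rwa [hΦa, sub_zero] at h3
  have hcont : ContinuousOn Φ (closedBall a r₀) := fun x hx =>
    ContinuousAt.continuousWithinAt (hball (hsub hx)).2
  have key : ∀ t ∈ Icc (0 : ℝ) 1, ∀ x ∈ closedBall a r₀,
      A (x - a) + t • (Φ x - A (x - a)) = 0 → x = a := by
    intro t ht x h4 h0
    have h5 := hest x h4
    have h6 := hlow (x - a)
    have h7 : A (x - a) = -(t • (Φ x - A (x - a))) := eq_neg_of_add_eq_zero_left h0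
    have h8 : ‖A (x - a)‖ ≤ ‖Φ x - A (x - a)‖ := by
      rw [h7, norm_neg, norm_smul, Real.norm_of_nonneg ht.1]
      rw [← h7]
      exact mul_le_of_le_one_left (norm_nonneg _) ht.2
    have h9 : ‖x - a‖ ≤ M * (1 / (2 * M) * ‖x - a‖) :=
      h6.trans (mul_le_mul_of_nonneg_left (h8.trans h5) hM0.le)
    have h10 : M * (1 / (2 * M) * ‖x - a‖) = ‖x - a‖ / 2 := by
      field_simp
    rw [h10] at h9
    have h11 : ‖x - a‖ ≤ 0 := by linarith
    exact sub_eq_zero.1 (norm_le_zero_iff.1 h11)
  refine ⟨r₀, hr0, hcont, hΦa, fun x hx h0 => ?_, fun r hr hrr => ?_⟩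
  · refine key 1 ⟨zero_le_one, le_rfl⟩ x hx ?_
    rw [one_smul, add_sub_cancel, h0]
  · have hcl : closure (ball a r) ⊆ closedBall a r₀ :=
      closure_ball_subset_closedBall.trans (closedBall_subset_closedBall hrr)
    have hfr : ∀ x ∈ frontier (ball a r), x ∈ closedBall a r₀ ∧ x ≠ a := by
      intro x hx
      refine ⟨hcl (frontier_subset_closure hx), ?_⟩
      rintro rfl
      have h3 := frontier_ball_subset_sphere hx
      rw [mem_sphere_iff_norm, sub_self, norm_zero] at h3
      linarith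
    have hnz : ∀ t ∈ Icc (0 : ℝ) 1, ∀ x ∈ frontier (ball a r),
        A (x - a) + t • (Φ x - A (x - a)) ≠ 0 := fun t ht x hx h0 =>
      (hfr x hx).2 (key t ht x (hfr x hx).1 h0)
    -- homotopy
    have e2 := hH V (fun t x => A (x - a) + t • (Φ x - A (x - a))) (ball a r) isOpen_ball
      isBounded_ball (by
        have hA : Continuous fun p : ℝ × V => A (p.2 - a) :=
          A.continuous.comp (continuous_snd.sub continuous_const)
        have hΦ : ContinuousOn (fun p : ℝ × V => Φ p.2) (Icc (0 : ℝ) 1 ×ˢ closure (ball a r)) :=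
          hcont.comp continuous_snd.continuousOn fun p hp => hcl hp.2
        exact hA.continuousOn.add (continuous_fst.continuousOn.smul (hΦ.sub hA.continuousOn))) hnz
    have e3 : (fun x : V => A (x - a) + (0 : ℝ) • (Φ x - A (x - a))) = fun x => A (x - a) := by
      funext x
      rw [zero_smul, add_zero]
    have e4 : (fun x : V => A (x - a) + (1 : ℝ) • (Φ x - A (x - a))) = Φ := by
      funext x
      rw [one_smul, add_sub_cancel]
    rw [e3, e4] at e2
    rw [← e2]
    -- the affine map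
    have hadm : Adm (fun x : V => A (x - a)) (ball a r) := by
      refine ⟨isOpen_ball, isBounded_ball,
        (A.continuous.comp (continuous_id.sub continuous_const)).continuousOn, fun x hx h0 => ?_⟩
      have h3 := hnz 0 ⟨le_rfl, zero_le_one⟩ x hx
      rw [zero_smul, add_zero] at h3
      exact h3 h0
    obtain ⟨ε, hε, h3⟩ := (hD V (fun x : V => A (x - a)) (ball a r) hadm).1
    have h4 := h3 (fun x : V => A (x - a)) (reg_aff A hdet a _) (fun x _ => by
      rw [sub_self, norm_zero]
      exact hε)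
    rw [← h4, cnt_aff A hinj a (mem_ball_self hr)]

end Pool.Agent.H963.HT
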