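import Pool.Agent.H963.HT.SdDef
import Pool.Agent.H963.CJ.D_A3

/-!
# The product formula for the index of an isolated zero
-/

set_option autoImplicit false
set_option linter.unusedSectionVars false

open MeasureTheory Set Filter Topology Metric
open scoped ContDiff

namespace Pool.Agent.H963.HT

open Pool.Agent.H963.CJ

universe u

namespace NSP

open Pool.Agent.H963.CJ.DA3

/-- a good approximation -/
lemma approx (hI : S_CNTINT.{u}) (hD : S_SD.{u}) {X : Type u} [NormedAddCommGroup X]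
    [NormedSpace ℝ X] [FiniteDimensional ℝ X] {Φ : X → X} {Ω : Set X} (h : Adm Φ Ω) (ε : ℝ)
    (hε : 0 < ε) : ∃ Ψ : X → X, Reg Ψ Ω ∧ (∀ x ∈ closure Ω, ‖Ψ x - Φ x‖ < ε) ∧
      {x | x ∈ Ω ∧ Ψ x = 0}.Finite ∧ cnt Ψ Ω = sdeg Φ Ω := by
  obtain ⟨⟨ε₁, hε₁, h1⟩, h2⟩ := hD X Φ Ω h
  have hfr : IsCompact (frontier Ω) :=
    (compact_closure h.bd).of_isClosed_subset isClosed_frontier frontier_subset_closure
  obtain ⟨m, hm, hlow⟩ := exists_lower hfr (h.cont.mono frontier_subset_closure) h.nz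
  obtain ⟨Ψ, hΨ, hclose⟩ := h2 (min ε (min ε₁ m)) (lt_min hε (lt_min hε₁ hm))
  refine ⟨Ψ, hΨ, fun x hx => lt_of_lt_of_le (hclose x hx) (min_le_left _ _), ?_, ?_⟩
  · let _ : MeasurableSpace X := borel X
    have : BorelSpace X := ⟨rfl⟩
    refine (hI X Measure.addHaar Ψ Ω h.op h.bd hΨ ?_).1
    intro x hx hz
    have h3 := lt_of_lt_of_le (hclose x (frontier_subset_closure hx))
      ((min_le_right _ _).trans (min_le_right _ _))
    rw [hz, zero_sub, norm_neg] at h3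
    exact absurd (hlow x hx) (not_le.2 h3)
  · exact h1 Ψ hΨ fun x hx => lt_of_lt_of_le (hclose x hx)
      ((min_le_right _ _).trans (min_le_left _ _))

/-- admissibility on small balls -/
lemma adm_ball {X : Type u} [NormedAddCommGroup X] [NormedSpace ℝ X] [FiniteDimensional ℝ X]
    {Φ : X → X} {a : X} {r₀ r : ℝ} (hc : ContinuousOn Φ (closedBall a r₀))
    (hz : ∀ x ∈ closedBall a r₀, Φ x = 0 → x = a) (hr : 0 < r) (hr₀ : r ≤ r₀) :
    Adm Φ (ball a r) := by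
  have hsub : closure (ball a r) ⊆ closedBall a r₀ :=
    closure_ball_subset_closedBall.trans (closedBall_subset_closedBall hr₀)
  refine ⟨isOpen_ball, isBounded_ball, hc.mono hsub, fun x hx h0 => ?_⟩
  have hxa : x = a := hz x (hsub (frontier_subset_closure hx)) h0
  rw [isOpen_ball.frontier_eq] at hx
  apply hx.2
  rw [hxa]
  exact mem_ball_self hr

end NSP

open Pool.Agent.H963.CJ.DA3

theorem t_SP (hI : S_CNTINT.{u}) (hD : S_SD.{u}) (_hX : S_EX.{u}) : S_SP.{u} := by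
  intro V _ _ _ Φ₁ Φ₂ a₁ a₂ σ₁ σ₂ h1 h2
  obtain ⟨r₁, hr₁, hc1, hz1, hu1, hd1⟩ := h1
  obtain ⟨r₂, hr₂, hc2, hz2, hu2, hd2⟩ := h2
  have hc : ContinuousOn (pm Φ₁ Φ₂) (closedBall (a₁, a₂) (min r₁ r₂)) := by
    rw [← closedBall_prod_same]
    have e1 : ContinuousOn Φ₁ (closedBall a₁ (min r₁ r₂)) :=
      hc1.mono (closedBall_subset_closedBall (min_le_left _ _))
    have e2 : ContinuousOn Φ₂ (closedBall a₂ (min r₁ r₂)) :=
      hc2.mono (closedBall_subset_closedBall (min_le_right _ _))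
    exact (e1.comp continuousOn_fst fun p hp => hp.1).prodMk
      (e2.comp continuousOn_snd fun p hp => hp.2)
  have hu : ∀ p ∈ closedBall (a₁, a₂) (min r₁ r₂), pm Φ₁ Φ₂ p = 0 → p = (a₁, a₂) := by
    intro p hp h0
    rw [← closedBall_prod_same] at hp
    have h3 := Prod.mk_eq_zero.1 h0
    have e1 := hu1 p.1 (closedBall_subset_closedBall (min_le_left _ _) hp.1) h3.1
    have e2 := hu2 p.2 (closedBall_subset_closedBall (min_le_right _ _) hp.2) h3.2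
    exact Prod.ext e1 e2
  refine ⟨min r₁ r₂, lt_min hr₁ hr₂, hc, ?_, hu, ?_⟩
  · show (Φ₁ a₁, Φ₂ a₂) = 0
    rw [hz1, hz2]
    rfl
  · intro r hr hrr
    show sdeg (pm Φ₁ Φ₂) (ball (a₁, a₂) r) = σ₁ * σ₂
    have had1 : Adm Φ₁ (ball a₁ r) := NSP.adm_ball hc1 hu1 hr (hrr.trans (min_le_left _ _))
    have had2 : Adm Φ₂ (ball a₂ r) := NSP.adm_ball hc2 hu2 hr (hrr.trans (min_le_right _ _))
    have had : Adm (pm Φ₁ Φ₂) (ball (a₁, a₂) r) := NSP.adm_ball hc hu hr hrr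
    rw [← ball_prod_same] at had ⊢
    obtain ⟨⟨ε, hε, h3⟩, -⟩ := hD (V × V) _ _ had
    obtain ⟨Ψ₁, hr1, hcl1, hf1, hk1⟩ := NSP.approx hI hD had1 ε hε
    obtain ⟨Ψ₂, hr2, hcl2, hf2, hk2⟩ := NSP.approx hI hD had2 ε hε
    rw [← h3 (pm Ψ₁ Ψ₂) (reg_prod hr1 hr2), cnt_prod hr1.smooth hr2.smooth hf1 hf2, hk1, hk2,
      hd1 r hr (hrr.trans (min_le_left _ _)), hd2 r hr (hrr.trans (min_le_right _ _))]
    intro p hp
    rw [closure_prod_eq] at hp
    have h5 : pm Ψ₁ Ψ₂ p - pm Φ₁ Φ₂ p = (Ψ₁ p.1 - Φ₁ p.1, Ψ₂ p.2 - Φ₂ p.2) := rfl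
    rw [h5, Prod.norm_mk]
    exact max_lt (hcl1 _ hp.1) (hcl2 _ hp.2)

end Pool.Agent.H963.HT
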