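import Pool.Agent.H963.HT.Fin
import Pool.Agent.H963.HT.T_SD
import Pool.Agent.H963.HT.T_SH
import Pool.Agent.H963.HT.T_SE
import Pool.Agent.H963.HT.T_SA
import Pool.Agent.H963.HT.T_EX
import Pool.Agent.H963.HT.T_SL
import Pool.Agent.H963.HT.T_IH
import Pool.Agent.H963.HT.T_SP
import Pool.Agent.H963.HT.T_IC
import Pool.Agent.H963.HT.T_CNT
import Pool.Agent.H963.HT.T_LP
import Pool.Agent.H963.HT.T_CO
import Pool.Agent.H963.HT.T_HM
import Pool.Agent.H963.HT.T_EQ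
import Pool.Agent.H963.HT.T_CPT
import Pool.Agent.H963.HT.T_MOD
import Pool.Agent.H963.HT.T_BD
import Pool.Agent.H963.HT.T_IB
import Pool.Agent.H963.HT.T_IT
import Pool.Agent.H963.HT.T_CHF
import Pool.Agent.H963.HT.T_BS
import Pool.Agent.H963.HT.T_HF
import Pool.Agent.H963.HT.T_O1
import Pool.Agent.H963.HT.T_DAG
import Pool.Agent.H963.HT.T_IG
import Pool.Agent.H963.HT.T_LI
import Pool.Agent.H963.HT.T_LIN
import Pool.Agent.H963.HT.T_O2
import Pool.Agent.H963.HT.T_SG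
import Pool.Agent.H963.CJ.D_APX
import Pool.Agent.H963.CJ.D_SARD
import Pool.Agent.H963.CJ.D_CNTINT
import Pool.Agent.H963.CJ.D_CNTHOM

/-!
# The statements, with all the hypotheses discharged
-/

set_option autoImplicit false

namespace Pool.Agent.H963.HT

universe u v w x

theorem a_HOM : Pool.Agent.H963.CJ.S_CNTHOM.{u} := Pool.Agent.H963.CJ.t_CNTHOM Pool.Agent.H963.CJ.t_CNTINT
theorem a_SD : S_SD.{u} := t_SD Pool.Agent.H963.CJ.t_APX Pool.Agent.H963.CJ.t_SARD a_HOM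
theorem a_SH : S_SH.{u} := t_SH a_HOM a_SD
theorem a_SE : S_SE.{u} := t_SE Pool.Agent.H963.CJ.t_CNTINT a_SD
theorem a_SA : S_SA.{u} := t_SA a_SE
theorem a_EX : S_EX.{u} := t_EX a_SE
theorem a_SL : S_SL.{u} := t_SL a_SD a_SH a_EX
theorem a_IH : S_IH.{u} := t_IH a_SH a_EX
theorem a_SP : S_SP.{u} := t_SP Pool.Agent.H963.CJ.t_CNTINT a_SD a_EX
theorem a_IC : S_IC.{u} := t_IC a_EX a_SL a_IH a_SP
theorem a_CNT : S_CNT.{u} := t_CNT a_SH a_SA
theorem a_LI : S_LI.{u, v, w} := t_LI a_SL a_IC a_EX t_IG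
theorem a_O2 : S_O2.{u, v} := t_O2 t_DAG
theorem a_SG : S_SG.{u, v} := t_SG t_O1 a_O2 t_LIN t_HF
theorem a_BS : S_BS.{w, x} := t_BS t_IT
theorem a_CHF : S_CHF.{w} := t_CHF t_IT t_IB.{w, 0}

end Pool.Agent.H963.HT
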