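import Pool.Agent.H963.HT.T_CNT

/-!
# Equal numbers of zeros at the two ends of a homotopy
-/

set_option autoImplicit false
set_option linter.unusedSectionVars false

open MeasureTheory Set Filter Topology Metric
open scoped ContDiff

namespace Pool.Agent.H963.HT

open Pool.Agent.H963.CJ

universe u

namespace NCNT

variable {V : Type u} [NormedAddCommGroup V] [NormedSpace ℝ V] [FiniteDimensional ℝ V]

/-- the degree of a map all of whose zeros have the same index -/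
theorem deg_const (hA : S_SA.{u}) (F : V → V) (hF : Continuous F) (R : ℝ) (σ : ℤ)
    (hR : ∀ x, F x = 0 → ‖x‖ < R) (hI : ∀ a, F a = 0 → Idx F a σ) :
    {x | F x = 0}.Finite ∧ sdeg F (ball (0 : V) R) = σ * ({x | F x = 0}.ncard : ℤ) := by
  have hfin : {x | F x = 0}.Finite := by
    refine finite_zeros F hF R hR ?_
    intro x hx
    obtain ⟨r, hr, -, -, h3, -⟩ := hI x hx
    exact ⟨r, hr, h3⟩
  refine ⟨hfin, ?_⟩
  have e1 := hA V F (ball (0 : V) R) hfin.toFinset σ isOpen_ball isBounded_ball hF.continuousOn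
    (fun x _ hx => hfin.mem_toFinset.2 hx)
    (fun z hzz => by
      rw [mem_ball, dist_zero_right]
      exact hR z (hfin.mem_toFinset.1 hzz))
    (fun z hzz => hI z (hfin.mem_toFinset.1 hzz))
  rw [e1, Set.ncard_eq_toFinset_card _ hfin]

end NCNT

theorem cnt_eq (hH : S_SH.{u}) (hA : S_SA.{u}) (V : Type u) [NormedAddCommGroup V]
    [NormedSpace ℝ V] [FiniteDimensional ℝ V] (H : ℝ → V → V) (R₀ : ℝ) (σ τ : ℤ)
    (hσ : |σ| = 1) (hτ : |τ| = 1)
    (hc : ContinuousOn (fun p : ℝ × V => H p.1 p.2) (Icc (0 : ℝ) 1 ×ˢ (univ : Set V)))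
    (hz : ∀ t ∈ Icc (0 : ℝ) 1, ∀ x, H t x = 0 → ‖x‖ < R₀)
    (h1 : ∀ a, H 1 a = 0 → Idx (H 1) a σ) (h0 : ∀ a, H 0 a = 0 → Idx (H 0) a τ) :
    {x | H 1 x = 0}.Finite ∧ {x | H 1 x = 0}.encard = {x | H 0 x = 0}.encard := by
  have m0 : (0 : ℝ) ∈ Icc (0 : ℝ) 1 := ⟨le_refl 0, zero_le_one⟩
  have m1 : (1 : ℝ) ∈ Icc (0 : ℝ) 1 := ⟨zero_le_one, le_refl 1⟩
  have c0 := NCNT.cont_slice H hc 0 m0
  have c1 := NCNT.cont_slice H hc 1 m1
  have ho : IsOpen (ball (0 : V) R₀) := isOpen_ball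
  have hin : ∀ t ∈ Icc (0 : ℝ) 1, ∀ x, H t x = 0 → x ∈ ball (0 : V) R₀ := by
    intro t ht x hx
    rw [mem_ball, dist_zero_right]
    exact hz t ht x hx
  obtain ⟨f1, d1⟩ := NCNT.deg_const hA (H 1) c1 R₀ σ (hz 1 m1) h1
  obtain ⟨f0, d0⟩ := NCNT.deg_const hA (H 0) c0 R₀ τ (hz 0 m0) h0
  have hS := hH V H (ball (0 : V) R₀) ho isBounded_ball
    (hc.mono (prod_mono subset_rfl (subset_univ _)))
    (by
      intro t ht x hx hx0
      have h2 := hin t ht x hx0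
      have h3 : x ∉ interior (ball (0 : V) R₀) := hx.2
      rw [ho.interior_eq] at h3
      exact h3 h2)
  refine ⟨f1, ?_⟩
  rw [← f1.cast_ncard_eq, ← f0.cast_ncard_eq]
  rw [d1, d0] at hS
  have h2 := congrArg abs hS
  rw [abs_mul, abs_mul, hσ, hτ, one_mul, one_mul, abs_of_nonneg (Int.natCast_nonneg _),
    abs_of_nonneg (Int.natCast_nonneg _)] at h2
  have h3 : {x | H 0 x = 0}.ncard = {x | H 1 x = 0}.ncard := by exact_mod_cast h2
  rw [h3]

end Pool.Agent.H963.HT
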