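import Pool.Graph.R_pool_sql_team_seeded_620a6dc7.H223.CE.Def

/-!
# Coverings, lifts of homotopies and large-scale geometry (statements)

`CoarselyHyperbolic` is defined in `Pool/Graph/R_pool_sql_team_seeded_620a6dc7/H223/CE/Def.lean`.
Mathlib: `Mathlib/Topology/Homotopy/Lifting.lean` (`IsCoveringMap.existsUnique_continuousMap_lifts`,
`IsCoveringMap.eq_of_comp_eq`, `IsCoveringMap.liftHomotopy`).
Each `S_...` is a statement; a task asks for a proof of one of them.
-/

set_option autoImplicit false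
set_option linter.unusedSectionVars false

open Set Filter Topology Metric
open scoped unitInterval

namespace Pool.Agent.H963.HT

open Pool.Agent.H223.CE

universe u v w x

/-- **LP.** A covering space of a manifold is locally path connected.  Proof: `P` is a local
homeomorphism onto a locally path connected space (`ChartedSpace.locallyPathConnectedSpace` or
similar). -/
def S_LP : Prop := ∀ (E : Type u) [NormedAddCommGroup E] [NormedSpace ℝ E]
  (M : Type v) [TopologicalSpace M] [ChartedSpace E M] (X : Type w) [TopologicalSpace X] (P : X → M),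
  IsCoveringMap P → LocallyPathConnectedSpace X

/-- **CO.** Two simply connected coverings of `M`, one of them by a vector space, are homeomorphic.
Proof: choose `x₀`, `e₀` with `π e₀ = P x₀`, lift `P` through `π` to `φ` with `φ x₀ = e₀` and `π` through `P`
to `χ` with `χ e₀ = x₀`; then `χ ∘ φ` and `id` are two lifts of `P` through `P` which agree at `x₀`, hence
equal (`IsCoveringMap.eq_of_comp_eq`), and the same for `φ ∘ χ`. -/
def S_CO : Prop := ∀ (E : Type u) [NormedAddCommGroup E] [NormedSpace ℝ E] [FiniteDimensional ℝ E]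
  (M : Type v) [TopologicalSpace M] [T2Space M] (X : Type w) [TopologicalSpace X] [T2Space X]
  [SimplyConnectedSpace X] [LocallyPathConnectedSpace X] (P : X → M) (π : E → M),
  IsCoveringMap P → IsCoveringMap π → Function.Surjective π → ∃ φ : X ≃ₜ E, ∀ x, π (φ x) = P x

/-- **HM.** A lift of a homeomorphism to a simply connected covering is a homeomorphism.
Proof: choose `x₀`, let `G` be the lift of `f.symm ∘ P` through `P` with `G (F x₀) = x₀`; then `G ∘ F` and
`F ∘ G` are lifts of `P` which agree with `id` at `x₀` and at `F x₀`. -/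
def S_HM : Prop := ∀ (M : Type v) [TopologicalSpace M] [T2Space M] (X : Type w) [TopologicalSpace X]
  [T2Space X] [SimplyConnectedSpace X] [LocallyPathConnectedSpace X] (P : X → M) (f : M ≃ₜ M)
  (F : C(X, X)), IsCoveringMap P → (∀ x, P (F x) = f (P x)) → ∃ F' : X ≃ₜ X, ∀ x, F' x = F x

/-- **EQ.** Lifted homotopies are equivariant.  Proof: for fixed `γ`, `x` both sides are, as functions of
`t`, lifts of the path `t ↦ k (t, P x)`, and they agree at `t = 0` (`IsCoveringMap.eq_of_comp_eq`, the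
unit interval is connected). -/
def S_EQ : Prop := ∀ (M : Type v) [TopologicalSpace M] (X : Type w) [TopologicalSpace X]
  (Γ : Type x) [Group Γ] [MulAction Γ X] (P : X → M) (k : C(I × M, M)) (Φ : C(I × X, X))
  (G : X → X) (φ : Γ → Γ), IsCoveringMap P → (∀ γ : Γ, Continuous fun x : X => γ • x) →
  (∀ (γ : Γ) (x : X), P (γ • x) = P x) → (∀ t x, P (Φ (t, x)) = k (t, P x)) →
  (∀ x, Φ (0, x) = G x) → (∀ (γ : Γ) (x : X), G (γ • x) = φ γ • G x) →
  ∀ (t : I) (γ : Γ) (x : X), Φ (t, γ • x) = φ γ • Φ (t, x)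

/-- **CPT.** The deck group of a covering of a compact space acts cocompactly.  Proof: `P` is an open
map, so the `P (ball x₀ n)` are an increasing open cover of the compact space `M`. -/
def S_CPT : Prop := ∀ (M : Type v) [TopologicalSpace M] [CompactSpace M] (X : Type w) [MetricSpace X]
  (Γ : Type x) [Group Γ] [MulAction Γ X] (P : X → M), IsCoveringMap P → Function.Surjective P →
  (∀ x y : X, P x = P y ↔ ∃ γ : Γ, γ • x = y) → ∀ x₀ : X, ∃ R₀ : ℝ,
    ∀ x : X, ∃ γ : Γ, dist (γ • x) x₀ ≤ R₀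

/-- **MOD.** Equivariant continuous maps are bounded at large scale.  Proof: move `x` into the compact
ball of radius `R₀` around `x₀` by an element `γ`; then `y` goes to the compact ball of radius `R₀ + r`, on
which `Ψ` is bounded. -/
def S_MOD : Prop := ∀ (X : Type w) [MetricSpace X] [ProperSpace X] (Γ : Type x) [Group Γ]
  [MulAction Γ X] [IsIsometricSMul Γ X] (Ψ : X → X) (φ : Γ → Γ) (x₀ : X) (R₀ : ℝ), Continuous Ψ →
  (∀ x : X, ∃ γ : Γ, dist (γ • x) x₀ ≤ R₀) → (∀ (γ : Γ) (x : X), Ψ (γ • x) = φ γ • Ψ x) →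
  ∀ r : ℝ, ∃ r' : ℝ, ∀ x y : X, dist x y ≤ r → dist (Ψ x) (Ψ y) ≤ r'

/-- **BD.** An equivariant homotopy moves the points by a bounded distance.  Proof: the distance of
`Φ (t, x)` and `Φ (0, x)` is invariant under `x ↦ γ • x` and continuous, hence bounded (compact ball). -/
def S_BD : Prop := ∀ (X : Type w) [MetricSpace X] [ProperSpace X] (Γ : Type x) [Group Γ]
  [MulAction Γ X] [IsIsometricSMul Γ X] (Φ : C(I × X, X)) (φ : Γ → Γ) (x₀ : X) (R₀ : ℝ),
  (∀ x : X, ∃ γ : Γ, dist (γ • x) x₀ ≤ R₀) →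
  (∀ (t : I) (γ : Γ) (x : X), Φ (t, γ • x) = φ γ • Φ (t, x)) →
  ∃ B : ℝ, ∀ (t : I) (x : X), dist (Φ (t, x)) (Φ (0, x)) ≤ B

/-- **IB.** Iterates of nearby maps.  Proof: induction on `n`:
`Φ_t^(n+1) x = Φ_t (Φ_t^n x)` is `B`-close to `G (Φ_t^n x)`, which is boundedly close to `G (G^n x)` by
the modulus of `G` (`Function.iterate_succ_apply'`). -/
def S_IB : Prop := ∀ (X : Type w) [MetricSpace X] (J : Type x) (Φ : J → X → X) (G : X → X) (B : ℝ),
  (∀ (t : J) (x : X), dist (Φ t x) (G x) ≤ B) →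
  (∀ r : ℝ, ∃ r' : ℝ, ∀ x y : X, dist x y ≤ r → dist (G x) (G y) ≤ r') →
  ∀ n : ℕ, ∃ B' : ℝ, ∀ (t : J) (x : X), dist ((Φ t)^[n] x) (G^[n] x) ≤ B'

/-- **IT.** Coarse expansion for multiples.  Proof: let `d = dist x y ≥ max R 1`; say the forward distance
`d₁` of `G^N x, G^N y` is at least `2 d`.  Apply the hypothesis to this pair: its backward distance is
`d < 2 d₁`, so the forward distance of `G^(2N)` is `≥ 2 d₁ ≥ 4 d`, and so on (induction on `k` with
the statement: the distance at time `k N` is at least twice the one at time `(k - 1) N`).  The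
other case is the same for `G.symm`. -/
def S_IT : Prop := ∀ (X : Type w) [MetricSpace X] (G : X ≃ₜ X) (N : ℕ) (R : ℝ),
  (∀ x y : X, R ≤ dist x y →
    2 * dist x y ≤ max (dist (G^[N] x) (G^[N] y)) (dist (G.symm^[N] x) (G.symm^[N] y))) →
  ∀ k : ℕ, 1 ≤ k → ∀ x y : X, max R 1 ≤ dist x y →
    2 ^ k * dist x y ≤ max (dist (G^[k * N] x) (G^[k * N] y))
      (dist (G.symm^[k * N] x) (G.symm^[k * N] y))

/-- **CHF.** Coarse hyperbolicity is inherited by homeomorphisms at bounded distance.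
Proof: by `S_IT` with `k = 2` one has `4 d(x, y) ≤ max (...)` for `G` and `2 N`; `F^(2N)` is at bounded
distance from `G^(2N)` (as in `S_IB`), and `F.symm` is at bounded distance from `G.symm`: with
`y = F.symm x`, `d(y, G.symm x) = d(G.symm (G y), G.symm (F y)) ≤ ω'(B)`.  So
`max (...) ≥ 4 d - 2 B' ≥ 2 d` for `F` if `d ≥ B'`. -/
def S_CHF : Prop := ∀ (X : Type w) [MetricSpace X] (F G : X ≃ₜ X) (B : ℝ), CoarselyHyperbolic G →
  (∀ x, dist (F x) (G x) ≤ B) →
  (∀ r : ℝ, ∃ r' : ℝ, ∀ x y : X, dist x y ≤ r → dist (G x) (G y) ≤ r') →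
  (∀ r : ℝ, ∃ r' : ℝ, ∀ x y : X, dist x y ≤ r → dist (G.symm x) (G.symm y) ≤ r') →
  CoarselyHyperbolic F

/-- **BS.** The points almost fixed by a lift `γ⁻¹ Gⁿ` of an iterate form a bounded set.
Proof.  Let `N, R` be the constants of `CoarselyHyperbolic G`.  If `d(Gⁿ x, γ x) ≤ B` then, by induction
on `k`, `d(G^(nk) x, γ_k x) ≤ C_k` with `γ_0 = 1`, `γ_(k+1) = φ^(nk)(γ) γ_k` and `C_k` independent of `x`:
`G^(nk) (Gⁿ x)` is close to `G^(nk) (γ x) = φ^(nk)(γ) G^(nk) x` (modulus of `G^(nk)`), which is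
`C_k`-close to `φ^(nk)(γ) γ_k x` as `Γ` acts by isometries.  In the same way for `G⁻¹`: applying `G⁻ⁿ` to
`d(Gⁿ x, γ x) ≤ B` one gets `d(x, φ⁻ⁿ(γ) G⁻ⁿ x) ≤ B₁`, i.e. `d(G⁻ⁿ x, γ' x) ≤ B₁` with
`γ' = φ⁻ⁿ(γ)⁻¹`, and the same induction applies.  So `d(G^(nN) x, δ x) ≤ C` and `d(G^(-nN) x, δ' x) ≤ C`
for fixed `δ, δ' ∈ Γ`.  Compare with `x₀`: the distance of `G^(nN) x` and `G^(nN) x₀` is at most
`d(x, x₀) + C + d(G^(nN) x₀, δ x₀)`, the same for `-nN`.  By `S_IT` with `k = n`, if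
`d(x, x₀) ≥ max R 1`, `2 d(x, x₀) ≤ 2ⁿ d(x, x₀) ≤ d(x, x₀) + const`. -/
def S_BS : Prop := ∀ (X : Type w) [MetricSpace X] (Γ : Type x) [Group Γ] [MulAction Γ X]
  [IsIsometricSMul Γ X] (G : X ≃ₜ X) (φ : Γ ≃* Γ) (n : ℕ) (γ : Γ) (B : ℝ) (x₀ : X),
  CoarselyHyperbolic G → 1 ≤ n → (∀ (γ : Γ) (x : X), G (γ • x) = φ γ • G x) →
  (∀ r : ℝ, ∃ r' : ℝ, ∀ x y : X, dist x y ≤ r → dist (G x) (G y) ≤ r') →
  (∀ r : ℝ, ∃ r' : ℝ, ∀ x y : X, dist x y ≤ r → dist (G.symm x) (G.symm y) ≤ r') →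
  ∃ R₁ : ℝ, ∀ x : X, dist (G^[n] x) (γ • x) ≤ B → dist x x₀ ≤ R₁

end Pool.Agent.H963.HT
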