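import Pool.Agent.H963.HT.SdDef
import Pool.Agent.H244.Per

/-!
# Orientation of the unstable bundle and the index at the fixed points (statements)

`dg E G x`, `dm E h x` (namespace `Pool.Agent.H721R2`) are the derivatives of maps `G : M → M`,
`h : M → F` at `x`, read in the model space `E = T_x M`; `dg_comp`, `dg_inv`, `dm_comp`, `hatMap`,
`hatMap_mfderiv`, `iter_smooth` are in `Pool/Graph/R_seed8/H721R2/{Local,Embed}.lean`.
`IsPi π Es Eu`: `π x` is the projection of `T_x M = E` onto `Es x` along `Eu x`; `rep`, `rep_contDiffAt`,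
`rep_fderiv`, `Pj` (the projection in the chart at `j`), `A_cont`, `A_inj`, `Dc_inj`, `inv_left`,
`inv_right` are in `Pool/Agent/H244/Loc.lean`; `exists_emb`-type facts and the continuity of `Pj`
(`Pj_cont`, `Pj_fix`, `Pj_ker`, ...) in `Pool/Agent/H244/{Ch,Ch2,Per}.lean`; `EAnosov` (the embedded
form of `IsAnosov`) is in `Pool/Graph/R_seed8/H721R2/Embed.lean`, `eanosov_of_isAnosov` in
`Pool/Graph/R_seed8/H789R2/AN/Man.lean`.
Each `S_...` is a statement; a task asks for a proof of one of them.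
-/

set_option autoImplicit false
set_option linter.unusedSectionVars false

open MeasureTheory Set Filter Topology Metric
open scoped ContDiff Manifold unitInterval

namespace Pool.Agent.H963.HT

open Pool.Agent.H721R2 Pool.Agent.H789R2.AN Pool.Agent.H244.Loc

universe u v w

/-- **IG.** The index depends on the germ only.  Proof: `HasSDeg Φ Ω` depends only on the restriction
of `Φ` to `closure Ω`, so `sdeg` agrees for maps which agree on `closure Ω`. -/
def S_IG : Prop := ∀ (V : Type u) [NormedAddCommGroup V] [NormedSpace ℝ V] [FiniteDimensional ℝ V]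
  (Φ Φ' : V → V) (a : V) (τ : ℤ), Φ =ᶠ[𝓝 a] Φ' → Idx Φ a τ → Idx Φ' a τ

/-- **LI.** The index of a fixed point of a lift, in global topological coordinates `φ` of the covering
space, is the sign of `det (1 - D h)`.  Proof: let `c` be the (extended) chart at `P p` and `e₁` a local
inverse of the local homeomorphism `P` at `p`.  `y ↦ y - c (h (c⁻¹ y))` is `C¹` at `a = c (P p)` with
derivative `1 - dg E h (P p)` (as `h (P p) = P p`, `mfderiv` is by definition the derivative in this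
chart), so `S_SL` gives its index.  `S_IC` with `T = c h c⁻¹`, `α = φ e₁⁻¹ c⁻¹`, `β = c P φ⁻¹` near `a` and
`φ p` gives the index of `y - α (T (β y))`, and this map agrees near `φ p` with
`y - φ (ψ (φ⁻¹ y))` because `P ψ = h P` (`S_IG`). -/
def S_LI : Prop := ∀ (E : Type u) [NormedAddCommGroup E] [NormedSpace ℝ E] [FiniteDimensional ℝ E]
  (M : Type v) [TopologicalSpace M] [ChartedSpace E M] [IsManifold 𝓘(ℝ, E) 1 M]
  (X : Type w) [TopologicalSpace X] (P : X → M) (φ : X ≃ₜ E) (h : M → M) (ψ : X → X) (p : X),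
  IsLocalHomeomorph P → ContMDiff 𝓘(ℝ, E) 𝓘(ℝ, E) 1 h → Continuous ψ →
  (∀ x, P (ψ x) = h (P x)) → ψ p = p → (1 - dg E h (P p)).det ≠ 0 →
  Idx (fun y => y - φ (ψ (φ.symm y))) (φ p) ((SignType.sign (1 - dg E h (P p)).det : SignType) : ℤ)

/-- **LIN.** Linear algebra at a hyperbolic fixed point.  Proof: `T' = D π + D' (1 - π)` satisfies
`T'^k v → 0` for all `v` (`D, D'` commute with `π`), so `1 - t T'` is injective for `t ∈ [0,1]`
(`t T' v = v` gives `T'^k v = t^(-k) v`), hence `det (1 - t T') ≠ 0` there, and `det (1 - T') > 0` by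
continuity.  Moreover `1 - D = (π - D (1 - π)) ∘ (1 - T')` and `π - D (1 - π)` is injective. -/
def S_LIN : Prop := ∀ (E : Type u) [NormedAddCommGroup E] [NormedSpace ℝ E] [FiniteDimensional ℝ E]
  (π D D' : E →L[ℝ] E), (∀ v, π (π v) = π v) → (∀ v, D (π v) = π (D v)) → (∀ v, D (D' v) = v) →
  (∀ v, D' (D v) = v) → (∀ v, π v = v → Tendsto (fun k : ℕ => (D ^ k) v) atTop (𝓝 0)) →
  (∀ v, π v = 0 → Tendsto (fun k : ℕ => (D' ^ k) v) atTop (𝓝 0)) →
  0 < (1 - D).det * (π - D.comp (1 - π)).det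

/-- **HF.** Periodic points of Anosov diffeomorphisms are hyperbolic.  Proof: `D = dg E (f^n) p`,
`D' = dg E (f⁻ⁿ) p` are inverse to each other (`dg_inv`); `D` maps `Es p` to `Es (fⁿ p) = Es p` and the
same for `Eu` (`map_s`, `map_u`, `dg_comp`, induction), so it commutes with `π p`; by `rates`
`N(p, D^k v) = N(tangentMap (f^(nk)) (p, v)) ≤ C l^(nk) N(p, v) → 0` for `v ∈ Es p`, and `N(p, ·)` is a
continuous positive homogeneous function on `T_p M = E`, so it is bounded below by `c ‖·‖`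
(the inclusion `E → TangentBundle`, `v ↦ (p, v)` is continuous); the same for `D'` on `Eu p`.
(Related facts are proved in `Pool/Agent/H244/Per.lean`.) -/
def S_HF : Prop := ∀ (E : Type u) [NormedAddCommGroup E] [NormedSpace ℝ E] [FiniteDimensional ℝ E]
  (M : Type v) [MetricSpace M] [CompactSpace M] [ChartedSpace E M] [IsManifold 𝓘(ℝ, E) ∞ M]
  (f : Diffeomorph 𝓘(ℝ, E) 𝓘(ℝ, E) M M 1)
  (Es Eu : ∀ x : M, Submodule ℝ (TangentSpace 𝓘(ℝ, E) x)), IsAnosov f Es Eu →
  ∀ π : M → E →L[ℝ] E, IsPi π Es Eu → ∀ n : ℕ, 1 ≤ n → ∀ p : M, f^[n] p = p →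
  ∃ D' : E →L[ℝ] E, (∀ v, dg E (f^[n]) p (D' v) = v) ∧ (∀ v, D' (dg E (f^[n]) p v) = v) ∧
    (∀ v, dg E (f^[n]) p (π p v) = π p (dg E (f^[n]) p v)) ∧
    (∀ v, π p v = v → Tendsto (fun k : ℕ => ((dg E (f^[n]) p) ^ k) v) atTop (𝓝 0)) ∧
    ∀ v, π p v = 0 → Tendsto (fun k : ℕ => (D' ^ k) v) atTop (𝓝 0)

/-- **O1.** Transport of determinants along a square of projections.  Proof.  By uniform continuity of
`q` there is `K ≥ 1` with `‖q (s, k/K) - q (s, (k+1)/K)‖ < 1` for all `s`, `k < K`; then `q (s, k/K)` is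
injective on the range of `q (s, (k+1)/K)` (if `q' v = v`, `q v = 0`, then `‖v‖ ≤ ‖q' - q‖ ‖v‖`).  Let
`B s = q (s,0) q (s,1/K) ⋯ q (s,1) n s`.  It is injective on the range of `q (s,0)` and has values in it.
So `1 - q (s,0) + B s q (s,0)` is injective (apply `q (s,0)` to a vector in the kernel), its
determinant is continuous and nonzero in `s ∈ [0,1]`, hence of constant sign.  For `s = 0, 1` all the
`q (s, k/K)` are equal to `q (s, 0) = q (s, 1)`, so `B s = n s`. -/
def S_O1 : Prop := ∀ (W : Type u) [NormedAddCommGroup W] [NormedSpace ℝ W] [FiniteDimensional ℝ W]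
  (q : C(I × I, W →L[ℝ] W)) (n : C(I, W →L[ℝ] W)),
  (∀ z v, q z (q z v) = q z v) → (∀ s v, q (s, 1) (n s v) = n s v) →
  (∀ s v, q (s, 0) v = v → n s v = 0 → v = 0) → (∀ t, q (0, t) = q (0, 0)) →
  (∀ t, q (1, t) = q (1, 0)) →
  0 < (1 - q (0, 0) + (n 0).comp (q (0, 0))).det * (1 - q (1, 0) + (n 1).comp (q (1, 0))).det

/-- **DAG.** A canonical left inverse, continuous on the injective maps and compatible with
isomorphisms of the source.  Proof: choose an isomorphism of `E` with a Euclidean space (or argue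
with it) and put `dag J = (J* J)⁻¹ J*`; `J* J` is invertible for injective `J`,
`ContinuousLinearMap.inverse` (`Ring.inverse`) is continuous at invertible elements;
`dag (J A) = A⁻¹ dag J` for an isomorphism `A`, because both sides kill the orthogonal complement of
the range of `J` and are left inverses of `J A`. -/
def S_DAG : Prop := ∀ (E : Type u) [NormedAddCommGroup E] [NormedSpace ℝ E] [FiniteDimensional ℝ E]
  (m : ℕ), ∃ dag : (E →L[ℝ] EuclideanSpace ℝ (Fin m)) → (EuclideanSpace ℝ (Fin m) →L[ℝ] E),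
  (∀ J : E →L[ℝ] EuclideanSpace ℝ (Fin m), Function.Injective J → ContinuousAt dag J ∧
    ∀ v, dag J (J v) = v) ∧
  ∀ (J : E →L[ℝ] EuclideanSpace ℝ (Fin m)) (A A' : E →L[ℝ] E), Function.Injective J →
    (∀ v, A (A' v) = v) → (∀ v, A' (A v) = v) → dag (J.comp A) = A'.comp (dag J)

/-- **O2.** The unstable bundle in a trivial bundle.  Proof.  Let `e : M → ℝᵐ` be a smooth map with
injective derivative (Mathlib `exists_embedding_euclidean_of_compact`; it is used in
`Pool/Agent/H244` with the hypotheses `he`, `hinj` of `Loc.lean`), `J z = dm E e z`, `h = fⁿ`,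
`Q z = J z ∘ (1 - π z) ∘ dag (J z)`, `N z = - J (h z) ∘ dg E h z ∘ (1 - π z) ∘ dag (J z)` (`S_DAG`).
Continuity at `z₀`: in the chart at `j = z₀` write `A z = dm E (extChartAt j) z` (invertible, `Dc_inj`) and
`J z = J_j (y) ∘ A z`, `y = extChartAt j z`, `J_j = fderiv (hatMap e j)` (`hatMap_mfderiv`, `A_cont`,
`A_inj`), so `Q z = J_j (y) ∘ (1 - Pj π j y) ∘ dag (J_j y)`, and
`N z = - J_j'(y') ∘ fderiv (rep h j j') y ∘ (1 - Pj π j y) ∘ dag (J_j y)` with `j' = h z₀` (`rep_fderiv`),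
where `Pj π j` is continuous (`Pj_cont`).
The algebraic properties are immediate (`dag (J z) ∘ J z = 1`, `dg E h z` maps `Eu z` injectively to
`Eu (h z)`).  At a fixed point `p` of `h`: `1 - Q p + N p Q p = 1 - J C dag J` with
`C = (1 + dg E h p) (1 - π p)`, and `det (1 - J C dag J) = det (1 - C)`
(`Matrix.det_one_add_mul_comm`, or `LinearMap` version), `1 - C = π p - dg E h p (1 - π p)`. -/
def S_O2 : Prop := ∀ (E : Type u) [NormedAddCommGroup E] [NormedSpace ℝ E] [FiniteDimensional ℝ E]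
  (M : Type v) [MetricSpace M] [CompactSpace M] [ChartedSpace E M] [IsManifold 𝓘(ℝ, E) ∞ M]
  (f : Diffeomorph 𝓘(ℝ, E) 𝓘(ℝ, E) M M 1)
  (Es Eu : ∀ x : M, Submodule ℝ (TangentSpace 𝓘(ℝ, E) x)), IsAnosov f Es Eu →
  ∀ π : M → E →L[ℝ] E, IsPi π Es Eu → ∀ n : ℕ,
  ∃ (m : ℕ) (Q N : M → (EuclideanSpace ℝ (Fin m) →L[ℝ] EuclideanSpace ℝ (Fin m))),
    Continuous Q ∧ Continuous N ∧ (∀ z v, Q z (Q z v) = Q z v) ∧
    (∀ z v, Q (f^[n] z) (N z v) = N z v) ∧ (∀ z v, Q z v = v → N z v = 0 → v = 0) ∧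
    ∀ p : M, f^[n] p = p →
      (1 - Q p + (N p).comp (Q p)).det = (π p - (dg E (f^[n]) p).comp (1 - π p)).det

/-- **SG.** Two fixed points of `h = fⁿ` which are joined by a path homotopic to its image have the same
index.  Proof: choose `π` with `IsPi π Es Eu` (`Pool/Agent/H244/Per.lean`); apply `S_O1` to
`q (s, t) = Q (c (s, t))`, `n s = N (c (s, 0))` with `Q, N` from `S_O2`; by `S_O2`, `S_HF` and `S_LIN` the two
determinants have the signs of `det (1 - D)` at `p` and at `q`. -/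
def S_SG : Prop := ∀ (E : Type u) [NormedAddCommGroup E] [NormedSpace ℝ E] [FiniteDimensional ℝ E]
  (M : Type v) [MetricSpace M] [CompactSpace M] [ChartedSpace E M] [IsManifold 𝓘(ℝ, E) ∞ M]
  (f : Diffeomorph 𝓘(ℝ, E) 𝓘(ℝ, E) M M 1)
  (Es Eu : ∀ x : M, Submodule ℝ (TangentSpace 𝓘(ℝ, E) x)), IsAnosov f Es Eu →
  ∀ (n : ℕ) (c : C(I × I, M)) (p q : M), 1 ≤ n → (∀ t, c (0, t) = p) → (∀ t, c (1, t) = q) →
  (∀ s, c (s, 1) = f^[n] (c (s, 0))) →
  0 < (1 - dg E (f^[n]) p).det * (1 - dg E (f^[n]) q).det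

end Pool.Agent.H963.HT
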