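import Pool.Agent.H963.HT.CovStm
import Pool.Agent.H963.HT.OriStm
import Pool.Graph.R_pool_sql_team_seeded_620a6dc7.H223.CC.Man
import Pool.Graph.R_seed8.TH289.K.A9
import Pool.Graph.R_pool_sql_team_seeded_620a6dc7.H223.CE.Man3

/-!
# Anosov diffeomorphisms homotopic to a good one: assembly
-/

set_option autoImplicit false
set_option linter.unusedSectionVars false

open scoped Manifold ContDiff Topology
open Set Filter

namespace Pool.Agent.H963.HT

open Pool.Agent.H721R2 Pool.Agent.H789R2.AN Pool.Agent.H223.CE Pool.Agent.H244.Loc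

universe u v w x

theorem exists_metric {E : Type u} [NormedAddCommGroup E] [NormedSpace ℝ E]
    [FiniteDimensional ℝ E] {M : Type v} [t : TopologicalSpace M] [T2Space M] [CompactSpace M]
    [ChartedSpace E M] [IsManifold 𝓘(ℝ, E) ∞ M] :
    ∃ m : MetricSpace M, m.toPseudoMetricSpace.toUniformSpace.toTopologicalSpace = t := by
  obtain ⟨m, e, he, hemb, hinj⟩ := exists_embedding_euclidean_of_compact (I := 𝓘(ℝ, E)) (M := M)
  exact ⟨hemb.isEmbedding.comapMetricSpace e, rfl⟩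

open scoped unitInterval

theorem cont_iter {X : Type*} [TopologicalSpace X] (Φ : C(I × X, X)) (n : ℕ) :
    Continuous fun p : I × X => (fun y => Φ (p.1, y))^[n] p.2 := by
  induction n with
  | zero => exact continuous_snd
  | succ n ih =>
    have h : (fun p : I × X => (fun y => Φ (p.1, y))^[n + 1] p.2) =
        fun p : I × X => Φ (p.1, (fun y => Φ (p.1, y))^[n] p.2) := by
      funext p
      rw [Function.iterate_succ_apply']
    rw [h]
    exact Φ.continuous.comp (continuous_fst.prodMk ih)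

theorem proj_iter {X M : Type*} {P : X → M} {F : X → X} {f : M → M}
    (h : ∀ x, P (F x) = f (P x)) (n : ℕ) : ∀ x, P (F^[n] x) = f^[n] (P x) := by
  induction n with
  | zero => intro x; rfl
  | succ n ih => intro x; rw [Function.iterate_succ_apply, Function.iterate_succ_apply, ih, h]

theorem sg' (hSG : S_SG.{u, v}) {E : Type u} [NormedAddCommGroup E] [NormedSpace ℝ E]
    [FiniteDimensional ℝ E] {M : Type v} [TopologicalSpace M] [T2Space M] [CompactSpace M]
    [ChartedSpace E M] [IsManifold 𝓘(ℝ, E) ∞ M]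
    (f : Diffeomorph 𝓘(ℝ, E) 𝓘(ℝ, E) M M 1)
    (Es Eu : ∀ x : M, Submodule ℝ (TangentSpace 𝓘(ℝ, E) x)) (hf : IsAnosov f Es Eu)
    (n : ℕ) (c : C(I × I, M)) (p q : M) (hn : 1 ≤ n) (h0 : ∀ t, c (0, t) = p)
    (h1 : ∀ t, c (1, t) = q) (hc : ∀ s, c (s, 1) = f^[n] (c (s, 0))) :
    0 < (1 - dg E (f^[n]) p).det * (1 - dg E (f^[n]) q).det := by
  obtain ⟨m, rfl⟩ := exists_metric (E := E) (M := M)
  exact hSG E M f Es Eu hf n c p q hn h0 h1 hc

/-- the indices of the fixed points of a lift of an iterate, in global coordinates -/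
theorem index_lift (hLI : S_LI.{u, v, w}) (hSG : S_SG.{u, v})
    {E : Type u} [NormedAddCommGroup E] [NormedSpace ℝ E] [FiniteDimensional ℝ E]
    {M : Type v} [TopologicalSpace M] [T2Space M] [CompactSpace M]
    [ChartedSpace E M] [IsManifold 𝓘(ℝ, E) ∞ M] (f : Diffeomorph 𝓘(ℝ, E) 𝓘(ℝ, E) M M 1)
    (Es Eu : ∀ x : M, Submodule ℝ (TangentSpace 𝓘(ℝ, E) x)) (hf : IsAnosov f Es Eu)
    {X : Type w} [TopologicalSpace X] (P : X → M) (hP : IsCoveringMap P) (e : X ≃ₜ E)
    (ψ : X → X) (hψ : Continuous ψ) (n : ℕ) (hn : 1 ≤ n) (hlift : ∀ x, P (ψ x) = f^[n] (P x)) :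
    ∃ κ : ℤ, κ ≠ 0 ∧ |κ| ≤ 1 ∧ ∀ x, ψ x = x → Idx (fun y => y - e (ψ (e.symm y))) (e x) κ := by
  by_cases hex : ∃ x₀, ψ x₀ = x₀
  swap
  · exact ⟨1, one_ne_zero, by simp, fun x hx => absurd ⟨x, hx⟩ hex⟩
  obtain ⟨x₀, hx₀⟩ := hex
  have hfix : ∀ x, ψ x = x → f^[n] (P x) = P x := fun x hx => by rw [← hlift, hx]
  -- the square
  have hsq : ∀ x x', ψ x = x → ψ x' = x' →
      0 < (1 - dg E (f^[n]) (P x)).det * (1 - dg E (f^[n]) (P x')).det := by
    intro x x' hx hx'
    set a : I → X := fun s => e.symm ((1 - (s : ℝ)) • e x + (s : ℝ) • e x') with ha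
    have hac : Continuous a := e.symm.continuous.comp (by fun_prop)
    have hcc : Continuous fun p : I × I => P (e.symm ((1 - (p.2 : ℝ)) • e (a p.1) +
        (p.2 : ℝ) • e (ψ (a p.1)))) := by
      refine hP.continuous.comp (e.symm.continuous.comp ?_)
      have h1 : Continuous fun p : I × I => e (a p.1) :=
        e.continuous.comp (hac.comp continuous_fst)
      have h2 : Continuous fun p : I × I => e (ψ (a p.1)) :=
        e.continuous.comp (hψ.comp (hac.comp continuous_fst))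
      have h3 : Continuous fun p : I × I => (p.2 : ℝ) := by fun_prop
      exact ((continuous_const.sub h3).smul h1).add (h3.smul h2)
    refine sg' hSG f Es Eu hf n ⟨_, hcc⟩ (P x) (P x') hn (fun t => ?_) (fun t => ?_) (fun s => ?_)
    · have h0 : a 0 = x := by simp [ha]
      show P (e.symm ((1 - (t : ℝ)) • e (a 0) + (t : ℝ) • e (ψ (a 0)))) = P x
      rw [h0, hx, ← add_smul, sub_add_cancel, one_smul, Homeomorph.symm_apply_apply]
    · have h0 : a 1 = x' := by simp [ha]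
      show P (e.symm ((1 - (t : ℝ)) • e (a 1) + (t : ℝ) • e (ψ (a 1)))) = P x'
      rw [h0, hx', ← add_smul, sub_add_cancel, one_smul, Homeomorph.symm_apply_apply]
    · show P (e.symm ((1 - ((1 : I) : ℝ)) • e (a s) + ((1 : I) : ℝ) • e (ψ (a s)))) =
        f^[n] (P (e.symm ((1 - ((0 : I) : ℝ)) • e (a s) + ((0 : I) : ℝ) • e (ψ (a s)))))
      simp [hlift]
  have hne : ∀ x, ψ x = x → (1 - dg E (f^[n]) (P x)).det ≠ 0 := fun x hx h0 => by
    have := hsq x x hx hx
    rw [h0] at this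
    simp at this
  refine ⟨((SignType.sign (1 - dg E (f^[n]) (P x₀)).det : SignType) : ℤ), ?_, ?_, ?_⟩
  · rcases lt_or_gt_of_ne (hne x₀ hx₀) with h | h
    · rw [sign_neg h]; simp
    · rw [sign_pos h]; simp
  · rcases lt_or_gt_of_ne (hne x₀ hx₀) with h | h
    · rw [sign_neg h]; simp
    · rw [sign_pos h]; simp
  · intro x hx
    have h1 := hLI E M X P e (f^[n]) ψ x hP.isLocalHomeomorph
      (iter_smooth f f.contMDiff n) hψ hlift hx (hne x hx)
    have h2 : SignType.sign (1 - dg E (f^[n]) (P x)).det =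
        SignType.sign (1 - dg E (f^[n]) (P x₀)).det := by
      have h3 := hsq x x₀ hx hx₀
      rcases pos_and_pos_or_neg_and_neg_of_mul_pos h3 with h | h
      · rw [sign_pos h.1, sign_pos h.2]
      · rw [sign_neg h.1, sign_neg h.2]
    rwa [h2] at h1

/-- the data of a cocompact action by isometries -/
theorem core (hLP : S_LP.{u, v, w}) (hCO : S_CO.{u, v, w}) (hHM : S_HM.{v, w})
    (hEQ : S_EQ.{v, w, x}) (hCPT : S_CPT.{v, w, x}) (hMOD : S_MOD.{w, x}) (hBD : S_BD.{w, x})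
    (hIB : S_IB.{w, 0}) (hCHF : S_CHF.{w}) (hBS : S_BS.{w, x}) (hCNT : S_CNT.{u})
    (hLI : S_LI.{u, v, w}) (hSG : S_SG.{u, v})
    {E : Type u} [NormedAddCommGroup E] [NormedSpace ℝ E] [FiniteDimensional ℝ E]
    {M : Type v} [TopologicalSpace M] [T2Space M] [CompactSpace M] [ConnectedSpace M]
    [ChartedSpace E M] [IsManifold 𝓘(ℝ, E) ∞ M]
    (f g : Diffeomorph 𝓘(ℝ, E) 𝓘(ℝ, E) M M 1)
    (Es Eu Es' Eu' : ∀ x : M, Submodule ℝ (TangentSpace 𝓘(ℝ, E) x))
    (hf : IsAnosov f Es Eu) (hg : IsAnosov g Es' Eu')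
    (hfg : ContinuousMap.Homotopic (⟨g, g.continuous⟩ : C(M, M)) ⟨f, f.continuous⟩)
    {X : Type w} [MetricSpace X] [ProperSpace X] [SimplyConnectedSpace X]
    {Γ : Type x} [Group Γ] [MulAction Γ X] [IsIsometricSMul Γ X]
    (P : X → M) (hP : IsCoveringMap P) (hs : Function.Surjective P)
    (hΓ : ∀ x y : X, P x = P y ↔ ∃ γ : Γ, γ • x = y)
    (G : X ≃ₜ X) (hG : ∀ x, P (G x) = g (P x))
    (φ : Γ ≃* Γ) (hφ : ∀ (γ : Γ) (x : X), G (γ • x) = φ γ • G x)
    (hCG : CoarselyHyperbolic G) (hN : NWeak Γ G) :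
    ∃ F : X ≃ₜ X, (∀ x, P (F x) = f (P x)) ∧ (∀ (γ : Γ) (x : X), F (γ • x) = φ γ • F x) ∧
      CoarselyHyperbolic F ∧ NFix Γ F := by
  have _ : LocallyPathConnectedSpace X := hLP E M X P hP
  obtain ⟨x₀⟩ : Nonempty X := inferInstance
  have tG := man_tfae g Es' Eu' hg P hP hs hΓ G hG (Or.inl hCG)
  have hG1 := (tG.out 4 0).mp hN
  have hG4 : NFix Γ G := (tG.out 4 3).mp hN
  -- coordinates
  obtain ⟨-, π, hπ, hπs⟩ := Pool.Agent.TH289.K.man_self g Es' Eu' hg
    (man_gps g Es' Eu' hg P hP hs hΓ G hG hG1.2)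
  obtain ⟨e, he⟩ := hCO E M X P π hP hπ hπs
  -- the lifted homotopy
  obtain ⟨k⟩ := hfg
  have hk0 : ∀ a : X, (k.toContinuousMap.comp ((ContinuousMap.id I).prodMap ⟨P, hP.continuous⟩))
      (0, a) = P (G a) := by
    intro a
    show k (0, P a) = P (G a)
    rw [k.apply_zero, hG]
    rfl
  set Φ : C(I × X, X) := hP.liftHomotopy (k.toContinuousMap.comp
    ((ContinuousMap.id I).prodMap ⟨P, hP.continuous⟩)) ⟨G, G.continuous⟩ hk0 with hΦ
  have hΦ0 : ∀ x, Φ (0, x) = G x := fun x => hP.liftHomotopy_zero _ _ hk0 x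
  have hΦP : ∀ t x, P (Φ (t, x)) = k (t, P x) := fun t x =>
    congrFun (hP.liftHomotopy_lifts _ _ hk0) (t, x)
  have hPγ : ∀ (γ : Γ) (x : X), P (γ • x) = P x := fun γ x => ((hΓ x (γ • x)).mpr ⟨γ, rfl⟩).symm
  have hcγ : ∀ γ : Γ, Continuous fun x : X => γ • x := fun γ => (isometry_smul X γ).continuous
  have hΦγ : ∀ (t : I) (γ : Γ) (x : X), Φ (t, γ • x) = φ γ • Φ (t, x) :=
    hEQ M X Γ P k.toContinuousMap Φ G φ hP hcγ hPγ (fun t x => hΦP t x) hΦ0 hφ
  -- the lift of f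
  obtain ⟨F, hF⟩ := hHM M X P f.toHomeomorph ⟨fun x => Φ (1, x), by fun_prop⟩ hP (fun x => by
    show P (Φ (1, x)) = f (P x)
    rw [hΦP, k.apply_one]
    rfl)
  have hF' : ∀ x, F x = Φ (1, x) := hF
  have hFP : ∀ x, P (F x) = f (P x) := by
    intro x
    rw [hF', hΦP, k.apply_one]
    rfl
  have hFφ : ∀ (γ : Γ) (x : X), F (γ • x) = φ γ • F x := fun γ x => by rw [hF', hF', hΦγ]
  -- large-scale bounds
  obtain ⟨R₀, hR₀⟩ := hCPT M X Γ P hP hs hΓ x₀
  have hGm := hMOD X Γ G φ x₀ R₀ G.continuous hR₀ hφ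
  have hφ' : ∀ (γ : Γ) (x : X), G.symm (γ • x) = φ.symm γ • G.symm x := by
    intro γ x
    apply G.injective
    rw [Homeomorph.apply_symm_apply, hφ, Homeomorph.apply_symm_apply]
    simp
  have hGm' := hMOD X Γ G.symm φ.symm x₀ R₀ G.symm.continuous hR₀ hφ'
  obtain ⟨B, hB⟩ := hBD X Γ Φ φ x₀ R₀ hR₀ hΦγ
  have hB' : ∀ (t : I) (x : X), dist (Φ (t, x)) (G x) ≤ B := fun t x => by
    have := hB t x
    rwa [hΦ0] at this
  have hCF : CoarselyHyperbolic F :=
    hCHF X F G B hCG (fun x => by rw [hF']; exact hB' 1 x) hGm hGm'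
  refine ⟨F, hFP, hFφ, hCF, ?_⟩
  intro n hn γ p q hp hq
  -- boundedness of the fixed points along the homotopy
  obtain ⟨B₁, hB₁⟩ := hIB X I (fun t y => Φ (t, y)) G B hB' hGm n
  obtain ⟨R₁, hR₁⟩ := hBS X Γ G φ n γ B₁ x₀ hCG hn hφ hGm hGm'
  have hbdd : Bornology.IsBounded (e '' Metric.closedBall x₀ R₁) :=
    ((isCompact_closedBall x₀ R₁).image e.continuous).isBounded
  obtain ⟨R₂, hR₂⟩ := hbdd.exists_norm_le
  set T : I → X → X := fun t x => γ⁻¹ • (fun y => Φ (t, y))^[n] x with hT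
  set H : ℝ → E → E := fun t y => y - e (T (projIcc 0 1 zero_le_one t) (e.symm y)) with hH
  have hTc : Continuous fun p : I × X => T p.1 p.2 := (hcγ γ⁻¹).comp (cont_iter Φ n)
  have hHc : Continuous fun p : ℝ × E => H p.1 p.2 := by
    have h1 : Continuous fun p : ℝ × E =>
        ((projIcc 0 1 zero_le_one p.1 : I), e.symm p.2) :=
      ((continuous_projIcc (h := zero_le_one)).comp continuous_fst).prodMk
        (e.symm.continuous.comp continuous_snd)
    exact continuous_snd.sub (e.continuous.comp (hTc.comp h1))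
  have hzero : ∀ t ∈ Icc (0 : ℝ) 1, ∀ y, H t y = 0 → ‖y‖ < |R₂| + 1 := by
    intro t _ y hy
    have h1 : e (T (projIcc 0 1 zero_le_one t) (e.symm y)) = y := (sub_eq_zero.mp hy).symm
    have h2 : T (projIcc 0 1 zero_le_one t) (e.symm y) = e.symm y := by
      apply e.injective
      rw [h1, Homeomorph.apply_symm_apply]
    have h3 : (fun z => Φ (projIcc 0 1 zero_le_one t, z))^[n] (e.symm y) = γ • e.symm y :=
      inv_smul_eq_iff.mp h2
    have h4 := hB₁ (projIcc 0 1 zero_le_one t) (e.symm y)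
    rw [h3, dist_comm] at h4
    have h5 := hR₁ _ h4
    have h6 := hR₂ (e (e.symm y)) (mem_image_of_mem e (Metric.mem_closedBall.mpr h5))
    rw [Homeomorph.apply_symm_apply] at h6
    linarith [le_abs_self R₂]
  have hF1 : (fun y => Φ ((1 : I), y)) = F := funext fun y => (hF' y).symm
  have hG0 : (fun y => Φ ((0 : I), y)) = G := funext fun y => hΦ0 y
  have hp1 : projIcc (0 : ℝ) 1 zero_le_one 1 = 1 := projIcc_right _
  have hp0 : projIcc (0 : ℝ) 1 zero_le_one 0 = 0 := projIcc_left _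
  have hT1 : T 1 = fun x => γ⁻¹ • F^[n] x := by
    funext x
    show γ⁻¹ • (fun y => Φ ((1 : I), y))^[n] x = _
    rw [hF1]
  have hT0 : T 0 = fun x => γ⁻¹ • G^[n] x := by
    funext x
    show γ⁻¹ • (fun y => Φ ((0 : I), y))^[n] x = _
    rw [hG0]
  have hH1 : H 1 = fun y => y - e (T 1 (e.symm y)) := by
    funext y
    show y - e (T (projIcc 0 1 zero_le_one 1) (e.symm y)) = _
    rw [hp1]
  have hH0 : H 0 = fun y => y - e (T 0 (e.symm y)) := by
    funext y
    show y - e (T (projIcc 0 1 zero_le_one 0) (e.symm y)) = _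
    rw [hp0]
  have hTcont : ∀ t, Continuous (T t) := fun t => hTc.comp (continuous_const.prodMk continuous_id)
  obtain ⟨κ, hκ0, -, hκ⟩ := index_lift hLI hSG f Es Eu hf P hP e (T 1) (hTcont 1) n hn (fun x => by
    rw [hT1]
    show P (γ⁻¹ • F^[n] x) = _
    rw [hPγ]
    exact proj_iter hFP n x)
  obtain ⟨τ, -, hτ1, hτ⟩ := index_lift hLI hSG g Es' Eu' hg P hP e (T 0) (hTcont 0) n hn
    (fun x => by
      rw [hT0]
      show P (γ⁻¹ • G^[n] x) = _
      rw [hPγ]
      exact proj_iter hG n x)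
  have hz : ∀ (t : I) (a : E), a - e (T t (e.symm a)) = 0 → T t (e.symm a) = e.symm a := by
    intro t a ha
    have h1 : e (T t (e.symm a)) = a := (sub_eq_zero.mp ha).symm
    apply e.injective
    rw [h1, Homeomorph.apply_symm_apply]
  have key := hCNT E H (|R₂| + 1) κ (by positivity) hκ0 hHc.continuousOn hzero
    (fun a ha => by
      rw [hH1] at ha ⊢
      have h1 := hκ (e.symm a) (hz 1 a ha)
      rwa [Homeomorph.apply_symm_apply] at h1)
    (fun a b ha hb => by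
      rw [hH0] at ha hb
      have h1 := hz 0 a ha
      have h2 := hz 0 b hb
      rw [hT0] at h1 h2
      exact e.symm.injective (hG4 n hn γ _ _ (inv_smul_eq_iff.mp h1) (inv_smul_eq_iff.mp h2)))
    (fun a ha => by
      rw [hH0] at ha ⊢
      have h1 := hτ (e.symm a) (hz 0 a ha)
      rw [Homeomorph.apply_symm_apply] at h1
      exact ⟨τ, hτ1, h1⟩)
  have hfx : ∀ z, F^[n] z = γ • z → H 1 (e z) = 0 := by
    intro z hz
    rw [hH1, hT1]
    show e z - e (γ⁻¹ • F^[n] (e.symm (e z))) = 0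
    rw [Homeomorph.symm_apply_apply, hz, inv_smul_smul, sub_self]
  exact e.injective (key _ _ (hfx p hp) (hfx q hq))

end Pool.Agent.H963.HT
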