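import Pool.Agent.H963.HT.All
import Pool.Agent.H963.HT.Cnt2

/-!
# Anosov diffeomorphisms homotopic to a coarsely hyperbolic one: counting, and the conjugacy
-/

set_option autoImplicit false
set_option linter.unusedSectionVars false

open scoped Manifold ContDiff Topology
open Set Filter

namespace Pool.Agent.H963.HT

open Pool.Agent.H721R2 Pool.Agent.H789R2.AN Pool.Agent.H223.CE Pool.Agent.H244.Loc

universe u v v' w x

open scoped unitInterval

/-- The lift of an Anosov diffeomorphism homotopic to `g`, and the number of fixed points of the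
lifts of the iterates. -/
theorem core2 
    {E : Type u} [NormedAddCommGroup E] [NormedSpace ℝ E] [FiniteDimensional ℝ E]
    {M : Type v} [TopologicalSpace M] [T2Space M] [CompactSpace M] [ConnectedSpace M]
    [ChartedSpace E M] [IsManifold 𝓘(ℝ, E) ∞ M]
    {M' : Type v'} [TopologicalSpace M'] [T2Space M'] [CompactSpace M'] 
    [ChartedSpace E M'] [IsManifold 𝓘(ℝ, E) ∞ M']
    (f : Diffeomorph 𝓘(ℝ, E) 𝓘(ℝ, E) M' M' 1) (g : Diffeomorph 𝓘(ℝ, E) 𝓘(ℝ, E) M M 1)
    (Es Eu : ∀ x : M', Submodule ℝ (TangentSpace 𝓘(ℝ, E) x))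
    (Es' Eu' : ∀ x : M, Submodule ℝ (TangentSpace 𝓘(ℝ, E) x))
    (hf : IsAnosov f Es Eu) (hg : IsAnosov g Es' Eu') (r : M' ≃ₜ M)
    (hfg : ContinuousMap.Homotopic (⟨g, g.continuous⟩ : C(M, M))
      ⟨fun m => r (f (r.symm m)), r.continuous.comp (f.continuous.comp r.symm.continuous)⟩)
    {X : Type w} [MetricSpace X] [ProperSpace X] [SimplyConnectedSpace X]
    {Γ : Type x} [Group Γ] [MulAction Γ X] [IsIsometricSMul Γ X]
    (P : X → M) (hP : IsCoveringMap P) (hs : Function.Surjective P)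
    (hΓ : ∀ x y : X, P x = P y ↔ ∃ γ : Γ, γ • x = y)
    (G : X ≃ₜ X) (hG : ∀ x, P (G x) = g (P x))
    (φ : Γ ≃* Γ) (hφ : ∀ (γ : Γ) (x : X), G (γ • x) = φ γ • G x)
    (hCG : CoarselyHyperbolic G) :
    ∃ F : X ≃ₜ X, (∀ x, P (F x) = r (f (r.symm (P x)))) ∧
      (∀ (γ : Γ) (x : X), F (γ • x) = φ γ • F x) ∧ CoarselyHyperbolic F ∧
      (Nonempty (X ≃ₜ E) → ∀ n : ℕ, 1 ≤ n → ∀ γ : Γ, {x : X | F^[n] x = γ • x}.Finite ∧
        {x : X | F^[n] x = γ • x}.encard = {x : X | G^[n] x = γ • x}.encard) := by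
  have _ : LocallyPathConnectedSpace X := t_LP E M X P hP
  obtain ⟨x₀⟩ : Nonempty X := inferInstance
  -- the lifted homotopy
  obtain ⟨k⟩ := hfg
  have hk0 : ∀ a : X, (k.toContinuousMap.comp ((ContinuousMap.id I).prodMap ⟨P, hP.continuous⟩))
      (0, a) = P (G a) := by
    intro a
    show k (0, P a) = P (G a)
    rw [k.apply_zero, hG]
    rfl
  set Φ : C(I × X, X) := hP.liftHomotopy (k.toContinuousMap.comp
    ((ContinuousMap.id I).prodMap ⟨P, hP.continuous⟩)) ⟨G, G.continuous⟩ hk0 with hΦ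
  have hΦ0 : ∀ x, Φ (0, x) = G x := fun x => hP.liftHomotopy_zero _ _ hk0 x
  have hΦP : ∀ t x, P (Φ (t, x)) = k (t, P x) := fun t x =>
    congrFun (hP.liftHomotopy_lifts _ _ hk0) (t, x)
  have hPγ : ∀ (γ : Γ) (x : X), P (γ • x) = P x := fun γ x => ((hΓ x (γ • x)).mpr ⟨γ, rfl⟩).symm
  have hcγ : ∀ γ : Γ, Continuous fun x : X => γ • x := fun γ => (isometry_smul X γ).continuous
  have hΦγ : ∀ (t : I) (γ : Γ) (x : X), Φ (t, γ • x) = φ γ • Φ (t, x) :=
    t_EQ M X Γ P k.toContinuousMap Φ G φ hP hcγ hPγ (fun t x => hΦP t x) hΦ0 hφ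
  -- the lift of f
  obtain ⟨F, hF⟩ := t_HM M X P ((r.symm.trans f.toHomeomorph).trans r)
    ⟨fun x => Φ (1, x), by fun_prop⟩ hP (fun x => by
    show P (Φ (1, x)) = r (f (r.symm (P x)))
    rw [hΦP, k.apply_one]
    rfl)
  have hF' : ∀ x, F x = Φ (1, x) := hF
  have hFP : ∀ x, P (F x) = r (f (r.symm (P x))) := by
    intro x
    rw [hF', hΦP, k.apply_one]
    rfl
  have hFφ : ∀ (γ : Γ) (x : X), F (γ • x) = φ γ • F x := fun γ x => by rw [hF', hF', hΦγ]
  -- large-scale bounds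
  obtain ⟨R₀, hR₀⟩ := t_CPT M X Γ P hP hs hΓ x₀
  have hGm := t_MOD X Γ G φ x₀ R₀ G.continuous hR₀ hφ
  have hφ' : ∀ (γ : Γ) (x : X), G.symm (γ • x) = φ.symm γ • G.symm x := by
    intro γ x
    apply G.injective
    rw [Homeomorph.apply_symm_apply, hφ, Homeomorph.apply_symm_apply]
    simp
  have hGm' := t_MOD X Γ G.symm φ.symm x₀ R₀ G.symm.continuous hR₀ hφ'
  obtain ⟨B, hB⟩ := t_BD X Γ Φ φ x₀ R₀ hR₀ hΦγ
  have hB' : ∀ (t : I) (x : X), dist (Φ (t, x)) (G x) ≤ B := fun t x => by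
    have := hB t x
    rwa [hΦ0] at this
  have hCF : CoarselyHyperbolic F :=
    a_CHF X F G B hCG (fun x => by rw [hF']; exact hB' 1 x) hGm hGm'
  refine ⟨F, hFP, hFφ, hCF, ?_⟩
  rintro ⟨e⟩ n hn γ
  -- boundedness of the fixed points along the homotopy
  obtain ⟨B₁, hB₁⟩ := t_IB X I (fun t y => Φ (t, y)) G B hB' hGm n
  obtain ⟨R₁, hR₁⟩ := a_BS X Γ G φ n γ B₁ x₀ hCG hn hφ hGm hGm'
  have hbdd : Bornology.IsBounded (e '' Metric.closedBall x₀ R₁) :=
    ((isCompact_closedBall x₀ R₁).image e.continuous).isBounded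
  obtain ⟨R₂, hR₂⟩ := hbdd.exists_norm_le
  set T : I → X → X := fun t x => γ⁻¹ • (fun y => Φ (t, y))^[n] x with hT
  set H : ℝ → E → E := fun t y => y - e (T (projIcc 0 1 zero_le_one t) (e.symm y)) with hH
  have hTc : Continuous fun p : I × X => T p.1 p.2 := (hcγ γ⁻¹).comp (cont_iter Φ n)
  have hHc : Continuous fun p : ℝ × E => H p.1 p.2 := by
    have h1 : Continuous fun p : ℝ × E =>
        ((projIcc 0 1 zero_le_one p.1 : I), e.symm p.2) :=
      ((continuous_projIcc (h := zero_le_one)).comp continuous_fst).prodMk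
        (e.symm.continuous.comp continuous_snd)
    exact continuous_snd.sub (e.continuous.comp (hTc.comp h1))
  have hzero : ∀ t ∈ Icc (0 : ℝ) 1, ∀ y, H t y = 0 → ‖y‖ < |R₂| + 1 := by
    intro t _ y hy
    have h1 : e (T (projIcc 0 1 zero_le_one t) (e.symm y)) = y := (sub_eq_zero.mp hy).symm
    have h2 : T (projIcc 0 1 zero_le_one t) (e.symm y) = e.symm y := by
      apply e.injective
      rw [h1, Homeomorph.apply_symm_apply]
    have h3 : (fun z => Φ (projIcc 0 1 zero_le_one t, z))^[n] (e.symm y) = γ • e.symm y :=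
      inv_smul_eq_iff.mp h2
    have h4 := hB₁ (projIcc 0 1 zero_le_one t) (e.symm y)
    rw [h3, dist_comm] at h4
    have h5 := hR₁ _ h4
    have h6 := hR₂ (e (e.symm y)) (mem_image_of_mem e (Metric.mem_closedBall.mpr h5))
    rw [Homeomorph.apply_symm_apply] at h6
    linarith [le_abs_self R₂]
  have hF1 : (fun y => Φ ((1 : I), y)) = F := funext fun y => (hF' y).symm
  have hG0 : (fun y => Φ ((0 : I), y)) = G := funext fun y => hΦ0 y
  have hp1 : projIcc (0 : ℝ) 1 zero_le_one 1 = 1 := projIcc_right _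
  have hp0 : projIcc (0 : ℝ) 1 zero_le_one 0 = 0 := projIcc_left _
  have hT1 : T 1 = fun x => γ⁻¹ • F^[n] x := by
    funext x
    show γ⁻¹ • (fun y => Φ ((1 : I), y))^[n] x = _
    rw [hF1]
  have hT0 : T 0 = fun x => γ⁻¹ • G^[n] x := by
    funext x
    show γ⁻¹ • (fun y => Φ ((0 : I), y))^[n] x = _
    rw [hG0]
  have hH1 : H 1 = fun y => y - e (T 1 (e.symm y)) := by
    funext y
    show y - e (T (projIcc 0 1 zero_le_one 1) (e.symm y)) = _
    rw [hp1]
  have hH0 : H 0 = fun y => y - e (T 0 (e.symm y)) := by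
    funext y
    show y - e (T (projIcc 0 1 zero_le_one 0) (e.symm y)) = _
    rw [hp0]
  have hTcont : ∀ t, Continuous (T t) := fun t => hTc.comp (continuous_const.prodMk continuous_id)
  have hP' : IsCoveringMap (r.symm ∘ P) := hP.homeomorph_comp r.symm
  have hFP' : ∀ x, (r.symm ∘ P) (F x) = f ((r.symm ∘ P) x) := fun x => by
    show r.symm (P (F x)) = f (r.symm (P x))
    rw [hFP, Homeomorph.symm_apply_apply]
  obtain ⟨κ, hκ0, hκ1, hκ⟩ := index_lift a_LI a_SG f Es Eu hf (r.symm ∘ P) hP' e (T 1) (hTcont 1)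
    n hn (fun x => by
    rw [hT1]
    show r.symm (P (γ⁻¹ • F^[n] x)) = _
    rw [hPγ]
    exact proj_iter hFP' n x)
  obtain ⟨τ, hτ0, hτ1, hτ⟩ := index_lift a_LI a_SG g Es' Eu' hg P hP e (T 0) (hTcont 0) n hn
    (fun x => by
      rw [hT0]
      show P (γ⁻¹ • G^[n] x) = _
      rw [hPγ]
      exact proj_iter hG n x)
  have hz : ∀ (t : I) (a : E), a - e (T t (e.symm a)) = 0 → T t (e.symm a) = e.symm a := by
    intro t a ha
    have h1 : e (T t (e.symm a)) = a := (sub_eq_zero.mp ha).symm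
    apply e.injective
    rw [h1, Homeomorph.apply_symm_apply]
  obtain ⟨k1, k2⟩ := cnt_eq a_SH a_SA E H (|R₂| + 1) κ τ (le_antisymm hκ1 (Int.one_le_abs hκ0))
    (le_antisymm hτ1 (Int.one_le_abs hτ0)) hHc.continuousOn hzero
    (fun a ha => by
      rw [hH1] at ha ⊢
      have h1 := hκ (e.symm a) (hz 1 a ha)
      rwa [Homeomorph.apply_symm_apply] at h1)
    (fun a ha => by
      rw [hH0] at ha ⊢
      have h1 := hτ (e.symm a) (hz 0 a ha)
      rwa [Homeomorph.apply_symm_apply] at h1)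
  -- the zeros of `H t` are the images of the fixed points
  have him : ∀ (t : I) (K : X → X), T t = (fun x => γ⁻¹ • K x) →
      e ⁻¹' {y | y - e (T t (e.symm y)) = 0} = {x | K x = γ • x} := by
    intro t K hK
    ext z
    constructor
    · intro h
      have h1 := hz t (e z) h
      rw [Homeomorph.symm_apply_apply, hK] at h1
      exact inv_smul_eq_iff.mp h1
    · intro h
      show e z - e (T t (e.symm (e z))) = 0
      have h1 : K z = γ • z := h
      rw [Homeomorph.symm_apply_apply, hK]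
      show e z - e (γ⁻¹ • K z) = 0
      rw [h1, inv_smul_smul, sub_self]
  have i1 : e ⁻¹' {y | H 1 y = 0} = {x | F^[n] x = γ • x} := by
    rw [hH1]
    exact him 1 _ hT1
  have i0 : e ⁻¹' {y | H 0 y = 0} = {x | G^[n] x = γ • x} := by
    rw [hH0]
    exact him 0 _ hT0
  rw [← i1, ← i0]
  refine ⟨k1.preimage e.injective.injOn, ?_⟩
  have hpre : ∀ s : Set E, (e ⁻¹' s).encard = s.encard := fun s => by
    have h1 : e ⁻¹' s = e.symm '' s := by
      ext z
      constructor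
      · intro h
        exact ⟨e z, h, e.symm_apply_apply z⟩
      · rintro ⟨y, hy, rfl⟩
        show e (e.symm y) ∈ s
        rwa [Homeomorph.apply_symm_apply]
    rw [h1]
    exact e.symm.injective.encard_image s
  rw [hpre, hpre, k2]

end Pool.Agent.H963.HT
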