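import Pool.Agent.H963.HT.OcStm

/-!
# Counting fixed points by twisted conjugacy classes
-/

set_option autoImplicit false

open Set

namespace Pool.Agent.H963.HT

universe v v' w x

namespace NOC

/-- Twisted conjugacy. -/
def st {Γ : Type x} [Group Γ] (φ : Γ →* Γ) : Setoid Γ where
  r γ γ' := ∃ δ : Γ, γ' = φ δ * γ * δ⁻¹
  iseqv :=
    { refl := fun γ => ⟨1, by rw [map_one, one_mul, inv_one, mul_one]⟩
      symm := by
        rintro γ γ' ⟨δ, rfl⟩
        refine ⟨δ⁻¹, ?_⟩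
        rw [map_inv]
        group
      trans := by
        rintro γ γ' γ'' ⟨δ, rfl⟩ ⟨ε, rfl⟩
        refine ⟨ε * δ, ?_⟩
        rw [map_mul, mul_inv_rev]
        group }

section one

variable {M : Type v} {X : Type w} {Γ : Type x} [Group Γ] [MulAction Γ X] {P : X → M} {f : M → M}
  {F : X → X} {φ : Γ →* Γ}

theorem free_eq (hfr : ∀ (γ : Γ) (x : X), γ • x = x → γ = 1) {a b : Γ} {x : X}
    (h : a • x = b • x) : a = b := by
  have h1 : (b⁻¹ * a) • x = x := by rw [mul_smul, h, inv_smul_smul]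
  have h2 := hfr _ _ h1
  exact (inv_mul_eq_one.1 h2).symm

theorem prod_equiv (hP : ∀ x y : X, P x = P y ↔ ∃ γ : Γ, γ • x = y)
    (hfr : ∀ (γ : Γ) (x : X), γ • x = x → γ = 1) (hF : ∀ (γ : Γ) (x : X), F (γ • x) = φ γ • F x)
    (γ : Γ) : Nonempty (({m : M | ∃ x, P x = m ∧ F x = γ • x} × {δ : Γ | φ δ * γ * δ⁻¹ = γ}) ≃
      {x : X | F x = γ • x}) := by
  classical
  choose s hs1 hs2 using fun m : {m : M | ∃ x, P x = m ∧ F x = γ • x} => m.2
  have hS : ∀ {δ : Γ}, φ δ * γ * δ⁻¹ = γ ↔ φ δ * γ = γ * δ := fun {δ} => mul_inv_eq_iff_eq_mul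
  let θ : ({m : M | ∃ x, P x = m ∧ F x = γ • x} × {δ : Γ | φ δ * γ * δ⁻¹ = γ}) →
      {x : X | F x = γ • x} := fun p => ⟨(p.2 : Γ) • s p.1, by
    have h1 : φ p.2 * γ = γ * p.2 := hS.1 p.2.2
    change F ((p.2 : Γ) • s p.1) = γ • (p.2 : Γ) • s p.1
    rw [hF, hs2, ← mul_smul, h1, mul_smul]⟩
  refine ⟨Equiv.ofBijective θ ⟨?_, ?_⟩⟩
  · rintro ⟨m, δ⟩ ⟨m', δ'⟩ h
    have h1 : (δ : Γ) • s m = (δ' : Γ) • s m' := congrArg Subtype.val h
    have h2 : m = m' := by
      apply Subtype.ext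
      rw [← hs1 m, ← hs1 m']
      have h3 : P (s m) = P ((δ : Γ) • s m) := (hP _ _).2 ⟨δ, rfl⟩
      have h4 : P (s m') = P ((δ' : Γ) • s m') := (hP _ _).2 ⟨δ', rfl⟩
      rw [h3, h4, h1]
    subst h2
    have h3 : (δ : Γ) = δ' := free_eq hfr h1
    rw [Subtype.ext h3]
  · rintro ⟨y, hy⟩
    have hy' : F y = γ • y := hy
    let m : {m : M | ∃ x, P x = m ∧ F x = γ • x} := ⟨P y, y, rfl, hy'⟩
    obtain ⟨δ, hδ⟩ := (hP (s m) y).1 (hs1 m)
    have h1 : (φ δ * γ) • s m = (γ * δ) • s m := by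
      rw [mul_smul, mul_smul, hδ, ← hs2 m, ← hF, hδ, hy']
    have h2 : φ δ * γ = γ * δ := free_eq hfr h1
    exact ⟨⟨m, ⟨δ, hS.2 h2⟩⟩, Subtype.ext hδ⟩

theorem exists_cl (hPs : Function.Surjective P) (hP : ∀ x y : X, P x = P y ↔ ∃ γ : Γ, γ • x = y)
    (hfr : ∀ (γ : Γ) (x : X), γ • x = x → γ = 1) (hPF : ∀ x, P (F x) = f (P x))
    (hF : ∀ (γ : Γ) (x : X), F (γ • x) = φ γ • F x) :
    ∃ cl : {m | f m = m} → Quotient (st φ), ∀ m c, cl m = c ↔
      ∃ x, P x = (m : M) ∧ F x = c.out • x := by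
  classical
  have h0 : ∀ m : {m | f m = m}, ∃ (x : X) (γ : Γ), P x = m ∧ F x = γ • x := by
    rintro ⟨m, hm⟩
    obtain ⟨x, rfl⟩ := hPs m
    have hm' : f (P x) = P x := hm
    obtain ⟨γ, hγ⟩ := (hP x (F x)).1 (by rw [hPF, hm'])
    exact ⟨x, γ, rfl, hγ.symm⟩
  choose s γ hs1 hs2 using h0
  refine ⟨fun m => Quotient.mk (st φ) (γ m), fun m c => ?_⟩
  constructor
  · intro h
    have h1 : Quotient.mk (st φ) (γ m) = Quotient.mk (st φ) c.out := by
      rw [Quotient.out_eq]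
      exact h
    obtain ⟨δ, hδ⟩ : ∃ δ : Γ, c.out = φ δ * γ m * δ⁻¹ := Quotient.exact h1
    refine ⟨δ • s m, ?_, ?_⟩
    · rw [← hs1 m]
      exact ((hP _ _).2 ⟨δ, rfl⟩).symm
    · rw [hδ, hF, hs2, ← mul_smul, ← mul_smul, inv_mul_cancel_right]
  · rintro ⟨x, hx1, hx2⟩
    obtain ⟨δ, hδ⟩ := (hP (s m) x).1 (by rw [hs1, hx1])
    have h1 : c.out = φ δ * γ m * δ⁻¹ := by
      apply free_eq hfr (x := x)
      rw [← hx2, ← hδ, hF, hs2, ← mul_smul, ← mul_smul, inv_mul_cancel_right]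
    have h2 : Quotient.mk (st φ) (γ m) = Quotient.mk (st φ) c.out := Quotient.sound ⟨δ, h1⟩
    change Quotient.mk (st φ) (γ m) = c
    rw [h2, Quotient.out_eq]

end one

theorem card_cancel {A A' B B' S : Type*} (e : (B × S) ≃ A) (e' : (B' × S) ≃ A') (hS : Nonempty S)
    (hA : Finite A) (hA' : Finite A') (h : Nat.card A = Nat.card A') : Nonempty (B ≃ B') := by
  by_cases hB : Nonempty B
  · have hfin : Finite (B × S) := Finite.of_equiv _ e.symm
    have hfin' : Finite (B' × S) := Finite.of_equiv _ e'.symm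
    have hBf : Finite B := Finite.of_surjective (Prod.fst : B × S → B) Prod.fst_surjective
    have hSf : Finite S := Finite.of_surjective (Prod.snd : B × S → S) Prod.snd_surjective
    have hBf' : Finite B' := Finite.of_surjective (Prod.fst : B' × S → B') Prod.fst_surjective
    rw [← Nat.card_congr e, ← Nat.card_congr e', Nat.card_prod, Nat.card_prod] at h
    have h1 : 0 < Nat.card S := Nat.card_pos
    exact Finite.card_eq.1 (Nat.eq_of_mul_eq_mul_right h1 h)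
  · rw [not_nonempty_iff] at hB
    have h1 : IsEmpty A := ⟨fun a => hB.elim (e.symm a).1⟩
    rw [Nat.card_of_isEmpty, eq_comm, Finite.card_eq_zero_iff] at h
    obtain ⟨s⟩ := hS
    have h2 : IsEmpty B' := ⟨fun b => h.elim (e' (b, s))⟩
    exact ⟨Equiv.equivOfIsEmpty B B'⟩

end NOC

open NOC in
theorem t_OC : S_OC.{v, v', w, x} := by
  classical
  intro M N X Γ _ _ P Q f g F G φ hPs hQs hP hQ hfr hPF hQG hF hG hfin hcard
  obtain ⟨cl, hcl⟩ := exists_cl hPs hP hfr hPF hF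
  obtain ⟨cl', hcl'⟩ := exists_cl hQs hQ hfr hQG hG
  have key : ∀ c : Quotient (st φ), Nonempty ({m : {m | f m = m} // cl m = c} ≃
      {m : {m | g m = m} // cl' m = c}) := by
    intro c
    obtain ⟨e⟩ := prod_equiv hP hfr hF c.out
    obtain ⟨e'⟩ := prod_equiv hQ hfr hG c.out
    have hA : Finite {x : X | F x = c.out • x} := hfin c.out
    have hA'f : {x : X | G x = c.out • x}.Finite := by
      rw [← Set.encard_ne_top_iff, ← hcard, Set.encard_ne_top_iff]
      exact hfin c.out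
    have hA' : Finite {x : X | G x = c.out • x} := hA'f
    have hc : Nat.card {x : X | F x = c.out • x} = Nat.card {x : X | G x = c.out • x} := by
      have h1 : {x : X | F x = c.out • x}.ncard = {x : X | G x = c.out • x}.ncard := by
        unfold Set.ncard
        rw [hcard]
      exact h1
    obtain ⟨e₀⟩ := card_cancel e e' ⟨⟨1, by
      change φ 1 * c.out * (1 : Γ)⁻¹ = c.out
      rw [map_one, one_mul, inv_one, mul_one]⟩⟩ hA hA' hc
    have e₁ : {m : {m | f m = m} // cl m = c} ≃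
        {m : M | ∃ x, P x = m ∧ F x = c.out • x} :=
      { toFun := fun m => ⟨m.1.1, (hcl m.1 c).1 m.2⟩
        invFun := fun m => ⟨⟨m.1, by
          obtain ⟨x, hx1, hx2⟩ := m.2
          change f m.1 = m.1
          rw [← hx1, ← hPF, hx2]
          exact ((hP _ _).2 ⟨_, rfl⟩).symm⟩, (hcl _ c).2 m.2⟩
        left_inv := fun m => rfl
        right_inv := fun m => rfl }
    have e₂ : {m : {m | g m = m} // cl' m = c} ≃
        {m : N | ∃ x, Q x = m ∧ G x = c.out • x} :=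
      { toFun := fun m => ⟨m.1.1, (hcl' m.1 c).1 m.2⟩
        invFun := fun m => ⟨⟨m.1, by
          obtain ⟨x, hx1, hx2⟩ := m.2
          change g m.1 = m.1
          rw [← hx1, ← hQG, hx2]
          exact ((hQ _ _).2 ⟨_, rfl⟩).symm⟩, (hcl' _ c).2 m.2⟩
        left_inv := fun m => rfl
        right_inv := fun m => rfl }
    exact ⟨e₁.trans (e₀.trans e₂.symm)⟩
  have k : ∀ c : Quotient (st φ), ({m : {m | f m = m} // cl m = c} ≃
      {m : {m | g m = m} // cl' m = c}) := fun c => Classical.choice (key c)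
  exact ⟨(Equiv.sigmaFiberEquiv cl).symm.trans ((Equiv.sigmaCongrRight k).trans
    (Equiv.sigmaFiberEquiv cl'))⟩

end Pool.Agent.H963.HT
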