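import Pool.Agent.H963.HT.Fin2
import Pool.Agent.H963.HT.T_OC

/-!
# Anosov diffeomorphisms homotopic to a coarsely hyperbolic one: main theorem
-/

set_option autoImplicit false
set_option linter.unusedSectionVars false

open scoped Manifold ContDiff Topology
open Set Filter

namespace Pool.Agent.H963.HT

open Pool.Agent.H721R2 Pool.Agent.H789R2.AN Pool.Agent.H223.CE Pool.Agent.H244.Loc

universe u v v' w x

/-- the covering space is Euclidean -/
theorem coords {E : Type u} [NormedAddCommGroup E] [NormedSpace ℝ E] [FiniteDimensional ℝ E]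
    {M : Type v} [TopologicalSpace M] [T2Space M] [CompactSpace M] [ConnectedSpace M]
    [ChartedSpace E M] [IsManifold 𝓘(ℝ, E) ∞ M]
    (g : Diffeomorph 𝓘(ℝ, E) 𝓘(ℝ, E) M M 1)
    (Es Eu : ∀ x : M, Submodule ℝ (TangentSpace 𝓘(ℝ, E) x)) (hg : IsAnosov g Es Eu)
    {X : Type w} [MetricSpace X] [ProperSpace X] [SimplyConnectedSpace X]
    {Γ : Type x} [Group Γ] [MulAction Γ X] [IsIsometricSMul Γ X]
    (P : X → M) (hP : IsCoveringMap P) (hs : Function.Surjective P)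
    (hΓ : ∀ x y : X, P x = P y ↔ ∃ γ : Γ, γ • x = y)
    (G : X ≃ₜ X) (hG : ∀ x, P (G x) = g (P x))
    (hCG : CoarselyHyperbolic G) (hN : NWeak Γ G) : Nonempty (X ≃ₜ E) := by
  have _ : LocallyPathConnectedSpace X := t_LP E M X P hP
  have tG := man_tfae g Es Eu hg P hP hs hΓ G hG (Or.inl hCG)
  have hG1 := (tG.out 4 0).mp hN
  obtain ⟨-, π, hπ, hπs⟩ := Pool.Agent.TH289.K.man_self g Es Eu hg
    (man_gps g Es Eu hg P hP hs hΓ G hG hG1.2)
  obtain ⟨e, -⟩ := t_CO E M X P π hP hπ hπs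
  exact ⟨e⟩

theorem nfix_of_encard {X : Type*} {Γ : Type*} [Group Γ] [MulAction Γ X] {F G : X → X}
    (h : ∀ n : ℕ, 1 ≤ n → ∀ γ : Γ, {x : X | F^[n] x = γ • x}.encard = {x : X | G^[n] x = γ • x}.encard)
    (hG : NFix Γ G) : NFix Γ F := by
  intro n hn γ a b ha hb
  have h1 : {x : X | F^[n] x = γ • x}.encard ≤ 1 := by
    rw [h n hn γ, Set.encard_le_one_iff]
    intro a b ha hb
    exact hG n hn γ a b ha hb
  exact (Set.encard_le_one_iff.mp h1) a b ha hb

theorem iter_equiv {X Γ : Type*} [Group Γ] [MulAction Γ X] {F : X → X} {φ : Γ ≃* Γ}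
    (h : ∀ (γ : Γ) (x : X), F (γ • x) = φ γ • F x) (n : ℕ) (γ : Γ) (x : X) :
    F^[n] (γ • x) = ((φ : MulAut Γ) ^ n) γ • F^[n] x := by
  induction n with
  | zero => rfl
  | succ n ih =>
    rw [Function.iterate_succ_apply', ih, h, Function.iterate_succ_apply']
    rw [pow_succ']
    rfl

theorem free_act {X M Γ : Type*} [MetricSpace X] [TopologicalSpace M] [ConnectedSpace X] [Group Γ] [MulAction Γ X]
    [IsIsometricSMul Γ X] [FaithfulSMul Γ X] {P : X → M} (hP : IsCoveringMap P)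
    (hΓ : ∀ x y : X, P x = P y ↔ ∃ γ : Γ, γ • x = y) {γ : Γ} {x : X} (h : γ • x = x) : γ = 1 := by
  have h1 : (fun y : X => γ • y) = fun y => y := by
    apply hP.eq_of_comp_eq (A := X) _ _ _ x h
    · exact (isometry_smul X γ).continuous
    · exact continuous_id
    · funext y
      exact ((hΓ y (γ • y)).mpr ⟨γ, rfl⟩).symm
  exact FaithfulSMul.eq_of_smul_eq_smul (α := X) fun y => by
    rw [one_smul]
    exact congrFun h1 y

/-- The main theorem. -/
theorem main 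
    {E : Type u} [NormedAddCommGroup E] [NormedSpace ℝ E] [FiniteDimensional ℝ E]
    {M : Type v} [TopologicalSpace M] [T2Space M] [CompactSpace M] [ConnectedSpace M]
    [ChartedSpace E M] [IsManifold 𝓘(ℝ, E) ∞ M]
    {M' : Type v'} [TopologicalSpace M'] [T2Space M'] [CompactSpace M'] 
    [ChartedSpace E M'] [IsManifold 𝓘(ℝ, E) ∞ M']
    (f : Diffeomorph 𝓘(ℝ, E) 𝓘(ℝ, E) M' M' 1) (g : Diffeomorph 𝓘(ℝ, E) 𝓘(ℝ, E) M M 1)
    (Es Eu : ∀ x : M', Submodule ℝ (TangentSpace 𝓘(ℝ, E) x))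
    (Es' Eu' : ∀ x : M, Submodule ℝ (TangentSpace 𝓘(ℝ, E) x))
    (hf : IsAnosov f Es Eu) (hg : IsAnosov g Es' Eu') (r : M' ≃ₜ M)
    (hfg : ContinuousMap.Homotopic (⟨g, g.continuous⟩ : C(M, M))
      ⟨fun m => r (f (r.symm m)), r.continuous.comp (f.continuous.comp r.symm.continuous)⟩)
    {X : Type w} [MetricSpace X] [ProperSpace X] [SimplyConnectedSpace X]
    {Γ : Type x} [Group Γ] [MulAction Γ X] [IsIsometricSMul Γ X] [FaithfulSMul Γ X]
    (P : X → M) (hP : IsCoveringMap P) (hs : Function.Surjective P)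
    (hΓ : ∀ x y : X, P x = P y ↔ ∃ γ : Γ, γ • x = y)
    (G : X ≃ₜ X) (hG : ∀ x, P (G x) = g (P x))
    (hCG : CoarselyHyperbolic G) :
    ∃ (F : X ≃ₜ X) (φ : Γ ≃* Γ), (∀ x, P (F x) = r (f (r.symm (P x)))) ∧
      (∀ (γ : Γ) (x : X), F (γ • x) = φ γ • F x) ∧ (∀ (γ : Γ) (x : X), G (γ • x) = φ γ • G x) ∧
      CoarselyHyperbolic F ∧
      (Nonempty (X ≃ₜ E) → ∀ n : ℕ, 1 ≤ n →
        (∀ γ : Γ, {x : X | F^[n] x = γ • x}.Finite ∧
          {x : X | F^[n] x = γ • x}.encard = {x : X | G^[n] x = γ • x}.encard) ∧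
        {m : M' | f^[n] m = m}.encard = {m : M | g^[n] m = m}.encard) ∧
      (NWeak Γ F ↔ NWeak Γ G) ∧
      (NWeak Γ G → TopTransitive f ∧ Nonempty (X ≃ₜ E) ∧
        Pool.Agent.H223.CC.Conj Γ (r.symm ∘ P) P f g F G) := by
  have _ : ConnectedSpace M' := r.symm.surjective.connectedSpace r.symm.continuous
  -- the automorphism
  have hG' : ∀ x, P (G.symm x) = g.symm (P x) := by
    intro x
    apply g.injective
    show g (P (G.symm x)) = g (g.symm (P x))
    rw [← hG, Homeomorph.apply_symm_apply]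
    exact (g.apply_symm_apply _).symm
  have a1 : ∀ γ : Γ, ∃ γ' : Γ, ∀ x, G (γ • x) = γ' • G x :=
    fun γ => lift_normal' hP hΓ G.continuous hG γ
  have a2 : ∀ γ : Γ, ∃ γ' : Γ, ∀ x, G.symm (γ • x) = γ' • G.symm x :=
    fun γ => lift_normal' hP hΓ G.symm.continuous hG' γ
  choose α hα using a1
  choose β hβ using a2
  have fr : ∀ {γ : Γ} {x : X}, γ • x = x → γ = 1 := fun h => free_act hP hΓ h
  obtain ⟨x₀⟩ : Nonempty X := inferInstance
  have fr2 : ∀ {γ δ : Γ} {x : X}, γ • x = δ • x → γ = δ := by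
    intro γ δ x h
    have h1 : (δ⁻¹ * γ) • x = x := by rw [mul_smul, h, inv_smul_smul]
    exact (inv_mul_eq_one.mp (fr h1)).symm
  set φ : Γ ≃* Γ :=
    { toFun := α
      invFun := β
      left_inv := fun γ => by
        refine fr2 (x := x₀) ?_
        have h1 : G.symm (G (γ • x₀)) = γ • x₀ := G.symm_apply_apply _
        rw [hα, hβ, G.symm_apply_apply] at h1
        exact h1
      right_inv := fun γ => by
        refine fr2 (x := x₀) ?_
        have h1 : G (G.symm (γ • x₀)) = γ • x₀ := G.apply_symm_apply _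
        rw [hβ, hα, G.apply_symm_apply] at h1
        exact h1
      map_mul' := fun γ δ => by
        refine fr2 (x := G x₀) ?_
        rw [← hα, mul_smul, hα, hα, mul_smul] } with hφdef
  have hφ : ∀ (γ : Γ) (x : X), G (γ • x) = φ γ • G x := hα
  obtain ⟨F, hF1, hF2, hF3, hF4⟩ := core2 f g Es Eu Es' Eu' hf hg r hfg P hP hs hΓ G hG φ hφ hCG
  have hP' : IsCoveringMap (r.symm ∘ P) := hP.homeomorph_comp r.symm
  have hs' : Function.Surjective (r.symm ∘ P) := r.symm.surjective.comp hs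
  have hΓ' : ∀ x y : X, (r.symm ∘ P) x = (r.symm ∘ P) y ↔ ∃ γ : Γ, γ • x = y := by
    intro x y
    rw [← hΓ]
    exact r.symm.injective.eq_iff
  have hFP' : ∀ x, (r.symm ∘ P) (F x) = f ((r.symm ∘ P) x) := fun x => by
    show r.symm (P (F x)) = f (r.symm (P x))
    rw [hF1, Homeomorph.symm_apply_apply]
  have tF := man_tfae f Es Eu hf (r.symm ∘ P) hP' hs' hΓ' F hFP' (Or.inl hF3)
  have tG := man_tfae g Es' Eu' hg P hP hs hΓ G hG (Or.inl hCG)
  have hcount : Nonempty (X ≃ₜ E) → (NFix Γ F ↔ NFix Γ G) := fun he =>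
    ⟨fun h => nfix_of_encard (fun n hn γ => ((hF4 he n hn γ).2).symm) h,
      fun h => nfix_of_encard (fun n hn γ => (hF4 he n hn γ).2) h⟩
  have hNG : NWeak Γ G → NFix Γ F := fun h =>
    (hcount (coords g Es' Eu' hg P hP hs hΓ G hG hCG h)).2 ((tG.out 4 3).mp h)
  refine ⟨F, φ, hF1, hF2, hφ, hF3, ?_, ⟨fun h => ?_, fun h => ?_⟩, ?_⟩
  · intro he n hn
    refine ⟨hF4 he n hn, ?_⟩
    obtain ⟨e⟩ := t_OC M' M X Γ (r.symm ∘ P) P (f^[n]) (g^[n]) (F^[n]) (G^[n])
      ((φ : MulAut Γ) ^ n : MulAut Γ).toMonoidHom hs' hs hΓ' hΓ (fun γ x h => fr h)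
      (proj_iter hFP' n) (proj_iter hG n) (fun γ x => iter_equiv hF2 n γ x)
      (fun γ x => iter_equiv hφ n γ x) (fun γ => (hF4 he n hn γ).1)
      (fun γ => (hF4 he n hn γ).2)
    exact Set.encard_congr e
  · exact (tG.out 3 4).mp ((hcount (coords f Es Eu hf (r.symm ∘ P) hP' hs' hΓ' F hFP' hF3 h)).1
      ((tF.out 4 3).mp h))
  · exact (tF.out 3 4).mp (hNG h)
  · intro h
    have hF1' := (tF.out 3 0).mp (hNG h)
    refine ⟨hF1'.1, coords g Es' Eu' hg P hP hs hΓ G hG hCG h, ?_⟩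
    have hcl := (Pool.Agent.H223.CC.man_class g Es' Eu' hg f.toHomeomorph (r.symm ∘ P) hP' hs'
      hΓ' P hP hs hΓ F hFP' G hG φ hF2 hφ hCG h).2.2 f Es Eu hf (fun _ => rfl) hF3
    exact (hcl.out 2 0).mp (hNG h)

end Pool.Agent.H963.HT
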