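import Pool.Agent.H963.HT.HbStm
import Pool.Agent.H963.HT.CovStm

/-!
# CHB: coarse hyperbolicity is inherited through a coarse equivalence
-/

set_option autoImplicit false

open Set Filter Topology Metric

namespace Pool.Agent.H963.HT

open Pool.Agent.H223.CE

universe w w'

namespace NCHB

/-- iterates of semiconjugate maps at bounded distance -/
theorem iter {X' : Type w'} {X : Type w} [MetricSpace X] {f : X' → X'} {g : X → X} {K : X' → X}
    {B : ℝ} (h : ∀ z, dist (K (f z)) (g (K z)) ≤ B)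
    (hg : ∀ r : ℝ, ∃ r' : ℝ, ∀ x y : X, dist x y ≤ r → dist (g x) (g y) ≤ r') (n : ℕ) :
    ∃ B' : ℝ, ∀ z, dist (K (f^[n] z)) (g^[n] (K z)) ≤ B' := by
  induction n with
  | zero =>
    refine ⟨0, fun z => ?_⟩
    rw [Function.iterate_zero, Function.iterate_zero, id_eq, id_eq, dist_self]
  | succ n ih =>
    obtain ⟨B', hB'⟩ := ih
    obtain ⟨r', hr'⟩ := hg B'
    refine ⟨B + r', fun z => ?_⟩
    rw [Function.iterate_succ_apply', Function.iterate_succ_apply']
    refine (dist_triangle _ (g (K (f^[n] z))) _).trans ?_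
    exact add_le_add (h _) (hr' _ _ (hB' z))

/-- distances of the images -/
theorem near {X' : Type w'} [MetricSpace X'] {X : Type w} [MetricSpace X] {f : X' → X'}
    {g : X → X} {K : X' → X} {B D d : ℝ} {p q : X'}
    (hK : ∀ x y, dist (K x) (K y) ≤ dist x y)
    (h : ∀ z, dist (K (f z)) (g (K z)) ≤ B) (hd : 4 * (d - D) ≤ dist (g (K p)) (g (K q)))
    (hB : 2 * D + B ≤ d) : 2 * d ≤ dist (f p) (f q) := by
  have h1 : dist (g (K p)) (g (K q)) ≤
      dist (g (K p)) (K (f p)) + dist (K (f p)) (K (f q)) + dist (K (f q)) (g (K q)) :=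
    dist_triangle4 _ _ _ _
  have h2 := h p
  have h3 := h q
  have h4 := hK (f p) (f q)
  rw [dist_comm] at h2
  linarith

end NCHB

theorem t_CHB (hI : S_IT.{w}) (_hB : S_IB.{w, 0}) : S_CHB.{w, w'} := by
  intro X' _ X _ F G K D B hCH hK hK' hFG hω hω'
  obtain ⟨N, hN, R, hR⟩ := hCH
  obtain ⟨B1, hB1⟩ := NCHB.iter hFG hω (2 * N)
  obtain ⟨B', hB'⟩ := hω' B
  have hsymm : ∀ z, dist (K (F.symm z)) (G.symm (K z)) ≤ B' := by
    intro z
    have h1 := hFG (F.symm z)
    rw [Homeomorph.apply_symm_apply, dist_comm] at h1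
    have h2 := hB' _ _ h1
    rwa [Homeomorph.symm_apply_apply] at h2
  obtain ⟨B2, hB2⟩ := NCHB.iter hsymm hω' (2 * N)
  refine ⟨2 * N, by omega, max (max R 1 + D) (max (2 * D + B1) (2 * D + B2)),
    fun p q hpq => ?_⟩
  have h1 : max R 1 + D ≤ dist p q := (le_max_left _ _).trans hpq
  have h2 : 2 * D + B1 ≤ dist p q := ((le_max_left _ _).trans (le_max_right _ _)).trans hpq
  have h3 : 2 * D + B2 ≤ dist p q := ((le_max_right _ _).trans (le_max_right _ _)).trans hpq
  have h6 := hK' p q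
  have h4 := hI X G N R hR 2 (by norm_num) (K p) (K q) (by linarith)
  have h5 : 4 * (dist p q - D) ≤ (2 : ℝ) ^ 2 * dist (K p) (K q) := by
    norm_num
    linarith
  have h7 := h5.trans h4
  rcases le_max_iff.1 h7 with h | h
  · exact (NCHB.near hK hB1 h h2).trans (le_max_left _ _)
  · exact (NCHB.near hK hB2 h h3).trans (le_max_right _ _)

end Pool.Agent.H963.HT
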