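import Pool.Agent.H963.HT.HbStm

/-!
# Counting fixed points through the commutativity of the fixed point index
-/

set_option autoImplicit false
set_option linter.unusedSectionVars false

open MeasureTheory Set Filter Topology Metric
open scoped ContDiff

namespace Pool.Agent.H963.HT

open Pool.Agent.H963.CJ

universe u

namespace NCOM

variable {V : Type u} [NormedAddCommGroup V] [NormedSpace ℝ V] [FiniteDimensional ℝ V]

/-- a homotopy all of whose zeros lie in a ball -/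
theorem step (hH : S_SH.{u}) (H : ℝ → V → V) (R : ℝ)
    (hc : ContinuousOn (fun p : ℝ × V => H p.1 p.2) (Icc (0 : ℝ) 1 ×ˢ (univ : Set V)))
    (hz : ∀ t ∈ Icc (0 : ℝ) 1, ∀ x, H t x = 0 → ‖x‖ < R) :
    sdeg (H 0) (ball (0 : V) R) = sdeg (H 1) (ball (0 : V) R) := by
  have ho : IsOpen (ball (0 : V) R) := isOpen_ball
  refine hH V H (ball (0 : V) R) ho isBounded_ball
    (hc.mono (prod_mono subset_rfl (subset_univ _))) ?_
  intro t ht x hx hx0
  have h3 : x ∉ interior (ball (0 : V) R) := hx.2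
  rw [ho.interior_eq] at h3
  apply h3
  rw [mem_ball, dist_zero_right]
  exact hz t ht x hx0

/-- the index of the identity -/
theorem idx_id (hL : S_SL.{u}) : Idx (fun y : V => y) 0 1 := by
  have hd : (fderiv ℝ (fun y : V => y) 0).det = 1 := by
    rw [fderiv_fun_id]
    simp [ContinuousLinearMap.det]
  have h := hL V (fun y : V => y) 0 contDiffAt_id rfl (by rw [hd]; exact one_ne_zero)
  rw [hd] at h
  simpa using h

/-- continuous maps are bounded on balls -/
theorem bdd (A : V → V) (hA : Continuous A) (R : ℝ) : ∃ M : ℝ, ∀ x, ‖x‖ < R → ‖A x‖ ≤ M := by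
  have : ProperSpace V := FiniteDimensional.proper ℝ V
  obtain ⟨M, hM⟩ := (isCompact_closedBall (0 : V) R).exists_bound_of_continuousOn
    (f := A) hA.continuousOn
  refine ⟨M, fun x hx => hM x ?_⟩
  rw [mem_closedBall, dist_zero_right]
  exact hx.le

theorem norm_smul_le_of (t : ℝ) (ht : t ∈ Icc (0 : ℝ) 1) (v : V) : ‖t • v‖ ≤ ‖v‖ := by
  rw [norm_smul, Real.norm_of_nonneg ht.1]
  exact mul_le_of_le_one_left (norm_nonneg v) ht.2

theorem pair_lt (x y : V) (R : ℝ) (hx : ‖x‖ < R) (hy : ‖y‖ < R) : ‖(x, y)‖ < R := by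
  rw [Prod.norm_mk]
  exact max_lt hx hy

theorem comb (t : ℝ) (v : V) : t • v + (1 - t) • v = v := by
  rw [← add_smul, add_sub_cancel, one_smul]

end NCOM

open NCOM in
theorem t_COM (hH : S_SH.{u}) (hA : S_SA.{u}) (hP : S_SP.{u}) (hL : S_SL.{u}) : S_COM.{u} := by
  intro V _ _ _ A B Φ Ψ R₀ κ τ hκ hτ cA cB cΦ cΨ hΦ0 hΨ0 hΦz hΨz hΦi hΨi
  have m0 : (0 : ℝ) ∈ Icc (0 : ℝ) 1 := ⟨le_refl 0, zero_le_one⟩
  have m1 : (1 : ℝ) ∈ Icc (0 : ℝ) 1 := ⟨zero_le_one, le_refl 1⟩
  obtain ⟨MA, hMA⟩ := bdd A cA R₀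
  obtain ⟨MB, hMB⟩ := bdd B cB R₀
  obtain ⟨R, hR1, hR2, hR3, hR4⟩ : ∃ R : ℝ, R₀ < R ∧ MA < R ∧ MB < R ∧ 0 < R := by
    refine ⟨max (max R₀ 0) (max MA MB) + 1, ?_, ?_, ?_, ?_⟩
    · exact lt_of_le_of_lt ((le_max_left _ _).trans (le_max_left _ _)) (lt_add_one _)
    · exact lt_of_le_of_lt ((le_max_left _ _).trans (le_max_right _ _)) (lt_add_one _)
    · exact lt_of_le_of_lt ((le_max_right _ _).trans (le_max_right _ _)) (lt_add_one _)
    · exact lt_of_le_of_lt ((le_max_right _ _).trans (le_max_left _ _)) (lt_add_one _)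
  have z0 : ‖(0 : V)‖ < R := by rw [norm_zero]; exact hR4
  have hAB : ∀ x, B (A x) = x → ‖x‖ < R₀ := fun x hx => hΦz 0 m0 x (by rw [hΦ0, hx])
  have hBA : ∀ y, A (B y) = y → ‖y‖ < R₀ := fun y hy => hΨz 0 m0 y (by rw [hΨ0, hy])
  have cΦ1 := NCNT.cont_slice Φ cΦ 1 m1
  have cΨ1 := NCNT.cont_slice Ψ cΨ 1 m1
  -- (1)
  have s1 := step hH (fun t (p : V × V) => (p.1 - Φ t p.1, p.2)) R
    (by
      have h1 : ContinuousOn (fun q : ℝ × (V × V) => Φ q.1 q.2.1)
          (Icc (0 : ℝ) 1 ×ˢ (univ : Set (V × V))) :=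
        cΦ.comp (f := fun q : ℝ × (V × V) => (q.1, q.2.1))
          (by fun_prop) (fun q hq => ⟨hq.1, mem_univ _⟩)
      exact ContinuousOn.prodMk ((by fun_prop : Continuous fun q : ℝ × (V × V) =>
        q.2.1).continuousOn.sub h1) (by fun_prop))
    (by
      rintro t ht ⟨x, y⟩ h
      have h1 : x - Φ t x = 0 := (Prod.ext_iff.1 h).1
      have h2 : y = 0 := (Prod.ext_iff.1 h).2
      exact pair_lt x y R ((hΦz t ht x (sub_eq_zero.1 h1).symm).trans hR1) (by rw [h2]; exact z0))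
  -- (2)
  have s2 := step hH (fun t (p : V × V) => (p.1 - B (A p.1), p.2 - t • A p.1)) R
    (by fun_prop)
    (by
      rintro t ht ⟨x, y⟩ h
      have h1 : x - B (A x) = 0 := (Prod.ext_iff.1 h).1
      have h2 : y - t • A x = 0 := (Prod.ext_iff.1 h).2
      have h3 := hAB x (sub_eq_zero.1 h1).symm
      refine pair_lt x y R (h3.trans hR1) ?_
      rw [sub_eq_zero.1 h2]
      exact ((norm_smul_le_of t ht _).trans (hMA x h3)).trans_lt hR2)
  -- (3)
  have s3 := step hH (fun t (p : V × V) => (p.1 - B (t • A p.1 + (1 - t) • p.2), p.2 - A p.1)) R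
    (by fun_prop)
    (by
      rintro t ht ⟨x, y⟩ h
      have h1 : x - B (t • A x + (1 - t) • y) = 0 := (Prod.ext_iff.1 h).1
      have h2 : y - A x = 0 := (Prod.ext_iff.1 h).2
      rw [sub_eq_zero.1 h2, comb] at h1
      have h3 := hAB x (sub_eq_zero.1 h1).symm
      refine pair_lt x y R (h3.trans hR1) ?_
      rw [sub_eq_zero.1 h2]
      exact (hMA x h3).trans_lt hR2)
  -- (4)
  have s4 := step hH (fun t (p : V × V) => (p.1 - B p.2, p.2 - A (t • B p.2 + (1 - t) • p.1))) R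
    (by fun_prop)
    (by
      rintro t ht ⟨x, y⟩ h
      have h1 : x - B y = 0 := (Prod.ext_iff.1 h).1
      have h2 : y - A (t • B y + (1 - t) • x) = 0 := (Prod.ext_iff.1 h).2
      rw [sub_eq_zero.1 h1, comb] at h2
      have h3 := hBA y (sub_eq_zero.1 h2).symm
      refine pair_lt x y R ?_ (h3.trans hR1)
      rw [sub_eq_zero.1 h1]
      exact (hMB y h3).trans_lt hR3)
  -- (5)
  have s5 := step hH (fun t (p : V × V) => (p.1 - t • B p.2, p.2 - A (B p.2))) R
    (by fun_prop)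
    (by
      rintro t ht ⟨x, y⟩ h
      have h1 : x - t • B y = 0 := (Prod.ext_iff.1 h).1
      have h2 : y - A (B y) = 0 := (Prod.ext_iff.1 h).2
      have h3 := hBA y (sub_eq_zero.1 h2).symm
      refine pair_lt x y R ?_ (h3.trans hR1)
      rw [sub_eq_zero.1 h1]
      exact ((norm_smul_le_of t ht _).trans (hMB y h3)).trans_lt hR3)
  -- (6)
  have s6 := step hH (fun t (p : V × V) => (p.1, p.2 - Ψ t p.2)) R
    (by
      have h1 : ContinuousOn (fun q : ℝ × (V × V) => Ψ q.1 q.2.2)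
          (Icc (0 : ℝ) 1 ×ˢ (univ : Set (V × V))) :=
        cΨ.comp (f := fun q : ℝ × (V × V) => (q.1, q.2.2))
          (by fun_prop) (fun q hq => ⟨hq.1, mem_univ _⟩)
      exact ContinuousOn.prodMk (by fun_prop) ((by fun_prop : Continuous fun q : ℝ × (V × V) =>
        q.2.2).continuousOn.sub h1))
    (by
      rintro t ht ⟨x, y⟩ h
      have h1 : x = 0 := (Prod.ext_iff.1 h).1
      have h2 : y - Ψ t y = 0 := (Prod.ext_iff.1 h).2
      exact pair_lt x y R (by rw [h1]; exact z0) ((hΨz t ht y (sub_eq_zero.1 h2).symm).trans hR1))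
  -- the two ends
  have e1 : sdeg (fun p : V × V => (p.1 - Φ 1 p.1, p.2)) (ball 0 R) =
      sdeg (fun p : V × V => (p.1, p.2 - Ψ 1 p.2)) (ball 0 R) := by
    simp only [hΦ0, hΨ0, one_smul, zero_smul, sub_zero, sub_self, add_zero, zero_add] at s1 s2 s3 s4 s5 s6
    rw [← s1, s2, ← s3, s4, ← s5, s6]
  -- zeros of the first map
  obtain ⟨f1, d1⟩ := NCNT.deg_const hA (fun p : V × V => (p.1 - Φ 1 p.1, p.2)) (by fun_prop) R κ
    (by
      rintro ⟨x, y⟩ h
      have h1 : x - Φ 1 x = 0 := (Prod.ext_iff.1 h).1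
      have h2 : y = 0 := (Prod.ext_iff.1 h).2
      exact pair_lt x y R ((hΦz 1 m1 x (sub_eq_zero.1 h1).symm).trans hR1) (by rw [h2]; exact z0))
    (by
      rintro ⟨x, y⟩ h
      have h1 : x - Φ 1 x = 0 := (Prod.ext_iff.1 h).1
      have h2 : y = 0 := (Prod.ext_iff.1 h).2
      have h3 := hP V (fun x => x - Φ 1 x) (fun y => y) x 0 κ 1
        (hΦi x (sub_eq_zero.1 h1).symm) (idx_id hL)
      rw [mul_one] at h3
      rw [h2]
      exact h3)
  obtain ⟨f2, d2⟩ := NCNT.deg_const hA (fun p : V × V => (p.1, p.2 - Ψ 1 p.2)) (by fun_prop) R τ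
    (by
      rintro ⟨x, y⟩ h
      have h1 : x = 0 := (Prod.ext_iff.1 h).1
      have h2 : y - Ψ 1 y = 0 := (Prod.ext_iff.1 h).2
      exact pair_lt x y R (by rw [h1]; exact z0) ((hΨz 1 m1 y (sub_eq_zero.1 h2).symm).trans hR1))
    (by
      rintro ⟨x, y⟩ h
      have h1 : x = 0 := (Prod.ext_iff.1 h).1
      have h2 : y - Ψ 1 y = 0 := (Prod.ext_iff.1 h).2
      have h3 := hP V (fun x => x) (fun y => y - Ψ 1 y) 0 y 1 τ
        (idx_id hL) (hΨi y (sub_eq_zero.1 h2).symm)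
      rw [one_mul] at h3
      rw [h1]
      exact h3)
  have g1 : {p : V × V | (p.1 - Φ 1 p.1, p.2) = (0 : V × V)} = (fun x : V => (x, (0 : V))) '' {x | Φ 1 x = x} := by
    ext ⟨x, y⟩
    constructor
    · intro h
      have h1 : x - Φ 1 x = 0 := (Prod.ext_iff.1 h).1
      have h2 : y = 0 := (Prod.ext_iff.1 h).2
      exact ⟨x, (sub_eq_zero.1 h1).symm, by rw [h2]⟩
    · rintro ⟨z, hz, hzz⟩
      have h1 : z = x := (Prod.ext_iff.1 hzz).1
      have h2 : (0 : V) = y := (Prod.ext_iff.1 hzz).2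
      subst h1
      have hz' : Φ 1 z = z := hz
      refine Prod.ext ?_ h2.symm
      change z - Φ 1 z = 0
      rw [hz', sub_self]
  have g2 : {p : V × V | (p.1, p.2 - Ψ 1 p.2) = (0 : V × V)} = (fun y : V => ((0 : V), y)) '' {y | Ψ 1 y = y} := by
    ext ⟨x, y⟩
    constructor
    · intro h
      have h1 : x = 0 := (Prod.ext_iff.1 h).1
      have h2 : y - Ψ 1 y = 0 := (Prod.ext_iff.1 h).2
      exact ⟨y, (sub_eq_zero.1 h2).symm, by rw [h1]⟩
    · rintro ⟨z, hz, hzz⟩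
      have h1 : (0 : V) = x := (Prod.ext_iff.1 hzz).1
      have h2 : z = y := (Prod.ext_iff.1 hzz).2
      subst h2
      have hz' : Ψ 1 z = z := hz
      refine Prod.ext h1.symm ?_
      change z - Ψ 1 z = 0
      rw [hz', sub_self]
  have i1 : Function.Injective (fun x : V => (x, (0 : V))) := fun a b h => (Prod.ext_iff.1 h).1
  have i2 : Function.Injective (fun y : V => ((0 : V), y)) := fun a b h => (Prod.ext_iff.1 h).2
  rw [g1] at f1 d1
  rw [g2] at f2 d2
  rw [Set.ncard_image_of_injective _ i1] at d1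
  rw [Set.ncard_image_of_injective _ i2] at d2
  have f1' : {x | Φ 1 x = x}.Finite := f1.of_finite_image i1.injOn
  have f2' : {y | Ψ 1 y = y}.Finite := f2.of_finite_image i2.injOn
  refine ⟨f1', ?_⟩
  rw [← f1'.cast_ncard_eq, ← f2'.cast_ncard_eq]
  rw [d1, d2] at e1
  have h2 := congrArg abs e1
  rw [abs_mul, abs_mul, hκ, hτ, one_mul, one_mul, abs_of_nonneg (Int.natCast_nonneg _),
    abs_of_nonneg (Int.natCast_nonneg _)] at h2
  have h3 : {x | Φ 1 x = x}.ncard = {y | Ψ 1 y = y}.ncard := by exact_mod_cast h2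
  rw [h3]

end Pool.Agent.H963.HT
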