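import Pool.Agent.H963.HT.HbStm

/-!
# Extension of equivariant maps into a Euclidean space
-/

set_option autoImplicit false

open Set Filter Topology Metric

namespace Pool.Agent.H963.HT

universe u v w w' x

namespace NEXT

section

variable {T : Type} [TopologicalSpace T] [T2Space T] [CompactSpace T]
  {M : Type v} [TopologicalSpace M] [T2Space M] [CompactSpace M] {X : Type w} [TopologicalSpace X]
  {Y : Type w'} [TopologicalSpace Y] {E : Type u} [NormedAddCommGroup E] [NormedSpace ℝ E]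
  [FiniteDimensional ℝ E] {Γ : Type x} [Group Γ] [MulAction Γ X] [MulAction Γ Y]

theorem uniq {X : Type w} [MulAction Γ X] (hfree : ∀ (γ : Γ) (x : X), γ • x = x → γ = 1) {γ δ : Γ} {y : X}
    (h : γ • y = δ • y) : γ = δ := by
  have h1 : (δ⁻¹ * γ) • y = y := by rw [mul_smul, h, inv_smul_smul]
  have h2 := hfree _ _ h1
  exact (inv_mul_eq_one.mp h2).symm

theorem step (h : Y ≃ₜ E) (ψ : Γ →* Γ) (P : X → M) (hP : IsLocalHomeomorph P)
    (horb : ∀ x y : X, P x = P y ↔ ∃ γ : Γ, γ • x = y)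
    (hfree : ∀ (γ : Γ) (x : X), γ • x = x → γ = 1) (hcX : ∀ γ : Γ, Continuous fun x : X => γ • x)
    (hcY : ∀ γ : Γ, Continuous fun y : Y => γ • y) (D : Set (T × M)) (hD : IsClosed D)
    (K : Set M) (hK : IsClosed K) (e : OpenPartialHomeomorph X M) (heP : P = e) (hKe : K ⊆ e.target)
    (β : T × X → Y) (hβ : ContinuousOn β {p | (p.1, P p.2) ∈ D})
    (heq : ∀ (γ : Γ) (t : T) (x : X), (t, P x) ∈ D → β (t, γ • x) = ψ γ • β (t, x)) :
    ∃ β' : T × X → Y, ContinuousOn β' {p | (p.1, P p.2) ∈ D ∪ univ ×ˢ K} ∧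
      (∀ (γ : Γ) (t : T) (x : X), (t, P x) ∈ D ∪ univ ×ˢ K → β' (t, γ • x) = ψ γ • β' (t, x)) ∧
      ∀ t x, (t, P x) ∈ D → β' (t, x) = β (t, x) := by
  classical
  have hPc : Continuous P := hP.continuous
  have hPs : ∀ m ∈ e.target, P (e.symm m) = m := by
    intro m hm
    rw [heP]
    exact e.right_inv hm
  have hPg : ∀ (γ : Γ) (x : X), P (γ • x) = P x := fun γ x => ((horb x (γ • x)).mpr ⟨γ, rfl⟩).symm
  -- Tietze
  have hA : IsClosed (D ∩ (univ ×ˢ K)) := hD.inter (isClosed_univ.prod hK)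
  have hf : ContinuousOn (fun q : T × M => h (β (q.1, e.symm q.2))) (D ∩ (univ ×ˢ K)) := by
    refine h.continuous.comp_continuousOn (hβ.comp
      (continuous_fst.continuousOn.prodMk (e.continuousOn_symm.comp continuous_snd.continuousOn
        fun q hq => hKe hq.2.2)) fun q hq => ?_)
    show (q.1, P (e.symm q.2)) ∈ D
    rw [hPs _ (hKe hq.2.2)]
    exact hq.1
  have : TietzeExtension.{v, u} E := TietzeExtension.of_tvs ℝ
  obtain ⟨b, hb⟩ := ContinuousMap.exists_restrict_eq hA
    (⟨_, continuousOn_iff_continuous_domRestrict.mp hf⟩ : C(↥(D ∩ (univ ×ˢ K)), E))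
  have hb' : ∀ q ∈ D ∩ (univ ×ˢ K), b q = h (β (q.1, e.symm q.2)) := by
    intro q hq
    have := DFunLike.congr_fun hb ⟨q, hq⟩
    exact this
  -- the element of the group
  have hg0 : ∀ x : X, ∃ γ : Γ, P x ∈ e.target → γ • e.symm (P x) = x := by
    intro x
    by_cases hx : P x ∈ e.target
    · obtain ⟨γ, hγ⟩ := (horb (e.symm (P x)) x).mp (hPs _ hx)
      exact ⟨γ, fun _ => hγ⟩
    · exact ⟨1, fun h => absurd h hx⟩
  choose g hg using hg0
  have hloc : ∀ x₀ : X, P x₀ ∈ e.target → ∀ᶠ x in 𝓝 x₀, g x = g x₀ := by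
    intro x₀ hx₀
    obtain ⟨e', hx', he'⟩ := hP x₀
    have h1 : ∀ᶠ x in 𝓝 x₀, x ∈ e'.source := e'.open_source.mem_nhds hx'
    have h2 : ContinuousAt (fun x => g x₀ • e.symm (P x)) x₀ :=
      (hcX (g x₀)).continuousAt.comp
        ((e.continuousOn_symm.continuousAt (e.open_target.mem_nhds hx₀)).comp hPc.continuousAt)
    have h4 : ∀ᶠ x in 𝓝 x₀, g x₀ • e.symm (P x) ∈ e'.source := by
      refine h2.eventually ?_
      simp only [hg x₀ hx₀]
      exact e'.open_source.mem_nhds hx'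
    have h5 : ∀ᶠ x in 𝓝 x₀, P x ∈ e.target := hPc.continuousAt.eventually (e.open_target.mem_nhds hx₀)
    filter_upwards [h1, h4, h5] with x a1 a2 a3
    have h6 : g x₀ • e.symm (P x) = x := by
      refine e'.injOn a2 a1 ?_
      rw [← he', hPg, hPs _ a3]
    exact uniq hfree ((hg x a3).trans h6.symm)
  have hgm : ∀ (δ : Γ) (x : X), P x ∈ e.target → g (δ • x) = δ * g x := by
    intro δ x hx
    have h1 := hg (δ • x) (by rw [hPg]; exact hx)
    rw [hPg] at h1
    refine uniq (y := e.symm (P x)) hfree ?_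
    rw [h1, mul_smul, hg x hx]
  obtain ⟨r, hr⟩ : ∃ r : T × X → Y, r = fun p => ψ (g p.2) • h.symm (b (p.1, P p.2)) := ⟨_, rfl⟩
  have hrc : ∀ p : T × X, P p.2 ∈ e.target → ContinuousAt r p := by
    intro p hp
    have h1 : r =ᶠ[𝓝 p] fun q => ψ (g p.2) • h.symm (b (q.1, P q.2)) := by
      have h2 : ∀ᶠ q in 𝓝 p, g q.2 = g p.2 := continuous_snd.continuousAt.eventually (hloc p.2 hp)
      filter_upwards [h2] with q hq
      rw [hr]
      simp only [hq]
    refine ContinuousAt.congr ?_ h1.symm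
    exact ((hcY _).comp (h.symm.continuous.comp (b.continuous.comp
      (continuous_fst.prodMk (hPc.comp continuous_snd))))).continuousAt
  have hrD : ∀ p : T × X, (p.1, P p.2) ∈ D → P p.2 ∈ K → β p = r p := by
    intro p hp hpK
    have h1 := heq (g p.2) p.1 (e.symm (P p.2)) (by rw [hPs _ (hKe hpK)]; exact hp)
    rw [hg p.2 (hKe hpK)] at h1
    rw [hr]
    simp only
    rw [hb' (p.1, P p.2) ⟨hp, mem_univ _, hpK⟩, h.symm_apply_apply]
    exact h1
  have e1 : ∀ p : T × X, (p.1, P p.2) ∈ D → (if (p.1, P p.2) ∈ D then β p else r p) = β p :=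
    fun p hp => if_pos hp
  have e2 : ∀ p : T × X, P p.2 ∈ K → (if (p.1, P p.2) ∈ D then β p else r p) = r p := by
    intro p hp
    split_ifs with h1
    · exact hrD p h1 hp
    · rfl
  refine ⟨fun p => if (p.1, P p.2) ∈ D then β p else r p, ?_, ?_, fun t x hx => e1 (t, x) hx⟩
  · have hs : {p : T × X | (p.1, P p.2) ∈ D ∪ univ ×ˢ K} =
        {p : T × X | (p.1, P p.2) ∈ D} ∪ {p : T × X | P p.2 ∈ K} := by
      ext p
      simp
    rw [hs]
    have hc1 : IsClosed {p : T × X | (p.1, P p.2) ∈ D} :=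
      hD.preimage (continuous_fst.prodMk (hPc.comp continuous_snd))
    have hc2 : IsClosed {p : T × X | P p.2 ∈ K} := hK.preimage (hPc.comp continuous_snd)
    refine ContinuousOn.union_of_isClosed ?_ ?_ hc1 hc2
    · exact hβ.congr fun p hp => e1 p hp
    · refine ContinuousOn.congr (f := r) ?_ fun p hp => e2 p hp
      exact fun p hp => (hrc p (hKe hp)).continuousWithinAt
  · intro γ t x hx
    rcases hx with hx | hx
    · simp only
      rw [e1 (t, x) hx]
      have := e1 (t, γ • x) (by simp only [hPg]; exact hx)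
      simp only at this
      rw [this]
      exact heq γ t x hx
    · have hx' : P x ∈ K := hx.2
      simp only
      rw [e2 (t, x) hx']
      have := e2 (t, γ • x) (by simp only [hPg]; exact hx')
      simp only at this
      rw [this, hr]
      simp only
      rw [hgm γ x (hKe hx'), hPg, map_mul, mul_smul]

end

end NEXT

theorem t_EXT : S_EXT.{u, v, w, w', x} := by
  intro T _ _ _ M _ _ _ X _ Y _ E _ _ _ h Γ _ _ _ ψ P C α hcov hsurj horb hfree hcX hcY hC hα heq
  have hPl := hcov.isLocalHomeomorph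
  have hex : ∀ m : M, ∃ (e : OpenPartialHomeomorph X M) (K : Set M),
      P = e ∧ IsCompact K ∧ m ∈ interior K ∧ K ⊆ e.target := by
    intro m
    obtain ⟨x, rfl⟩ := hsurj m
    obtain ⟨e, hx, he⟩ := hPl x
    obtain ⟨K, hK, h1, h2⟩ := exists_compact_subset e.open_target
      (show P x ∈ e.target by rw [he]; exact e.map_source hx)
    exact ⟨e, K, he, hK, h1, h2⟩
  choose e K he hKc hKi hKe using hex
  obtain ⟨S, -, hS⟩ := isCompact_univ.elim_nhds_subcover (fun m => interior (K m))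
    (fun m _ => isOpen_interior.mem_nhds (hKi m))
  have main : ∀ S : Finset M, ∃ β : T × X → Y,
      ContinuousOn β {p | (p.1, P p.2) ∈ C ∪ univ ×ˢ (⋃ m ∈ S, K m)} ∧
      (∀ (γ : Γ) (t : T) (x : X), (t, P x) ∈ C ∪ univ ×ˢ (⋃ m ∈ S, K m) →
        β (t, γ • x) = ψ γ • β (t, x)) ∧ ∀ t x, (t, P x) ∈ C → β (t, x) = α (t, x) := by
    classical
    intro S
    induction S using Finset.induction_on with
    | empty =>
      refine ⟨α, ?_, ?_, fun _ _ _ => rfl⟩
      · simpa using hα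
      · simpa using heq
    | insert a S _ ih =>
      obtain ⟨β, h1, h2, h3⟩ := ih
      have hcl : IsClosed (C ∪ univ ×ˢ (⋃ m ∈ S, K m)) := by
        refine hC.union (isClosed_univ.prod ?_)
        exact isClosed_biUnion_finset fun m _ => (hKc m).isClosed
      obtain ⟨β', g1, g2, g3⟩ := NEXT.step h ψ P hPl horb hfree hcX hcY _ hcl (K a) (hKc a).isClosed
        (e a) (he a) (hKe a) β h1 h2
      have hset : C ∪ univ ×ˢ (⋃ m ∈ insert a S, K m) =
          (C ∪ univ ×ˢ (⋃ m ∈ S, K m)) ∪ (univ : Set T) ×ˢ K a := by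
        ext p
        simp only [Finset.set_biUnion_insert, mem_union, mem_prod, mem_univ, true_and]
        tauto
      rw [hset]
      exact ⟨β', g1, g2, fun t x hx => (g3 t x (Or.inl hx)).trans (h3 t x hx)⟩
  obtain ⟨β, h1, h2, h3⟩ := main S
  have hall : ∀ (t : T) (m : M), (t, m) ∈ C ∪ univ ×ˢ (⋃ m ∈ S, K m) := by
    intro t m
    have hm := hS (mem_univ m)
    simp only [mem_iUnion] at hm
    obtain ⟨i, hi, him⟩ := hm
    refine Or.inr ⟨mem_univ _, ?_⟩
    simp only [mem_iUnion]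
    exact ⟨i, hi, interior_subset him⟩
  have hc : Continuous β := by
    rw [← continuousOn_univ]
    refine h1.mono fun p _ => hall p.1 (P p.2)
  exact ⟨⟨β, hc⟩, fun t x hx => h3 t x hx, fun γ t x => h2 γ t x (hall t (P x))⟩

end Pool.Agent.H963.HT
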