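import Pool.Agent.H963.HT.HbStm

set_option autoImplicit false

open Set Filter Topology Metric

namespace Pool.Agent.H963.HT

universe u v w w' x

namespace NMET

theorem cpt_nhds {N : Type v} [TopologicalSpace N] [T2Space N] [CompactSpace N]
    {X' : Type w'} [TopologicalSpace X'] (Q : X' → N) (hQ : IsCoveringMap Q)
    (hs : Function.Surjective Q) (n : N) : ∃ C : Set X', IsCompact C ∧ Q '' C ∈ 𝓝 n := by
  obtain ⟨x, rfl⟩ := hs n
  obtain ⟨e, hx, he⟩ := hQ.isLocalHomeomorph x
  have hxt : Q x ∈ e.target := by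
    rw [he]
    exact e.map_source hx
  obtain ⟨C, hC, hCt, hCc⟩ := local_compact_nhds (e.open_target.mem_nhds hxt)
  refine ⟨e.symm '' C, hCc.image_of_continuousOn (e.continuousOn_symm.mono hCt), ?_⟩
  have : Q '' (e.symm '' C) = C := by
    rw [he]
    ext z
    constructor
    · rintro ⟨_, ⟨c, hc, rfl⟩, rfl⟩
      rw [e.right_inv (hCt hc)]
      exact hc
    · intro hz
      exact ⟨e.symm z, ⟨z, hz, rfl⟩, e.right_inv (hCt hz)⟩
  rw [this]
  exact hC

theorem cpt_fund {N : Type v} [TopologicalSpace N] [T2Space N] [CompactSpace N]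
    {X' : Type w'} [TopologicalSpace X'] (Q : X' → N) (hQ : IsCoveringMap Q)
    (hs : Function.Surjective Q) : ∃ D : Set X', IsCompact D ∧ Q '' D = univ := by
  choose C hC hCn using cpt_nhds Q hQ hs
  obtain ⟨T, hT⟩ := CompactSpace.elim_nhds_subcover (fun n => Q '' C n) hCn
  refine ⟨⋃ n ∈ T, C n, T.isCompact_biUnion fun n _ => hC n, ?_⟩
  rw [eq_univ_iff_forall]
  intro z
  have hz : z ∈ ⋃ n ∈ T, Q '' C n := by
    have : (⋃ n ∈ T, Q '' C n) = ⊤ := hT
    rw [this]
    trivial
  simp only [mem_iUnion] at hz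
  obtain ⟨n, hn, c, hc, rfl⟩ := hz
  exact ⟨c, by simp only [mem_iUnion]; exact ⟨n, hn, hc⟩, rfl⟩

theorem proper_of {X' : Type*} {Y : Type*} [MetricSpace X'] [MetricSpace Y] [ProperSpace Y]
    (j : X' → Y) (h : ∀ x y, dist x y = dist (j x) (j y)) (hc : IsClosed (range j)) :
    ProperSpace X' := by
  have hiso : Isometry j := Isometry.of_dist_eq fun x y => (h x y).symm
  have hce : IsClosedEmbedding j := ⟨hiso.isEmbedding, hc⟩
  refine ⟨?_⟩
  intro x r
  have h1 : closedBall x r = j ⁻¹' closedBall (j x) r := by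
    ext y
    show dist y x ≤ r ↔ dist (j y) (j x) ≤ r
    rw [h]
  rw [h1]
  exact hce.isCompact_preimage (isCompact_closedBall _ _)

end NMET

open NMET in
theorem t_MET : S_MET.{v, w, w', x} := by
  intro N _ _ X' t X _ _ Γ _ _ _ _ Q K x₀ hQ hs hfib hcont hfree hfin hK
  have hQinv : ∀ (γ : Γ) (x : X'), Q (γ • x) = Q x := fun γ x => ((hfib x (γ • x)).2 ⟨γ, rfl⟩).symm
  set j : X' → N × X := fun x => (Q x, K x) with hj
  have hinj : Function.Injective j := by
    intro x y hxy
    have h1 : Q x = Q y := congrArg Prod.fst hxy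
    have h2 : K x = K y := congrArg Prod.snd hxy
    obtain ⟨γ, rfl⟩ := (hfib x y).1 h1
    rw [hK] at h2
    have h3 := hfree γ (K x) h2.symm
    rw [h3, one_smul]
  have hjc : Continuous j := hQ.continuous.prodMk K.continuous
  obtain ⟨D, hDc, hD⟩ := cpt_fund Q hQ hs
  have hball : ∀ r : ℝ, ∃ E : Set X', IsCompact E ∧ ∀ y : X', dist (K y) x₀ ≤ r → y ∈ E := by
    intro r
    obtain ⟨R, hR⟩ := (hDc.image K.continuous).isBounded.subset_closedBall x₀
    refine ⟨⋃ γ ∈ {γ : Γ | dist (γ • x₀) x₀ ≤ r + R}, (fun x : X' => γ⁻¹ • x) '' D,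
      (hfin (r + R)).isCompact_biUnion fun γ _ => hDc.image (hcont γ⁻¹), ?_⟩
    intro y hy
    have hy1 : Q y ∈ Q '' D := by
      rw [hD]
      trivial
    obtain ⟨z, hz, hzy⟩ := hy1
    obtain ⟨γ, hγ⟩ := (hfib y z).1 hzy.symm
    simp only [mem_iUnion]
    refine ⟨γ, ?_, z, hz, ?_⟩
    · show dist (γ • x₀) x₀ ≤ r + R
      have h1 : dist (K z) x₀ ≤ R := hR ⟨z, hz, rfl⟩
      rw [← hγ, hK] at h1
      calc dist (γ • x₀) x₀ ≤ dist (γ • x₀) (γ • K y) + dist (γ • K y) x₀ := dist_triangle _ _ _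
        _ = dist x₀ (K y) + dist (γ • K y) x₀ := by rw [dist_smul]
        _ ≤ r + R := by
            rw [dist_comm x₀]
            linarith
    · show γ⁻¹ • z = y
      rw [← hγ, inv_smul_smul]
  have hprop : IsProperMap j := by
    rw [isProperMap_iff_isCompact_preimage]
    refine ⟨hjc, ?_⟩
    intro C hC
    obtain ⟨r, hr⟩ := (hC.image continuous_snd).isBounded.subset_closedBall x₀
    obtain ⟨E, hE, hEm⟩ := hball r
    refine hE.of_isClosed_subset (hC.isClosed.preimage hjc) ?_
    intro y hy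
    exact hEm y (hr ⟨j y, hy, rfl⟩)
  have hce : IsClosedEmbedding j :=
    IsClosedEmbedding.of_continuous_injective_isClosedMap hjc hinj hprop.isClosedMap
  have hrange : IsClosed (range j) := hce.isClosed_range
  have htop : TopologicalSpace.induced j inferInstance = t := hce.isInducing.eq_induced.symm
  clear hprop
  let m : MetricSpace X' := MetricSpace.induced j hinj inferInstance
  have hdist : ∀ x y : X', m.dist x y = dist (j x) (j y) := fun _ _ => rfl
  refine ⟨m, htop, ?_, ?_, ?_, ?_⟩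
  · exact @proper_of X' (N × X) m _ _ j hdist hrange
  · intro γ x y
    rw [hdist, hdist, Prod.dist_eq, Prod.dist_eq]
    simp only [hj]
    rw [hQinv, hQinv, hK, hK, dist_smul]
  · intro x y
    rw [hdist, Prod.dist_eq]
    exact le_max_right _ _
  · refine ⟨diam (univ : Set N), ?_⟩
    intro x y
    rw [hdist, Prod.dist_eq]
    have h1 : dist (Q x) (Q y) ≤ diam (univ : Set N) :=
      dist_le_diam_of_mem isCompact_univ.isBounded (mem_univ _) (mem_univ _)
    have h2 : 0 ≤ dist (K x) (K y) := dist_nonneg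
    have h3 : 0 ≤ diam (univ : Set N) := diam_nonneg
    exact max_le (by simp only [hj]; linarith) (by simp only [hj]; linarith)

end Pool.Agent.H963.HT
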