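import Pool.Agent.H963.HT.Fin3
import Pool.Agent.H963.HT.T_EXT
import Pool.Agent.H963.HT.T_COM
import Pool.Agent.H963.HT.T_MET
import Pool.Agent.H963.HT.T_CHB

/-!
# Anosov diffeomorphisms of two manifolds with the same action on the fundamental group
-/

set_option autoImplicit false
set_option linter.unusedSectionVars false

open scoped Manifold ContDiff Topology
open Set Filter

namespace Pool.Agent.H963.HT

open Pool.Agent.H721R2 Pool.Agent.H789R2.AN Pool.Agent.H223.CE Pool.Agent.H244.Loc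

universe u v v' w w' x

open scoped unitInterval

/-- continuous invariant functions are bounded -/
theorem bdd_inv {X : Type*} [MetricSpace X] [ProperSpace X] {Γ : Type*} [Group Γ] [MulAction Γ X]
    (x₀ : X) (R₀ : ℝ) (hR : ∀ x : X, ∃ γ : Γ, dist (γ • x) x₀ ≤ R₀) {T : Type*}
    [TopologicalSpace T] [CompactSpace T] (u : T × X → ℝ) (hu : Continuous u)
    (hinv : ∀ (t : T) (γ : Γ) (x : X), u (t, γ • x) = u (t, x)) :
    ∃ B : ℝ, ∀ t x, u (t, x) ≤ B := by
  have hK : IsCompact ((univ : Set T) ×ˢ Metric.closedBall x₀ R₀) :=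
    isCompact_univ.prod (isCompact_closedBall x₀ R₀)
  obtain ⟨B, hB⟩ := (hK.image hu).bddAbove
  refine ⟨B, fun t x => ?_⟩
  obtain ⟨γ, hγ⟩ := hR x
  rw [← hinv t γ x]
  exact hB ⟨(t, γ • x), ⟨mem_univ _, hγ⟩, rfl⟩

section ext

variable {E : Type u} [NormedAddCommGroup E] [NormedSpace ℝ E] [FiniteDimensional ℝ E]
  {M : Type v} [TopologicalSpace M] [T2Space M] [CompactSpace M]
  {X : Type w} [TopologicalSpace X] {Y : Type w'} [TopologicalSpace Y] (e : Y ≃ₜ E)
  {Γ : Type x} [Group Γ] [MulAction Γ X] [MulAction Γ Y]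
  (P : X → M) (hP : IsCoveringMap P) (hs : Function.Surjective P)
  (hΓ : ∀ x y : X, P x = P y ↔ ∃ γ : Γ, γ • x = y) (fr : ∀ (γ : Γ) (x : X), γ • x = x → γ = 1)
  (cX : ∀ γ : Γ, Continuous fun x : X => γ • x) (cY : ∀ γ : Γ, Continuous fun y : Y => γ • y)

include e hP hs hΓ fr cX cY in
theorem exists_eqv : ∃ K : C(X, Y), ∀ (γ : Γ) (x : X), K (γ • x) = γ • K x := by
  obtain ⟨β, -, hβ⟩ := t_EXT Unit M X Y E e Γ (MonoidHom.id Γ) P ∅ (fun _ => e.symm 0) hP hs hΓ fr
    cX cY isClosed_empty (by simp) (fun γ t x h => absurd h (Set.notMem_empty _))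
  exact ⟨⟨fun x => β ((), x), by fun_prop⟩, fun γ x => hβ γ () x⟩

include e hP hs hΓ fr cX cY in
theorem exists_htp (ψ : Γ →* Γ) (A B : X → Y) (cA : Continuous A) (cB : Continuous B)
    (hA : ∀ (γ : Γ) (x : X), A (γ • x) = ψ γ • A x)
    (hB : ∀ (γ : Γ) (x : X), B (γ • x) = ψ γ • B x) :
    ∃ Φ : C(I × X, Y), (∀ x, Φ (0, x) = A x) ∧ (∀ x, Φ (1, x) = B x) ∧
      ∀ (t : I) (γ : Γ) (x : X), Φ (t, γ • x) = ψ γ • Φ (t, x) := by
  classical
  set α : I × X → Y := fun p => if p.1 = 0 then A p.2 else B p.2 with hα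
  set C : Set (I × M) := {p | p.1 = 0 ∨ p.1 = 1} with hC
  have hCc : IsClosed C := by
    have h0 : IsClosed {p : I × M | p.1 = 0} := isClosed_eq continuous_fst continuous_const
    have h1 : IsClosed {p : I × M | p.1 = 1} := isClosed_eq continuous_fst continuous_const
    exact h0.union h1
  have h10 : (1 : I) ≠ 0 := one_ne_zero
  have hαc : ContinuousOn α {p | (p.1, P p.2) ∈ C} := by
    have h0 : IsClosed {p : I × X | p.1 = 0} := isClosed_eq continuous_fst continuous_const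
    have h1 : IsClosed {p : I × X | p.1 = 1} := isClosed_eq continuous_fst continuous_const
    have k0 : ContinuousOn α {p : I × X | p.1 = 0} :=
      (cA.comp continuous_snd).continuousOn.congr fun p hp => if_pos hp
    have k1 : ContinuousOn α {p : I × X | p.1 = 1} :=
      (cB.comp continuous_snd).continuousOn.congr fun p hp => by
        have hp' : p.1 = 1 := hp
        show (if p.1 = 0 then A p.2 else B p.2) = B p.2
        rw [if_neg (by rw [hp']; exact h10)]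
    exact k0.union_of_isClosed k1 h0 h1
  obtain ⟨β, hβ1, hβ2⟩ := t_EXT I M X Y E e Γ ψ P C α hP hs hΓ fr cX cY hCc hαc
    (fun γ t x _ => by
      show (if t = 0 then A (γ • x) else B (γ • x)) = ψ γ • (if t = 0 then A x else B x)
      split_ifs
      · exact hA γ x
      · exact hB γ x)
  refine ⟨β, fun x => ?_, fun x => ?_, fun t γ x => hβ2 γ t x⟩
  · rw [hβ1 0 x (Or.inl rfl)]
    exact if_pos rfl
  · rw [hβ1 1 x (Or.inr rfl)]
    exact if_neg h10

end ext

theorem hb_core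
    {E : Type u} [NormedAddCommGroup E] [NormedSpace ℝ E] [FiniteDimensional ℝ E]
    {M : Type v} [TopologicalSpace M] [T2Space M] [CompactSpace M]
    [ChartedSpace E M] [IsManifold 𝓘(ℝ, E) ∞ M]
    {M' : Type v'} [TopologicalSpace M'] [T2Space M'] [CompactSpace M']
    [ChartedSpace E M'] [IsManifold 𝓘(ℝ, E) ∞ M']
    (f : Diffeomorph 𝓘(ℝ, E) 𝓘(ℝ, E) M' M' 1) (g : Diffeomorph 𝓘(ℝ, E) 𝓘(ℝ, E) M M 1)
    (Es Eu : ∀ x : M', Submodule ℝ (TangentSpace 𝓘(ℝ, E) x))
    (Es' Eu' : ∀ x : M, Submodule ℝ (TangentSpace 𝓘(ℝ, E) x))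
    (hf : IsAnosov f Es Eu) (hg : IsAnosov g Es' Eu')
    {X' : Type w'} [MetricSpace X'] [ProperSpace X'] {X : Type w} [MetricSpace X] [ProperSpace X]
    {Γ : Type x} [Group Γ] [MulAction Γ X'] [IsIsometricSMul Γ X'] [MulAction Γ X]
    [IsIsometricSMul Γ X]
    (P' : X' → M') (hP' : IsCoveringMap P') (hs' : Function.Surjective P')
    (hΓ' : ∀ x y : X', P' x = P' y ↔ ∃ γ : Γ, γ • x = y)
    (P : X → M) (hP : IsCoveringMap P) (hs : Function.Surjective P)
    (hΓ : ∀ x y : X, P x = P y ↔ ∃ γ : Γ, γ • x = y)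
    (fr' : ∀ (γ : Γ) (x : X'), γ • x = x → γ = 1) (fr : ∀ (γ : Γ) (x : X), γ • x = x → γ = 1)
    (F : X' ≃ₜ X') (hF : ∀ x, P' (F x) = f (P' x)) (G : X ≃ₜ X) (hG : ∀ x, P (G x) = g (P x))
    (φ : Γ ≃* Γ) (hφF : ∀ (γ : Γ) (x : X'), F (γ • x) = φ γ • F x)
    (hφG : ∀ (γ : Γ) (x : X), G (γ • x) = φ γ • G x)
    (hCG : CoarselyHyperbolic G) (e' : X' ≃ₜ E) (e : X ≃ₜ E) (x₀' : X') (x₀ : X)
    (K : C(X', X)) (hK : ∀ (γ : Γ) (x : X'), K (γ • x) = γ • K x) (D : ℝ)
    (hK1 : ∀ x y, dist (K x) (K y) ≤ dist x y) (hD : ∀ x y, dist x y ≤ dist (K x) (K y) + D)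
    (L : C(X, X')) (hL : ∀ (γ : Γ) (x : X), L (γ • x) = γ • L x) :
    CoarselyHyperbolic F ∧ ∀ n : ℕ, 1 ≤ n → ∀ γ : Γ, {x : X' | F^[n] x = γ • x}.Finite ∧
        {x : X' | F^[n] x = γ • x}.encard = {x : X | G^[n] x = γ • x}.encard := by
  -- large scale
  obtain ⟨R₀, hR₀⟩ := t_CPT M X Γ P hP hs hΓ x₀
  obtain ⟨R₀', hR₀'⟩ := t_CPT M' X' Γ P' hP' hs' hΓ' x₀'
  have hGm := t_MOD X Γ G φ x₀ R₀ G.continuous hR₀ hφG
  have hφ' : ∀ (γ : Γ) (x : X), G.symm (γ • x) = φ.symm γ • G.symm x := by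
    intro γ x
    apply G.injective
    rw [Homeomorph.apply_symm_apply, hφG, Homeomorph.apply_symm_apply]
    simp
  have hGm' := t_MOD X Γ G.symm φ.symm x₀ R₀ G.symm.continuous hR₀ hφ'
  obtain ⟨B, hB⟩ := bdd_inv x₀' R₀' hR₀' (T := Unit) (fun p => dist (K (F p.2)) (G (K p.2)))
    (by fun_prop) (fun _ γ x => by
      show dist (K (F (γ • x))) (G (K (γ • x))) = dist (K (F x)) (G (K x))
      rw [hφF, hK, hK, hφG, dist_smul])
  have hCF : CoarselyHyperbolic F :=
    t_CHB t_IT t_IB X' X F G K D B hCG hK1 hD (fun x => hB () x) hGm hGm'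
  refine ⟨hCF, fun n hn γ => ?_⟩
  have hcγ' : ∀ γ : Γ, Continuous fun x : X' => γ • x := fun γ => (isometry_smul X' γ).continuous
  have hcγ : ∀ γ : Γ, Continuous fun x : X => γ • x := fun γ => (isometry_smul X γ).continuous
  -- the lifts of the iterates
  set T' : X' → X' := fun x => γ⁻¹ • F^[n] x with hT'
  set T : X → X := fun x => γ⁻¹ • G^[n] x with hT
  have cT' : Continuous T' := (hcγ' γ⁻¹).comp (F.continuous.iterate n)
  have cT : Continuous T := (hcγ γ⁻¹).comp (G.continuous.iterate n)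
  set ψ : Γ →* Γ := ((MulAut.conj γ⁻¹ * (φ : MulAut Γ) ^ n : MulAut Γ)).toMonoidHom with hψ
  have hψδ : ∀ δ : Γ, ψ δ = γ⁻¹ * ((φ : MulAut Γ) ^ n) δ * γ := fun δ => by
    show MulAut.conj γ⁻¹ (((φ : MulAut Γ) ^ n) δ) = _
    rw [MulAut.conj_apply, inv_inv]
  have eT' : ∀ (δ : Γ) (x : X'), T' (δ • x) = ψ δ • T' x := fun δ x => by
    show γ⁻¹ • F^[n] (δ • x) = ψ δ • γ⁻¹ • F^[n] x
    rw [iter_equiv hφF, hψδ, smul_smul, smul_smul, mul_assoc, mul_inv_cancel, mul_one]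
  have eT : ∀ (δ : Γ) (x : X), T (δ • x) = ψ δ • T x := fun δ x => by
    show γ⁻¹ • G^[n] (δ • x) = ψ δ • γ⁻¹ • G^[n] x
    rw [iter_equiv hφG, hψδ, smul_smul, smul_smul, mul_assoc, mul_inv_cancel, mul_one]
  -- the homotopies
  obtain ⟨Φ, hΦ0, hΦ1, hΦe⟩ := exists_htp e' P' hP' hs' hΓ' fr' hcγ' hcγ' ψ
    (fun x => L (T (K x))) T' (L.continuous.comp (cT.comp K.continuous)) cT'
    (fun δ x => by rw [hK, eT, hL]) eT'
  obtain ⟨Ψ, hΨ0, hΨ1, hΨe⟩ := exists_htp e P hP hs hΓ fr hcγ hcγ ψ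
    (fun y => T (K (L y))) T (cT.comp (K.continuous.comp L.continuous)) cT
    (fun δ x => by rw [hL, hK, eT]) eT
  obtain ⟨B₁, hB₁⟩ := bdd_inv x₀' R₀' hR₀' (T := I) (fun p => dist (K (Φ p)) (T (K p.2)))
    (by fun_prop) (fun t δ x => by
      show dist (K (Φ (t, δ • x))) (T (K (δ • x))) = dist (K (Φ (t, x))) (T (K x))
      rw [hΦe, hK, hK, eT, dist_smul])
  obtain ⟨B₂, hB₂⟩ := bdd_inv x₀ R₀ hR₀ (T := I) (fun p => dist (Ψ p) (T p.2))
    (by fun_prop) (fun t δ x => by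
      show dist (Ψ (t, δ • x)) (T (δ • x)) = dist (Ψ (t, x)) (T x)
      rw [hΨe, eT, dist_smul])
  have hbs : ∀ (B : ℝ), ∃ R₁ : ℝ, ∀ x : X, dist x (T x) ≤ B → dist x x₀ ≤ R₁ := by
    intro B
    obtain ⟨R₁, hR₁⟩ := a_BS X Γ G φ n γ B x₀ hCG hn hφG hGm hGm'
    refine ⟨R₁, fun x hx => hR₁ x ?_⟩
    have h1 : dist (γ • x) (γ • T x) ≤ B := by rwa [dist_smul]
    have h2 : γ • T x = G^[n] x := smul_inv_smul γ _
    rwa [h2, dist_comm] at h1
  obtain ⟨R₁, hR₁⟩ := hbs B₁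
  obtain ⟨R₂, hR₂⟩ := hbs B₂
  have hfix1 : ∀ (t : I) (x : X'), Φ (t, x) = x → dist x x₀' ≤ R₁ + dist x₀ (K x₀') + D := by
    intro t x hx
    have h1 : dist (K (Φ (t, x))) (T (K x)) ≤ B₁ := hB₁ t x
    rw [hx] at h1
    have h2 := hR₁ _ h1
    have h3 := hD x x₀'
    have h4 := dist_triangle (K x) x₀ (K x₀')
    linarith
  have hfix2 : ∀ (t : I) (x : X), Ψ (t, x) = x → dist x x₀ ≤ R₂ := by
    intro t x hx
    have h1 : dist (Ψ (t, x)) (T x) ≤ B₂ := hB₂ t x
    rw [hx] at h1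
    exact hR₂ _ h1
  obtain ⟨N₁, hN₁⟩ := (((isCompact_closedBall x₀' (R₁ + dist x₀ (K x₀') + D)).image
    e'.continuous).isBounded).exists_norm_le
  obtain ⟨N₂, hN₂⟩ := (((isCompact_closedBall x₀ R₂).image e.continuous).isBounded).exists_norm_le
  -- the indices
  have hPγ' : ∀ (γ : Γ) (x : X'), P' (γ • x) = P' x := fun γ x => ((hΓ' x (γ • x)).mpr ⟨γ, rfl⟩).symm
  have hPγ : ∀ (γ : Γ) (x : X), P (γ • x) = P x := fun γ x => ((hΓ x (γ • x)).mpr ⟨γ, rfl⟩).symm
  obtain ⟨κ, hκ0, hκ1, hκ⟩ := index_lift a_LI a_SG f Es Eu hf P' hP' e' T' cT' n hn (fun x => by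
    show P' (γ⁻¹ • F^[n] x) = _
    rw [hPγ']
    exact proj_iter hF n x)
  obtain ⟨τ, hτ0, hτ1, hτ⟩ := index_lift a_LI a_SG g Es' Eu' hg P hP e T cT n hn (fun x => by
    show P (γ⁻¹ • G^[n] x) = _
    rw [hPγ]
    exact proj_iter hG n x)
  -- the maps in coordinates
  set pr : ℝ → I := fun t => projIcc (0 : ℝ) 1 zero_le_one t with hpr
  have cpr : Continuous pr := continuous_projIcc (h := zero_le_one)
  have hp1 : pr 1 = 1 := projIcc_right _
  have hp0 : pr 0 = 0 := projIcc_left _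
  have hx1 : ∀ (t : I) (a : E), e' (Φ (t, e'.symm a)) = a → Φ (t, e'.symm a) = e'.symm a := by
    intro t a h
    apply e'.injective
    rw [h, Homeomorph.apply_symm_apply]
  have hx2 : ∀ (t : I) (a : E), e (Ψ (t, e.symm a)) = a → Ψ (t, e.symm a) = e.symm a := by
    intro t a h
    apply e.injective
    rw [h, Homeomorph.apply_symm_apply]
  obtain ⟨k1, k2⟩ := t_COM a_SH a_SA a_SP a_SL E (fun a => e (T (K (e'.symm a))))
    (fun b => e' (L (e.symm b))) (fun t a => e' (Φ (pr t, e'.symm a)))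
    (fun t b => e (Ψ (pr t, e.symm b))) (max |N₁| |N₂| + 1) κ τ
    (le_antisymm hκ1 (Int.one_le_abs hκ0)) (le_antisymm hτ1 (Int.one_le_abs hτ0))
    (by fun_prop) (by fun_prop)
    (by
      refine Continuous.continuousOn ?_
      exact e'.continuous.comp (Φ.continuous.comp ((cpr.comp continuous_fst).prodMk
        (e'.symm.continuous.comp continuous_snd))))
    (by
      refine Continuous.continuousOn ?_
      exact e.continuous.comp (Ψ.continuous.comp ((cpr.comp continuous_fst).prodMk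
        (e.symm.continuous.comp continuous_snd))))
    (fun a => by
      show e' (Φ (pr 0, e'.symm a)) = e' (L (e.symm (e (T (K (e'.symm a))))))
      rw [hp0, hΦ0, Homeomorph.symm_apply_apply])
    (fun b => by
      show e (Ψ (pr 0, e.symm b)) = e (T (K (e'.symm (e' (L (e.symm b))))))
      rw [hp0, hΨ0, Homeomorph.symm_apply_apply])
    (fun t _ a ha => by
      have h1 := hx1 (pr t) a ha
      have h2 := hN₁ _ (mem_image_of_mem e' (Metric.mem_closedBall.mpr (hfix1 _ _ h1)))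
      rw [Homeomorph.apply_symm_apply] at h2
      linarith [le_abs_self N₁, le_max_left |N₁| |N₂|])
    (fun t _ a ha => by
      have h1 := hx2 (pr t) a ha
      have h2 := hN₂ _ (mem_image_of_mem e (Metric.mem_closedBall.mpr (hfix2 _ _ h1)))
      rw [Homeomorph.apply_symm_apply] at h2
      linarith [le_abs_self N₂, le_max_right |N₁| |N₂|])
    (fun a ha => by
      have h1 := hx1 (pr 1) a ha
      rw [hp1, hΦ1] at h1
      have h2 := hκ (e'.symm a) h1
      rw [Homeomorph.apply_symm_apply] at h2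
      have h3 : (fun x => x - e' (Φ (pr 1, e'.symm x))) = fun y => y - e' (T' (e'.symm y)) := by
        funext y
        rw [hp1, hΦ1]
      show Idx (fun x => x - e' (Φ (pr 1, e'.symm x))) a κ
      rw [h3]
      exact h2)
    (fun a ha => by
      have h1 := hx2 (pr 1) a ha
      rw [hp1, hΨ1] at h1
      have h2 := hτ (e.symm a) h1
      rw [Homeomorph.apply_symm_apply] at h2
      have h3 : (fun x => x - e (Ψ (pr 1, e.symm x))) = fun y => y - e (T (e.symm y)) := by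
        funext y
        rw [hp1, hΨ1]
      show Idx (fun x => x - e (Ψ (pr 1, e.symm x))) a τ
      rw [h3]
      exact h2)
  have i1 : e' ⁻¹' {a | e' (Φ (pr 1, e'.symm a)) = a} = {x | F^[n] x = γ • x} := by
    ext z
    constructor
    · intro h
      have h1 := hx1 (pr 1) (e' z) h
      rw [Homeomorph.symm_apply_apply, hp1, hΦ1] at h1
      exact inv_smul_eq_iff.mp h1
    · intro h
      show e' (Φ (pr 1, e'.symm (e' z))) = e' z
      have h1 : F^[n] z = γ • z := h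
      rw [Homeomorph.symm_apply_apply, hp1, hΦ1]
      show e' (γ⁻¹ • F^[n] z) = e' z
      rw [h1, inv_smul_smul]
  have i2 : e ⁻¹' {a | e (Ψ (pr 1, e.symm a)) = a} = {x | G^[n] x = γ • x} := by
    ext z
    constructor
    · intro h
      have h1 := hx2 (pr 1) (e z) h
      rw [Homeomorph.symm_apply_apply, hp1, hΨ1] at h1
      exact inv_smul_eq_iff.mp h1
    · intro h
      show e (Ψ (pr 1, e.symm (e z))) = e z
      have h1 : G^[n] z = γ • z := h
      rw [Homeomorph.symm_apply_apply, hp1, hΨ1]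
      show e (γ⁻¹ • G^[n] z) = e z
      rw [h1, inv_smul_smul]
  have hpre' : ∀ s : Set E, (e' ⁻¹' s).encard = s.encard := fun s => by
    have h1 : e' ⁻¹' s = e'.symm '' s := by
      ext z
      constructor
      · intro h
        exact ⟨e' z, h, e'.symm_apply_apply z⟩
      · rintro ⟨y, hy, rfl⟩
        show e' (e'.symm y) ∈ s
        rwa [Homeomorph.apply_symm_apply]
    rw [h1]
    exact e'.symm.injective.encard_image s
  have hpre2 : ∀ s : Set E, (e ⁻¹' s).encard = s.encard := fun s => by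
    have h1 : e ⁻¹' s = e.symm '' s := by
      ext z
      constructor
      · intro h
        exact ⟨e z, h, e.symm_apply_apply z⟩
      · rintro ⟨y, hy, rfl⟩
        show e (e.symm y) ∈ s
        rwa [Homeomorph.apply_symm_apply]
    rw [h1]
    exact e.symm.injective.encard_image s
  rw [← i1, ← i2]
  exact ⟨k1.preimage e'.injective.injOn, by rw [hpre', hpre2]; exact k2⟩

end Pool.Agent.H963.HT
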