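import Pool.Agent.H963.HT.T_OC

/-!
# Counting fixed points by twisted conjugacy classes: two covering spaces
-/

set_option autoImplicit false

open Set

namespace Pool.Agent.H963.HT

universe v v' w w' x

open NOC in
/-- as `t_OC`, with two different covering spaces -/
theorem t_OC2 {M : Type v} {N : Type v'} {X : Type w} {Y : Type w'} {Γ : Type x} [Group Γ]
    [MulAction Γ X] [MulAction Γ Y] {P : X → M} {Q : Y → N} {f : M → M} {g : N → N} {F : X → X}
    {G : Y → Y} {φ : Γ →* Γ} (hPs : Function.Surjective P) (hQs : Function.Surjective Q)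
    (hP : ∀ x y : X, P x = P y ↔ ∃ γ : Γ, γ • x = y) (hQ : ∀ x y : Y, Q x = Q y ↔ ∃ γ : Γ, γ • x = y)
    (hfr : ∀ (γ : Γ) (x : X), γ • x = x → γ = 1) (hfr' : ∀ (γ : Γ) (x : Y), γ • x = x → γ = 1)
    (hPF : ∀ x, P (F x) = f (P x)) (hQG : ∀ x, Q (G x) = g (Q x))
    (hF : ∀ (γ : Γ) (x : X), F (γ • x) = φ γ • F x) (hG : ∀ (γ : Γ) (x : Y), G (γ • x) = φ γ • G x)
    (hfin : ∀ γ : Γ, {x : X | F x = γ • x}.Finite)
    (hcard : ∀ γ : Γ, {x : X | F x = γ • x}.encard = {x : Y | G x = γ • x}.encard) :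
    {m | f m = m}.encard = {m | g m = m}.encard := by
  classical
  obtain ⟨cl, hcl⟩ := exists_cl hPs hP hfr hPF hF
  obtain ⟨cl', hcl'⟩ := exists_cl hQs hQ hfr' hQG hG
  have key : ∀ c : Quotient (st φ), Nonempty ({m : {m | f m = m} // cl m = c} ≃
      {m : {m | g m = m} // cl' m = c}) := by
    intro c
    obtain ⟨e⟩ := prod_equiv hP hfr hF c.out
    obtain ⟨e'⟩ := prod_equiv hQ hfr' hG c.out
    have hA : Finite {x : X | F x = c.out • x} := hfin c.out
    have hA'f : {x : Y | G x = c.out • x}.Finite := by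
      rw [← Set.encard_ne_top_iff, ← hcard, Set.encard_ne_top_iff]
      exact hfin c.out
    have hA' : Finite {x : Y | G x = c.out • x} := hA'f
    have hc : Nat.card {x : X | F x = c.out • x} = Nat.card {x : Y | G x = c.out • x} := by
      have h1 : {x : X | F x = c.out • x}.ncard = {x : Y | G x = c.out • x}.ncard := by
        unfold Set.ncard
        rw [hcard]
      exact h1
    obtain ⟨e₀⟩ := card_cancel e e' ⟨⟨1, by
      change φ 1 * c.out * (1 : Γ)⁻¹ = c.out
      rw [map_one, one_mul, inv_one, mul_one]⟩⟩ hA hA' hc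
    have e₁ : {m : {m | f m = m} // cl m = c} ≃
        {m : M | ∃ x, P x = m ∧ F x = c.out • x} :=
      { toFun := fun m => ⟨m.1.1, (hcl m.1 c).1 m.2⟩
        invFun := fun m => ⟨⟨m.1, by
          obtain ⟨x, hx1, hx2⟩ := m.2
          change f m.1 = m.1
          rw [← hx1, ← hPF, hx2]
          exact ((hP _ _).2 ⟨_, rfl⟩).symm⟩, (hcl _ c).2 m.2⟩
        left_inv := fun m => rfl
        right_inv := fun m => rfl }
    have e₂ : {m : {m | g m = m} // cl' m = c} ≃
        {m : N | ∃ x, Q x = m ∧ G x = c.out • x} :=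
      { toFun := fun m => ⟨m.1.1, (hcl' m.1 c).1 m.2⟩
        invFun := fun m => ⟨⟨m.1, by
          obtain ⟨x, hx1, hx2⟩ := m.2
          change g m.1 = m.1
          rw [← hx1, ← hQG, hx2]
          exact ((hQ _ _).2 ⟨_, rfl⟩).symm⟩, (hcl' _ c).2 m.2⟩
        left_inv := fun m => rfl
        right_inv := fun m => rfl }
    exact ⟨e₁.trans (e₀.trans e₂.symm)⟩
  have k : ∀ c : Quotient (st φ), ({m : {m | f m = m} // cl m = c} ≃
      {m : {m | g m = m} // cl' m = c}) := fun c => Classical.choice (key c)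
  exact Set.encard_congr ((Equiv.sigmaFiberEquiv cl).symm.trans ((Equiv.sigmaCongrRight k).trans
    (Equiv.sigmaFiberEquiv cl')))

end Pool.Agent.H963.HT
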