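import Pool.Agent.H963.HT.Hb
import Pool.Agent.H963.HT.T_OC2

/-!
# Two manifolds with the same action on the fundamental group: main theorem
-/

set_option autoImplicit false
set_option linter.unusedSectionVars false

open scoped Manifold ContDiff Topology
open Set Filter

namespace Pool.Agent.H963.HT

open Pool.Agent.H721R2 Pool.Agent.H789R2.AN Pool.Agent.H223.CE Pool.Agent.H244.Loc

universe u v v' w w' x

open scoped unitInterval

/-- a faithful deck group acts freely -/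
theorem free_act' {X M Γ : Type*} [TopologicalSpace X] [TopologicalSpace M] [ConnectedSpace X]
    [Group Γ] [MulAction Γ X] [FaithfulSMul Γ X] {P : X → M} (hP : IsCoveringMap P)
    (hc : ∀ γ : Γ, Continuous fun x : X => γ • x)
    (hΓ : ∀ x y : X, P x = P y ↔ ∃ γ : Γ, γ • x = y) {γ : Γ} {x : X} (h : γ • x = x) : γ = 1 := by
  have h1 : (fun y : X => γ • y) = fun y => y := by
    apply hP.eq_of_comp_eq (A := X) _ _ _ x h
    · exact hc γ
    · exact continuous_id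
    · funext y
      exact ((hΓ y (γ • y)).mpr ⟨γ, rfl⟩).symm
  exact FaithfulSMul.eq_of_smul_eq_smul (α := X) fun y => by
    rw [one_smul]
    exact congrFun h1 y

theorem met_exists {E : Type u} [NormedAddCommGroup E] [NormedSpace ℝ E] [FiniteDimensional ℝ E]
    {M' : Type v'} [TopologicalSpace M'] [T2Space M'] [CompactSpace M']
    [ChartedSpace E M'] [IsManifold 𝓘(ℝ, E) ∞ M']
    {X' : Type w'} [t : TopologicalSpace X'] {X : Type w} [MetricSpace X] [ProperSpace X]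
    {Γ : Type x} [Group Γ] [MulAction Γ X'] [MulAction Γ X] [IsIsometricSMul Γ X]
    (Q : X' → M') (K : C(X', X)) (x₀ : X) (hQ : IsCoveringMap Q) (hs : Function.Surjective Q)
    (hΓ : ∀ x y : X', Q x = Q y ↔ ∃ γ : Γ, γ • x = y) (hc : ∀ γ : Γ, Continuous fun x : X' => γ • x)
    (fr : ∀ (γ : Γ) (x : X), γ • x = x → γ = 1) (hfin : ∀ r : ℝ, {γ : Γ | dist (γ • x₀) x₀ ≤ r}.Finite)
    (hK : ∀ (γ : Γ) (x : X'), K (γ • x) = γ • K x) :
    ∃ m : MetricSpace X', m.toPseudoMetricSpace.toUniformSpace.toTopologicalSpace = t ∧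
      @ProperSpace X' m.toPseudoMetricSpace ∧
      (∀ (γ : Γ) (x y : X'), m.dist (γ • x) (γ • y) = m.dist x y) ∧
      (∀ x y : X', dist (K x) (K y) ≤ m.dist x y) ∧
      ∃ D : ℝ, ∀ x y : X', m.dist x y ≤ dist (K x) (K y) + D := by
  obtain ⟨m, rfl⟩ := exists_metric (E := E) (M := M')
  exact t_MET M' X' X Γ Q K x₀ hQ hs hΓ hc fr hfin hK

theorem fin_return {E : Type u} [NormedAddCommGroup E] [NormedSpace ℝ E] [FiniteDimensional ℝ E]
    {M : Type v} [TopologicalSpace M] [T2Space M] [CompactSpace M]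
    [ChartedSpace E M] [IsManifold 𝓘(ℝ, E) ∞ M]
    {X : Type w} [MetricSpace X] [ProperSpace X] [ConnectedSpace X]
    {Γ : Type x} [Group Γ] [MulAction Γ X] [IsIsometricSMul Γ X] [FaithfulSMul Γ X]
    (P : X → M) (hP : IsCoveringMap P) (hs : Function.Surjective P)
    (hΓ : ∀ x y : X, P x = P y ↔ ∃ γ : Γ, γ • x = y) (x₀ : X) (r : ℝ) :
    {γ : Γ | dist (γ • x₀) x₀ ≤ r}.Finite := by
  obtain ⟨m, rfl⟩ := exists_metric (E := E) (M := M)
  exact Pool.Agent.H223.CC.finite_return hP hs hΓ x₀ r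

theorem nfix_of_encard' {X Y Γ : Type*} [Group Γ] [MulAction Γ X] [MulAction Γ Y] {F : X → X}
    {G : Y → Y}
    (h : ∀ n : ℕ, 1 ≤ n → ∀ γ : Γ,
      {x : X | F^[n] x = γ • x}.encard = {x : Y | G^[n] x = γ • x}.encard)
    (hG : NFix Γ G) : NFix Γ F := by
  intro n hn γ a b ha hb
  have h1 : {x : X | F^[n] x = γ • x}.encard ≤ 1 := by
    rw [h n hn γ, Set.encard_le_one_iff]
    intro a b ha hb
    exact hG n hn γ a b ha hb
  exact (Set.encard_le_one_iff.mp h1) a b ha hb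

theorem hb_all
    {E : Type u} [NormedAddCommGroup E] [NormedSpace ℝ E] [FiniteDimensional ℝ E]
    {M : Type v} [TopologicalSpace M] [T2Space M] [CompactSpace M] [ConnectedSpace M]
    [ChartedSpace E M] [IsManifold 𝓘(ℝ, E) ∞ M]
    {M' : Type v'} [TopologicalSpace M'] [T2Space M'] [CompactSpace M'] [ConnectedSpace M']
    [ChartedSpace E M'] [IsManifold 𝓘(ℝ, E) ∞ M']
    (f : Diffeomorph 𝓘(ℝ, E) 𝓘(ℝ, E) M' M' 1) (g : Diffeomorph 𝓘(ℝ, E) 𝓘(ℝ, E) M M 1)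
    (Es Eu : ∀ x : M', Submodule ℝ (TangentSpace 𝓘(ℝ, E) x))
    (Es' Eu' : ∀ x : M, Submodule ℝ (TangentSpace 𝓘(ℝ, E) x))
    (hf : IsAnosov f Es Eu) (hg : IsAnosov g Es' Eu')
    {X' : Type w'} [t : TopologicalSpace X'] [ConnectedSpace X']
    {X : Type w} [MetricSpace X] [ProperSpace X] [ConnectedSpace X]
    {Γ : Type x} [Group Γ] [MulAction Γ X'] [FaithfulSMul Γ X'] [MulAction Γ X]
    [IsIsometricSMul Γ X] [FaithfulSMul Γ X]
    (P' : X' → M') (hP' : IsCoveringMap P') (hs' : Function.Surjective P')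
    (hΓ' : ∀ x y : X', P' x = P' y ↔ ∃ γ : Γ, γ • x = y)
    (hc' : ∀ γ : Γ, Continuous fun x : X' => γ • x)
    (P : X → M) (hP : IsCoveringMap P) (hs : Function.Surjective P)
    (hΓ : ∀ x y : X, P x = P y ↔ ∃ γ : Γ, γ • x = y)
    (F : X' ≃ₜ X') (hF : ∀ x, P' (F x) = f (P' x)) (G : X ≃ₜ X) (hG : ∀ x, P (G x) = g (P x))
    (φ : Γ ≃* Γ) (hφF : ∀ (γ : Γ) (x : X'), F (γ • x) = φ γ • F x)
    (hφG : ∀ (γ : Γ) (x : X), G (γ • x) = φ γ • G x)
    (hCG : CoarselyHyperbolic G) (e' : X' ≃ₜ E) (e : X ≃ₜ E) :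
    (∀ n : ℕ, 1 ≤ n → (∀ γ : Γ, {x : X' | F^[n] x = γ • x}.Finite ∧
        {x : X' | F^[n] x = γ • x}.encard = {x : X | G^[n] x = γ • x}.encard) ∧
      {m : M' | f^[n] m = m}.encard = {m : M | g^[n] m = m}.encard) ∧
      (NWeak Γ F ↔ NWeak Γ G) ∧
      (NWeak Γ G → TopTransitive f ∧ ∃ (H : X' ≃ₜ X) (h : M' ≃ₜ M),
        (∀ (γ : Γ) (x : X'), H (γ • x) = γ • H x) ∧ (∀ x, H (F x) = G (H x)) ∧
        (∀ x, P (H x) = h (P' x)) ∧ ∀ m, h (f m) = g (h m)) := by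
  have fr' : ∀ (γ : Γ) (x : X'), γ • x = x → γ = 1 := fun γ x h => free_act' hP' hc' hΓ' h
  have fr : ∀ (γ : Γ) (x : X), γ • x = x → γ = 1 := fun γ x h => free_act hP hΓ h
  have hc : ∀ γ : Γ, Continuous fun x : X => γ • x := fun γ => (isometry_smul X γ).continuous
  obtain ⟨x₀⟩ : Nonempty X := inferInstance
  obtain ⟨x₀'⟩ : Nonempty X' := inferInstance
  obtain ⟨K, hK⟩ := exists_eqv e P' hP' hs' hΓ' fr' hc' hc
  obtain ⟨L, hL⟩ := exists_eqv e' P hP hs hΓ fr hc hc'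
  obtain ⟨m, rfl, hprop, hiso, hK1, D, hD⟩ := met_exists (E := E) P' K x₀ hP' hs' hΓ' hc'
    fr (fun r => fin_return (E := E) P hP hs hΓ x₀ r) hK
  have _ : IsIsometricSMul Γ X' := ⟨fun γ => Isometry.of_dist_eq (hiso γ)⟩
  obtain ⟨hCF, hcount⟩ := hb_core f g Es Eu Es' Eu' hf hg P' hP' hs' hΓ' P hP hs hΓ fr' fr F hF G
    hG φ hφF hφG hCG e' e x₀' x₀ K hK D hK1 hD L hL
  have tF := man_tfae f Es Eu hf P' hP' hs' hΓ' F hF (Or.inl hCF)
  have tG := man_tfae g Es' Eu' hg P hP hs hΓ G hG (Or.inl hCG)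
  have h1 : NFix Γ G → NFix Γ F := nfix_of_encard' fun n hn γ => (hcount n hn γ).2
  have h2 : NFix Γ F → NFix Γ G := nfix_of_encard' fun n hn γ => ((hcount n hn γ).2).symm
  refine ⟨fun n hn => ⟨hcount n hn, ?_⟩, ⟨fun h => ?_, fun h => ?_⟩, fun h => ?_⟩
  · exact t_OC2 (φ := ((φ : MulAut Γ) ^ n : MulAut Γ).toMonoidHom) hs' hs hΓ' hΓ fr' fr
      (proj_iter hF n) (proj_iter hG n) (fun γ x => iter_equiv hφF n γ x)
      (fun γ x => iter_equiv hφG n γ x) (fun γ => (hcount n hn γ).1)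
      (fun γ => (hcount n hn γ).2)
  · exact (tG.out 3 4).mp (h2 ((tF.out 4 3).mp h))
  · exact (tF.out 3 4).mp (h1 ((tG.out 4 3).mp h))
  · have hNF := h1 ((tG.out 4 3).mp h)
    have h3 : TopTransitive f ∧ ∀ x y, ∃! w, Asymp F x w ∧ Asymp F.symm y w :=
      (tF.out 3 0).mp hNF
    refine ⟨h3.1, ?_⟩
    have hcl := (Pool.Agent.H223.CC.man_class g Es' Eu' hg f.toHomeomorph P' hP' hs'
      hΓ' P hP hs hΓ F hF G hG φ hφF hφG hCG h).2.2 f Es Eu hf (fun _ => rfl) hCF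
    exact (hcl.out 2 0).mp hNF

end Pool.Agent.H963.HT
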