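import Pool.Agent.H963.HT.Hb2

/-!
# The automorphism induced by a lift, and the lift of a homotopic map
-/

set_option autoImplicit false
set_option linter.unusedSectionVars false

open scoped Manifold ContDiff Topology
open Set Filter

namespace Pool.Agent.H963.HT

open Pool.Agent.H721R2 Pool.Agent.H789R2.AN Pool.Agent.H223.CE Pool.Agent.H244.Loc

universe u v v' w w' x

open scoped unitInterval

/-- a lift of a homeomorphism induces an automorphism of the deck group -/
theorem exists_phi {M X Γ : Type*} [TopologicalSpace M] [MetricSpace X] [ConnectedSpace X]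
    [Group Γ] [MulAction Γ X] [IsIsometricSMul Γ X] [FaithfulSMul Γ X] (P : X → M)
    (hP : IsCoveringMap P) (hΓ : ∀ x y : X, P x = P y ↔ ∃ γ : Γ, γ • x = y) (g : M ≃ₜ M)
    (G : X ≃ₜ X) (hG : ∀ x, P (G x) = g (P x)) :
    ∃ φ : Γ ≃* Γ, ∀ (γ : Γ) (x : X), G (γ • x) = φ γ • G x := by
  have hG' : ∀ x, P (G.symm x) = g.symm (P x) := by
    intro x
    apply g.injective
    rw [← hG, Homeomorph.apply_symm_apply, Homeomorph.apply_symm_apply]
  have a1 : ∀ γ : Γ, ∃ γ' : Γ, ∀ x, G (γ • x) = γ' • G x :=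
    fun γ => lift_normal' hP hΓ G.continuous hG γ
  have a2 : ∀ γ : Γ, ∃ γ' : Γ, ∀ x, G.symm (γ • x) = γ' • G.symm x :=
    fun γ => lift_normal' hP hΓ G.symm.continuous hG' γ
  choose α hα using a1
  choose β hβ using a2
  have fr : ∀ {γ : Γ} {x : X}, γ • x = x → γ = 1 := fun h => free_act hP hΓ h
  obtain ⟨x₀⟩ : Nonempty X := inferInstance
  have fr2 : ∀ {γ δ : Γ} {x : X}, γ • x = δ • x → γ = δ := by
    intro γ δ x h
    have h1 : (δ⁻¹ * γ) • x = x := by rw [mul_smul, h, inv_smul_smul]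
    exact (inv_mul_eq_one.mp (fr h1)).symm
  exact ⟨{  toFun := α
            invFun := β
            left_inv := fun γ => by
              refine fr2 (x := x₀) ?_
              have h1 : G.symm (G (γ • x₀)) = γ • x₀ := G.symm_apply_apply _
              rw [hα, hβ, G.symm_apply_apply] at h1
              exact h1
            right_inv := fun γ => by
              refine fr2 (x := x₀) ?_
              have h1 : G (G.symm (γ • x₀)) = γ • x₀ := G.apply_symm_apply _
              rw [hβ, hα, G.apply_symm_apply] at h1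
              exact h1
            map_mul' := fun γ δ => by
              refine fr2 (x := G x₀) ?_
              rw [← hα, mul_smul, hα, hα, mul_smul] }, hα⟩

/-- a homeomorphism homotopic to `g` has a lift which induces the same automorphism -/
theorem exists_lift {M : Type v} [TopologicalSpace M] [T2Space M] {X : Type w} [MetricSpace X]
    [SimplyConnectedSpace X] [LocallyPathConnectedSpace X]
    {Γ : Type x} [Group Γ] [MulAction Γ X] [IsIsometricSMul Γ X] (P : X → M)
    (hP : IsCoveringMap P) (hΓ : ∀ x y : X, P x = P y ↔ ∃ γ : Γ, γ • x = y) (g f : M ≃ₜ M)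
    (hfg : ContinuousMap.Homotopic (⟨g, g.continuous⟩ : C(M, M)) ⟨f, f.continuous⟩)
    (G : X ≃ₜ X) (hG : ∀ x, P (G x) = g (P x)) (φ : Γ ≃* Γ)
    (hφ : ∀ (γ : Γ) (x : X), G (γ • x) = φ γ • G x) :
    ∃ F : X ≃ₜ X, (∀ x, P (F x) = f (P x)) ∧ ∀ (γ : Γ) (x : X), F (γ • x) = φ γ • F x := by
  obtain ⟨k⟩ := hfg
  have hk0 : ∀ a : X, (k.toContinuousMap.comp ((ContinuousMap.id I).prodMap ⟨P, hP.continuous⟩))
      (0, a) = P (G a) := by
    intro a
    show k (0, P a) = P (G a)
    rw [k.apply_zero, hG]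
    rfl
  set Φ : C(I × X, X) := hP.liftHomotopy (k.toContinuousMap.comp
    ((ContinuousMap.id I).prodMap ⟨P, hP.continuous⟩)) ⟨G, G.continuous⟩ hk0 with hΦ
  have hΦ0 : ∀ x, Φ (0, x) = G x := fun x => hP.liftHomotopy_zero _ _ hk0 x
  have hΦP : ∀ t x, P (Φ (t, x)) = k (t, P x) := fun t x =>
    congrFun (hP.liftHomotopy_lifts _ _ hk0) (t, x)
  have hPγ : ∀ (γ : Γ) (x : X), P (γ • x) = P x := fun γ x => ((hΓ x (γ • x)).mpr ⟨γ, rfl⟩).symm
  have hcγ : ∀ γ : Γ, Continuous fun x : X => γ • x := fun γ => (isometry_smul X γ).continuous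
  have hΦγ : ∀ (t : I) (γ : Γ) (x : X), Φ (t, γ • x) = φ γ • Φ (t, x) :=
    t_EQ M X Γ P k.toContinuousMap Φ G φ hP hcγ hPγ (fun t x => hΦP t x) hΦ0 hφ
  obtain ⟨F, hF⟩ := t_HM M X P f ⟨fun x => Φ (1, x), by fun_prop⟩ hP (fun x => by
    show P (Φ (1, x)) = f (P x)
    rw [hΦP, k.apply_one]
    rfl)
  have hF' : ∀ x, F x = Φ (1, x) := hF
  refine ⟨F, fun x => ?_, fun γ x => by rw [hF', hF', hΦγ]⟩
  rw [hF', hΦP, k.apply_one]
  rfl

end Pool.Agent.H963.HT
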