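import Pool.Agent.H963.HT.Cnt2
import Pool.Graph.R_pool_sql_team_seeded_620a6dc7.H223.CE.Def

/-!
# Two manifolds with the same fundamental group: statements

`Idx`, `sdeg`, `S_SH`, `S_SA`, `S_SP`, `S_SL` are in `HT/SdDef.lean`, `NCNT.deg_const` (the degree of a
map all of whose zeros have the same index), `NCNT.cont_slice` in `HT/Cnt2.lean`, `HT/T_CNT.lean`.
-/

set_option autoImplicit false

open Set Filter Topology Metric

namespace Pool.Agent.H963.HT

open Pool.Agent.H223.CE

universe u v w w' x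

/-- **EXT.** Extension of equivariant maps into a Euclidean space.  Proof.  Cover `M` by finitely many
compact sets `C₁, …, C_N`, each contained in an open set `U_i` over which `P` has a continuous section
`s_i : U_i → X` (`P` is a covering, `M` is compact Hausdorff).  Extend `α` successively to the closed
sets `D_k = C ∪ T × (C₁ ∪ … ∪ C_k)` (equivariantly): over `T × C_{k+1}`, the function
`(t, m) ↦ e (β_k (t, s m))` is continuous on the closed subset `D_k ∩ T × C_{k+1}` of the normal space `T × M`,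
so it extends by Tietze's theorem (`E` is a finite dimensional vector space: `TietzeExtension`,
`TietzeExtension.of_tvs`) to a continuous `b`; put `β_{k+1} (t, x) = ψ γ • e⁻¹ (b (t, P x))` for `P x ∈ C_{k+1}`, where
`γ` is the unique element with `x = γ • s (P x)`, and `β_{k+1} = β_k` over `D_k` (they agree on the
intersection by equivariance).  Near a point `x₀` over `U_{k+1}` the element `γ` is constant, since `x` and
`γ₀ • s (P x)` are close to `x₀` and have the same image under the local homeomorphism `P`.  So `β_{k+1}` is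
continuous on two closed sets and hence on the union. -/
def S_EXT : Prop := ∀ (T : Type) [TopologicalSpace T] [T2Space T] [CompactSpace T]
  (M : Type v) [TopologicalSpace M] [T2Space M] [CompactSpace M] (X : Type w) [TopologicalSpace X]
  (Y : Type w') [TopologicalSpace Y] (E : Type u) [NormedAddCommGroup E] [NormedSpace ℝ E]
  [FiniteDimensional ℝ E] (_ : Y ≃ₜ E) (Γ : Type x) [Group Γ] [MulAction Γ X] [MulAction Γ Y]
  (ψ : Γ →* Γ) (P : X → M) (C : Set (T × M)) (α : T × X → Y),
  IsCoveringMap P → Function.Surjective P → (∀ x y : X, P x = P y ↔ ∃ γ : Γ, γ • x = y) →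
  (∀ (γ : Γ) (x : X), γ • x = x → γ = 1) → (∀ γ : Γ, Continuous fun x : X => γ • x) →
  (∀ γ : Γ, Continuous fun y : Y => γ • y) → IsClosed C → ContinuousOn α {p | (p.1, P p.2) ∈ C} →
  (∀ (γ : Γ) (t : T) (x : X), (t, P x) ∈ C → α (t, γ • x) = ψ γ • α (t, x)) →
  ∃ β : C(T × X, Y), (∀ t x, (t, P x) ∈ C → β (t, x) = α (t, x)) ∧
    ∀ (γ : Γ) (t : T) (x : X), β (t, γ • x) = ψ γ • β (t, x)

/-- **COM.** Counting fixed points through the commutativity of the index.  Proof.  In `V × V`
(maximum norm) consider the maps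
(1) `(x, y) ↦ (x - Φ t x, y)`, `t` from `1` to `0`; zeros `x = Φ t x`, `y = 0`;
(2) `(x - B (A x), y - s A x)`, `s` from `0` to `1`; zeros `x = B (A x)`, `y = s A x`;
(3) `(x - B (t A x + (1 - t) y), y - A x)`, `t` from `1` to `0`; zeros `y = A x`, `x = B (A x)`;
(4) `(x - B y, y - A (t B y + (1 - t) x))`, `t` from `0` to `1`; zeros `x = B y`, `y = A (B y)`;
(5) `(x - s B y, y - A (B y))`, `s` from `1` to `0`; zeros `y = A (B y)`, `x = s B y`;
(6) `(x, y - Ψ t y)`, `t` from `0` to `1`; zeros `x = 0`, `y = Ψ t y`.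
All the zeros lie in a common ball (`A`, `B` are bounded on bounded sets, `V` being proper), so by `S_SH`
the two end maps have the same degree `d` on a large ball.  By `S_SP` and `S_SL` (the identity has
index `1` at `0`) all zeros of the first map have the index `κ` and all those of the last map have the
index `τ`; by `NCNT.deg_const` (in `Cnt2.lean`) `d = κ * (number of zeros of the first map)` and
`d = τ * (number of zeros of the last map)`; see the proof of `cnt_eq` there. -/
def S_COM : Prop := ∀ (V : Type u) [NormedAddCommGroup V] [NormedSpace ℝ V] [FiniteDimensional ℝ V]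
  (A B : V → V) (Φ Ψ : ℝ → V → V) (R₀ : ℝ) (κ τ : ℤ), |κ| = 1 → |τ| = 1 →
  Continuous A → Continuous B →
  ContinuousOn (fun p : ℝ × V => Φ p.1 p.2) (Icc (0 : ℝ) 1 ×ˢ (univ : Set V)) →
  ContinuousOn (fun p : ℝ × V => Ψ p.1 p.2) (Icc (0 : ℝ) 1 ×ˢ (univ : Set V)) →
  (∀ x, Φ 0 x = B (A x)) → (∀ y, Ψ 0 y = A (B y)) →
  (∀ t ∈ Icc (0 : ℝ) 1, ∀ x, Φ t x = x → ‖x‖ < R₀) →
  (∀ t ∈ Icc (0 : ℝ) 1, ∀ y, Ψ t y = y → ‖y‖ < R₀) →
  (∀ a, Φ 1 a = a → Idx (fun x => x - Φ 1 x) a κ) →
  (∀ a, Ψ 1 a = a → Idx (fun x => x - Ψ 1 x) a τ) →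
  {x | Φ 1 x = x}.Finite ∧ {x | Φ 1 x = x}.encard = {y | Ψ 1 y = y}.encard

/-- **MET.** An invariant proper metric.  Proof.  `j = (Q, K) : X' → N × X` is injective: if `Q x = Q y`
then `y = γ • x` and `K y = γ • K x`, which is `K x` only if `γ = 1`.  It is proper: `X'` is locally compact
(local homeomorphism to `N`), so there is a compact `D ⊆ X'` with `Q '' D = univ` (finitely many compact
neighbourhoods), hence `X' = ⋃ γ • D`; if `K (γ • x)`, `x ∈ D`, is in a ball, then `γ • K x` is bounded, hence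
`dist (γ • x₀) x₀` is bounded and there are only finitely many such `γ`, and a finite union of the
`γ • D` is compact.  So `j` is a closed embedding, and the metric induced by `j` (maximum of
`dist (Q x) (Q y)` and `dist (K x) (K y)`) is as desired, with `D` the diameter of `N`. -/
def S_MET : Prop := ∀ (N : Type v) [MetricSpace N] [CompactSpace N] (X' : Type w')
  [t : TopologicalSpace X'] (X : Type w) [MetricSpace X] [ProperSpace X] (Γ : Type x) [Group Γ]
  [MulAction Γ X'] [MulAction Γ X] [IsIsometricSMul Γ X] (Q : X' → N) (K : C(X', X)) (x₀ : X),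
  IsCoveringMap Q → Function.Surjective Q → (∀ x y : X', Q x = Q y ↔ ∃ γ : Γ, γ • x = y) →
  (∀ γ : Γ, Continuous fun x : X' => γ • x) → (∀ (γ : Γ) (x : X), γ • x = x → γ = 1) →
  (∀ r : ℝ, {γ : Γ | dist (γ • x₀) x₀ ≤ r}.Finite) → (∀ (γ : Γ) (x : X'), K (γ • x) = γ • K x) →
  ∃ m : MetricSpace X', m.toPseudoMetricSpace.toUniformSpace.toTopologicalSpace = t ∧
    @ProperSpace X' m.toPseudoMetricSpace ∧ (∀ (γ : Γ) (x y : X'), m.dist (γ • x) (γ • y) = m.dist x y) ∧
    (∀ x y : X', dist (K x) (K y) ≤ m.dist x y) ∧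
    ∃ D : ℝ, ∀ x y : X', m.dist x y ≤ dist (K x) (K y) + D

/-- **CHB.** Coarse hyperbolicity is inherited through a coarse equivalence.  Proof.  As `S_CHF`
(`HT/T_CHF.lean`): by induction `dist (K (F^[n] x)) (G^[n] (K x))` is bounded for each `n` (modulus of
`G`), and the same for the inverses (modulus of `G.symm`; `dist (K (F.symm x)) (G.symm (K x))` is
bounded, as `G (K (F.symm x))` is close to `K x`); by `S_IT` (`HT/CovStm.lean`; proved in `HT/T_IT.lean`)
the expansion constant of `G^[2 * N]` is `4` for distant points, which leaves room for the errors. -/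
def S_CHB : Prop := ∀ (X' : Type w') [MetricSpace X'] (X : Type w) [MetricSpace X] (F : X' ≃ₜ X')
  (G : X ≃ₜ X) (K : X' → X) (D B : ℝ), CoarselyHyperbolic G →
  (∀ x y, dist (K x) (K y) ≤ dist x y) → (∀ x y, dist x y ≤ dist (K x) (K y) + D) →
  (∀ x, dist (K (F x)) (G (K x)) ≤ B) →
  (∀ r : ℝ, ∃ r' : ℝ, ∀ x y : X, dist x y ≤ r → dist (G x) (G y) ≤ r') →
  (∀ r : ℝ, ∃ r' : ℝ, ∀ x y : X, dist x y ≤ r → dist (G.symm x) (G.symm y) ≤ r') →
  CoarselyHyperbolic F

end Pool.Agent.H963.HT
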