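import Pool.Agent.H963.HT.Hb3

/-!
# Anosov diffeomorphisms homotopic to a coarsely hyperbolic homeomorphism
-/

set_option autoImplicit false
set_option linter.unusedSectionVars false

open scoped Manifold ContDiff Topology
open Set Filter

namespace Pool.Agent.H963.HT

open Pool.Agent.H721R2 Pool.Agent.H789R2.AN Pool.Agent.H223.CE Pool.Agent.H244.Loc

universe u v v' w w' x

open scoped unitInterval

/-- The number of fixed points of the lifts of an Anosov diffeomorphism is the absolute value of the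
degree of the lifts of a homotopic homeomorphism. -/
theorem core3
    {E : Type u} [NormedAddCommGroup E] [NormedSpace ℝ E] [FiniteDimensional ℝ E]
    {S : Type v} [TopologicalSpace S] [T2Space S] [CompactSpace S]
    {M' : Type v'} [TopologicalSpace M'] [T2Space M'] [CompactSpace M']
    [ChartedSpace E M'] [IsManifold 𝓘(ℝ, E) ∞ M']
    (f : Diffeomorph 𝓘(ℝ, E) 𝓘(ℝ, E) M' M' 1) (g : S ≃ₜ S)
    (Es Eu : ∀ x : M', Submodule ℝ (TangentSpace 𝓘(ℝ, E) x))
    (hf : IsAnosov f Es Eu) (r : M' ≃ₜ S)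
    (hfg : ContinuousMap.Homotopic (⟨g, g.continuous⟩ : C(S, S))
      ⟨fun m => r (f (r.symm m)), r.continuous.comp (f.continuous.comp r.symm.continuous)⟩)
    {X : Type w} [MetricSpace X] [ProperSpace X] [SimplyConnectedSpace X]
    {Γ : Type x} [Group Γ] [MulAction Γ X] [IsIsometricSMul Γ X]
    (P : X → S) (hP : IsCoveringMap P) (hs : Function.Surjective P)
    (hΓ : ∀ x y : X, P x = P y ↔ ∃ γ : Γ, γ • x = y)
    (G : X ≃ₜ X) (hG : ∀ x, P (G x) = g (P x))
    (φ : Γ ≃* Γ) (hφ : ∀ (γ : Γ) (x : X), G (γ • x) = φ γ • G x)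
    (hCG : CoarselyHyperbolic G) (e : X ≃ₜ E) :
    ∃ F : X ≃ₜ X, (∀ x, P (F x) = r (f (r.symm (P x)))) ∧
      (∀ (γ : Γ) (x : X), F (γ • x) = φ γ • F x) ∧ CoarselyHyperbolic F ∧
      ∀ n : ℕ, 1 ≤ n → ∀ γ : Γ, {x : X | F^[n] x = γ • x}.Finite ∧
        ∃ (κ : ℤ) (R₀ : ℝ), |κ| = 1 ∧ ∀ R : ℝ, R₀ ≤ R →
          sdeg (fun y => y - e (γ⁻¹ • G^[n] (e.symm y))) (Metric.ball 0 R) =
            κ * ({x : X | F^[n] x = γ • x}.ncard : ℤ) := by
  have _ : LocallyPathConnectedSpace X := t_LP E M' X (r.symm ∘ P) (hP.homeomorph_comp r.symm)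
  obtain ⟨x₀⟩ : Nonempty X := inferInstance
  -- the lifted homotopy
  obtain ⟨k⟩ := hfg
  have hk0 : ∀ a : X, (k.toContinuousMap.comp ((ContinuousMap.id I).prodMap ⟨P, hP.continuous⟩))
      (0, a) = P (G a) := by
    intro a
    show k (0, P a) = P (G a)
    rw [k.apply_zero, hG]
    rfl
  set Φ : C(I × X, X) := hP.liftHomotopy (k.toContinuousMap.comp
    ((ContinuousMap.id I).prodMap ⟨P, hP.continuous⟩)) ⟨G, G.continuous⟩ hk0 with hΦ
  have hΦ0 : ∀ x, Φ (0, x) = G x := fun x => hP.liftHomotopy_zero _ _ hk0 x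
  have hΦP : ∀ t x, P (Φ (t, x)) = k (t, P x) := fun t x =>
    congrFun (hP.liftHomotopy_lifts _ _ hk0) (t, x)
  have hPγ : ∀ (γ : Γ) (x : X), P (γ • x) = P x := fun γ x => ((hΓ x (γ • x)).mpr ⟨γ, rfl⟩).symm
  have hcγ : ∀ γ : Γ, Continuous fun x : X => γ • x := fun γ => (isometry_smul X γ).continuous
  have hΦγ : ∀ (t : I) (γ : Γ) (x : X), Φ (t, γ • x) = φ γ • Φ (t, x) :=
    t_EQ S X Γ P k.toContinuousMap Φ G φ hP hcγ hPγ (fun t x => hΦP t x) hΦ0 hφ
  -- the lift of f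
  obtain ⟨F, hF⟩ := t_HM S X P ((r.symm.trans f.toHomeomorph).trans r)
    ⟨fun x => Φ (1, x), by fun_prop⟩ hP (fun x => by
    show P (Φ (1, x)) = r (f (r.symm (P x)))
    rw [hΦP, k.apply_one]
    rfl)
  have hF' : ∀ x, F x = Φ (1, x) := hF
  have hFP : ∀ x, P (F x) = r (f (r.symm (P x))) := by
    intro x
    rw [hF', hΦP, k.apply_one]
    rfl
  have hFφ : ∀ (γ : Γ) (x : X), F (γ • x) = φ γ • F x := fun γ x => by rw [hF', hF', hΦγ]
  -- large-scale bounds
  obtain ⟨R₀, hR₀⟩ := t_CPT S X Γ P hP hs hΓ x₀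
  have hGm := t_MOD X Γ G φ x₀ R₀ G.continuous hR₀ hφ
  have hφ' : ∀ (γ : Γ) (x : X), G.symm (γ • x) = φ.symm γ • G.symm x := by
    intro γ x
    apply G.injective
    rw [Homeomorph.apply_symm_apply, hφ, Homeomorph.apply_symm_apply]
    simp
  have hGm' := t_MOD X Γ G.symm φ.symm x₀ R₀ G.symm.continuous hR₀ hφ'
  obtain ⟨B, hB⟩ := t_BD X Γ Φ φ x₀ R₀ hR₀ hΦγ
  have hB' : ∀ (t : I) (x : X), dist (Φ (t, x)) (G x) ≤ B := fun t x => by
    have := hB t x
    rwa [hΦ0] at this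
  have hCF : CoarselyHyperbolic F :=
    a_CHF X F G B hCG (fun x => by rw [hF']; exact hB' 1 x) hGm hGm'
  refine ⟨F, hFP, hFφ, hCF, fun n hn γ => ?_⟩
  -- boundedness of the fixed points along the homotopy
  obtain ⟨B₁, hB₁⟩ := t_IB X I (fun t y => Φ (t, y)) G B hB' hGm n
  obtain ⟨R₁, hR₁⟩ := a_BS X Γ G φ n γ B₁ x₀ hCG hn hφ hGm hGm'
  have hbdd : Bornology.IsBounded (e '' Metric.closedBall x₀ R₁) :=
    ((isCompact_closedBall x₀ R₁).image e.continuous).isBounded
  obtain ⟨R₂, hR₂⟩ := hbdd.exists_norm_le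
  set T : I → X → X := fun t x => γ⁻¹ • (fun y => Φ (t, y))^[n] x with hT
  set H : ℝ → E → E := fun t y => y - e (T (projIcc 0 1 zero_le_one t) (e.symm y)) with hH
  have hTc : Continuous fun p : I × X => T p.1 p.2 := (hcγ γ⁻¹).comp (cont_iter Φ n)
  have hHc : Continuous fun p : ℝ × E => H p.1 p.2 := by
    have h1 : Continuous fun p : ℝ × E =>
        ((projIcc 0 1 zero_le_one p.1 : I), e.symm p.2) :=
      ((continuous_projIcc (h := zero_le_one)).comp continuous_fst).prodMk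
        (e.symm.continuous.comp continuous_snd)
    exact continuous_snd.sub (e.continuous.comp (hTc.comp h1))
  have hzero : ∀ t ∈ Icc (0 : ℝ) 1, ∀ y, H t y = 0 → ‖y‖ < |R₂| + 1 := by
    intro t _ y hy
    have h1 : e (T (projIcc 0 1 zero_le_one t) (e.symm y)) = y := (sub_eq_zero.mp hy).symm
    have h2 : T (projIcc 0 1 zero_le_one t) (e.symm y) = e.symm y := by
      apply e.injective
      rw [h1, Homeomorph.apply_symm_apply]
    have h3 : (fun z => Φ (projIcc 0 1 zero_le_one t, z))^[n] (e.symm y) = γ • e.symm y :=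
      inv_smul_eq_iff.mp h2
    have h4 := hB₁ (projIcc 0 1 zero_le_one t) (e.symm y)
    rw [h3, dist_comm] at h4
    have h5 := hR₁ _ h4
    have h6 := hR₂ (e (e.symm y)) (mem_image_of_mem e (Metric.mem_closedBall.mpr h5))
    rw [Homeomorph.apply_symm_apply] at h6
    linarith [le_abs_self R₂]
  have hF1 : (fun y => Φ ((1 : I), y)) = F := funext fun y => (hF' y).symm
  have hG0 : (fun y => Φ ((0 : I), y)) = G := funext fun y => hΦ0 y
  have hp1 : projIcc (0 : ℝ) 1 zero_le_one 1 = 1 := projIcc_right _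
  have hp0 : projIcc (0 : ℝ) 1 zero_le_one 0 = 0 := projIcc_left _
  have hT1 : T 1 = fun x => γ⁻¹ • F^[n] x := by
    funext x
    show γ⁻¹ • (fun y => Φ ((1 : I), y))^[n] x = _
    rw [hF1]
  have hT0 : T 0 = fun x => γ⁻¹ • G^[n] x := by
    funext x
    show γ⁻¹ • (fun y => Φ ((0 : I), y))^[n] x = _
    rw [hG0]
  have hH1 : H 1 = fun y => y - e (T 1 (e.symm y)) := by
    funext y
    show y - e (T (projIcc 0 1 zero_le_one 1) (e.symm y)) = _
    rw [hp1]
  have hH0 : H 0 = fun y => y - e (γ⁻¹ • G^[n] (e.symm y)) := by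
    funext y
    show y - e (T (projIcc 0 1 zero_le_one 0) (e.symm y)) = _
    rw [hp0, hT0]
  have hTcont : ∀ t, Continuous (T t) := fun t => hTc.comp (continuous_const.prodMk continuous_id)
  have hP' : IsCoveringMap (r.symm ∘ P) := hP.homeomorph_comp r.symm
  have hFP' : ∀ x, (r.symm ∘ P) (F x) = f ((r.symm ∘ P) x) := fun x => by
    show r.symm (P (F x)) = f (r.symm (P x))
    rw [hFP, Homeomorph.symm_apply_apply]
  obtain ⟨κ, hκ0, hκ1, hκ⟩ := index_lift a_LI a_SG f Es Eu hf (r.symm ∘ P) hP' e (T 1) (hTcont 1)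
    n hn (fun x => by
    rw [hT1]
    show r.symm (P (γ⁻¹ • F^[n] x)) = _
    rw [hPγ]
    exact proj_iter hFP' n x)
  have hz : ∀ (t : I) (a : E), a - e (T t (e.symm a)) = 0 → T t (e.symm a) = e.symm a := by
    intro t a ha
    have h1 : e (T t (e.symm a)) = a := (sub_eq_zero.mp ha).symm
    apply e.injective
    rw [h1, Homeomorph.apply_symm_apply]
  have m0 : (0 : ℝ) ∈ Icc (0 : ℝ) 1 := ⟨le_refl 0, zero_le_one⟩
  have m1 : (1 : ℝ) ∈ Icc (0 : ℝ) 1 := ⟨zero_le_one, le_refl 1⟩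
  have cH : ∀ t, Continuous (H t) := fun t => hHc.comp (continuous_const.prodMk continuous_id)
  have hIdx : ∀ a, H 1 a = 0 → Idx (H 1) a κ := fun a ha => by
    rw [hH1] at ha ⊢
    have h1 := hκ (e.symm a) (hz 1 a ha)
    rwa [Homeomorph.apply_symm_apply] at h1
  -- the zeros of `H 1` are the images of the fixed points
  have i1 : e ⁻¹' {y | H 1 y = 0} = {x | F^[n] x = γ • x} := by
    rw [hH1]
    ext z
    constructor
    · intro h
      have h1 := hz 1 (e z) h
      rw [Homeomorph.symm_apply_apply, hT1] at h1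
      exact inv_smul_eq_iff.mp h1
    · intro h
      show e z - e (T 1 (e.symm (e z))) = 0
      have h1 : F^[n] z = γ • z := h
      rw [Homeomorph.symm_apply_apply, hT1]
      show e z - e (γ⁻¹ • F^[n] z) = 0
      rw [h1, inv_smul_smul, sub_self]
  have himg : {y | H 1 y = 0} = e '' {x | F^[n] x = γ • x} := by
    rw [← i1, Set.image_preimage_eq _ e.surjective]
  have hncard : {y | H 1 y = 0}.ncard = {x | F^[n] x = γ • x}.ncard := by
    rw [himg, Set.ncard_image_of_injective _ e.injective]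
  refine ⟨?_, κ, |R₂| + 1, le_antisymm hκ1 (Int.one_le_abs hκ0), fun R hR => ?_⟩
  · obtain ⟨f1, -⟩ := NCNT.deg_const a_SA (H 1) (cH 1) (|R₂| + 1) κ (hzero 1 m1) hIdx
    rw [← i1]
    exact f1.preimage e.injective.injOn
  · have hzR : ∀ t ∈ Icc (0 : ℝ) 1, ∀ y, H t y = 0 → ‖y‖ < R :=
      fun t ht y hy => (hzero t ht y hy).trans_le hR
    obtain ⟨-, d1⟩ := NCNT.deg_const a_SA (H 1) (cH 1) R κ (hzR 1 m1) hIdx
    have hS := a_SH E H (Metric.ball (0 : E) R) Metric.isOpen_ball Metric.isBounded_ball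
      hHc.continuousOn
      (by
        intro t ht x hx hx0
        have h2 : x ∈ Metric.ball (0 : E) R := by
          rw [Metric.mem_ball, dist_zero_right]
          exact hzR t ht x hx0
        have h3 : x ∉ interior (Metric.ball (0 : E) R) := hx.2
        rw [Metric.isOpen_ball.interior_eq] at h3
        exact h3 h2)
    rw [← hH0, hS, d1, hncard]

/-- powers of a lift are lifts -/
theorem lift_pow {X Γ : Type*} [Group Γ] [MulAction Γ X] {φ : Γ ≃* Γ} (n : ℕ) (γ : Γ) (K : ℕ) :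
    ∃ γ' : Γ, ∀ G : X → X, (∀ (γ : Γ) (x : X), G (γ • x) = φ γ • G x) →
      ∀ x, (fun x => γ⁻¹ • G^[n] x)^[K] x = γ'⁻¹ • G^[n * K] x := by
  induction K with
  | zero => exact ⟨1, fun G _ x => by simp⟩
  | succ K ih =>
    obtain ⟨γ', h⟩ := ih
    refine ⟨((φ : MulAut Γ) ^ n) γ' * γ, fun G hG x => ?_⟩
    rw [Function.iterate_succ_apply', h G hG]
    show γ⁻¹ • G^[n] (γ'⁻¹ • G^[n * K] x) = _
    rw [iter_equiv hG, ← Function.iterate_add_apply, smul_smul, mul_inv_rev, map_inv,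
      Nat.mul_succ, Nat.add_comm (n * K) n]

end Pool.Agent.H963.HT
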