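import Pool.Agent.H963.HT.Ob

/-!
# The index criterion
-/

set_option autoImplicit false
set_option linter.unusedSectionVars false

open scoped Manifold ContDiff Topology
open Set Filter

namespace Pool.Agent.H963.HT

open Pool.Agent.H721R2 Pool.Agent.H789R2.AN Pool.Agent.H223.CE Pool.Agent.H244.Loc

universe u v v' w w' x

/-- The total fixed point index of `T : X → X` is `i`, in the coordinates `e : X ≃ E`: the (Brouwer) degree
at `0` of `y ↦ y - e (T (e⁻¹ y))` on all large balls is `i`. -/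
def HasIndex {E : Type u} [NormedAddCommGroup E] [NormedSpace ℝ E] {X : Type w}
    [TopologicalSpace X] (e : X ≃ₜ E) (T : X → X) (i : ℤ) : Prop :=
  ∃ R₀ : ℝ, ∀ R : ℝ, R₀ ≤ R → sdeg (fun y => y - e (T (e.symm y))) (Metric.ball 0 R) = i

theorem HasIndex.unique {E : Type u} [NormedAddCommGroup E] [NormedSpace ℝ E] {X : Type w}
    [TopologicalSpace X] {e : X ≃ₜ E} {T : X → X} {i j : ℤ} (h : HasIndex e T i)
    (h' : HasIndex e T j) : i = j := by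
  obtain ⟨R, hR⟩ := h
  obtain ⟨R', hR'⟩ := h'
  rw [← hR (max R R') (le_max_left _ _), ← hR' (max R R') (le_max_right _ _)]

theorem ob_main
    {E : Type u} [NormedAddCommGroup E] [NormedSpace ℝ E] [FiniteDimensional ℝ E]
    {S : Type v} [TopologicalSpace S] [T2Space S] [CompactSpace S]
    {M : Type v'} [TopologicalSpace M] [T2Space M] [CompactSpace M] [ConnectedSpace M]
    [ChartedSpace E M] [IsManifold 𝓘(ℝ, E) ∞ M]
    (f : Diffeomorph 𝓘(ℝ, E) 𝓘(ℝ, E) M M 1) (g : S ≃ₜ S)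
    (Es Eu : ∀ x : M, Submodule ℝ (TangentSpace 𝓘(ℝ, E) x))
    (hf : IsAnosov f Es Eu) (r : M ≃ₜ S)
    (hfg : ContinuousMap.Homotopic (⟨g, g.continuous⟩ : C(S, S))
      ⟨fun m => r (f (r.symm m)), r.continuous.comp (f.continuous.comp r.symm.continuous)⟩)
    {X : Type w} [MetricSpace X] [ProperSpace X] [SimplyConnectedSpace X]
    {Γ : Type x} [Group Γ] [MulAction Γ X] [IsIsometricSMul Γ X]
    (P : X → S) (hP : IsCoveringMap P) (hs : Function.Surjective P)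
    (hΓ : ∀ x y : X, P x = P y ↔ ∃ γ : Γ, γ • x = y)
    (G : X ≃ₜ X) (hG : ∀ x, P (G x) = g (P x))
    (φ : Γ ≃* Γ) (hφ : ∀ (γ : Γ) (x : X), G (γ • x) = φ γ • G x)
    (hCG : CoarselyHyperbolic G) (e : X ≃ₜ E) :
    ∃ F : X ≃ₜ X, (∀ x, P (F x) = r (f (r.symm (P x)))) ∧
      (∀ (γ : Γ) (x : X), F (γ • x) = φ γ • F x) ∧
      (∀ n : ℕ, 1 ≤ n → ∀ γ : Γ, {x : X | F^[n] x = γ • x}.Finite ∧
        ∃ i : ℤ, HasIndex e (fun x => γ⁻¹ • G^[n] x) i ∧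
          |i| = ({x : X | F^[n] x = γ • x}.ncard : ℤ)) ∧
      ((∀ n : ℕ, 1 ≤ n → ∀ γ : Γ, ∃ K : ℕ, 1 ≤ K ∧ ∃ i : ℤ,
          HasIndex e ((fun x => γ⁻¹ • G^[n] x)^[K]) i ∧ |i| < 2 ^ K) →
        TopTransitive f ∧ (∀ x y, ∃! w, Asymp F x w ∧ Asymp F.symm y w) ∧
        ∀ n : ℕ, 1 ≤ n → ∀ γ : Γ, {x : X | F^[n] x = γ • x}.ncard ≤ 1 ∧
          ∃ i : ℤ, HasIndex e (fun x => γ⁻¹ • G^[n] x) i ∧ |i| ≤ 1) := by
  obtain ⟨F, h1, h2, h3, h4⟩ := core3 f g Es Eu hf r hfg P hP hs hΓ G hG φ hφ hCG e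
  have h5 : ∀ n : ℕ, 1 ≤ n → ∀ γ : Γ, {x : X | F^[n] x = γ • x}.Finite ∧
        ∃ i : ℤ, HasIndex e (fun x => γ⁻¹ • G^[n] x) i ∧
          |i| = ({x : X | F^[n] x = γ • x}.ncard : ℤ) := by
    intro n hn γ
    obtain ⟨k1, κ, R₀, k2, k3⟩ := h4 n hn γ
    refine ⟨k1, _, ⟨R₀, k3⟩, ?_⟩
    rw [abs_mul, k2, one_mul, abs_of_nonneg (Int.natCast_nonneg _)]
  refine ⟨F, h1, h2, h5, fun hK => ?_⟩
  have hN : NWeak Γ F := by
    intro n hn γ
    obtain ⟨K, hK1, i, hi, hi2⟩ := hK n hn γ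
    refine ⟨K, hK1, ?_⟩
    obtain ⟨γ', hγ'⟩ := lift_pow (X := X) (φ := φ) n γ K
    have e1 : (fun x => γ⁻¹ • G^[n] x)^[K] = fun x => γ'⁻¹ • G^[n * K] x :=
      funext fun x => hγ' G hφ x
    have hnK : 1 ≤ n * K := Nat.mul_pos hn hK1
    obtain ⟨k1, j, k2, k3⟩ := h5 (n * K) hnK γ'
    rw [e1] at hi
    rw [hi.unique k2, k3] at hi2
    have e2 : {x | (fun x => γ⁻¹ • F^[n] x)^[K] x = x} = {x : X | F^[n * K] x = γ' • x} := by
      ext x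
      show (fun x => γ⁻¹ • F^[n] x)^[K] x = x ↔ _
      rw [hγ' F h2 x]
      exact inv_smul_eq_iff
    rw [e2, ← k1.cast_ncard_eq]
    have h6 : {x : X | F^[n * K] x = γ' • x}.ncard < 2 ^ K := by exact_mod_cast hi2
    exact_mod_cast h6
  have hΓ' : ∀ x y : X, (r.symm ∘ P) x = (r.symm ∘ P) y ↔ ∃ γ : Γ, γ • x = y := by
    intro x y
    rw [← hΓ]
    exact r.symm.injective.eq_iff
  have hFP' : ∀ x, (r.symm ∘ P) (F x) = f ((r.symm ∘ P) x) := fun x => by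
    show r.symm (P (F x)) = f (r.symm (P x))
    rw [h1, Homeomorph.symm_apply_apply]
  have tF := man_tfae f Es Eu hf (r.symm ∘ P) (hP.homeomorph_comp r.symm)
    (r.symm.surjective.comp hs) hΓ' F hFP' (Or.inl h3)
  have h7 : TopTransitive f ∧ ∀ x y, ∃! w, Asymp F x w ∧ Asymp F.symm y w := (tF.out 4 0).mp hN
  have h8 : NFix Γ F := (tF.out 4 3).mp hN
  refine ⟨h7.1, h7.2, fun n hn γ => ?_⟩
  have h9 : {x : X | F^[n] x = γ • x}.ncard ≤ 1 := by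
    rw [Set.ncard_le_one_iff (h5 n hn γ).1]
    intro a b ha hb
    exact h8 n hn γ a b ha hb
  obtain ⟨i, k2, k3⟩ := (h5 n hn γ).2
  exact ⟨h9, i, k2, by rw [k3]; exact_mod_cast h9⟩

end Pool.Agent.H963.HT
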