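import Mathlib

/-!
# Counting fixed points downstairs
-/

set_option autoImplicit false

open Set

namespace Pool.Agent.H963.HT

universe v v' w x

/-- **OC.** Fixed points of `f : M → M` are counted by the fixed points of its lifts `γ⁻¹ ∘ F`, `γ ∈ Γ`, with
multiplicities which depend only on `φ`.  Proof.  `Γ` acts on the pairs `(x, γ)` with `F x = γ • x` by
`δ • (x, γ) = (δ • x, φ δ * γ * δ⁻¹)`, and `(x, γ) ↦ P x` induces a bijection of the orbits onto the
fixed points of `f` (`γ` is determined by `x`, the action on `X` being free; if `f (P x) = P x` then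
`P (F x) = P x`, so there is a `γ`).  Choose representatives `γ` for the twisted conjugacy classes
(orbits of `Γ` on `Γ` for `γ ↦ φ δ * γ * δ⁻¹`).  The fixed points of `f` of the class of `γ` are the
orbits of the group `S γ = {δ | φ δ * γ * δ⁻¹ = γ}` on the finite set `A γ = {x | F x = γ • x}`; as `S γ`
acts freely, `card (A γ) = card (S γ) * card (orbits)`.  The same for `G` with the same `S γ`, and
`card (A γ)` is the same for `F` and `G` (if `A γ` is empty so is the other one; otherwise `S γ` is finite).
So there is a bijection of the orbits in `A γ` for `F` with those for `G`, for each representative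
`γ`; together they give a bijection of the fixed points of `f` and of `g`. -/
def S_OC : Prop := ∀ (M : Type v) (N : Type v') (X : Type w) (Γ : Type x) [Group Γ] [MulAction Γ X]
  (P : X → M) (Q : X → N) (f : M → M) (g : N → N) (F G : X → X) (φ : Γ →* Γ),
  Function.Surjective P → Function.Surjective Q →
  (∀ x y : X, P x = P y ↔ ∃ γ : Γ, γ • x = y) → (∀ x y : X, Q x = Q y ↔ ∃ γ : Γ, γ • x = y) →
  (∀ (γ : Γ) (x : X), γ • x = x → γ = 1) →
  (∀ x, P (F x) = f (P x)) → (∀ x, Q (G x) = g (Q x)) →
  (∀ (γ : Γ) (x : X), F (γ • x) = φ γ • F x) → (∀ (γ : Γ) (x : X), G (γ • x) = φ γ • G x) →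
  (∀ γ : Γ, {x : X | F x = γ • x}.Finite) →
  (∀ γ : Γ, {x : X | F x = γ • x}.encard = {x : X | G x = γ • x}.encard) →
  Nonempty ({m | f m = m} ≃ {m | g m = m})

end Pool.Agent.H963.HT
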