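import Pool.Agent.H963.HT.PrStm

set_option autoImplicit false

namespace Pool.Agent.H963.HT

open Set Topology

universe u v w w'

namespace NPC

theorem prodEven {A : Type u} {B : Type v} {X : Type w} {Y : Type w'} [TopologicalSpace A]
    [TopologicalSpace B] [TopologicalSpace X] [TopologicalSpace Y] {P : X → A} {Q : Y → B}
    {I : Type w} {J : Type w'} [TopologicalSpace I] [TopologicalSpace J] {a : A} {b : B}
    (hP : IsEvenlyCovered P a I) (hQ : IsEvenlyCovered Q b J) :
    IsEvenlyCovered (Prod.map P Q) (a, b) (I × J) := by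
  obtain ⟨i1, U, haU, hU, hPU, H, hH⟩ := hP
  obtain ⟨i2, V, hbV, hV, hQV, K, hK⟩ := hQ
  refine ⟨inferInstance, U ×ˢ V, ⟨haU, hbV⟩, hU.prod hV, ?_, ?_⟩
  · have : Prod.map P Q ⁻¹' U ×ˢ V = (P ⁻¹' U) ×ˢ (Q ⁻¹' V) := by
      ext x
      simp
    rw [this]
    exact hPU.prod hQV
  · have hHs : ∀ (y : U × I), P (H.symm y).1 = y.1.1 := by
      intro y
      rw [← hH, Homeomorph.apply_symm_apply]
    have hKs : ∀ (y : V × J), Q (K.symm y).1 = y.1.1 := by
      intro y
      rw [← hK, Homeomorph.apply_symm_apply]
    let e1 : Prod.map P Q ⁻¹' U ×ˢ V → P ⁻¹' U := fun e => ⟨e.1.1, e.2.1⟩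
    let e2 : Prod.map P Q ⁻¹' U ×ˢ V → Q ⁻¹' V := fun e => ⟨e.1.2, e.2.2⟩
    have ce1 : Continuous e1 := by
      apply Continuous.subtype_mk
      fun_prop
    have ce2 : Continuous e2 := by
      apply Continuous.subtype_mk
      fun_prop
    let d1 : (U ×ˢ V : Set (A × B)) × (I × J) → U × I := fun x => (⟨x.1.1.1, x.1.2.1⟩, x.2.1)
    let d2 : (U ×ˢ V : Set (A × B)) × (I × J) → V × J := fun x => (⟨x.1.1.2, x.1.2.2⟩, x.2.2)
    have cd1 : Continuous d1 := by
      apply Continuous.prodMk
      · apply Continuous.subtype_mk
        fun_prop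
      · fun_prop
    have cd2 : Continuous d2 := by
      apply Continuous.prodMk
      · apply Continuous.subtype_mk
        fun_prop
      · fun_prop
    refine ⟨{ toFun := fun e => (⟨((H (e1 e)).1.1, (K (e2 e)).1.1), (H (e1 e)).1.2, (K (e2 e)).1.2⟩,
                ((H (e1 e)).2, (K (e2 e)).2))
              invFun := fun x => ⟨((H.symm (d1 x)).1, (K.symm (d2 x)).1),
                (H.symm (d1 x)).2, (K.symm (d2 x)).2⟩
              left_inv := ?_
              right_inv := ?_
              continuous_toFun := ?_
              continuous_invFun := ?_ }, ?_⟩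
    · intro e
      apply Subtype.ext
      apply Prod.ext
      · show (H.symm (H (e1 e))).1 = e.1.1
        rw [Homeomorph.symm_apply_apply]
      · show (K.symm (K (e2 e))).1 = e.1.2
        rw [Homeomorph.symm_apply_apply]
    · intro x
      have h1 : H (H.symm (d1 x)) = d1 x := Homeomorph.apply_symm_apply _ _
      have h2 : K (K.symm (d2 x)) = d2 x := Homeomorph.apply_symm_apply _ _
      apply Prod.ext
      · apply Subtype.ext
        apply Prod.ext
        · exact congrArg (fun y => y.1.1) h1
        · exact congrArg (fun y => y.1.1) h2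
      · apply Prod.ext
        · exact congrArg (fun y => y.2) h1
        · exact congrArg (fun y => y.2) h2
    · apply Continuous.prodMk
      · apply Continuous.subtype_mk
        apply Continuous.prodMk
        · exact continuous_subtype_val.comp (continuous_fst.comp (H.continuous.comp ce1))
        · exact continuous_subtype_val.comp (continuous_fst.comp (K.continuous.comp ce2))
      · apply Continuous.prodMk
        · exact continuous_snd.comp (H.continuous.comp ce1)
        · exact continuous_snd.comp (K.continuous.comp ce2)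
    · apply Continuous.subtype_mk
      apply Continuous.prodMk
      · exact continuous_subtype_val.comp (H.symm.continuous.comp cd1)
      · exact continuous_subtype_val.comp (K.symm.continuous.comp cd2)
    · intro x
      exact Prod.ext (hH (e1 x)) (hK (e2 x))

end NPC

theorem t_PC : S_PC.{u, v, w, w'} := by
  intro A B X Y _ _ _ _ P Q hP hQ ab
  obtain ⟨a, b⟩ := ab
  exact (NPC.prodEven (hP a) (hQ b)).to_isEvenlyCovered_preimage

end Pool.Agent.H963.HT
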