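import Pool.Agent.H963.HT.PrStm

/-!
# PH: products of coarsely hyperbolic homeomorphisms
-/

set_option autoImplicit false

open Set Filter Topology Metric

namespace Pool.Agent.H963.HT

open Pool.Agent.H223.CE

universe w w'

namespace NPH

variable {X : Type w} {Y : Type w'} [MetricSpace X] [MetricSpace Y]

theorem iter (F : X ≃ₜ X) (G : Y ≃ₜ Y) (n : ℕ) (p : X × Y) :
    (F.prodCongr G)^[n] p = (F^[n] p.1, G^[n] p.2) := by
  rw [Homeomorph.coe_prodCongr, Prod.map_iterate]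
  rfl

theorem iter_symm (F : X ≃ₜ X) (G : Y ≃ₜ Y) (n : ℕ) (p : X × Y) :
    (F.prodCongr G).symm^[n] p = (F.symm^[n] p.1, G.symm^[n] p.2) := by
  have h : (F.prodCongr G).symm = F.symm.prodCongr G.symm := rfl
  rw [h, iter]

theorem two_le (k : ℕ) (hk : 1 ≤ k) (d : ℝ) (hd : 0 ≤ d) : 2 * d ≤ 2 ^ k * d := by
  refine mul_le_mul_of_nonneg_right ?_ hd
  calc (2 : ℝ) = 2 ^ 1 := (pow_one 2).symm
    _ ≤ 2 ^ k := pow_le_pow_right₀ (by norm_num) hk

end NPH

open NPH in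
/-- **PH.** -/
theorem t_PH (hI : S_IT.{w}) (hI2 : S_IT.{w'}) : S_PH.{w, w'} := by
  intro X Y _ _ F G hF hG
  obtain ⟨N₁, hN₁, R₁, h₁⟩ := hF
  obtain ⟨N₂, hN₂, R₂, h₂⟩ := hG
  refine ⟨N₂ * N₁, Nat.mul_pos hN₂ hN₁, max (max R₁ R₂) 1, fun p q hpq => ?_⟩
  have hR : max R₁ R₂ ≤ dist p q := (le_max_left _ _).trans hpq
  have h1 : 1 ≤ dist p q := (le_max_right _ _).trans hpq
  have hR₁ : R₁ ≤ dist p q := (le_max_left _ _).trans hR
  have hR₂ : R₂ ≤ dist p q := (le_max_right _ _).trans hR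
  rw [iter, iter, iter_symm, iter_symm]
  rcases max_choice (dist p.1 q.1) (dist p.2 q.2) with h | h
  · have hd : dist p q = dist p.1 q.1 := by rw [Prod.dist_eq, h]
    rw [hd] at h1 hR₁ ⊢
    have h3 := hI X F N₁ R₁ h₁ N₂ hN₂ p.1 q.1 (max_le hR₁ h1)
    refine ((two_le N₂ hN₂ _ dist_nonneg).trans h3).trans ?_
    exact max_le_max (by rw [Prod.dist_eq]; exact le_max_left _ _)
      (by rw [Prod.dist_eq]; exact le_max_left _ _)
  · have hd : dist p q = dist p.2 q.2 := by rw [Prod.dist_eq, h]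
    rw [hd] at h1 hR₂ ⊢
    have h3 := hI2 Y G N₂ R₂ h₂ N₁ hN₁ p.2 q.2 (max_le hR₂ h1)
    rw [mul_comm N₁ N₂] at h3
    refine ((two_le N₁ hN₁ _ dist_nonneg).trans h3).trans ?_
    exact max_le_max (by rw [Prod.dist_eq]; exact le_max_right _ _)
      (by rw [Prod.dist_eq]; exact le_max_right _ _)

end Pool.Agent.H963.HT
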