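import Pool.Agent.H963.HT.PrStm

/-!
# The degree on large balls of a map with at most one zero
-/

set_option autoImplicit false

open Set Filter Topology Metric

namespace Pool.Agent.H963.HT

universe u

theorem t_PI (hA : S_SA.{u}) (hX : S_EX.{u}) : S_PI.{u} := by
  intro V _ _ _ Φ hΦ huniq
  by_cases h : ∃ a, Φ a = 0
  · obtain ⟨a, ha⟩ := h
    obtain ⟨σ, hσ⟩ := hX V Φ a 1 one_pos hΦ.continuousOn ha (fun x _ hx => huniq x a hx ha)
    refine ⟨σ, ‖a‖ + 1, fun R hR => ?_, fun b hb => ?_, fun hno => absurd ha (hno a)⟩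
    · have h1 := hA V Φ (ball (0 : V) R) {a} σ isOpen_ball isBounded_ball hΦ.continuousOn
        (fun x _ hx => Finset.mem_singleton.2 (huniq x a hx ha))
        (fun z hz => by
          rw [Finset.mem_singleton.1 hz, mem_ball, dist_zero_right]
          linarith)
        (fun z hz => by
          rw [Finset.mem_singleton.1 hz]
          exact hσ)
      rw [h1, Finset.card_singleton, Nat.cast_one, mul_one]
    · rw [huniq b a hb ha]
      exact hσ
  · have h' : ∀ a, Φ a ≠ 0 := fun a ha => h ⟨a, ha⟩
    refine ⟨0, 0, fun R _ => ?_, fun a ha => absurd ha (h' a), fun _ => rfl⟩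
    have h1 := hA V Φ (ball (0 : V) R) ∅ 0 isOpen_ball isBounded_ball hΦ.continuousOn
      (fun x _ hx => absurd hx (h' x)) (fun z hz => absurd hz (Finset.notMem_empty z))
      (fun z hz => absurd hz (Finset.notMem_empty z))
    rw [h1, zero_mul]

end Pool.Agent.H963.HT
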