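import Pool.Agent.H963.HT.PrStm

/-!
# PU: the index of a zero is unique
-/

set_option autoImplicit false

open Set Filter Topology Metric

namespace Pool.Agent.H963.HT

universe u

theorem t_PU : S_PU.{u} := by
  intro V _ _ _ Φ a κ τ h1 h2
  obtain ⟨r, hr, -, -, -, h3⟩ := h1
  obtain ⟨s, hs, -, -, -, h4⟩ := h2
  rw [← h3 (min r s) (lt_min hr hs) (min_le_left _ _),
    ← h4 (min r s) (lt_min hr hs) (min_le_right _ _)]

end Pool.Agent.H963.HT
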