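import Pool.Agent.H963.HT.Ob2
import Pool.Agent.H963.HT.T_PC
import Pool.Agent.H963.HT.T_PH
import Pool.Agent.H963.HT.T_PI
import Pool.Agent.H963.HT.T_PU

/-!
# Products
-/

set_option autoImplicit false
set_option linter.unusedSectionVars false

open scoped Manifold ContDiff Topology
open Set Filter

namespace Pool.Agent.H963.HT

open Pool.Agent.H721R2 Pool.Agent.H789R2.AN Pool.Agent.H223.CE Pool.Agent.H244.Loc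

universe u v v' v'' w w' x x'

/-- the componentwise action -/
@[reducible] def prodAct (Γ₁ Γ₂ X₁ X₂ : Type*) [Group Γ₁] [Group Γ₂] [MulAction Γ₁ X₁]
    [MulAction Γ₂ X₂] : MulAction (Γ₁ × Γ₂) (X₁ × X₂) where
  smul γ p := (γ.1 • p.1, γ.2 • p.2)
  one_smul p := by
    show ((1 : Γ₁) • p.1, (1 : Γ₂) • p.2) = p
    rw [one_smul, one_smul]
  mul_smul γ δ p := by
    show ((γ.1 * δ.1) • p.1, (γ.2 * δ.2) • p.2) = (γ.1 • δ.1 • p.1, γ.2 • δ.2 • p.2)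
    rw [mul_smul, mul_smul]

/-- The lift `G` of a homeomorphism is like the lift of a pseudo-Anosov homeomorphism: it is
coarsely hyperbolic, every lift `γ⁻¹ Gⁿ` of every iterate has at most one fixed point, and the
indices of these fixed points (in the coordinates `e`) are bounded. -/
def PALike (Γ : Type x) [Group Γ] {V : Type u} [NormedAddCommGroup V] [NormedSpace ℝ V]
    {X : Type w} [MetricSpace X] [MulAction Γ X] (e : X ≃ₜ V) (G : X ≃ₜ X) : Prop :=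
  CoarselyHyperbolic G ∧ NFix Γ G ∧ ∃ C : ℤ, ∀ n : ℕ, 1 ≤ n → ∀ (γ : Γ) (p : X) (i : ℤ),
    G^[n] p = γ • p → Idx (fun y => y - e (γ⁻¹ • G^[n] (e.symm y))) (e p) i → |i| ≤ C

theorem zero_iff {V : Type u} [NormedAddCommGroup V] [NormedSpace ℝ V] {X : Type w}
    [TopologicalSpace X] {Γ : Type x} [Group Γ] [MulAction Γ X] (e : X ≃ₜ V) (T : X → X) (γ : Γ)
    (a : V) : a - e (γ⁻¹ • T (e.symm a)) = 0 ↔ T (e.symm a) = γ • e.symm a := by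
  rw [sub_eq_zero]
  constructor
  · intro h
    have h1 : γ⁻¹ • T (e.symm a) = e.symm a := by
      apply e.injective
      rw [← h, Homeomorph.apply_symm_apply]
    exact inv_smul_eq_iff.mp h1
  · intro h
    rw [h, inv_smul_smul, Homeomorph.apply_symm_apply]

theorem pr_main
    {V : Type u} [NormedAddCommGroup V] [NormedSpace ℝ V] [FiniteDimensional ℝ V]
    {M : Type v} [TopologicalSpace M] [T2Space M] [CompactSpace M] [ConnectedSpace M]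
    [ChartedSpace (V × V) M] [IsManifold 𝓘(ℝ, V × V) ∞ M]
    (f : Diffeomorph 𝓘(ℝ, V × V) 𝓘(ℝ, V × V) M M 1)
    (Es Eu : ∀ x : M, Submodule ℝ (TangentSpace 𝓘(ℝ, V × V) x))
    (hf : IsAnosov f Es Eu)
    {S₁ : Type v'} [TopologicalSpace S₁] [T2Space S₁] [CompactSpace S₁]
    {S₂ : Type v''} [TopologicalSpace S₂] [T2Space S₂] [CompactSpace S₂]
    (g₁ : S₁ ≃ₜ S₁) (g₂ : S₂ ≃ₜ S₂) (r : M ≃ₜ S₁ × S₂)
    (hfg : ContinuousMap.Homotopic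
      (⟨g₁.prodCongr g₂, (g₁.prodCongr g₂).continuous⟩ : C(S₁ × S₂, S₁ × S₂))
      ⟨fun m => r (f (r.symm m)), r.continuous.comp (f.continuous.comp r.symm.continuous)⟩)
    {X₁ : Type w} [MetricSpace X₁] [ProperSpace X₁] {X₂ : Type w'} [MetricSpace X₂] [ProperSpace X₂]
    {Γ₁ : Type x} [Group Γ₁] [MulAction Γ₁ X₁] [IsIsometricSMul Γ₁ X₁] [FaithfulSMul Γ₁ X₁]
    {Γ₂ : Type x'} [Group Γ₂] [MulAction Γ₂ X₂] [IsIsometricSMul Γ₂ X₂] [FaithfulSMul Γ₂ X₂]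
    (P₁ : X₁ → S₁) (hP₁ : IsCoveringMap P₁) (hs₁ : Function.Surjective P₁)
    (hΓ₁ : ∀ x y : X₁, P₁ x = P₁ y ↔ ∃ γ : Γ₁, γ • x = y)
    (P₂ : X₂ → S₂) (hP₂ : IsCoveringMap P₂) (hs₂ : Function.Surjective P₂)
    (hΓ₂ : ∀ x y : X₂, P₂ x = P₂ y ↔ ∃ γ : Γ₂, γ • x = y)
    (G₁ : X₁ ≃ₜ X₁) (hG₁ : ∀ x, P₁ (G₁ x) = g₁ (P₁ x))
    (G₂ : X₂ ≃ₜ X₂) (hG₂ : ∀ x, P₂ (G₂ x) = g₂ (P₂ x))
    (e₁ : X₁ ≃ₜ V) (e₂ : X₂ ≃ₜ V) (h₁ : PALike Γ₁ e₁ G₁) (h₂ : PALike Γ₂ e₂ G₂) :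
    TopTransitive f ∧ ∀ n : ℕ, 1 ≤ n → ∀ (γ₁ : Γ₁) (γ₂ : Γ₂) (p₁ : X₁) (p₂ : X₂) (i₁ i₂ : ℤ),
      G₁^[n] p₁ = γ₁ • p₁ → G₂^[n] p₂ = γ₂ • p₂ →
      Idx (fun y => y - e₁ (γ₁⁻¹ • G₁^[n] (e₁.symm y))) (e₁ p₁) i₁ →
      Idx (fun y => y - e₂ (γ₂⁻¹ • G₂^[n] (e₂.symm y))) (e₂ p₂) i₂ → |i₁ * i₂| ≤ 1 := by
  obtain ⟨c1, c2, C₁, c3⟩ := h₁
  obtain ⟨d1, d2, C₂, d3⟩ := h₂
  have _ : ContractibleSpace X₁ := e₁.symm.toHomotopyEquiv.symm.contractibleSpace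
  have _ : ContractibleSpace X₂ := e₂.symm.toHomotopyEquiv.symm.contractibleSpace
  obtain ⟨φ₁, hφ₁⟩ := exists_phi P₁ hP₁ hΓ₁ g₁ G₁ hG₁
  obtain ⟨φ₂, hφ₂⟩ := exists_phi P₂ hP₂ hΓ₂ g₂ G₂ hG₂
  let act : MulAction (Γ₁ × Γ₂) (X₁ × X₂) := prodAct Γ₁ Γ₂ X₁ X₂
  have smul_def : ∀ (γ : Γ₁ × Γ₂) (p : X₁ × X₂), γ • p = (γ.1 • p.1, γ.2 • p.2) := fun _ _ => rfl
  have _ : IsIsometricSMul (Γ₁ × Γ₂) (X₁ × X₂) := ⟨fun γ => by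
    refine Isometry.of_dist_eq fun p q => ?_
    rw [smul_def, smul_def, Prod.dist_eq, Prod.dist_eq]
    simp only [dist_smul]⟩
  have _ : ContractibleSpace (X₁ × X₂) :=
    (e₁.prodCongr e₂).symm.toHomotopyEquiv.symm.contractibleSpace
  set G : X₁ × X₂ ≃ₜ X₁ × X₂ := G₁.prodCongr G₂ with hG
  set e : X₁ × X₂ ≃ₜ V × V := e₁.prodCongr e₂ with he
  have hit : ∀ (n : ℕ) (p : X₁ × X₂), G^[n] p = (G₁^[n] p.1, G₂^[n] p.2) := by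
    intro n
    induction n with
    | zero => intro p; rfl
    | succ n ih =>
      intro p
      rw [Function.iterate_succ_apply', ih, Function.iterate_succ_apply',
        Function.iterate_succ_apply']
      rfl
  obtain ⟨F, -, -, -, k4⟩ := ob_main f (g₁.prodCongr g₂) Es Eu hf r hfg (Prod.map P₁ P₂)
    (t_PC S₁ S₂ X₁ X₂ P₁ P₂ hP₁ hP₂) (hs₁.prodMap hs₂)
    (Γ := Γ₁ × Γ₂) (fun p q => by
      constructor
      · intro h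
        have h1 : P₁ p.1 = P₁ q.1 := congrArg Prod.fst h
        have h2 : P₂ p.2 = P₂ q.2 := congrArg Prod.snd h
        obtain ⟨γ₁, hγ₁⟩ := (hΓ₁ _ _).mp h1
        obtain ⟨γ₂, hγ₂⟩ := (hΓ₂ _ _).mp h2
        exact ⟨(γ₁, γ₂), by rw [smul_def]; exact Prod.ext hγ₁ hγ₂⟩
      · rintro ⟨γ, rfl⟩
        exact Prod.ext ((hΓ₁ _ _).mpr ⟨γ.1, rfl⟩) ((hΓ₂ _ _).mpr ⟨γ.2, rfl⟩))
    G (fun p => Prod.ext (hG₁ p.1) (hG₂ p.2)) (φ₁.prodCongr φ₂)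
    (fun γ p => Prod.ext (hφ₁ γ.1 p.1) (hφ₂ γ.2 p.2)) (t_PH t_IT t_IT X₁ X₂ G₁ G₂ c1 d1) e
  -- the index of a lift
  have key : ∀ n : ℕ, 1 ≤ n → ∀ γ : Γ₁ × Γ₂, ∃ i : ℤ, HasIndex e (fun x => γ⁻¹ • G^[n] x) i ∧
      |i| ≤ |C₁| * |C₂| ∧ ∀ (p₁ : X₁) (p₂ : X₂) (i₁ i₂ : ℤ),
      G₁^[n] p₁ = γ.1 • p₁ → G₂^[n] p₂ = γ.2 • p₂ →
      Idx (fun y => y - e₁ (γ.1⁻¹ • G₁^[n] (e₁.symm y))) (e₁ p₁) i₁ →
      Idx (fun y => y - e₂ (γ.2⁻¹ • G₂^[n] (e₂.symm y))) (e₂ p₂) i₂ → i = i₁ * i₂ := by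
    intro n hn γ
    have cG₁ : Continuous fun y => y - e₁ (γ.1⁻¹ • G₁^[n] (e₁.symm y)) :=
      continuous_id.sub (e₁.continuous.comp ((isometry_smul X₁ γ.1⁻¹).continuous.comp
        ((G₁.continuous.iterate n).comp e₁.symm.continuous)))
    have cG₂ : Continuous fun y => y - e₂ (γ.2⁻¹ • G₂^[n] (e₂.symm y)) :=
      continuous_id.sub (e₂.continuous.comp ((isometry_smul X₂ γ.2⁻¹).continuous.comp
        ((G₂.continuous.iterate n).comp e₂.symm.continuous)))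
    have cG : Continuous fun y => y - e (γ⁻¹ • G^[n] (e.symm y)) :=
      continuous_id.sub (e.continuous.comp ((isometry_smul (X₁ × X₂) γ⁻¹).continuous.comp
        ((G.continuous.iterate n).comp e.symm.continuous)))
    have hprod : (fun y => y - e (γ⁻¹ • G^[n] (e.symm y))) = fun y : V × V =>
        (y.1 - e₁ (γ.1⁻¹ • G₁^[n] (e₁.symm y.1)), y.2 - e₂ (γ.2⁻¹ • G₂^[n] (e₂.symm y.2))) := by
      funext y
      rw [hit]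
      rfl
    have u₁ : ∀ a b : V, a - e₁ (γ.1⁻¹ • G₁^[n] (e₁.symm a)) = 0 →
        b - e₁ (γ.1⁻¹ • G₁^[n] (e₁.symm b)) = 0 → a = b := fun a b ha hb =>
      e₁.symm.injective (c2 n hn γ.1 _ _ ((zero_iff e₁ _ _ _).mp ha) ((zero_iff e₁ _ _ _).mp hb))
    have u₂ : ∀ a b : V, a - e₂ (γ.2⁻¹ • G₂^[n] (e₂.symm a)) = 0 →
        b - e₂ (γ.2⁻¹ • G₂^[n] (e₂.symm b)) = 0 → a = b := fun a b ha hb =>
      e₂.symm.injective (d2 n hn γ.2 _ _ ((zero_iff e₂ _ _ _).mp ha) ((zero_iff e₂ _ _ _).mp hb))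
    obtain ⟨j₁, -, -, j₁i, -⟩ := t_PI a_SA a_EX V _ cG₁ u₁
    obtain ⟨j₂, -, -, j₂i, -⟩ := t_PI a_SA a_EX V _ cG₂ u₂
    obtain ⟨i, R₀, hi, iI, i0⟩ := t_PI a_SA a_EX (V × V) _ cG (fun a b ha hb => by
      have ha' := (congrFun hprod a).symm.trans ha
      have hb' := (congrFun hprod b).symm.trans hb
      exact Prod.ext (u₁ _ _ (congrArg Prod.fst ha') (congrArg Prod.fst hb'))
        (u₂ _ _ (congrArg Prod.snd ha') (congrArg Prod.snd hb')))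
    have hmul : ∀ (a₁ a₂ : V) (i₁ i₂ : ℤ), a₁ - e₁ (γ.1⁻¹ • G₁^[n] (e₁.symm a₁)) = 0 →
        a₂ - e₂ (γ.2⁻¹ • G₂^[n] (e₂.symm a₂)) = 0 →
        Idx (fun y => y - e₁ (γ.1⁻¹ • G₁^[n] (e₁.symm y))) a₁ i₁ →
        Idx (fun y => y - e₂ (γ.2⁻¹ • G₂^[n] (e₂.symm y))) a₂ i₂ → i = i₁ * i₂ := by
      intro a₁ a₂ i₁ i₂ z₁ z₂ k₁ k₂
      have h1 := a_SP V _ _ a₁ a₂ i₁ i₂ k₁ k₂
      have h2 := iI (a₁, a₂) ((congrFun hprod (a₁, a₂)).trans (Prod.ext z₁ z₂))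
      rw [hprod] at h2
      exact t_PU (V × V) _ _ _ _ h2 h1
    refine ⟨i, ⟨R₀, hi⟩, ?_, fun p₁ p₂ i₁ i₂ q₁ q₂ k₁ k₂ => hmul _ _ _ _
      ((zero_iff e₁ _ _ _).mpr (by rw [Homeomorph.symm_apply_apply]; exact q₁))
      ((zero_iff e₂ _ _ _).mpr (by rw [Homeomorph.symm_apply_apply]; exact q₂)) k₁ k₂⟩
    by_cases hz : ∃ a : V × V, a - e (γ⁻¹ • G^[n] (e.symm a)) = 0
    · obtain ⟨a, ha⟩ := hz
      have ha' := (congrFun hprod a).symm.trans ha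
      have z₁ : a.1 - e₁ (γ.1⁻¹ • G₁^[n] (e₁.symm a.1)) = 0 := congrArg Prod.fst ha'
      have z₂ : a.2 - e₂ (γ.2⁻¹ • G₂^[n] (e₂.symm a.2)) = 0 := congrArg Prod.snd ha'
      have k₁ := j₁i _ z₁
      have k₂ := j₂i _ z₂
      rw [hmul _ _ _ _ z₁ z₂ k₁ k₂, abs_mul]
      have l₁ : |j₁| ≤ C₁ := c3 n hn γ.1 (e₁.symm a.1) j₁ ((zero_iff e₁ _ _ _).mp z₁)
        (by rw [Homeomorph.apply_symm_apply]; exact k₁)
      have l₂ : |j₂| ≤ C₂ := d3 n hn γ.2 (e₂.symm a.2) j₂ ((zero_iff e₂ _ _ _).mp z₂)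
        (by rw [Homeomorph.apply_symm_apply]; exact k₂)
      exact mul_le_mul (l₁.trans (le_abs_self _)) (l₂.trans (le_abs_self _)) (abs_nonneg _)
        (abs_nonneg _)
    · rw [i0 fun a ha => hz ⟨a, ha⟩, abs_zero]
      positivity
  obtain ⟨K, hK⟩ : ∃ K : ℕ, |C₁| * |C₂| < 2 ^ K := by
    obtain ⟨K, hK⟩ := pow_unbounded_of_one_lt (|C₁| * |C₂|) (by norm_num : (1 : ℤ) < 2)
    exact ⟨K, hK⟩
  obtain ⟨t1, -, t3⟩ := k4 (fun n hn γ => by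
    obtain ⟨γ', hγ'⟩ := lift_pow (X := X₁ × X₂) (φ := (φ₁.prodCongr φ₂ : (Γ₁ × Γ₂) ≃* (Γ₁ × Γ₂)))
      n γ (K + 1)
    have hn' : 1 ≤ n * (K + 1) := Nat.mul_pos hn K.succ_pos
    obtain ⟨i, hi, hi2, -⟩ := key (n * (K + 1)) hn' γ'
    refine ⟨K + 1, by omega, i, ?_, ?_⟩
    · have e1 : (fun x => γ⁻¹ • G^[n] x)^[K + 1] = fun x => γ'⁻¹ • G^[n * (K + 1)] x :=
        funext fun x => hγ' G (fun γ p => Prod.ext (hφ₁ γ.1 p.1) (hφ₂ γ.2 p.2)) x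
      rw [e1]
      exact hi
    · refine (hi2.trans_lt hK).trans_le ?_
      exact pow_le_pow_right₀ (by norm_num) (Nat.le_succ K))
  refine ⟨t1, fun n hn γ₁ γ₂ p₁ p₂ i₁ i₂ q₁ q₂ k₁ k₂ => ?_⟩
  obtain ⟨i, hi, -, hi3⟩ := key n hn (γ₁, γ₂)
  obtain ⟨-, j, hj, hj2⟩ := t3 n hn (γ₁, γ₂)
  rw [← hi3 p₁ p₂ i₁ i₂ q₁ q₂ k₁ k₂, hi.unique hj]
  exact hj2

end Pool.Agent.H963.HT
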