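import Pool.Agent.H963.HT.Cnt2
import Pool.Agent.H963.HT.CovStm

/-!
# Products: statements

`CoarselyHyperbolic` is in `Pool/Graph/R_pool_sql_team_seeded_620a6dc7/H223/CE/Def.lean` (imported by
`CovStm`), `S_IT` in `HT/CovStm.lean` (proved in `HT/T_IT.lean`), `Idx`, `sdeg`, `S_SA`, `S_EX` in
`HT/SdDef.lean`.
-/

set_option autoImplicit false

open Set Filter Topology Metric

namespace Pool.Agent.H963.HT

open Pool.Agent.H223.CE

universe u v w w' x

/-- **PC.** The product of two covering maps is a covering map.  Proof: products of evenly covered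
neighbourhoods (`IsEvenlyCovered`, `Trivialization`; fibre the product of the discrete fibres). -/
def S_PC : Prop := ∀ (A : Type u) (B : Type v) (X : Type w) (Y : Type w') [TopologicalSpace A]
  [TopologicalSpace B] [TopologicalSpace X] [TopologicalSpace Y] (P : X → A) (Q : Y → B),
  IsCoveringMap P → IsCoveringMap Q → IsCoveringMap (Prod.map P Q)

/-- **PH.** The product of two coarsely hyperbolic homeomorphisms is coarsely hyperbolic (maximum
metric).  Proof: let `N₁, R₁`, `N₂, R₂` be the constants, `N = N₁ * N₂`, `R = max (max R₁ R₂) 1`.  By `S_IT`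
(with `k = N₂` for `F`, `k = N₁` for `G`) `2 dist x y ≤ 2 ^ k dist x y ≤ max (dist (F^N x) (F^N y)) …` if
`dist x y ≥ R`, the same for `G`.  If `dist p q ≥ R` in the product then one of the two distances is equal
to `dist p q`; the iterates of the product are the products of the iterates (`Prod.map_iterate`), and
the distances in the factors are at most those in the product. -/
def S_PH : Prop := ∀ (X : Type w) (Y : Type w') [MetricSpace X] [MetricSpace Y] (F : X ≃ₜ X)
  (G : Y ≃ₜ Y), CoarselyHyperbolic F → CoarselyHyperbolic G → CoarselyHyperbolic (F.prodCongr G)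

/-- **PI.** A map with bounded zero set and at most one zero has degree `0` or the index of the zero
on all large balls.  Proof: the zero `a`, if there is one, is isolated, so it has an index `σ` (`S_EX`) and
the degree on `ball 0 R`, `R > ‖a‖`, is `σ` by `S_SA` with `Z = {a}`; if there is no zero, `S_SA` with `Z = ∅`. -/
def S_PI : Prop := ∀ (V : Type u) [NormedAddCommGroup V] [NormedSpace ℝ V] [FiniteDimensional ℝ V]
  (Φ : V → V), Continuous Φ → (∀ a b, Φ a = 0 → Φ b = 0 → a = b) →
  ∃ (i : ℤ) (R₀ : ℝ), (∀ R : ℝ, R₀ ≤ R → sdeg Φ (ball 0 R) = i) ∧ (∀ a, Φ a = 0 → Idx Φ a i) ∧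
    ((∀ a, Φ a ≠ 0) → i = 0)

/-- **PU.** The index of a zero is unique.  Proof: evaluate the two conditions on a small ball. -/
def S_PU : Prop := ∀ (V : Type u) [NormedAddCommGroup V] [NormedSpace ℝ V] [FiniteDimensional ℝ V]
  (Φ : V → V) (a : V) (κ τ : ℤ), Idx Φ a κ → Idx Φ a τ → κ = τ

end Pool.Agent.H963.HT
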