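import Pool.Agent.H963.CJ.DegDef

/-!
# The signed degree of continuous self-maps and the index of an isolated zero (statements)

`sdeg Φ Ω` is the Brouwer degree (over `0`) of a continuous map `Φ` from the closure of a bounded
open subset `Ω` of a finite-dimensional space `V` to `V`, without zeros on the frontier of `Ω`.  It is
defined and treated exactly like `adeg` in `Pool.Agent.H963.CJ.DegDef`, without absolute values;
`cnt`, `Reg`, `Adm` are defined there.  Theorems which are available (universe `u`):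
`Pool.Agent.H963.CJ.t_APX : S_APX` (D_APX), `t_SARD : S_SARD` (D_SARD), `t_CNTINT : S_CNTINT`
(D_CNTINT), `t_CNTHOM (hI : S_CNTINT) : S_CNTHOM` (D_CNTHOM), and the proofs for `adeg` in
`Pool/Agent/H963/CJ/D_DEG.lean, D_A1.lean, ..., D_A6.lean`, from which most of the text can be copied.
Each `S_...` is a statement; a task asks for a proof of one of them from the previous ones.
-/

set_option autoImplicit false
set_option linter.unusedSectionVars false

open MeasureTheory Set Filter Topology Metric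
open scoped ContDiff

namespace Pool.Agent.H963.HT

open Pool.Agent.H963.CJ

universe u

section defs

variable {V : Type*} [NormedAddCommGroup V] [NormedSpace ℝ V]

/-- `d` is the degree of `Φ` on `Ω` -/
def HasSDeg (Φ : V → V) (Ω : Set V) (d : ℤ) : Prop :=
  ∃ ε > 0, ∀ Ψ : V → V, Reg Ψ Ω → (∀ x ∈ closure Ω, ‖Ψ x - Φ x‖ < ε) → cnt Ψ Ω = d

open Classical in
/-- the degree -/
noncomputable def sdeg (Φ : V → V) (Ω : Set V) : ℤ :=
  if h : ∃ d, HasSDeg Φ Ω d then Classical.choose h else 0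

/-- `a` is an isolated zero of `Φ`, of index `σ` -/
def Idx (Φ : V → V) (a : V) (σ : ℤ) : Prop :=
  ∃ r₀ > 0, ContinuousOn Φ (closedBall a r₀) ∧ Φ a = 0 ∧ (∀ x ∈ closedBall a r₀, Φ x = 0 → x = a) ∧
    ∀ r, 0 < r → r ≤ r₀ → sdeg Φ (ball a r) = σ

end defs

/-- **SD.** The degree is well defined.  Proof: as `t_DEG` in `CJ/D_DEG.lean` with `e = id`. -/
def S_SD : Prop := ∀ (V : Type u) [NormedAddCommGroup V] [NormedSpace ℝ V] [FiniteDimensional ℝ V]
  (Φ : V → V) (Ω : Set V), Adm Φ Ω →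
  (∃ ε > 0, ∀ Ψ : V → V, Reg Ψ Ω → (∀ x ∈ closure Ω, ‖Ψ x - Φ x‖ < ε) → cnt Ψ Ω = sdeg Φ Ω) ∧
  ∀ ε > 0, ∃ Ψ : V → V, Reg Ψ Ω ∧ ∀ x ∈ closure Ω, ‖Ψ x - Φ x‖ < ε

/-- **SH.** Homotopy invariance.  Proof: as `t_A1` in `CJ/D_A1.lean`. -/
def S_SH : Prop := ∀ (V : Type u) [NormedAddCommGroup V] [NormedSpace ℝ V] [FiniteDimensional ℝ V]
  (H : ℝ → V → V) (Ω : Set V), IsOpen Ω → Bornology.IsBounded Ω →
  ContinuousOn (fun p : ℝ × V => H p.1 p.2) (Icc (0 : ℝ) 1 ×ˢ closure Ω) →
  (∀ t ∈ Icc (0 : ℝ) 1, ∀ x ∈ frontier Ω, H t x ≠ 0) → sdeg (H 0) Ω = sdeg (H 1) Ω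

/-- **SE.** Excision and additivity: if the zeros in the closure of `Ω` lie in the union of the
disjoint open subsets `B i` (`i` in a finite set) of `Ω`, the degree on `Ω` is the sum of those on the
`B i`.  Proof: `S_SD` for `Ω` and for all `B i`, with the same `Ψ` (`Reg Ψ Ω` implies `Reg Ψ (B i)` by
`closure_mono`); `‖Φ‖` has a positive lower bound on the compact set `closure Ω ∖ ⋃ B i` (the `B i` are
open), so a close `Ψ` has no zeros there; then `cnt Ψ Ω = ∑ cnt Ψ (B i)` as the finite set of zeros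
is a disjoint union (finite: `t_CNTINT`, or as in `CJ/D_A6.lean`).  See also `CJ/D_A2.lean`. -/
def S_SE : Prop := ∀ (V : Type u) [NormedAddCommGroup V] [NormedSpace ℝ V] [FiniteDimensional ℝ V]
  (Φ : V → V) (Ω : Set V) (Z : Finset V) (B : V → Set V), IsOpen Ω → Bornology.IsBounded Ω →
  ContinuousOn Φ (closure Ω) → (∀ z ∈ Z, IsOpen (B z) ∧ B z ⊆ Ω) →
  (∀ z ∈ Z, ∀ w ∈ Z, z ≠ w → Disjoint (B z) (B w)) →
  (∀ x ∈ closure Ω, Φ x = 0 → ∃ z ∈ Z, x ∈ B z) → sdeg Φ Ω = ∑ z ∈ Z, sdeg Φ (B z)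

/-- **SA.** If all zeros in the closure of `Ω` have the same index `σ`, the degree is `σ` times their
number.  Proof: `S_SE` with small disjoint balls around the points of `Z` (contained in `Ω` and of
radius at most the `r₀` in `Idx`). -/
def S_SA : Prop := ∀ (V : Type u) [NormedAddCommGroup V] [NormedSpace ℝ V] [FiniteDimensional ℝ V]
  (Φ : V → V) (Ω : Set V) (Z : Finset V) (σ : ℤ), IsOpen Ω → Bornology.IsBounded Ω →
  ContinuousOn Φ (closure Ω) → (∀ x ∈ closure Ω, Φ x = 0 → x ∈ Z) → (∀ z ∈ Z, z ∈ Ω) →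
  (∀ z ∈ Z, Idx Φ z σ) → sdeg Φ Ω = σ * (Z.card : ℤ)

/-- **EX.** Every isolated zero has an index.  Proof: `S_SE` with `Z = {a}`: the degrees on the balls
of radius `r ≤ r₀` agree with the one on the ball of radius `r₀`. -/
def S_EX : Prop := ∀ (V : Type u) [NormedAddCommGroup V] [NormedSpace ℝ V] [FiniteDimensional ℝ V]
  (Φ : V → V) (a : V) (r₀ : ℝ), 0 < r₀ → ContinuousOn Φ (closedBall a r₀) → Φ a = 0 →
  (∀ x ∈ closedBall a r₀, Φ x = 0 → x = a) → ∃ σ, Idx Φ a σ

/-- **SL.** The index of a nondegenerate zero of a `C¹` map is the sign of the determinant.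
Proof: by `S_EX` there is an index (`Φ` is continuous near `a` and `‖Φ x‖ ≥ c ‖x - a‖`); by `S_SH` (linear
homotopy) the degree on a small ball is that of the affine map `x ↦ A (x - a)`, `A = fderiv ℝ Φ a`,
for which `S_SD` applies with `Ψ = ` this map (its only zero is `a`).  Compare `CJ/D_A5.lean`. -/
def S_SL : Prop := ∀ (V : Type u) [NormedAddCommGroup V] [NormedSpace ℝ V] [FiniteDimensional ℝ V]
  (Φ : V → V) (a : V), ContDiffAt ℝ 1 Φ a → Φ a = 0 → (fderiv ℝ Φ a).det ≠ 0 →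
  Idx Φ a ((SignType.sign (fderiv ℝ Φ a).det : SignType) : ℤ)

/-- **IH.** Homotopy invariance of the index of an isolated zero.  Proof: `S_EX` for `H 1` and
`S_SH` on the balls. -/
def S_IH : Prop := ∀ (V : Type u) [NormedAddCommGroup V] [NormedSpace ℝ V] [FiniteDimensional ℝ V]
  (H : ℝ → V → V) (a : V) (σ : ℤ) (r₀ : ℝ), 0 < r₀ →
  ContinuousOn (fun p : ℝ × V => H p.1 p.2) (Icc (0 : ℝ) 1 ×ˢ closedBall a r₀) →
  (∀ t ∈ Icc (0 : ℝ) 1, H t a = 0) →
  (∀ t ∈ Icc (0 : ℝ) 1, ∀ x ∈ closedBall a r₀, H t x = 0 → x = a) → Idx (H 0) a σ → Idx (H 1) a σ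

/-- **SP.** Product formula for the index (`V × V` with the maximum norm, so that the ball around
`(a₁, a₂)` is the product of the balls).  Proof: choose regular `Ψ₁, Ψ₂` close to `Φ₁, Φ₂` on the
closure of a common small ball (`S_SD`); the zeros of `Ψ₁ × Ψ₂` are the pairs of zeros and the
determinants multiply, so that `cnt` is multiplicative; see the proof of the product formula
`t_A3` in `CJ/D_A3.lean`. -/
def S_SP : Prop := ∀ (V : Type u) [NormedAddCommGroup V] [NormedSpace ℝ V] [FiniteDimensional ℝ V]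
  (Φ₁ Φ₂ : V → V) (a₁ a₂ : V) (σ₁ σ₂ : ℤ), Idx Φ₁ a₁ σ₁ → Idx Φ₂ a₂ σ₂ →
  Idx (fun p : V × V => (Φ₁ p.1, Φ₂ p.2)) (a₁, a₂) (σ₁ * σ₂)

/-- **IC.** The fixed point index is invariant under local homeomorphisms: `α` is a homeomorphism
of a neighbourhood `U` of `a` onto the open set `W`, with inverse `β`, and `T a = a`.
Proof.  Let `b = α a`.  All maps below are defined and continuous near `(a, b)` in `V × V` and the
homotopies have no other zero than `(a, b)` in a small closed ball: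
(1) `(x - β y, y - α (T x))` to `(x - T x, y - α (T x))`, by
`(x - (1-t) β y - t T x, y - α (T x))`: a zero has `y = α (T x)`, so `β y = T x` and `x = T x`, `x = a`;
(2) on to `(x - T x, y - b)`, by `(x - T x, y - (1-t) α (T x) - t b)`;
(3) `(x - β y, y - α (T x))` to `(x - β y, y - α (T (β y)))`, by
`(x - β y, y - (1-t) α (T x) - t α (T (β y)))`: a zero has `x = β y`, so `y = α (T x)`, `x = T x`;
(4) on to `(x - a, y - α (T (β y)))`, by `(x - (1-t) β y - t a, y - α (T (β y)))`: a zero has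
`y = α (T (β y))`, hence `β y = T (β y)`, `β y = a` and `y = b`.
By `S_IH` the four maps have the same index at `(a, b)` (it exists by `S_EX`).  By `S_SP` and `S_SL`
(`x ↦ x - a` has index `1`) it is the index of `x - T x` at `a` and also that of
`y - α (T (β y))` at `b` (which exists by `S_EX`).  The index is unique (evaluate on a small ball). -/
def S_IC : Prop := ∀ (V : Type u) [NormedAddCommGroup V] [NormedSpace ℝ V] [FiniteDimensional ℝ V]
  (α β T : V → V) (U W : Set V) (a : V) (σ : ℤ), IsOpen U → IsOpen W → ContinuousOn α U →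
  ContinuousOn β W → MapsTo α U W → MapsTo β W U → (∀ x ∈ U, β (α x) = x) →
  (∀ y ∈ W, α (β y) = y) → a ∈ U → T a = a → Idx (fun x => x - T x) a σ →
  Idx (fun y => y - α (T (β y))) (α a) σ

/-- **CNT.** Counting fixed points by a homotopy with compact zero set.  Proof: all zeros in question
lie in the ball `Ω = ball 0 R₀`; the zeros of `H 0` and of `H 1` are isolated (`Idx`) and form closed
subsets of a compact ball, hence they are finite sets; by `S_SA` the degree of `H 1` on `Ω` is `σ` times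
the number of the zeros of `H 1`, and that of `H 0` is `0` or `τ`, `|τ| ≤ 1`; they agree by `S_SH`. -/
def S_CNT : Prop := ∀ (V : Type u) [NormedAddCommGroup V] [NormedSpace ℝ V] [FiniteDimensional ℝ V]
  (H : ℝ → V → V) (R₀ : ℝ) (σ : ℤ), 0 < R₀ → σ ≠ 0 →
  ContinuousOn (fun p : ℝ × V => H p.1 p.2) (Icc (0 : ℝ) 1 ×ˢ (univ : Set V)) →
  (∀ t ∈ Icc (0 : ℝ) 1, ∀ x, H t x = 0 → ‖x‖ < R₀) →
  (∀ a, H 1 a = 0 → Idx (H 1) a σ) →
  (∀ a b, H 0 a = 0 → H 0 b = 0 → a = b) → (∀ a, H 0 a = 0 → ∃ τ : ℤ, |τ| ≤ 1 ∧ Idx (H 0) a τ) →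
  ∀ a b, H 1 a = 0 → H 1 b = 0 → a = b

end Pool.Agent.H963.HT
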