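import Pool.Agent.H963.HT.CovStm

/-!
# EQ: lifted homotopies are equivariant
-/

set_option autoImplicit false
set_option linter.unusedSectionVars false

open Set Filter Topology Metric
open scoped unitInterval

universe v w x

namespace Pool.Agent.H963.HT

theorem t_EQ : S_EQ.{v, w, x} := by
  intro M _ X _ Γ _ _ P k Φ G φ hP hcont hPγ hlift h0 hG t γ y
  have h1 : Continuous fun s : I => Φ (s, γ • y) :=
    Φ.continuous.comp (continuous_id.prodMk continuous_const)
  have h2 : Continuous fun s : I => φ γ • Φ (s, y) :=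
    (hcont (φ γ)).comp (Φ.continuous.comp (continuous_id.prodMk continuous_const))
  have h3 : (P ∘ fun s : I => Φ (s, γ • y)) = P ∘ fun s : I => φ γ • Φ (s, y) := by
    funext s
    show P (Φ (s, γ • y)) = P (φ γ • Φ (s, y))
    rw [hPγ, hlift, hlift, hPγ]
  have h4 : (fun s : I => Φ (s, γ • y)) = fun s : I => φ γ • Φ (s, y) :=
    hP.eq_of_comp_eq h1 h2 h3 (0 : I) (by
      show Φ (0, γ • y) = φ γ • Φ (0, y)
      rw [h0, h0, hG])
  exact congrFun h4 t

end Pool.Agent.H963.HT
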