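import Pool.Agent.H963.HT.OriStm

set_option autoImplicit false
set_option linter.unusedSectionVars false

open MeasureTheory Set Filter Topology Metric
open scoped ContDiff Manifold unitInterval

namespace Pool.Agent.H963.HT

open Pool.Agent.H721R2 Pool.Agent.H789R2.AN Pool.Agent.H244.Loc

universe u v w

namespace NSG

theorem mul_sign {a b c d : ℝ} (h1 : 0 < a * c) (h2 : 0 < b * d) (h3 : 0 < c * d) : 0 < a * b := by
  have h4 : 0 < (a * c) * (b * d) := mul_pos h1 h2
  have h5 : (a * c) * (b * d) = (a * b) * (c * d) := by ring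
  rw [h5] at h4
  exact (pos_iff_pos_of_mul_pos h4).mpr h3

theorem exists_pi' {E : Type u} [NormedAddCommGroup E] [NormedSpace ℝ E] [FiniteDimensional ℝ E]
    {M : Type v} {Es Eu : M → Submodule ℝ E} (h : ∀ x, IsCompl (Es x) (Eu x)) :
    ∃ π : M → E →L[ℝ] E, IsPi π Es Eu := by
  choose π h1 h2 h3 h4 using fun x => exists_proj (h x)
  exact ⟨π, ⟨h1, h2, h3, h4⟩⟩

end NSG

theorem t_SG (h1 : S_O1.{0}) (h2 : S_O2.{u, v}) (hL : S_LIN.{u}) (hH : S_HF.{u, v}) :
    S_SG.{u, v} := by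
  intro E _ _ _ M _ _ _ _ f Es Eu hA n c p q hn hp hq hc
  obtain ⟨π, hπ⟩ := NSG.exists_pi' (E := E) (M := M) (Es := Es) (Eu := Eu) hA.isCompl
  obtain ⟨m, Q, N, hQ, hN, hQQ, hQN, hinj, hfix⟩ := h2 E M f Es Eu hA π hπ n
  have fp : f^[n] p = p := by
    have e1 := hc 0
    rw [hp 1, hp 0] at e1
    exact e1.symm
  have fq : f^[n] q = q := by
    have e1 := hc 1
    rw [hq 1, hq 0] at e1
    exact e1.symm
  have key : ∀ x : M, f^[n] x = x →
      0 < (1 - dg E (f^[n]) x).det * (1 - Q x + (N x).comp (Q x)).det := by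
    intro x hx
    obtain ⟨D', e1, e2, e3, e4, e5⟩ := hH E M f Es Eu hA π hπ n hn x hx
    have := hL E (π x) (dg E (f^[n]) x) D' (fun v => hπ.s x _ (hπ.ms x v)) e3 e1 e2 e4 e5
    rw [hfix x hx]
    exact this
  have main := h1 (EuclideanSpace ℝ (Fin m)) ⟨fun z => Q (c z), hQ.comp c.continuous⟩
    ⟨fun s => N (c (s, 0)), hN.comp (c.continuous.comp (by fun_prop))⟩
    (fun z v => hQQ (c z) v)
    (fun s v => by
      show Q (c (s, 1)) (N (c (s, 0)) v) = N (c (s, 0)) v
      rw [hc s]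
      exact hQN _ v)
    (fun s v a b => hinj (c (s, 0)) v a b)
    (fun t => by
      show Q (c (0, t)) = Q (c (0, 0))
      rw [hp t, hp 0])
    (fun t => by
      show Q (c (1, t)) = Q (c (1, 0))
      rw [hq t, hq 0])
  have main' : 0 < (1 - Q p + (N p).comp (Q p)).det * (1 - Q q + (N q).comp (Q q)).det := by
    have m2 : 0 < (1 - Q (c (0, 0)) + (N (c (0, 0))).comp (Q (c (0, 0)))).det *
        (1 - Q (c (1, 0)) + (N (c (1, 0))).comp (Q (c (1, 0)))).det := main
    rw [hp 0, hq 0] at m2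
    exact m2
  exact NSG.mul_sign (key p fp) (key q fq) main'

end Pool.Agent.H963.HT
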